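import Pool.Agent.Helper66.GV.Grp

/-!
# Almost finitely supported sets of vectors
-/

open scoped lp ENNReal InnerProductSpace
open Filter Topology

namespace Pool.Agent.Helper66.GV

section Restr

variable {A : Type*}

theorem restr_norm_le (S : Set A) (f : HS A) : ‖restr S f‖ ≤ ‖f‖ := by
  classical
  have h1 := hs_norm_sq (restr S f)
  have h2 := hs_norm_sq f
  have h3 : ‖restr S f‖ ^ 2 ≤ ‖f‖ ^ 2 := by
    refine hasSum_le (fun x => ?_) h1 h2
    rw [restr_apply]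
    split_ifs
    · exact le_rfl
    · rw [norm_zero, zero_pow two_ne_zero]
      positivity
  exact (pow_le_pow_iff_left₀ (norm_nonneg _) (norm_nonneg _) two_ne_zero).mp h3

theorem norm_apply_le (f : HS A) (x : A) : ‖f x‖ ≤ ‖f‖ := by
  rw [← inner_dl x]
  refine (norm_inner_le_norm _ _).trans ?_
  rw [norm_dl, one_mul]

/-- The restriction is the best approximation. -/
theorem norm_sub_restr_le {S : Set A} {f f' : HS A} (h : ∀ x ∉ S, f' x = 0) :
    ‖f - restr S f‖ ≤ ‖f - f'‖ := by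
  classical
  have h1 : f - restr S f = restr Sᶜ (f - f') := by
    apply ext_apply
    intro x
    rw [hs_sub_apply, restr_apply, restr_apply, hs_sub_apply]
    by_cases hx : x ∈ S
    · rw [if_pos hx, if_neg (fun h2 => h2 hx), sub_self]
    · have hx' : x ∈ Sᶜ := hx
      rw [if_neg hx, if_pos hx', h x hx]
  rw [h1]
  exact restr_norm_le _ _

theorem eq_sum_of_support {f : HS A} {t : Finset A} (h : ∀ x ∉ t, f x = 0) :
    f = ∑ x ∈ t, f x • dl x := by
  have h1 := hasSum_dl f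
  have h2 : HasSum (fun x => f x • dl x) (∑ x ∈ t, f x • dl x) := by
    apply hasSum_sum_of_ne_finset_zero
    intro x hx
    rw [h x hx, zero_smul]
  exact h1.unique h2

/-- Every vector can be approximated by finitely supported ones. -/
theorem exists_restr (f : HS A) {ε : ℝ} (hε : 0 < ε) :
    ∃ t : Finset A, ‖f - restr (t : Set A) f‖ ≤ ε := by
  obtain ⟨t, ht⟩ : ∃ s : Finset A, dist (∑ x ∈ s, f x • dl x) f < ε :=
    ((Metric.tendsto_nhds.mp (hasSum_dl f)) ε hε).exists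
  refine ⟨t, (norm_sub_restr_le (f' := ∑ x ∈ t, f x • dl x) ?_).trans ?_⟩
  · intro y hy
    rw [← inner_dl y, inner_sum]
    apply Finset.sum_eq_zero
    intro x hx
    rw [inner_smul_right, inner_dl, dl_ne, mul_zero]
    rintro rfl
    exact hy hx
  · rw [← dist_eq_norm, dist_comm]
    exact ht.le

end Restr

section AF

variable {A : Type*}

/-- A set of vectors is almost finitely supported, if all its elements are uniformly close to
elements with supports of bounded size. -/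
def AFs (S : Set (HS A)) : Prop :=
  ∀ ε : ℝ, 0 < ε → ∃ M : ℕ, ∀ f ∈ S, ∃ (t : Finset A) (f' : HS A), t.card ≤ M ∧
    (∀ x ∉ t, f' x = 0) ∧ ‖f - f'‖ ≤ ε

theorem AFs.mono {S T : Set (HS A)} (h : AFs T) (hST : S ⊆ T) : AFs S := by
  intro ε hε
  obtain ⟨M, hM⟩ := h ε hε
  exact ⟨M, fun f hf => hM f (hST hf)⟩

theorem AFs.union {S T : Set (HS A)} (hS : AFs S) (hT : AFs T) : AFs (S ∪ T) := by
  intro ε hε
  obtain ⟨M, hM⟩ := hS ε hε
  obtain ⟨M', hM'⟩ := hT ε hε
  refine ⟨max M M', ?_⟩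
  rintro f (hf | hf)
  · obtain ⟨t, f', h1, h2, h3⟩ := hM f hf
    exact ⟨t, f', h1.trans (le_max_left _ _), h2, h3⟩
  · obtain ⟨t, f', h1, h2, h3⟩ := hM' f hf
    exact ⟨t, f', h1.trans (le_max_right _ _), h2, h3⟩

theorem AFs.empty : AFs (∅ : Set (HS A)) := fun _ _ => ⟨0, fun _ h => absurd h (by simp)⟩

theorem AFs.biUnion {ι : Type*} (s : Finset ι) {S : ι → Set (HS A)} (h : ∀ i ∈ s, AFs (S i)) :
    AFs (⋃ i ∈ s, S i) := by
  classical
  induction s using Finset.induction_on with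
  | empty =>
    simp only [Finset.notMem_empty, Set.iUnion_of_empty, Set.iUnion_empty]
    exact AFs.empty
  | insert a s ha ih =>
    rw [Finset.set_biUnion_insert]
    exact (h a (Finset.mem_insert_self _ _)).union
      (ih fun i hi => h i (Finset.mem_insert_of_mem hi))

theorem AFs.singleton (f : HS A) : AFs {f} := by
  classical
  intro ε hε
  obtain ⟨t, ht⟩ := exists_restr f hε
  refine ⟨t.card, ?_⟩
  rintro g (rfl : g = f)
  refine ⟨t, restr (t : Set A) g, le_rfl, ?_, ht⟩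
  intro x hx
  rw [restr_apply, if_neg]
  exact hx

theorem AFs.add {S T : Set (HS A)} (hS : AFs S) (hT : AFs T) :
    AFs {f | ∃ a ∈ S, ∃ b ∈ T, a + b = f} := by
  classical
  intro ε hε
  obtain ⟨M, hM⟩ := hS (ε / 2) (by positivity)
  obtain ⟨M', hM'⟩ := hT (ε / 2) (by positivity)
  refine ⟨M + M', ?_⟩
  rintro f ⟨a, ha, b, hb, rfl⟩
  obtain ⟨t, f', h1, h2, h3⟩ := hM a ha
  obtain ⟨t', g', h1', h2', h3'⟩ := hM' b hb
  refine ⟨t ∪ t', f' + g', (Finset.card_union_le _ _).trans (add_le_add h1 h1'), ?_, ?_⟩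
  · intro x hx
    rw [Finset.mem_union, not_or] at hx
    rw [hs_add_apply, h2 x hx.1, h2' x hx.2, add_zero]
  · have h4 : a + b - (f' + g') = (a - f') + (b - g') := by abel
    rw [h4]
    refine (norm_add_le _ _).trans ?_
    linarith

theorem AFs.smul {S : Set (HS A)} (hS : AFs S) (c : ℂ) : AFs ((fun f => c • f) '' S) := by
  intro ε hε
  obtain ⟨M, hM⟩ := hS (ε / (‖c‖ + 1)) (by positivity)
  refine ⟨M, ?_⟩
  rintro _ ⟨f, hf, rfl⟩
  obtain ⟨t, f', h1, h2, h3⟩ := hM f hf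
  refine ⟨t, c • f', h1, ?_, ?_⟩
  · intro x hx
    rw [hs_smul_apply, h2 x hx, mul_zero]
  · simp only
    rw [← smul_sub, norm_smul]
    calc ‖c‖ * ‖f - f'‖ ≤ (‖c‖ + 1) * (ε / (‖c‖ + 1)) := by
          gcongr
          linarith
      _ = ε := by field_simp

/-- Uniform limits. -/
theorem AFs.of_approx {S : Set (HS A)}
    (h : ∀ ε : ℝ, 0 < ε → ∃ S' : Set (HS A), AFs S' ∧ ∀ f ∈ S, ∃ f' ∈ S', ‖f - f'‖ ≤ ε) :
    AFs S := by
  intro ε hε
  obtain ⟨S', hS', h1⟩ := h (ε / 2) (by positivity)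
  obtain ⟨M, hM⟩ := hS' (ε / 2) (by positivity)
  refine ⟨M, fun f hf => ?_⟩
  obtain ⟨g, hg, h2⟩ := h1 f hf
  obtain ⟨t, f', h3, h4, h5⟩ := hM g hg
  refine ⟨t, f', h3, h4, ?_⟩
  have h6 : f - f' = (f - g) + (g - f') := by abel
  rw [h6]
  refine (norm_add_le _ _).trans ?_
  linarith

end AF

section Group

variable {L : Type*} [Group L]

theorem dl_eq_rho (s : L) : (dl s : HS L) = rho s⁻¹ (dl 1) := by
  rw [rho_dl, inv_inv, one_mul]

/-- Products of almost finitely supported families. -/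
theorem AFs.mul {𝒯 : Set (BH L)} (hm : ∀ T ∈ 𝒯, T ∈ vN (⊤ : Subgroup L))
    (hn : ∀ T ∈ 𝒯, ∀ f, ‖T f‖ ≤ ‖f‖) (hT : AFs {f | ∃ T ∈ 𝒯, T (dl 1) = f})
    {S : Set (HS L)} (hS : AFs S) {B : ℝ} (hB : ∀ f ∈ S, ‖f‖ ≤ B) :
    AFs {f | ∃ T ∈ 𝒯, ∃ g ∈ S, T g = f} := by
  classical
  intro ε hε
  obtain ⟨M, hM⟩ := hS (ε / 2) (by positivity)
  set B' : ℝ := |B| + 1 with hB'
  have hB'0 : 0 < B' := by positivity
  have hBB' : B ≤ B' := by
    rw [hB']
    linarith [le_abs_self B]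
  obtain ⟨M', hM'⟩ := hT (ε / (2 * ((M + 1) * B'))) (by positivity)
  refine ⟨M' * M, ?_⟩
  rintro f ⟨T, hTT, g, hg, rfl⟩
  obtain ⟨t, g', h1, h2, h3⟩ := hM g hg
  obtain ⟨t', k, h4, h5, h6⟩ := hM' (T (dl 1)) ⟨T, hTT, rfl⟩
  set g₁ := restr (t : Set L) g with hg₁
  have hg₁0 : ∀ x ∉ t, g₁ x = 0 := by
    intro x hx
    rw [hg₁, restr_apply, if_neg]
    exact hx
  have h7 : ‖g - g₁‖ ≤ ε / 2 := (norm_sub_restr_le (S := (t : Set L)) h2).trans h3
  have hg₁B : ∀ x, ‖g₁ x‖ ≤ B' := by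
    intro x
    exact (norm_apply_le _ _).trans ((restr_norm_le _ _).trans ((hB g hg).trans hBB'))
  have h8 : T g₁ = ∑ s ∈ t, g₁ s • rho s⁻¹ (T (dl 1)) := by
    conv_lhs => rw [eq_sum_of_support hg₁0, map_sum]
    refine Finset.sum_congr rfl fun s _ => ?_
    rw [map_smul, dl_eq_rho, ← mul_apply_eq_comp, ← commute_rho (hm T hTT), mul_apply_eq_comp]
  refine ⟨Finset.image (fun p : L × L => p.1 * p.2) (t' ×ˢ t), ∑ s ∈ t, g₁ s • rho s⁻¹ k, ?_, ?_, ?_⟩
  · refine Finset.card_image_le.trans ?_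
    rw [Finset.card_product]
    exact Nat.mul_le_mul h4 h1
  · intro x hx
    rw [← inner_dl x, inner_sum]
    apply Finset.sum_eq_zero
    intro s hs
    rw [inner_smul_right, inner_dl, rho_apply, h5, mul_zero]
    intro hk
    apply hx
    rw [Finset.mem_image]
    exact ⟨(x * s⁻¹, s), Finset.mem_product.mpr ⟨hk, hs⟩, by simp⟩
  · have h9 : T g - ∑ s ∈ t, g₁ s • rho s⁻¹ k =
        T (g - g₁) + ∑ s ∈ t, g₁ s • rho s⁻¹ (T (dl 1) - k) := by
      have h10 : ∑ s ∈ t, g₁ s • rho s⁻¹ (T (dl 1) - k) =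
          ∑ s ∈ t, g₁ s • rho s⁻¹ (T (dl 1)) - ∑ s ∈ t, g₁ s • rho s⁻¹ k := by
        rw [← Finset.sum_sub_distrib]
        refine Finset.sum_congr rfl fun s _ => ?_
        rw [map_sub, smul_sub]
      rw [h10, ← h8, map_sub]
      abel
    rw [h9]
    refine (norm_add_le _ _).trans ?_
    have h10 : ‖T (g - g₁)‖ ≤ ε / 2 := (hn T hTT _).trans h7
    have h11 : ‖∑ s ∈ t, g₁ s • rho s⁻¹ (T (dl 1) - k)‖ ≤ ε / 2 := by
      refine (norm_sum_le _ _).trans ?_
      have h12 : ∀ s ∈ t, ‖g₁ s • rho s⁻¹ (T (dl 1) - k)‖ ≤ B' * (ε / (2 * ((M + 1) * B'))) := by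
        intro s _
        rw [norm_smul]
        have h13 : ‖rho s⁻¹ (T (dl 1) - k)‖ = ‖T (dl 1) - k‖ :=
          (reidx (Equiv.mulRight (s⁻¹)⁻¹)).norm_map _
        rw [h13]
        exact mul_le_mul (hg₁B s) h6 (norm_nonneg _) hB'0.le
      refine (Finset.sum_le_sum h12).trans ?_
      rw [Finset.sum_const, nsmul_eq_mul]
      have h14 : (t.card : ℝ) ≤ M + 1 := by
        have : (t.card : ℝ) ≤ M := by exact_mod_cast h1
        linarith
      calc (t.card : ℝ) * (B' * (ε / (2 * ((M + 1) * B')))) ≤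
          (M + 1) * (B' * (ε / (2 * ((M + 1) * B')))) := by gcongr
        _ = ε / 2 := by
          have : (M : ℝ) + 1 ≠ 0 := by positivity
          field_simp
    linarith

theorem AFs.rho_image {S : Set (HS L)} (hS : AFs S) (s : L) : AFs ((fun f => rho s f) '' S) := by
  classical
  intro ε hε
  obtain ⟨M, hM⟩ := hS ε hε
  refine ⟨M, ?_⟩
  rintro _ ⟨f, hf, rfl⟩
  obtain ⟨t, f', h1, h2, h3⟩ := hM f hf
  refine ⟨t.image (fun x => x * s⁻¹), rho s f', Finset.card_image_le.trans h1, ?_, ?_⟩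
  · intro x hx
    rw [rho_apply, h2]
    intro hk
    apply hx
    rw [Finset.mem_image]
    exact ⟨x * s, hk, by simp⟩
  · simp only
    rw [← map_sub]
    have h4 : ‖rho s (f - f')‖ = ‖f - f'‖ := (reidx (Equiv.mulRight s⁻¹)).norm_map _
    rw [h4]
    exact h3

end Group

end Pool.Agent.Helper66.GV
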