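import Pool.Agent.Helper66.GV.Rank

/-!
# The kernel of an invariant triple
-/

open scoped lp ENNReal InnerProductSpace
open Filter Topology

namespace Pool.Agent.Helper66.GV

variable {G L : Type*} [Group G] [Group L]

/-- Infinite conjugacy classes. -/
def ICC (G : Type*) [Group G] : Prop := ∀ g : G, g ≠ 1 → (Set.range fun h => h * g * h⁻¹).Infinite

/-- The diagonal homomorphism. -/
def dgHom (G : Type*) [Group G] : G →* G × (G × G) :=
  (MonoidHom.id G).prod ((MonoidHom.id G).prod (MonoidHom.id G))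

theorem dgHom_apply (g : G) : dgHom G g = (g, (g, g)) := rfl

theorem icc_dg (hG : ICC G) (q : G × (G × G)) (hq : q ≠ 1) :
    (Set.range fun g => dgHom G g * q * (dgHom G g)⁻¹).Infinite := by
  obtain ⟨a, b, c⟩ := q
  have hcase : a ≠ 1 ∨ b ≠ 1 ∨ c ≠ 1 := by
    by_contra h1
    push Not at h1
    obtain ⟨rfl, rfl, rfl⟩ := h1
    exact hq rfl
  rcases hcase with h1 | h1 | h1
  · have h2 := hG a h1
    have h3 : (Set.range fun h => h * a * h⁻¹) =
        (fun q : G × (G × G) => q.1) ''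
          (Set.range fun g => dgHom G g * (a, b, c) * (dgHom G g)⁻¹) := by
      rw [← Set.range_comp]
      rfl
    rw [h3] at h2
    exact h2.of_image _
  · have h2 := hG b h1
    have h3 : (Set.range fun h => h * b * h⁻¹) =
        (fun q : G × (G × G) => q.2.1) ''
          (Set.range fun g => dgHom G g * (a, b, c) * (dgHom G g)⁻¹) := by
      rw [← Set.range_comp]
      rfl
    rw [h3] at h2
    exact h2.of_image _
  · have h2 := hG c h1
    have h3 : (Set.range fun h => h * c * h⁻¹) =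
        (fun q : G × (G × G) => q.2.2) ''
          (Set.range fun g => dgHom G g * (a, b, c) * (dgHom G g)⁻¹) := by
      rw [← Set.range_comp]
      rfl
    rw [h3] at h2
    exact h2.of_image _

theorem inner_self' {A : Type*} (f : HS A) : ⟪f, f⟫_ℂ = ((‖f‖ ^ 2 : ℝ) : ℂ) := by
  rw [inner_self_eq_norm_sq_to_K]
  push_cast
  rfl

/-- Finiteness: if `T* T` is a scalar then `T T*` is the same scalar. -/
theorem star_comm_of_scalar {Q : Type*} [Group Q] {T : BH Q} (hT : T ∈ vN (⊤ : Subgroup Q)) {z : ℝ}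
    (h : ∀ f, (star T) (T f) = (z : ℂ) • f) (f : HS Q) : T ((star T) f) = (z : ℂ) • f := by
  have hn : ∀ f, ‖T f‖ ^ 2 = z * ‖f‖ ^ 2 := by
    intro f
    have h1 : ⟪T f, T f⟫_ℂ = z * ⟪f, f⟫_ℂ := by
      rw [← inner_smul_right, ← h f, ContinuousLinearMap.star_eq_adjoint,
        ContinuousLinearMap.adjoint_inner_right]
    rw [inner_self', inner_self'] at h1
    exact_mod_cast h1
  have h1 : ‖(star T) (dl 1)‖ = ‖T (dl 1)‖ := by
    rw [← kj_inv_apply_one hT, norm_kj]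
  have h2 : ‖T (dl 1)‖ ^ 2 = z := by
    rw [hn, norm_dl, one_pow, mul_one]
  have h3 : ‖T ((star T) (dl 1)) - (z : ℂ) • dl 1‖ ^ 2 = 0 := by
    have h4 : ((‖T ((star T) (dl 1)) - (z : ℂ) • dl 1‖ ^ 2 : ℝ) : ℂ) = 0 := by
      have h5 : ((‖T ((star T) (dl 1)) - (z : ℂ) • dl 1‖ ^ 2 : ℝ) : ℂ) =
          ⟪T ((star T) (dl 1)) - (z : ℂ) • dl 1, T ((star T) (dl 1)) - (z : ℂ) • dl 1⟫_ℂ := by
        rw [inner_self_eq_norm_sq_to_K]
        push_cast
        rfl
      rw [h5, inner_sub_left, inner_sub_right, inner_sub_right, inner_smul_left, inner_smul_right,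
        inner_smul_right, inner_smul_left, Complex.conj_ofReal]
      have h6 : ⟪T ((star T) (dl 1)), T ((star T) (dl 1))⟫_ℂ = ((z * z : ℝ) : ℂ) := by
        rw [inner_self']
        have h7 := hn ((star T) (dl 1))
        rw [h1, h2] at h7
        rw [h7]
      have h7 : ⟪T ((star T) (dl 1)), dl 1⟫_ℂ = (z : ℂ) := by
        rw [← ContinuousLinearMap.adjoint_inner_right, ← ContinuousLinearMap.star_eq_adjoint,
          inner_self', h1, h2]
      have h8 : ⟪dl 1, T ((star T) (dl 1))⟫_ℂ = (z : ℂ) := by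
        rw [← inner_conj_symm, h7, Complex.conj_ofReal]
      rw [h6, h7, h8, inner_self_eq_norm_sq_to_K, norm_dl]
      push_cast
      ring
    exact_mod_cast h4
  have h4 : T ((star T) (dl 1)) = (z : ℂ) • dl 1 := by
    rw [pow_eq_zero_iff two_ne_zero, norm_eq_zero, sub_eq_zero] at h3
    exact h3
  have h5 : T * star T = (z : ℂ) • (1 : BH Q) := by
    have hm : T * star T ∈ vN (⊤ : Subgroup Q) := mul_mem hT (star_mem hT)
    have hm' : (z : ℂ) • (1 : BH Q) ∈ vN (⊤ : Subgroup Q) :=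
      (vN (⊤ : Subgroup Q)).smul_mem (one_mem _) _
    apply eq_of_apply_one hm hm'
    intro x
    rw [mul_apply_eq_comp, h4]
    rfl
  exact congrArg (fun S : BH Q => S f) h5

variable {F : Fr G L} {c₀ : ℝ} {V : HS L →L[ℂ] HS (P3 L)} {Y : BH (P3 L)} {P : BH (L × L)}

/-- Intertwiners are determined by their value at `δ_1`. -/
theorem ext_lam {V W : HS L →L[ℂ] HS (P3 L)} (hV : ∀ s f, V (lam s f) = lam (dg s) (V f))
    (hW : ∀ s f, W (lam s f) = lam (dg s) (W f)) (h : V (dl 1) = W (dl 1)) : V = W := by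
  apply ext_dl'
  intro s
  have h1 : (dl s : HS L) = lam s (dl 1) := by rw [lam_dl, mul_one]
  rw [h1, hV, hW, h]

theorem V_R (hT : Tri c₀ V Y P) (hinv : ∀ g, F.A g (F.R3 g (V (dl 1))) = V (dl 1)) (g : G)
    (f : HS L) : V (F.R g f) = F.R3 g (V f) := by
  have h1 : V.comp (F.R g) = (F.R3 g).comp V := by
    apply ext_lam
    · intro s f
      change V (F.R g (lam s f)) = lam (dg s) (V (F.R g f))
      rw [F.R_comm_apply g (lam_mem_top s), hT.lamV]
    · intro s f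
      change F.R3 g (V (lam s f)) = lam (dg s) (F.R3 g (V f))
      rw [hT.lamV, F.R3_comm g (lam_mem_top (dg s))]
    · change V (F.R g (dl 1)) = F.R3 g (V (dl 1))
      rw [F.R_dl]
      unfold Fr.x
      rw [intertwine hT.lamV (F.mem g⁻¹)]
      change F.A g⁻¹ (V (dl 1)) = _
      conv_lhs => rw [← hinv g]
      rw [← mul_apply_eq_comp, ← F.A_mul, inv_mul_cancel, F.A_one]
      rfl
  exact congrArg (fun S : HS L →L[ℂ] HS (P3 L) => S f) h1

/-- Invariant vectors are unique up to scalars. -/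
theorem eq_smul_of_inv (hG : ICC G) (hT : Tri c₀ V Y P) (hc₀ : 0 < c₀)
    (hinv : ∀ g, F.A g (F.R3 g (V (dl 1))) = V (dl 1)) {Z : HS (P3 L)}
    (hZ : ∀ g, F.A g (F.R3 g Z) = Z) : ∃ z : ℂ, Z = z • V (dl 1) := by
  have hYm : Y ∈ vN (⊤ : Subgroup (P3 L)) := by
    apply mem_top_of_commute
    intro x
    apply ContinuousLinearMap.ext
    intro f
    exact (hT.rhoY x f).symm
  have hAYB : ∀ g, F.A g * Y * F.B g⁻¹ = Y := by
    intro g
    have hm : F.A g * Y * F.B g⁻¹ ∈ vN (⊤ : Subgroup (P3 L)) :=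
      mul_mem (mul_mem (F.A_mem g) hYm) (F.B_mem g⁻¹)
    apply eq_of_apply_one hm hYm
    intro x
    have h1 : (F.A g * Y * F.B g⁻¹) (dl 1) = Y (dl 1) := by
      rw [mul_apply_eq_comp, mul_apply_eq_comp, F.B_dl, ← F.R3_comm g hYm, ← hT.VY, hinv]
    rw [h1]
  have hYA : ∀ g, star Y * F.A g = F.B g * star Y := by
    intro g
    have h1 := congrArg star (hAYB g)
    rw [star_mul, star_mul, F.B_star, F.A_star, inv_inv] at h1
    calc star Y * F.A g = (F.B g * (star Y * F.A g⁻¹)) * F.A g := by rw [h1]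
      _ = F.B g * (star Y * (F.A g⁻¹ * F.A g)) := by simp only [mul_assoc]
      _ = _ := by rw [← F.A_mul, inv_mul_cancel, F.A_one, mul_one]
  have hYsm : star Y ∈ vN (⊤ : Subgroup (P3 L)) := star_mem hYm
  have key : ∀ Z : HS (P3 L), (∀ g, F.A g (F.R3 g Z) = Z) → ∃ z : ℂ, (star Y) Z = z • dl 1 := by
    intro Z hZ
    apply Fr.eq_smul_of_fixed F.F3 (dgHom G) (icc_dg hG)
    intro g
    change F.B g (F.R3 g ((star Y) Z)) = (star Y) Z
    rw [F.R3_comm g hYsm, ← mul_apply_eq_comp, ← hYA, mul_apply_eq_comp, hZ]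
  obtain ⟨z₀, hz₀⟩ := key (V (dl 1)) hinv
  rw [hT.VY] at hz₀
  have hz₀r : z₀ = ((‖Y (dl 1)‖ ^ 2 : ℝ) : ℂ) := by
    have h1 : ⟪dl 1, (star Y) (Y (dl 1))⟫_ℂ = z₀ := by
      rw [hz₀, inner_smul_right, inner_self_eq_norm_sq_to_K, norm_dl]
      simp
    rw [← h1, ContinuousLinearMap.star_eq_adjoint, ContinuousLinearMap.adjoint_inner_right,
      inner_self_eq_norm_sq_to_K]
    push_cast
    rfl
  have hYne : Y (dl 1) ≠ 0 := by
    intro h0
    have h1 := hT.pos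
    rw [hT.VY, h0, inner_zero_left, Complex.zero_re] at h1
    linarith
  have hzpos : 0 < ‖Y (dl 1)‖ ^ 2 := by
    have := norm_pos_iff.mpr hYne
    positivity
  have hYY : star Y * Y = z₀ • (1 : BH (P3 L)) := by
    have hm : star Y * Y ∈ vN (⊤ : Subgroup (P3 L)) := mul_mem hYsm hYm
    have hm' : z₀ • (1 : BH (P3 L)) ∈ vN (⊤ : Subgroup (P3 L)) :=
      (vN (⊤ : Subgroup (P3 L))).smul_mem (one_mem _) _
    apply eq_of_apply_one hm hm'
    intro x
    rw [mul_apply_eq_comp, hz₀]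
    rfl
  have hYs : ∀ f, Y ((star Y) f) = z₀ • f := by
    rw [hz₀r]
    apply star_comm_of_scalar hYm
    intro f
    rw [← hz₀r]
    exact congrArg (fun S : BH (P3 L) => S f) hYY
  obtain ⟨z, hz⟩ := key Z hZ
  have h1 : z₀ • Z = z • Y (dl 1) := by
    rw [← hYs, hz, map_smul]
  have hz0 : z₀ ≠ 0 := by
    rw [hz₀r, Complex.ofReal_ne_zero]
    exact hzpos.ne'
  refine ⟨z₀⁻¹ * z, ?_⟩
  rw [hT.VY, mul_smul, ← h1, smul_smul, inv_mul_cancel₀ hz0, one_smul]

theorem P_lam (hT : Tri c₀ V Y P) (s : L) : P * lam (s, s) = lam (s, s) * P := by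
  apply ContinuousLinearMap.ext
  intro ξ
  apply ext_apply
  rintro ⟨p, q⟩
  rw [mul_apply_eq_comp, mul_apply_eq_comp, ← inner_dl (p, q), lam_apply, ← inner_dl ((s, s)⁻¹ * (p, q))]
  have h1 : (s, s)⁻¹ * (p, q) = (s⁻¹ * p, s⁻¹ * q) := rfl
  have h2 : ∀ (p q : L) (ξ : HS (L × L)), ⟪dl (p, q), P ξ⟫_ℂ = ⟪V (dl p), tens (dl q) ξ⟫_ℂ := by
    intro p q ξ
    rw [hT.compat, kj_refl_dl, ← dl_prod]
  rw [h1, h2, h2]
  have h3 : V (dl p) = lam (dg s) (V (dl (s⁻¹ * p))) := by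
    rw [← hT.lamV, lam_dl, mul_inv_cancel_left]
  have h4 : tens (dl q) (lam (s, s) ξ) = lam (dg s) (tens (dl (s⁻¹ * q)) ξ) := by
    change _ = lam (s, (s, s)) _
    rw [lam_prod s (s, s), tp_tens, lam_dl, mul_inv_cancel_left]
  rw [h3, h4, inner_lam]

theorem P_R2 (hT : Tri c₀ V Y P) (hinv : ∀ g, F.A g (F.R3 g (V (dl 1))) = V (dl 1)) (g : G) :
    P * F.R2 g = F.R2 g * P := by
  apply ContinuousLinearMap.ext
  intro ξ
  apply ext_apply
  rintro ⟨p, q⟩
  rw [mul_apply_eq_comp, mul_apply_eq_comp, ← inner_dl (p, q), ← inner_dl (p, q), dl_prod]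
  have h1 : tens (dl p) (dl q) = tens (dl p) (kc (dl q) : HS L) := by rw [kj_refl_dl]
  have h2 : ⟪tens (dl p) (dl q), F.R2 g (P ξ)⟫_ℂ = ⟪F.R2 g⁻¹ (tens (dl p) (dl q)), P ξ⟫_ℂ := by
    rw [F.inner_R2_left, inv_inv]
  rw [h2, h1, F.R2_tens, ← hT.compat, ← hT.compat, V_R hT hinv, F.inner_R3_left, inv_inv,
    F.R3_tens, F.R_apply_inv]

theorem amp_tp_comm {A B : Type*} {S : BH A} {T T' : BH B} (h : T * T' = T' * T) :
    (amp T : BH (A × B)) * tp S T' = tp S T' * amp T := by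
  unfold tp
  rw [← mul_assoc, amp_amp1_comm, mul_assoc, ← amp_mul, h, amp_mul, mul_assoc]

theorem irred (hG : ICC G) {T : BH L} (h1 : ∀ s, lam s * T = T * lam s)
    (h2 : ∀ g, F.R g * T = T * F.R g) : ∃ z : ℂ, ∀ f, T f = z • f := by
  have h3 : ∀ g, F.X g (T (dl 1)) = T (F.X g (dl 1)) := by
    intro g
    rw [← mul_apply_eq_comp, ← mul_apply_eq_comp,
      comm_of_lam_rho h1 (fun g' => commute_rho (F.mem g) g')]
  obtain ⟨z, hz⟩ := Fr.eq_smul_of_fixed F (MonoidHom.id G) hG (ζ := T (dl 1)) (by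
    intro g
    change F.X g (F.R g (T (dl 1))) = _
    rw [← mul_apply_eq_comp (F.R g), h2, mul_apply_eq_comp, F.R_dl]
    unfold Fr.x
    rw [← h3, F.X_apply_inv])
  have h4 : T = z • (1 : BH L) := by
    apply ext_dl
    intro s
    have h5 : (dl s : HS L) = lam s (dl 1) := by rw [lam_dl, mul_one]
    have h6 : T (dl s) = lam s (T (dl 1)) := by
      rw [h5, ← mul_apply_eq_comp, ← h1, mul_apply_eq_comp]
    rw [h6, hz, map_smul, ← h5]
    rfl
  exact ⟨z, fun f => congrArg (fun S : BH L => S f) h4⟩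

/-- The kernel of an invariant triple. -/
theorem exists_krn (hG : ICC G) (hT : Tri c₀ V Y P) (hc₀ : 0 < c₀)
    (hinv : ∀ g, F.A g (F.R3 g (V (dl 1))) = V (dl 1)) : ∃ c k : ℝ, Krn P c k := by
  -- the square of `P`
  have hPsa : star P = P := by
    rw [ContinuousLinearMap.star_eq_adjoint P]
    symm
    rw [ContinuousLinearMap.eq_adjoint_iff]
    intro ξ η
    exact hT.sa ξ η
  set V₂ : HS L →L[ℂ] HS (P3 L) := (amp P : BH (P3 L)).comp V with hV₂
  have hV₂lam : ∀ s f, V₂ (lam s f) = lam (dg s) (V₂ f) := by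
    intro s f
    change amp P (V (lam s f)) = lam (dg s) (amp P (V f))
    rw [hT.lamV]
    change ((amp P : BH (P3 L)) * lam (s, (s, s))) (V f) =
      ((lam (s, (s, s)) : BH (P3 L)) * (amp P : BH (P3 L))) (V f)
    rw [lam_prod s (s, s), amp_tp_comm (P_lam hT s)]
  have hV₂R : ∀ g f, V₂ (F.R g f) = F.R3 g (V₂ f) := by
    intro g f
    change amp P (V (F.R g f)) = F.R3 g (amp P (V f))
    rw [V_R hT hinv]
    have h1 : F.R3 g = tp (F.R g) (F.R2 g) := by
      unfold Fr.R3 Fr.F3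
      rw [Fr.prod_R]
      rfl
    change ((amp P : BH (P3 L)) * F.R3 g) (V f) = (F.R3 g * (amp P : BH (P3 L))) (V f)
    rw [h1, amp_tp_comm (P_R2 hT hinv g)]
  have hV₂inv : ∀ g, F.A g (F.R3 g (V₂ (dl 1))) = V₂ (dl 1) := by
    intro g
    rw [← hV₂R, F.R_dl]
    unfold Fr.x
    rw [intertwine hV₂lam (F.mem g⁻¹)]
    change F.A g (F.A g⁻¹ (V₂ (dl 1))) = _
    rw [← mul_apply_eq_comp, ← F.A_mul, mul_inv_cancel, F.A_one]
    rfl
  obtain ⟨z, hz⟩ := eq_smul_of_inv hG hT hc₀ hinv hV₂inv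
  have hV₂z : ∀ f, V₂ f = z • V f := by
    intro f
    have h1 : V₂ = z • V := by
      apply ext_lam hV₂lam
      · intro s f
        change z • V (lam s f) = lam (dg s) (z • V f)
        rw [hT.lamV, map_smul]
      · exact hz
    rw [h1]
    rfl
  have hPP : ∀ ξ, P (P ξ) = (starRingEnd ℂ z) • P ξ := by
    intro ξ
    apply ext_apply
    rintro ⟨p, q⟩
    rw [← inner_dl (p, q), ← inner_dl (p, q), dl_prod, inner_smul_right]
    have h1 : tens (dl p) (dl q) = tens (dl p) (kc (dl q) : HS L) := by rw [kj_refl_dl]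
    rw [h1, ← hT.compat, ← hT.compat, ← amp_tens]
    conv_lhs => rw [← hPsa]
    rw [amp_star, ContinuousLinearMap.star_eq_adjoint, ContinuousLinearMap.adjoint_inner_right]
    change ⟪V₂ (dl p), _⟫_ℂ = _
    rw [hV₂z, inner_smul_left]
  -- `z` is a positive real number
  set ξ₀ : HS (L × L) := tens (dl 1) (kc (dl 1)) with hξ₀
  have hξV : ⟪ξ₀, P ξ₀⟫_ℂ = ⟪V (dl 1), dl 1⟫_ℂ := by
    rw [hξ₀, ← hT.compat, kj_refl_dl, ← dl_prod, ← dl_prod]
    rfl
  have hreal : (starRingEnd ℂ) ⟪ξ₀, P ξ₀⟫_ℂ = ⟪ξ₀, P ξ₀⟫_ℂ := by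
    rw [inner_conj_symm, hT.sa]
  obtain ⟨t, ht⟩ := Complex.conj_eq_iff_real.mp hreal
  have htpos : 0 < t := by
    have h1 := hT.pos
    rw [← hξV, ht, Complex.ofReal_re] at h1
    linarith
  have hPξ : ((‖P ξ₀‖ ^ 2 : ℝ) : ℂ) = (starRingEnd ℂ z) * t := by
    rw [← ht, ← inner_smul_right, ← hPP, ← hT.sa, inner_self_eq_norm_sq_to_K]
    push_cast
    rfl
  set c : ℝ := ‖P ξ₀‖ ^ 2 / t with hc
  have hzc : starRingEnd ℂ z = (c : ℂ) := by
    rw [hc]
    push_cast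
    rw [eq_div_iff (by exact_mod_cast htpos.ne')]
    rw [← hPξ]
    push_cast
    rfl
  have hPξ0 : P ξ₀ ≠ 0 := by
    intro h0
    rw [h0, inner_zero_right] at ht
    have : t = 0 := by exact_mod_cast ht.symm
    linarith
  have hcpos : 0 < c := by
    have := norm_pos_iff.mpr hPξ0
    positivity
  have hsq : ∀ ξ, P (P ξ) = (c : ℂ) • P ξ := by
    intro ξ
    rw [hPP, hzc]
  -- `V* V` is a scalar
  have hVV : ∃ κ : ℂ, ∀ f, V.adjoint (V f) = κ • f := by
    have h1 := irred (F := F) hG (T := V.adjoint.comp V) ?_ ?_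
    · exact h1
    · intro s
      apply ContinuousLinearMap.ext
      intro f
      apply ext_inner_left ℂ
      intro w
      change ⟪w, lam s (V.adjoint (V f))⟫_ℂ = ⟪w, V.adjoint (V (lam s f))⟫_ℂ
      rw [ContinuousLinearMap.adjoint_inner_right, hT.lamV]
      have h2 : ⟪w, lam s (V.adjoint (V f))⟫_ℂ = ⟪lam s⁻¹ w, V.adjoint (V f)⟫_ℂ := by
        rw [← inner_lam s (lam s⁻¹ w), ← mul_apply_eq_comp, lam_mul_inv]
        rfl
      rw [h2, ContinuousLinearMap.adjoint_inner_right, hT.lamV, ← inner_lam (dg s),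
        ← mul_apply_eq_comp (lam (dg s))]
      have h3 : dg s⁻¹ = (dg s)⁻¹ := rfl
      rw [h3, lam_mul_inv]
      rfl
    · intro g
      apply ContinuousLinearMap.ext
      intro f
      apply ext_inner_left ℂ
      intro w
      change ⟪w, F.R g (V.adjoint (V f))⟫_ℂ = ⟪w, V.adjoint (V (F.R g f))⟫_ℂ
      have h2 : ⟪w, F.R g (V.adjoint (V f))⟫_ℂ = ⟪F.R g⁻¹ w, V.adjoint (V f)⟫_ℂ := by
        rw [F.inner_R_left, inv_inv]
      rw [h2, ContinuousLinearMap.adjoint_inner_right, ContinuousLinearMap.adjoint_inner_right,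
        V_R hT hinv, V_R hT hinv, F.inner_R3_left, inv_inv]
  obtain ⟨κ', hκ'⟩ := hVV
  set κ : ℝ := ‖V (dl 1)‖ ^ 2 with hκ
  have hκκ : κ' = (κ : ℂ) := by
    have h1 : ⟪dl 1, V.adjoint (V (dl 1))⟫_ℂ = κ' := by
      rw [hκ', inner_smul_right, inner_self_eq_norm_sq_to_K, norm_dl]
      simp
    rw [← h1, ContinuousLinearMap.adjoint_inner_right, inner_self_eq_norm_sq_to_K, hκ]
    push_cast
    rfl
  have hVn : ∀ a, ‖V a‖ ^ 2 = κ * ‖a‖ ^ 2 := by
    intro a
    have h1 : ⟪V a, V a⟫_ℂ = κ * ⟪a, a⟫_ℂ := by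
      rw [← inner_smul_right, ← hκκ, ← hκ', ContinuousLinearMap.adjoint_inner_right]
    rw [inner_self', inner_self'] at h1
    exact_mod_cast h1
  have hκpos : 0 < κ := by
    have h1 : V (dl 1) ≠ 0 := by
      intro h0
      have h1 := hT.pos
      rw [h0, inner_zero_left, Complex.zero_re] at h1
      linarith
    have := norm_pos_iff.mpr h1
    positivity
  have hs1 : ∀ a b c d, ⟪tens d (kc c), P (tens a (kc b))⟫_ℂ =
      ⟪tens d (kc a), P (tens c (kc b))⟫_ℂ := by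
    intro a b c d
    rw [← hT.compat, ← hT.compat, hT.sym1]
  have hs2 : ∀ a b c d, ⟪tens d (kc c), P (tens a (kc b))⟫_ℂ =
      ⟪tens b (kc c), P (tens a (kc d))⟫_ℂ := by
    intro a b c d
    rw [← hT.compat, ← hT.compat, hT.sym2]
  refine ⟨c, κ / c, ⟨hcpos, by positivity, hT.sa, hsq, hs1, hs2, ?_⟩⟩
  intro a
  have h1 : c * (κ / c) * ‖a‖ ^ 2 = ‖V a‖ ^ 2 := by
    rw [hVn]
    field_simp
  rw [h1]
  have h2 := hasSum_slice (V a)
  have h3 : (fun t => ‖P (tens (dl t) (kc a))‖ ^ 2) = fun t => ‖slice (V a) t‖ ^ 2 := by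
    funext t
    rw [← hT.P_tens_dl]
    have h4 : ∀ x y : HS L, ((‖P (tens x (kc y))‖ ^ 2 : ℝ) : ℂ) =
        c * ⟪tens x (kc y), P (tens x (kc y))⟫_ℂ := by
      intro x y
      rw [← inner_smul_right, ← hsq, ← hT.sa, inner_self_eq_norm_sq_to_K]
      push_cast
      rfl
    have h5 : ((‖P (tens (dl t) (kc a))‖ ^ 2 : ℝ) : ℂ) =
        ((‖P (tens a (dl t))‖ ^ 2 : ℝ) : ℂ) := by
      have h6 : tens a (dl t) = tens a (kc (dl t) : HS L) := by rw [kj_refl_dl]
      rw [h6, h4, h4, hs1, hs2]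
    exact_mod_cast h5
  rw [h3]
  exact h2

end Pool.Agent.Helper66.GV
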