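import Mathlib

/-!
# Group von Neumann algebras

`ℓ²(G)`, the left and right regular representations, the von Neumann algebra `vN H` generated by
the left translations by the elements of a subgroup `H` of `G` (as a double commutant), and the
canonical trace.
-/

open scoped lp ENNReal InnerProductSpace

namespace Pool.Agent.Helper66.GV

/-- The Hilbert space `ℓ²(G)`. -/
abbrev HS (G : Type*) : Type _ := lp (fun _ : G => ℂ) 2

section Instances

/-! Names for the standard instances on `ℓ²(G)` and on the algebra of bounded operators. -/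

variable (G : Type*)

noncomputable instance hsNACG : NormedAddCommGroup (HS G) := inferInstance

noncomputable instance hsSNACG : SeminormedAddCommGroup (HS G) := inferInstance

noncomputable instance hsTop : TopologicalSpace (HS G) := inferInstance

noncomputable instance hsACM : AddCommMonoid (HS G) := inferInstance

noncomputable instance hsInner : InnerProductSpace ℂ (HS G) := inferInstance

noncomputable instance hsModule : Module ℂ (HS G) := inferInstance

instance hsComplete : CompleteSpace (HS G) := inferInstance

instance hsTopAdd : IsTopologicalAddGroup (HS G) := inferInstance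

instance hsContAdd : ContinuousAdd (HS G) := inferInstance

instance hsSMulComm : SMulCommClass ℂ ℂ (HS G) := inferInstance

instance hsTower : IsScalarTower ℂ ℂ (HS G) := inferInstance

instance hsContSMul : ContinuousConstSMul ℂ (HS G) := inferInstance

end Instances

/-- The bounded operators on `ℓ²(G)`. -/
abbrev BH (G : Type*) : Type _ := HS G →L[ℂ] HS G

section Instances

variable (G : Type*)

noncomputable instance bhRing : Ring (BH G) := inferInstance

noncomputable instance bhSemiring : Semiring (BH G) := inferInstance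

noncomputable instance bhStarRing : StarRing (BH G) := inferInstance

noncomputable instance bhAlgebra : Algebra ℂ (BH G) := inferInstance

noncomputable instance bhStarModule : StarModule ℂ (BH G) := inferInstance

noncomputable instance bhStar : Star (BH G) := inferInstance

noncomputable instance bhMul : Mul (BH G) := inferInstance

end Instances

section Reindex

variable {G : Type*}

theorem memlp_comp (e : G ≃ G) (f : HS G) : Memℓp (fun x => f (e x)) 2 := by
  apply memℓp_gen
  have h := (lp.memℓp f).summable (by norm_num)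
  exact (e.summable_iff (f := fun i => ‖f i‖ ^ (2 : ℝ≥0∞).toReal)).2 h

/-- Composition of a function in `ℓ²(G)` with the inverse of a permutation `e` of `G`. -/
def reidxFun (e : G ≃ G) (f : HS G) : HS G := ⟨fun x => f (e.symm x), memlp_comp e.symm f⟩

theorem reidxFun_add (e : G ≃ G) (f g : HS G) :
    reidxFun e (f + g) = reidxFun e f + reidxFun e g := by
  ext x; rfl

theorem reidxFun_smul (e : G ≃ G) (c : ℂ) (f : HS G) :
    reidxFun e (c • f) = c • reidxFun e f := by
  ext x; rfl

theorem reidxFun_left (e : G ≃ G) (f : HS G) : reidxFun e.symm (reidxFun e f) = f := by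
  apply lp.ext
  funext x
  change f (e.symm (e x)) = f x
  simp

theorem reidxFun_right (e : G ≃ G) (f : HS G) : reidxFun e (reidxFun e.symm f) = f := by
  apply lp.ext
  funext x
  change f (e (e.symm x)) = f x
  simp

theorem reidxFun_norm (e : G ≃ G) (f : HS G) : ‖reidxFun e f‖ = ‖f‖ := by
  have h0 : 0 < (2 : ℝ≥0∞).toReal := by norm_num
  rw [lp.norm_eq_tsum_rpow h0, lp.norm_eq_tsum_rpow h0]
  congr 1
  exact e.symm.tsum_eq (fun i => ‖f i‖ ^ (2 : ℝ≥0∞).toReal)

/-- The linear map `reidxFun e`. -/
def reidxLin (e : G ≃ G) : HS G →ₗ[ℂ] HS G where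
  toFun := reidxFun e
  map_add' := reidxFun_add e
  map_smul' := reidxFun_smul e

/-- The unitary operator on `ℓ²(G)` induced by a permutation `e` of `G`; it maps the basis vector
`δ_x` to `δ_{e x}`. -/
noncomputable def reidx (e : G ≃ G) : HS G ≃ₗᵢ[ℂ] HS G where
  toLinearEquiv := LinearEquiv.ofLinearMap (reidxLin e) (reidxLin e.symm)
    (LinearMap.ext (reidxFun_right e)) (LinearMap.ext (reidxFun_left e))
  norm_map' := reidxFun_norm e

theorem reidx_apply (e : G ≃ G) (f : HS G) (x : G) : reidx e f x = f (e.symm x) := rfl

end Reindex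

section Vectors

variable {G : Type*}

open Classical in
/-- The basis vector `δ_x` of `ℓ²(G)`. -/
noncomputable def dl (x : G) : HS G := lp.single 2 x (1 : ℂ)

theorem dl_self (x : G) : dl x x = 1 := by
  classical
  unfold dl
  exact lp.single_apply_self 2 x 1

theorem dl_ne {x y : G} (h : y ≠ x) : dl x y = 0 := by
  classical
  unfold dl
  exact lp.single_apply_ne 2 x 1 h

open Classical in
theorem dl_apply (x y : G) : dl x y = if y = x then 1 else 0 := by
  split_ifs with h
  · rw [h, dl_self]
  · exact dl_ne h

theorem inner_dl (x : G) (f : HS G) : ⟪dl x, f⟫_ℂ = f x := by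
  classical
  unfold dl
  rw [lp.inner_single_left]
  simp

theorem norm_dl (x : G) : ‖dl x‖ = 1 := by
  classical
  unfold dl
  rw [lp.norm_single (by norm_num)]
  simp

theorem dl_ne_zero (x : G) : dl x ≠ 0 := by
  intro h
  have := norm_dl x
  rw [h, norm_zero] at this
  exact zero_ne_one this

theorem reidx_dl (e : G ≃ G) (x : G) : reidx e (dl x) = dl (e x) := by
  classical
  apply lp.ext
  funext y
  rw [reidx_apply, dl_apply, dl_apply]
  congr 1
  rw [Equiv.symm_apply_eq]

/-- Two operators which agree on the basis vectors are equal. -/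
theorem ext_dl {S T : BH G} (h : ∀ x, S (dl x) = T (dl x)) : S = T := by
  classical
  apply ContinuousLinearMap.ext
  intro f
  have hf := lp.hasSum_single (by norm_num : (2 : ℝ≥0∞) ≠ ⊤) f
  have e : ∀ i, lp.single 2 i (f i) = f i • dl i := by
    intro i
    unfold dl
    rw [← lp.single_smul]
    simp
  simp only [e] at hf
  have h1 := hf.mapL S
  have h2 := hf.mapL T
  simp only [map_smul, h] at h1 h2
  exact h1.unique h2

theorem ext_apply {f g : HS G} (h : ∀ x, f x = g x) : f = g := by
  apply lp.ext
  funext x
  exact h x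

end Vectors

variable {G : Type*} [Group G]

/-- The left regular representation: `λ_g δ_x = δ_{g x}`. -/
noncomputable def lam (g : G) : BH G := ((reidx (Equiv.mulLeft g)).toContinuousLinearEquiv : BH G)

/-- The right regular representation: `ρ_g δ_x = δ_{x g⁻¹}`. -/
noncomputable def rho (g : G) : BH G :=
  ((reidx (Equiv.mulRight g⁻¹)).toContinuousLinearEquiv : BH G)

theorem lam_apply (g : G) (f : HS G) (x : G) : lam g f x = f (g⁻¹ * x) := rfl

theorem rho_apply (g : G) (f : HS G) (x : G) : rho g f x = f (x * g) := by
  change f ((Equiv.mulRight g⁻¹).symm x) = f (x * g)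
  simp

theorem lam_dl (g x : G) : lam g (dl x) = dl (g * x) := reidx_dl _ _

theorem rho_dl (g x : G) : rho g (dl x) = dl (x * g⁻¹) := reidx_dl _ _

theorem lam_mul (g h : G) : lam (g * h) = lam g * lam h := by
  apply ext_dl
  intro x
  rw [mul_apply_eq_comp, lam_dl, lam_dl, lam_dl, mul_assoc]

theorem lam_one : lam (1 : G) = 1 := by
  apply ext_dl
  intro x
  rw [lam_dl, one_mul]
  rfl

theorem lam_inv_mul (g : G) : lam g⁻¹ * lam g = 1 := by
  rw [← lam_mul, inv_mul_cancel, lam_one]

theorem lam_mul_inv (g : G) : lam g * lam g⁻¹ = 1 := by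
  rw [← lam_mul, mul_inv_cancel, lam_one]

theorem inner_lam (g : G) (x y : HS G) : ⟪lam g x, lam g y⟫_ℂ = ⟪x, y⟫_ℂ :=
  (reidx (Equiv.mulLeft g)).inner_map_map x y

theorem star_lam (g : G) : star (lam g) = lam g⁻¹ := by
  symm
  rw [ContinuousLinearMap.star_eq_adjoint, ContinuousLinearMap.eq_adjoint_iff]
  intro x y
  rw [← inner_lam g, ← mul_apply_eq_comp, lam_mul_inv]
  rfl

theorem lam_rho_comm (g h : G) : lam g * rho h = rho h * lam g := by
  apply ext_dl
  intro x
  rw [mul_apply_eq_comp, mul_apply_eq_comp, lam_dl, rho_dl, lam_dl, rho_dl,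
    mul_assoc]

/-- The von Neumann algebra generated by the unitaries `λ_h`, `h ∈ H`: the double commutant of this
set of operators on `ℓ²(G)`.  The group von Neumann algebra of `G` is `vN (⊤ : Subgroup G)`. -/
noncomputable def vN (H : Subgroup G) : StarSubalgebra ℂ (BH G) :=
  StarSubalgebra.centralizer ℂ (StarSubalgebra.centralizer ℂ (lam '' (H : Set G)) : Set (BH G))

theorem vN_mono {H K : Subgroup G} (h : H ≤ K) : vN H ≤ vN K := by
  unfold vN
  apply StarSubalgebra.centralizer_le
  apply StarSubalgebra.centralizer_le
  exact Set.image_mono h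

theorem lam_mem_vN {H : Subgroup G} {g : G} (hg : g ∈ H) : lam g ∈ vN H := by
  unfold vN
  rw [StarSubalgebra.mem_centralizer_iff]
  intro T hT
  have h1 : ∀ S ∈ (StarSubalgebra.centralizer ℂ (lam '' (H : Set G)) : Set (BH G)),
      S * lam g = lam g * S := by
    intro S hS
    rw [SetLike.mem_coe, StarSubalgebra.mem_centralizer_iff] at hS
    exact (hS (lam g) ⟨g, hg, rfl⟩).1.symm
  refine ⟨h1 T hT, h1 (star T) ?_⟩
  rw [SetLike.mem_coe] at hT ⊢
  exact star_mem hT

theorem lam_mem_top (g : G) : lam g ∈ vN (⊤ : Subgroup G) := lam_mem_vN trivial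

/-- Elements of `vN H` commute with everything commuting with the `λ_h` (and their adjoints). -/
theorem commute_of_mem {H : Subgroup G} {T S : BH G} (hT : T ∈ vN H)
    (hS : ∀ h ∈ H, lam h * S = S * lam h) : S * T = T * S := by
  unfold vN at hT
  rw [StarSubalgebra.mem_centralizer_iff] at hT
  refine (hT S ?_).1
  rw [SetLike.mem_coe, StarSubalgebra.mem_centralizer_iff]
  rintro _ ⟨h, hh, rfl⟩
  refine ⟨hS h hh, ?_⟩
  rw [star_lam]
  exact hS h⁻¹ (H.inv_mem hh)

theorem commute_rho {H : Subgroup G} {T : BH G} (hT : T ∈ vN H) (g : G) :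
    rho g * T = T * rho g :=
  commute_of_mem hT fun h _ => lam_rho_comm h g

/-- An element of the group von Neumann algebra is determined by its value at `δ_1`. -/
theorem apply_dl {H : Subgroup G} {T : BH G} (hT : T ∈ vN H) (x y : G) :
    T (dl x) y = T (dl 1) (y * x⁻¹) := by
  have h1 : rho x⁻¹ (dl 1) = dl x := by rw [rho_dl]; simp
  rw [← h1, ← mul_apply_eq_comp, ← commute_rho hT, mul_apply_eq_comp,
    rho_apply]

theorem eq_of_apply_one {H K : Subgroup G} {S T : BH G} (hS : S ∈ vN H) (hT : T ∈ vN K)
    (h : ∀ x, S (dl 1) x = T (dl 1) x) : S = T := by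
  apply ext_dl
  intro x
  apply ext_apply
  intro y
  rw [apply_dl hS, apply_dl hT, h]

theorem star_apply_one {H : Subgroup G} {T : BH G} (hT : T ∈ vN H) (x : G) :
    (star T) (dl 1) x = star (T (dl 1) x⁻¹) := by
  rw [← inner_dl x, ContinuousLinearMap.star_eq_adjoint, ContinuousLinearMap.adjoint_inner_right,
    ← inner_conj_symm, inner_dl, apply_dl hT]
  simp

theorem mul_apply_one {H K : Subgroup G} {S T : BH G} (hS : S ∈ vN H) (_hT : T ∈ vN K) (x : G) :
    HasSum (fun y => S (dl 1) (x * y⁻¹) * T (dl 1) y) ((S * T) (dl 1) x) := by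
  have h1 : (S * T) (dl 1) x = ⟪(star S) (dl x), T (dl 1)⟫_ℂ := by
    rw [← inner_dl x, ContinuousLinearMap.star_eq_adjoint,
      ContinuousLinearMap.adjoint_inner_left]
    rfl
  rw [h1]
  have h2 := lp.hasSum_inner (𝕜 := ℂ) ((star S) (dl x)) (T (dl 1))
  have h3 : (fun y => S (dl 1) (x * y⁻¹) * T (dl 1) y) =
      fun y => ⟪((star S) (dl x)) y, (T (dl 1)) y⟫_ℂ := by
    funext y
    rw [apply_dl (star_mem hS), star_apply_one hS]
    simp [mul_comm]
  rw [h3]
  exact h2

/-! ### Supports -/

section Restrict

open Classical in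
/-- Restriction of functions to a subset `S` of `G`. -/
noncomputable def restr (S : Set G) : BH G :=
  LinearMap.mkContinuous
    { toFun := fun f => ⟨fun x => if x ∈ S then f x else 0, by
        refine (lp.memℓp f).mono' (fun x => ?_)
        split_ifs
        · exact le_rfl
        · simp⟩
      map_add' := fun f g => by
        apply lp.ext
        funext x
        change (if x ∈ S then (f + g) x else 0) = (if x ∈ S then f x else 0) +
          (if x ∈ S then g x else 0)
        split_ifs
        · rfl
        · simp
      map_smul' := fun c f => by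
        apply lp.ext
        funext x
        change (if x ∈ S then (c • f) x else 0) = c • (if x ∈ S then f x else 0)
        split_ifs
        · rfl
        · simp } 1 (fun f => by
    rw [one_mul]
    apply lp.norm_mono (by norm_num)
    intro x
    change ‖(if x ∈ S then f x else 0)‖ ≤ ‖f x‖
    split_ifs
    · exact le_rfl
    · simp)

open Classical in
omit [Group G] in
theorem restr_apply (S : Set G) (f : HS G) (x : G) : restr S f x = if x ∈ S then f x else 0 := rfl

end Restrict

/-- The elements of `vN H` are supported on `H`. -/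
theorem apply_one_eq_zero {H : Subgroup G} {T : BH G} (hT : T ∈ vN H) {x : G} (hx : x ∉ H) :
    T (dl 1) x = 0 := by
  classical
  have h1 : restr (H : Set G) * T = T * restr (H : Set G) := by
    apply commute_of_mem hT
    intro h hh
    apply ContinuousLinearMap.ext
    intro f
    apply ext_apply
    intro y
    rw [mul_apply_eq_comp, mul_apply_eq_comp, lam_apply, restr_apply, restr_apply, lam_apply]
    have : h⁻¹ * y ∈ (H : Set G) ↔ y ∈ (H : Set G) := H.mul_mem_cancel_left (H.inv_mem hh)
    simp [this]
  have h2 : restr (H : Set G) (dl 1) = dl 1 := by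
    apply ext_apply
    intro y
    rw [restr_apply]
    split_ifs with hy
    · rfl
    · rw [dl_ne]
      rintro rfl
      exact hy H.one_mem
  have h3 : (restr (H : Set G) * T) (dl 1) x = 0 := by
    rw [mul_apply_eq_comp, restr_apply]
    have : x ∉ (H : Set G) := hx
    simp [this]
  rw [h1, mul_apply_eq_comp, h2] at h3
  exact h3

/-! ### The trace -/

/-- The canonical trace. -/
noncomputable def tr (T : BH G) : ℂ := ⟪dl 1, T (dl 1)⟫_ℂ

theorem tr_eq (T : BH G) : tr T = T (dl 1) 1 := inner_dl _ _

/-- The coefficients of an operator in terms of the trace. -/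
theorem apply_one_eq_tr (T : BH G) (x : G) : T (dl 1) x = tr (lam x⁻¹ * T) := by
  rw [tr_eq, mul_apply_eq_comp, lam_apply]
  simp

end Pool.Agent.Helper66.GV
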