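import Mathlib

/-!
# Families of bounded subsets of a group
-/

open scoped Pointwise

namespace Pool.Agent.Helper66.GV

/-- A family of bounded subsets of a group, closed under products. -/
structure Born {G : Type*} [Group G] (U : Set G → Prop) : Prop where
  mono : ∀ {X Y : Set G}, U X → Y ⊆ X → U Y
  union : ∀ {X Y : Set G}, U X → U Y → U (X ∪ Y)
  single : ∀ g : G, U {g}
  mul : ∀ {X Y : Set G}, U X → U Y → U (X * Y)

namespace Born

variable {G : Type*} [Group G] {U : Set G → Prop} (h : Born U)

include h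

theorem empty : U ∅ := h.mono (h.single 1) (Set.empty_subset _)

theorem biUnion {ι : Type*} (s : Finset ι) {S : ι → Set G} (hS : ∀ i ∈ s, U (S i)) :
    U (⋃ i ∈ s, S i) := by
  classical
  induction s using Finset.induction_on with
  | empty =>
    simp only [Finset.notMem_empty, Set.iUnion_of_empty, Set.iUnion_empty]
    exact h.empty
  | insert a s ha ih =>
    rw [Finset.set_biUnion_insert]
    exact h.union (hS a (Finset.mem_insert_self _ _))
      (ih fun i hi => hS i (Finset.mem_insert_of_mem hi))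

theorem finite {X : Set G} (hX : X.Finite) : U X := by
  classical
  refine h.mono (h.biUnion hX.toFinset (S := fun g => {g}) fun g _ => h.single g) ?_
  intro g hg
  rw [Set.mem_iUnion₂]
  exact ⟨g, hX.mem_toFinset.mpr hg, rfl⟩

theorem mul_left (g : G) {X : Set G} (hX : U X) : U ((fun x => g * x) '' X) := by
  refine h.mono (h.mul (h.single g) hX) ?_
  rintro _ ⟨x, hx, rfl⟩
  exact Set.mul_mem_mul rfl hx

theorem mul_right (g : G) {X : Set G} (hX : U X) : U ((fun x => x * g) '' X) := by
  refine h.mono (h.mul hX (h.single g)) ?_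
  rintro _ ⟨x, hx, rfl⟩
  exact Set.mul_mem_mul hx rfl

/-- Passing to a finite index subgroup of a cyclic group. -/
theorem zpowers_of_pow {g : G} {s : ℕ} (hs : 0 < s) {X : Set G} (hX : U X)
    (hsub : ∀ m : ℤ, g ^ ((s : ℤ) * m) ∈ X) : U (Subgroup.zpowers g : Set G) := by
  refine h.mono (h.biUnion (Finset.range s) (S := fun r => (fun x => g ^ r * x) '' X)
    fun r _ => h.mul_left _ hX) ?_
  rintro _ ⟨m, rfl⟩
  have hs0 : (s : ℤ) ≠ 0 := by exact_mod_cast hs.ne'
  have hm := Int.emod_add_mul_ediv m s
  have hr0 := Int.emod_nonneg m hs0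
  have hrN := Int.emod_lt_of_pos m (show (0 : ℤ) < s by exact_mod_cast hs)
  rw [Set.mem_iUnion₂]
  refine ⟨(m % s).toNat, ?_, g ^ ((s : ℤ) * (m / s)), hsub _, ?_⟩
  · rw [Finset.mem_range]
    omega
  · simp only
    rw [← zpow_natCast, Int.toNat_of_nonneg hr0, ← _root_.zpow_add, hm]

end Born

end Pool.Agent.Helper66.GV
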