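import Pool.Agent.Helper66.GV.Root
import Pool.Agent.Helper66.GV.BornDef

/-!
# Bounded subsets of the groups and root elements
-/

open scoped lp ENNReal InnerProductSpace MatrixGroups Pointwise
open Filter Topology Matrix

namespace Pool.Agent.Helper66.GV

section AFBorn

variable {G L : Type*} [Group G] [Group L]

/-- The sets of group elements with almost finitely supported images form a bounded family. -/
theorem born_AF (F : Fr G L) : Born (fun X => AFs (Orb F X (dl 1))) where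
  mono := by
    intro X Y hX hYX
    refine AFs.mono hX ?_
    rintro _ ⟨g, hg, rfl⟩
    exact ⟨g, hYX hg, rfl⟩
  union := by
    intro X Y hX hY
    refine AFs.mono (AFs.union hX hY) ?_
    rintro _ ⟨g, hg | hg, rfl⟩
    · exact Or.inl ⟨g, hg, rfl⟩
    · exact Or.inr ⟨g, hg, rfl⟩
  single := by
    intro g
    refine AFs.mono (AFs.singleton (F.X g (dl 1))) ?_
    rintro _ ⟨g', hg', rfl⟩
    rw [Set.mem_singleton_iff] at hg'
    rw [hg']
    rfl
  mul := by
    intro X Y hX hY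
    refine AFs.mono (AFs_X_mul hX hY norm_orb) ?_
    rintro _ ⟨_, ⟨g, hg, h, hh, rfl⟩, rfl⟩
    refine ⟨g, hg, F.X h (dl 1), ⟨h, hh, rfl⟩, ?_⟩
    rw [F.map_mul]
    rfl

end AFBorn

section Spread

variable {n K : Type*} [Fintype n] [DecidableEq n] [Field K] {Γ : Subgroup (PGL(n, K))}
  {U : Set Γ → Prop}

/-- The cyclic group generated by some nontrivial root element for the root `(i, j)` is bounded. -/
def RB (U : Set Γ → Prop) {i j : n} (hij : i ≠ j) : Prop :=
  ∃ (c : K) (_ : c ≠ 0) (hc : el hij c ∈ Γ), U (Subgroup.zpowers (⟨el hij c, hc⟩ : Γ) : Set Γ)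

theorem RB.row (hU : Born U) (hΓ : HasRoots Γ) {i j l : n} (hil : i ≠ l) (hij : i ≠ j)
    (hlj : l ≠ j) (h : RB U hil) : RB U hij := by
  obtain ⟨c, hc, hcΓ, hb⟩ := h
  obtain ⟨δ, hδ, hδΓ⟩ := hΓ l j hlj
  set e : Γ := ⟨el hil c, hcΓ⟩ with he
  set d : Γ := ⟨el hlj δ, hδΓ⟩ with hd
  have hmem : el hij (c * δ) ∈ Γ := by
    rw [← comm_el hil hlj hij]
    exact Γ.mul_mem (Γ.mul_mem (Γ.mul_mem (Γ.inv_mem hcΓ) (Γ.inv_mem hδΓ)) hcΓ) hδΓ
  refine ⟨c * δ, mul_ne_zero hc hδ, hmem, ?_⟩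
  refine hU.mono (hU.mul (hU.mul (hU.mul hb (hU.single d⁻¹)) hb) (hU.single d)) ?_
  rintro _ ⟨m, rfl⟩
  have h1 : (⟨el hij (c * δ), hmem⟩ : Γ) ^ m = e ^ (-m) * d⁻¹ * e ^ m * d := by
    apply Subtype.ext
    push_cast
    change (el hij (c * δ)) ^ m = (el hil c) ^ (-m) * (el hlj δ)⁻¹ * (el hil c) ^ m * el hlj δ
    rw [_root_.zpow_neg, ← el_zsmul, ← el_zsmul, comm_el hil hlj hij]
    congr 1
    ring
  simp only
  rw [h1]
  exact Set.mul_mem_mul (Set.mul_mem_mul (Set.mul_mem_mul ⟨-m, rfl⟩ rfl) ⟨m, rfl⟩) rfl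

theorem RB.col (hU : Born U) (hΓ : HasRoots Γ) {i k l : n} (hil : i ≠ l) (hkl : k ≠ l)
    (hki : k ≠ i) (h : RB U hil) : RB U hkl := by
  obtain ⟨c, hc, hcΓ, hb⟩ := h
  obtain ⟨δ, hδ, hδΓ⟩ := hΓ k i hki
  set e : Γ := ⟨el hil c, hcΓ⟩ with he
  set d : Γ := ⟨el hki δ, hδΓ⟩ with hd
  have hmem : el hkl (δ * c) ∈ Γ := by
    rw [← comm_el hki hil hkl]
    exact Γ.mul_mem (Γ.mul_mem (Γ.mul_mem (Γ.inv_mem hδΓ) (Γ.inv_mem hcΓ)) hδΓ) hcΓ
  refine ⟨δ * c, mul_ne_zero hδ hc, hmem, ?_⟩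
  refine hU.mono (hU.mul (hU.mul (hU.mul (hU.single d⁻¹) hb) (hU.single d)) hb) ?_
  rintro _ ⟨m, rfl⟩
  have h1 : (⟨el hkl (δ * c), hmem⟩ : Γ) ^ m = d⁻¹ * e ^ (-m) * d * e ^ m := by
    apply Subtype.ext
    push_cast
    change (el hkl (δ * c)) ^ m = (el hki δ)⁻¹ * (el hil c) ^ (-m) * el hki δ * (el hil c) ^ m
    rw [_root_.zpow_neg, ← el_zsmul, ← el_zsmul, comm_el hki hil hkl]
    congr 1
    ring
  simp only
  rw [h1]
  exact Set.mul_mem_mul (Set.mul_mem_mul (Set.mul_mem_mul rfl ⟨-m, rfl⟩) rfl) ⟨m, rfl⟩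

/-- One bounded root gives all of them. -/
theorem RB.all (hn : 3 ≤ Fintype.card n) (hU : Born U) (hΓ : HasRoots Γ) {i l : n} (hil : i ≠ l)
    (h : RB U hil) {a b : n} (hab : a ≠ b) : RB U hab := by
  obtain ⟨m, hm⟩ : ∃ m, m ∉ ({i, l} : Finset n) := by
    by_contra h
    push Not at h
    have h1 : Fintype.card n ≤ ({i, l} : Finset n).card := by
      rw [← Finset.card_univ]
      exact Finset.card_le_card fun x _ => h x
    have h2 := Finset.card_le_two (a := i) (b := l)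
    omega
  simp only [Finset.mem_insert, Finset.mem_singleton, not_or] at hm
  by_cases hai : a = i
  · subst hai
    by_cases hbl : b = l
    · subst hbl
      exact h
    · exact h.row hU hΓ hil hab (Ne.symm hbl)
  · by_cases hal : a = l
    · subst hal
      have h1 : RB U (Ne.symm hm.1) := h.row hU hΓ hil (Ne.symm hm.1) (Ne.symm hm.2)
      have h2 : RB U (Ne.symm hm.2) := h1.col hU hΓ (Ne.symm hm.1) (Ne.symm hm.2) hai
      by_cases hbm : b = m
      · subst hbm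
        exact h2
      · exact h2.row hU hΓ (Ne.symm hm.2) hab (Ne.symm hbm)
    · have h1 : RB U hal := h.col hU hΓ hil hal hai
      by_cases hbl : b = l
      · subst hbl
        exact h1
      · exact h1.row hU hΓ hal hab (Ne.symm hbl)

end Spread

section Rat

variable {n : Type*} [Fintype n] [DecidableEq n] {Γ : Subgroup (PGL(n, ℚ))} {U : Set Γ → Prop}

/-- Over the rational numbers the cyclic groups generated by all elements of a bounded root are
bounded. -/
theorem RB.rat (hU : Born U) {i j : n} (hij : i ≠ j) (h : RB U hij) {c' : ℚ}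
    (hc' : el hij c' ∈ Γ) : U (Subgroup.zpowers (⟨el hij c', hc'⟩ : Γ) : Set Γ) := by
  obtain ⟨c, hc, hcΓ, hb⟩ := h
  set q : ℚ := c' / c with hq
  have h1 : (q.den : ℚ) * c' = q.num * c := by
    have h2 : q * c = c' := by
      rw [hq]
      field_simp
    have h3 : (q.den : ℚ) * q = q.num := by
      rw [mul_comm]
      exact Rat.mul_den_eq_num q
    rw [← h2, ← mul_assoc, h3]
  refine hU.zpowers_of_pow (s := q.den) q.den_pos hb ?_
  intro m
  refine ⟨q.num * m, ?_⟩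
  apply Subtype.ext
  push_cast
  change (el hij c) ^ (q.num * m) = (el hij c') ^ ((q.den : ℤ) * m)
  rw [← el_zsmul, ← el_zsmul]
  congr 1
  push_cast
  calc (q.num : ℚ) * m * c = m * (q.num * c) := by ring
    _ = m * (q.den * c') := by rw [h1]
    _ = _ := by ring

end Rat

end Pool.Agent.Helper66.GV
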