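import Mathlib

/-!
# Arithmetic for the theorem of Carter and Keller
-/

namespace Pool.Agent.Helper66.GV.CK

theorem exists_prime {a b : ℤ} (hab : IsCoprime a b) (hb : Odd b) :
    ∃ p : ℕ, p.Prime ∧ (p : ℤ) ≡ a [ZMOD b] ∧ p % 4 = 3 := by
  have hb0 : b ≠ 0 := by
    rintro rfl
    simp at hb
  obtain ⟨k, hk⟩ := hb
  have hr1 : a + (3 - a) * b ^ 2 ≡ a [ZMOD b] := by
    rw [Int.modEq_iff_dvd]
    exact ⟨-(3 - a) * b, by ring⟩
  have hr2 : a + (3 - a) * b ^ 2 ≡ 3 [ZMOD 4] := by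
    rw [Int.modEq_iff_dvd]
    exact ⟨-(3 - a) * (k ^ 2 + k), by rw [hk]; ring⟩
  have hq : 4 * b.natAbs ≠ 0 := by
    have := Int.natAbs_ne_zero.mpr hb0
    omega
  have hcop : IsCoprime (a + (3 - a) * b ^ 2) ((4 * b.natAbs : ℕ) : ℤ) := by
    push_cast
    apply IsCoprime.mul_right
    · rw [Int.modEq_iff_dvd] at hr2
      obtain ⟨c, hc⟩ := hr2
      exact ⟨-1, 1 - c, by linear_combination hc⟩
    · have h1 : IsCoprime (a + (3 - a) * b ^ 2) b := by
        have h2 : a + (3 - a) * b ^ 2 = a + b * ((3 - a) * b) := by ring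
        rw [h2]
        exact hab.add_mul_left_left _
      rcases abs_choice b with h | h <;> rw [h]
      · exact h1
      · exact h1.neg_right
  obtain ⟨p, -, hp, hmod⟩ := Nat.forall_exists_prime_gt_and_zmodEq 0 hq hcop
  refine ⟨p, hp, ?_, ?_⟩
  · refine (hmod.of_dvd ?_).trans hr1
    push_cast
    exact ((dvd_abs _ _).mpr dvd_rfl).trans (dvd_mul_left _ _)
  · have h1 : (p : ℤ) ≡ 3 [ZMOD 4] := by
      refine (hmod.of_dvd ?_).trans hr2
      push_cast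
      exact dvd_mul_right _ _
    have h2 : (p : ℤ) % 4 = 3 := h1
    omega

/-- Choosing the second prime. -/
theorem exists_prime_nonres {P : ℕ} (hP : P.Prime) (hP4 : P % 4 = 3) {b : ℤ}
    (hb : IsCoprime b (P : ℤ)) :
    ∃ p : ℕ, ∃ ε : ℤ, p.Prime ∧ p % 4 = 3 ∧ (ε = 1 ∨ ε = -1) ∧ ε * p ≡ b [ZMOD P] ∧
      ¬ IsSquare (p : ZMod P) := by
  have := Fact.mk hP
  have hPodd : Odd (P : ℤ) := by
    rw [Int.odd_iff]
    omega
  have hnot : ∃ ε : ℤ, (ε = 1 ∨ ε = -1) ∧ ¬ IsSquare ((ε * b : ℤ) : ZMod P) := by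
    have hb0 : (b : ZMod P) ≠ 0 := by
      intro h0
      rw [ZMod.intCast_zmod_eq_zero_iff_dvd] at h0
      have h1 := hb.symm.isUnit_of_dvd' (dvd_refl _) h0
      rw [Int.isUnit_iff] at h1
      have := hP.two_le
      omega
    by_cases h : IsSquare (b : ZMod P)
    · refine ⟨-1, Or.inr rfl, ?_⟩
      intro h2
      have h3 : IsSquare (-1 : ZMod P) := by
        obtain ⟨x, hx⟩ := h
        obtain ⟨y, hy⟩ := h2
        have hx0 : x ≠ 0 := by
          rintro rfl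
          exact hb0 (by rw [hx, mul_zero])
        push_cast at hy
        refine ⟨y / x, ?_⟩
        field_simp
        linear_combination hy + hx
      rw [ZMod.exists_sq_eq_neg_one_iff] at h3
      exact h3 hP4
    · exact ⟨1, Or.inl rfl, by rwa [one_mul]⟩
  obtain ⟨ε, hε, hεb⟩ := hnot
  have hcop : IsCoprime (ε * b) (P : ℤ) := by
    rcases hε with rfl | rfl
    · rwa [one_mul]
    · rw [neg_one_mul]
      exact hb.neg_left
  obtain ⟨p, hp, hpmod, hp4⟩ := exists_prime hcop hPodd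
  refine ⟨p, ε, hp, hp4, hε, ?_, ?_⟩
  · have h1 := hpmod.mul_left ε
    rcases hε with rfl | rfl
    · simpa using h1
    · simpa using h1
  · have h1 : ((p : ℤ) : ZMod P) = ((ε * b : ℤ) : ZMod P) :=
      (ZMod.intCast_eq_intCast_iff _ _ _).mpr hpmod
    rw [Int.cast_natCast] at h1
    rwa [h1]

/-- Choosing the third prime. -/
theorem exists_prime_nonres' {P : ℕ} (hP : P.Prime) (hP4 : P % 4 = 3) {b : ℤ}
    (hb : IsCoprime b (P : ℤ)) {k : ℕ} (hk : IsCoprime (k : ℤ) (P : ℤ)) (hkodd : Odd k) :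
    ∃ p : ℕ, ∃ ε : ℤ, p.Prime ∧ p % 4 = 3 ∧ (ε = 1 ∨ ε = -1) ∧ ε * p ≡ b [ZMOD P] ∧
      ¬ IsSquare (p : ZMod P) ∧ (p : ℤ) ≡ -1 [ZMOD k] := by
  have := Fact.mk hP
  have hPodd : Odd (P : ℤ) := by
    rw [Int.odd_iff]
    omega
  obtain ⟨p₀, ε, hp₀, hp₀4, hε, hmod, hsq⟩ := exists_prime_nonres hP hP4 hb
  obtain ⟨x, y, hxy⟩ := hk
  -- `x k + y P = 1`
  set r : ℤ := p₀ * (x * k) + (-1) * (y * P) with hr
  have hr1 : r ≡ p₀ [ZMOD P] := by
    rw [Int.modEq_iff_dvd]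
    exact ⟨p₀ * y + y, by rw [hr]; linear_combination (-(p₀ : ℤ)) * hxy⟩
  have hr2 : r ≡ -1 [ZMOD k] := by
    rw [Int.modEq_iff_dvd]
    exact ⟨-(p₀ * x + x), by rw [hr]; linear_combination hxy⟩
  have hcop : IsCoprime r ((P : ℤ) * k) := by
    apply IsCoprime.mul_right
    · have h1 : IsCoprime (p₀ : ℤ) (P : ℤ) := by
        rw [Nat.isCoprime_iff_coprime, Nat.coprime_primes hp₀ hP]
        rintro rfl
        apply hsq
        rw [ZMod.natCast_self]
        exact IsSquare.zero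
      rw [Int.modEq_iff_dvd] at hr1
      obtain ⟨c, hc⟩ := hr1
      have : r = p₀ + P * (-c) := by linear_combination -hc
      rw [this]
      exact h1.add_mul_left_left _
    · rw [Int.modEq_iff_dvd] at hr2
      obtain ⟨c, hc⟩ := hr2
      have : r = -1 + k * (-c) := by linear_combination -hc
      rw [this]
      exact (isCoprime_one_left.neg_left).add_mul_left_left _
  have hodd : Odd ((P : ℤ) * k) := hPodd.mul (by exact_mod_cast hkodd)
  obtain ⟨p, hp, hpmod, hp4⟩ := exists_prime hcop hodd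
  have hpP : (p : ℤ) ≡ p₀ [ZMOD P] := (hpmod.of_dvd (dvd_mul_right _ _)).trans hr1
  refine ⟨p, ε, hp, hp4, hε, (hpP.mul_left ε).trans hmod, ?_, ?_⟩
  · have h1 : ((p : ℤ) : ZMod P) = ((p₀ : ℤ) : ZMod P) :=
      (ZMod.intCast_eq_intCast_iff _ _ _).mpr hpP
    rw [Int.cast_natCast, Int.cast_natCast] at h1
    rwa [h1]
  · exact (hpmod.of_dvd (dvd_mul_left _ _)).trans hr2

/-- Quadratic reciprocity and Euler's criterion. -/
theorem dvd_pow_sub_one {P p : ℕ} (hP : P.Prime) (hP4 : P % 4 = 3) (hp : p.Prime)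
    (hp4 : p % 4 = 3) (h : ¬ IsSquare (p : ZMod P)) : (p : ℤ) ∣ (P : ℤ) ^ (p / 2) - 1 := by
  have := Fact.mk hP
  have := Fact.mk hp
  have hne : P ≠ p := by
    rintro rfl
    apply h
    rw [ZMod.natCast_self]
    exact IsSquare.zero
  have hP0 : (P : ZMod p) ≠ 0 := by
    intro h0
    rw [ZMod.natCast_eq_zero_iff] at h0
    exact hne ((Nat.prime_dvd_prime_iff_eq hp hP).mp h0).symm
  have hp0 : (p : ZMod P) ≠ 0 := by
    intro h0
    rw [ZMod.natCast_eq_zero_iff] at h0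
    exact hne ((Nat.prime_dvd_prime_iff_eq hP hp).mp h0)
  have h1 : legendreSym P p = -1 := by
    rw [legendreSym.eq_neg_one_iff']
    exact h
  have h2 : legendreSym p P = 1 := by
    have h3 := legendreSym.quadratic_reciprocity_three_mod_four (p := p) (q := P) hp4 hP4
    rw [h1] at h3
    simpa using h3.symm
  have h4 := legendreSym.eq_pow p (P : ℤ)
  rw [h2] at h4
  push_cast at h4
  have h5 : (((P : ℤ) ^ (p / 2) - 1 : ℤ) : ZMod p) = 0 := by
    push_cast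
    rw [← h4]
    ring
  rwa [ZMod.intCast_zmod_eq_zero_iff_dvd] at h5

/-- The exponents are coprime. -/
theorem coprime_half {p q : ℕ} (hp4 : p % 4 = 3) (hq4 : q % 4 = 3)
    (h : (q : ℤ) ≡ -1 [ZMOD ((p / 2 : ℕ) : ℤ)]) :
    IsCoprime ((p / 2 : ℕ) : ℤ) ((q / 2 : ℕ) : ℤ) := by
  rw [Nat.isCoprime_iff_coprime]
  rw [Nat.coprime_iff_gcd_eq_one]
  by_contra hne
  obtain ⟨l, hl, hl2⟩ := Nat.exists_prime_and_dvd hne
  have h1 : l ∣ p / 2 := hl2.trans (Nat.gcd_dvd_left _ _)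
  have h2 : l ∣ q / 2 := hl2.trans (Nat.gcd_dvd_right _ _)
  have h3 : (l : ℤ) ∣ -1 - q := (Int.natCast_dvd_natCast.mpr h1).trans (Int.modEq_iff_dvd.mp h)
  have h4 : (l : ℤ) ∣ ((q / 2 : ℕ) : ℤ) := Int.natCast_dvd_natCast.mpr h2
  have h5 : (q : ℤ) = 2 * ((q / 2 : ℕ) : ℤ) + 1 := by omega
  have h6 : (l : ℤ) ∣ 2 := by
    have h7 : (2 : ℤ) = -(-1 - q) - 2 * ((q / 2 : ℕ) : ℤ) := by omega
    rw [h7]
    exact dvd_sub ((dvd_neg).mpr h3) (h4.mul_left _)
  have h7 : l ∣ 2 := by exact_mod_cast h6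
  have h8 := (Nat.prime_dvd_prime_iff_eq hl Nat.prime_two).mp h7
  subst h8
  omega

/-- The half of `p - 1` is coprime to `P`. -/
theorem coprime_half' {P p : ℕ} (hP : P.Prime) (hp4 : p % 4 = 3)
    (h : ¬ IsSquare (p : ZMod P)) : IsCoprime ((p / 2 : ℕ) : ℤ) (P : ℤ) := by
  rw [Nat.isCoprime_iff_coprime, Nat.Coprime, Nat.gcd_comm]
  change Nat.Coprime P (p / 2)
  rw [Nat.Prime.coprime_iff_not_dvd hP]
  rintro ⟨c, hc⟩
  apply h
  have h1 : p = P * (2 * c) + 1 := by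
    have : P * (2 * c) = 2 * (P * c) := by ring
    omega
  rw [h1]
  push_cast
  rw [ZMod.natCast_self, zero_mul, zero_add]
  exact IsSquare.one

end Pool.Agent.Helper66.GV.CK
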