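import Pool.Agent.Helper66.GV.CKTwo

/-!
# The theorem of Carter and Keller: `SL(2, ℤ)` is bounded in `SL(3, ℤ)`
-/

open Matrix
open scoped MatrixGroups Pointwise Matrix.SpecialLinearGroup

namespace Pool.Agent.Helper66.GV

/-- The image of a bounded family under a homomorphism. -/
theorem Born.comap {G H : Type*} [Group G] [Group H] {U : Set H → Prop} (hU : Born U)
    (φ : G →* H) : Born (fun X => U (φ '' X)) where
  mono := fun hX hYX => hU.mono hX (Set.image_mono hYX)
  union := by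
    intro X Y hX hY
    rw [Set.image_union]
    exact hU.union hX hY
  single := by
    intro g
    rw [Set.image_singleton]
    exact hU.single _
  mul := by
    intro X Y hX hY
    refine hU.mono (hU.mul hX hY) ?_
    rintro _ ⟨_, ⟨x, hx, y, hy, rfl⟩, rfl⟩
    exact ⟨φ x, ⟨x, hx, rfl⟩, φ y, ⟨y, hy, rfl⟩, (map_mul φ x y).symm⟩

namespace CK

theorem transpose_mul {n : Type*} [Fintype n] [DecidableEq n] (A B : SpecialLinearGroup n ℤ) :
    (A * B)ᵀ = Bᵀ * Aᵀ := Subtype.ext (Matrix.transpose_mul A.1 B.1)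

theorem transpose_transpose {n : Type*} [Fintype n] [DecidableEq n]
    (A : SpecialLinearGroup n ℤ) : Aᵀᵀ = A := Subtype.ext (Matrix.transpose_transpose A.1)

theorem transpose_transvection {n : Type*} [Fintype n] [DecidableEq n] {i j : n} (h : i ≠ j)
    (t : ℤ) : (Matrix.SpecialLinearGroup.transvection h t)ᵀ =
      Matrix.SpecialLinearGroup.transvection h.symm t := by
  apply Subtype.ext
  change (Matrix.transvection i j t).transpose = Matrix.transvection j i t
  simp [Matrix.transvection]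

theorem born_transpose {n : Type*} [Fintype n] [DecidableEq n]
    {U : Set (SpecialLinearGroup n ℤ) → Prop} (hU : Born U) :
    Born (fun X => U {x | xᵀ ∈ X}) where
  mono := fun hX hYX => hU.mono hX fun x hx => hYX hx
  union := fun hX hY => hU.union hX hY
  single := by
    intro g
    refine hU.mono (hU.single gᵀ) ?_
    rintro x hx
    change xᵀ = g at hx
    rw [Set.mem_singleton_iff, ← hx, transpose_transpose]
  mul := by
    intro X Y hX hY
    refine hU.mono (hU.mul hY hX) ?_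
    rintro z ⟨x, hx, y, hy, hz⟩
    change x * y = zᵀ at hz
    refine ⟨yᵀ, ?_, xᵀ, ?_, ?_⟩
    · change yᵀᵀ ∈ Y
      rwa [transpose_transpose]
    · change xᵀᵀ ∈ X
      rwa [transpose_transpose]
    · change yᵀ * xᵀ = z
      rw [← transpose_mul, hz, transpose_transpose]

/-- The embedding as a homomorphism. -/
def ioHom : SL(2, ℤ) →* SL(3, ℤ) where
  toFun := io
  map_one' := io_one
  map_mul' := io_mul

theorem ckb_of_three {U : Set SL(3, ℤ) → Prop} (hU : Born U)
    (hE : ∀ (i j : Fin 3) (h : i ≠ j), U (Set.range (E i j h))) :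
    CKB (fun X => U (ioHom '' X)) where
  toBorn := hU.comap ioHom
  up := by
    refine hU.mono (hE 1 2 (by decide)) ?_
    rintro _ ⟨_, ⟨t, rfl⟩, rfl⟩
    exact ⟨t, (io_up t).symm⟩
  lo := by
    refine hU.mono (hE 2 1 (by decide)) ?_
    rintro _ ⟨_, ⟨t, rfl⟩, rfl⟩
    exact ⟨t, (io_lo t).symm⟩
  mulRule := by
    intro D₁ D₂ h₁ h₂
    refine hU.mono (hU.mul (hU.mul (hU.mul (hU.mul (hU.mul (hU.mul (hU.mul (hU.mul (hU.mul
      (hE 2 1 (by decide)) (hU.single c₁)) (hE 0 2 (by decide))) h₁) (hU.single c₂)) h₂)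
      (hU.single c₃)) (hE 1 0 (by decide))) (hE 0 1 (by decide))) (hE 0 2 (by decide))) ?_
    rintro _ ⟨A, ⟨b₁, b₂, hb, hD₁, hD₂⟩, rfl⟩
    have hdet := det2 A
    rw [hb] at hdet
    have hA : A = fa (A 0 0) (b₁ * b₂) (A 1 0) (A 1 1) hdet := ext2 rfl hb rfl rfl
    have key := mult_identity (A 0 0) b₁ b₂ (A 1 0) (A 1 1) hdet
    rw [← hA] at key
    change io A ∈ _
    rw [key]
    refine Set.mul_mem_mul (Set.mul_mem_mul (Set.mul_mem_mul (Set.mul_mem_mul (Set.mul_mem_mul
      (Set.mul_mem_mul (Set.mul_mem_mul (Set.mul_mem_mul (Set.mul_mem_mul ⟨_, rfl⟩ rfl) ⟨_, rfl⟩)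
      ⟨_, ?_, rfl⟩) rfl) ⟨_, ?_, rfl⟩) rfl) ⟨_, rfl⟩) ⟨_, rfl⟩) ⟨_, rfl⟩
    · exact hD₁
    · exact hD₂

theorem io_transpose (A : SL(2, ℤ)) : io Aᵀ = (io A)ᵀ := by
  ext i j
  fin_cases i <;> fin_cases j <;> simp [io]

theorem ckb_transpose {U : Set SL(3, ℤ) → Prop} (hU : Born U)
    (hE : ∀ (i j : Fin 3) (h : i ≠ j), U (Set.range (E i j h))) :
    CKB (fun X => U (ioHom '' {A | Aᵀ ∈ X})) := by
  have h1 := ckb_of_three (born_transpose hU) (fun i j h => by
    refine hU.mono (hE j i h.symm) ?_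
    rintro x ⟨t, ht⟩
    refine ⟨t, ?_⟩
    have h2 := congrArg SpecialLinearGroup.transpose ht
    rw [transpose_transpose] at h2
    rw [← h2]
    exact (transpose_transvection h t).symm)
  have h2 : (fun X : Set SL(2, ℤ) => U (ioHom '' {A : SL(2, ℤ) | Aᵀ ∈ X})) =
      fun X : Set SL(2, ℤ) => U {x : SL(3, ℤ) | xᵀ ∈ ioHom '' X} := by
    funext X
    congr 1
    ext x
    constructor
    · rintro ⟨A, hA, rfl⟩
      exact ⟨Aᵀ, hA, io_transpose A⟩
    · rintro ⟨A, hA, hx⟩
      change io A = xᵀ at hx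
      refine ⟨Aᵀ, ?_, ?_⟩
      · change Aᵀᵀ ∈ X
        rwa [transpose_transpose]
      · change io Aᵀ = x
        rw [io_transpose, hx, transpose_transpose]
  rw [h2]
  exact h1

/-- `SL(2, ℤ)` is bounded in `SL(3, ℤ)`. -/
theorem two_in_three {U : Set SL(3, ℤ) → Prop} (hU : Born U)
    (hE : ∀ (i j : Fin 3) (h : i ≠ j), U (Set.range (E i j h))) : U (Set.range ioHom) := by
  rw [← Set.image_univ]
  exact (ckb_of_three hU hE).univ (ckb_transpose hU hE)

end CK

end Pool.Agent.Helper66.GV
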