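import Pool.Agent.Helper66.GV.CKBase

/-!
# The theorem of Carter and Keller: reduction of the size of the matrices
-/

open Matrix
open scoped MatrixGroups Pointwise Matrix.SpecialLinearGroup

namespace Pool.Agent.Helper66.GV.CK

section Rows

variable {n : Type*} [Fintype n] [DecidableEq n]

/-- Matrices which differ from the identity in some entries of one row. -/
def RS (i : n) (S : Finset n) : Set (SpecialLinearGroup n ℤ) :=
  {g | ∀ a b, ¬ (a = i ∧ b ∈ S) → g a b = (1 : Matrix n n ℤ) a b}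

theorem rs_bdd {U : Set (SpecialLinearGroup n ℤ) → Prop} (hU : Born U)
    (hE : ∀ (i j : n) (h : i ≠ j),
      U (Set.range fun t : ℤ => Matrix.SpecialLinearGroup.transvection h t))
    (i : n) (S : Finset n) (hi : i ∉ S) : U (RS i S) := by
  induction S using Finset.induction_on with
  | empty =>
    refine hU.mono (hU.single 1) ?_
    rintro g hg
    apply Matrix.SpecialLinearGroup.ext
    intro a b
    exact hg a b (fun h => Finset.notMem_empty _ h.2)
  | insert j S hj ih =>
    have hij : i ≠ j := by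
      rintro rfl
      exact hi (Finset.mem_insert_self _ _)
    have hiS : i ∉ S := fun h => hi (Finset.mem_insert_of_mem h)
    refine hU.mono (hU.mul (hE i j hij) (ih hiS)) ?_
    intro g hg
    refine ⟨_, ⟨g i j, rfl⟩, Matrix.SpecialLinearGroup.transvection hij (-(g i j)) * g, ?_, ?_⟩
    · intro a b hab
      change (Matrix.transvection i j (-(g i j)) * g.1) a b = _
      have hjj : g.1 j b = (1 : Matrix n n ℤ) j b := hg j b (fun h => hij h.1.symm)
      by_cases ha : a = i
      · subst ha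
        rw [Matrix.transvection_mul_apply_same, hjj]
        by_cases hb : b = j
        · subst hb
          rw [Matrix.one_apply_eq, mul_one, add_neg_cancel, Matrix.one_apply_ne hij]
        · rw [Matrix.one_apply_ne (Ne.symm hb), mul_zero, add_zero]
          apply hg
          rintro ⟨-, h⟩
          rcases Finset.mem_insert.mp h with h | h
          · exact hb h
          · exact hab ⟨rfl, h⟩
      · rw [Matrix.transvection_mul_apply_of_ne _ _ a b ha]
        exact hg a b (fun h => ha h.1)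
    · change Matrix.SpecialLinearGroup.transvection hij (g i j) *
        (Matrix.SpecialLinearGroup.transvection hij (-(g i j)) * g) = g
      rw [← mul_assoc, Matrix.SpecialLinearGroup.transvection_mul_neg, one_mul]

/-- Elementary row matrices. -/
def rowEl (i : n) (v : n → ℤ) (hv : v i = 0) : SpecialLinearGroup n ℤ :=
  ⟨1 + replicateCol Unit (Pi.single i (1 : ℤ)) * replicateRow Unit v, by
    rw [det_one_add_replicateCol_mul_replicateRow]
    simp [hv]⟩

theorem rowEl_apply (i : n) (v : n → ℤ) (hv : v i = 0) (a b : n) :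
    rowEl i v hv a b = (1 : Matrix n n ℤ) a b + if a = i then v b else 0 := by
  change ((1 : Matrix n n ℤ) + replicateCol Unit (Pi.single i (1 : ℤ)) * replicateRow Unit v) a b = _
  rw [Matrix.add_apply, Matrix.mul_apply]
  simp [Pi.single_apply]

theorem rowEl_mul (i : n) (v : n → ℤ) (hv : v i = 0) (g : SpecialLinearGroup n ℤ) (a b : n) :
    (rowEl i v hv * g) a b = g a b + if a = i then ∑ k, v k * g k b else 0 := by
  change ((rowEl i v hv).1 * g.1) a b = _
  rw [Matrix.mul_apply]
  simp only [rowEl_apply, add_mul, Finset.sum_add_distrib, Matrix.one_apply, ite_mul, one_mul,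
    zero_mul, Finset.sum_ite_eq, Finset.mem_univ, if_true]
  split_ifs
  · rfl
  · simp

theorem rowEl_inv (i : n) (v : n → ℤ) (hv : v i = 0) (hv' : (-v) i = 0) :
    rowEl i (-v) hv' * rowEl i v hv = 1 := by
  apply Matrix.SpecialLinearGroup.ext
  intro a b
  rw [rowEl_mul, rowEl_apply]
  change _ = (1 : Matrix n n ℤ) a b
  split_ifs with h
  · subst h
    have h1 : ∑ k, (-v) k * rowEl a v hv k b = - v b := by
      have h2 : ∀ k, (-v) k * rowEl a v hv k b = -(v k * (1 : Matrix n n ℤ) k b) := by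
        intro k
        rw [rowEl_apply]
        by_cases hk : k = a
        · subst hk
          simp [hv]
        · simp [hk]
      simp only [h2, Matrix.one_apply, mul_ite, mul_one, mul_zero, Finset.sum_neg_distrib,
        Finset.sum_ite_eq', Finset.mem_univ, if_true]
    rw [h1]
    ring
  · ring

theorem rowEl_mem (i : n) (v : n → ℤ) (hv : v i = 0) : rowEl i v hv ∈ RS i (Finset.univ.erase i) := by
  intro a b hab
  rw [rowEl_apply]
  by_cases ha : a = i
  · subst ha
    have hb : b = a := by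
      by_contra hb
      exact hab ⟨rfl, by simp [hb]⟩
    subst hb
    simp [hv]
  · simp [ha]

theorem row_bdd {U : Set (SpecialLinearGroup n ℤ) → Prop} (hU : Born U)
    (hE : ∀ (i j : n) (h : i ≠ j),
      U (Set.range fun t : ℤ => Matrix.SpecialLinearGroup.transvection h t))
    (i : n) : U {g | ∃ v hv, g = rowEl i v hv} := by
  refine hU.mono (rs_bdd hU hE i (Finset.univ.erase i) (Finset.notMem_erase _ _)) ?_
  rintro _ ⟨v, hv, rfl⟩
  exact rowEl_mem i v hv

/-- Elementary column matrices. -/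
def colEl (i : n) (v : n → ℤ) (hv : v i = 0) : SpecialLinearGroup n ℤ := (rowEl i v hv)ᵀ

theorem colEl_mul (i : n) (v : n → ℤ) (hv : v i = 0) (g : SpecialLinearGroup n ℤ) (a b : n) :
    (colEl i v hv * g) a b = g a b + v a * g i b := by
  change ((rowEl i v hv).1.transpose * g.1) a b = _
  rw [Matrix.mul_apply]
  simp only [Matrix.transpose_apply]
  have h1 : ∀ k, rowEl i v hv k a * g k b =
      (if k = a then g k b else 0) + (if k = i then v a * g k b else 0) := by
    intro k
    rw [rowEl_apply, Matrix.one_apply, add_mul]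
    congr 1
    · split_ifs <;> simp
    · split_ifs <;> simp
  change ∑ k, rowEl i v hv k a * g k b = _
  simp only [h1, Finset.sum_add_distrib, Finset.sum_ite_eq', Finset.mem_univ, if_true]

theorem colEl_inv (i : n) (v : n → ℤ) (hv : v i = 0) (hv' : (-v) i = 0) :
    colEl i (-v) hv' * colEl i v hv = 1 := by
  unfold colEl
  rw [← transpose_mul]
  have h1 : rowEl i v hv * rowEl i (-v) hv' = 1 := by
    have := rowEl_inv i (-v) hv' (by simp [hv])
    simpa using this
  rw [h1]
  exact Subtype.ext Matrix.transpose_one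

theorem col_bdd {U : Set (SpecialLinearGroup n ℤ) → Prop} (hU : Born U)
    (hE : ∀ (i j : n) (h : i ≠ j),
      U (Set.range fun t : ℤ => Matrix.SpecialLinearGroup.transvection h t))
    (i : n) : U {g | ∃ v hv, g = colEl i v hv} := by
  have h1 := row_bdd (born_transpose hU) (fun i j h => by
    refine hU.mono (hE j i h.symm) ?_
    rintro x ⟨t, ht⟩
    refine ⟨t, ?_⟩
    have h2 := congrArg SpecialLinearGroup.transpose ht
    rw [transpose_transpose] at h2
    rw [← h2]
    exact (transpose_transvection h t).symm) i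
  refine hU.mono h1 ?_
  rintro g ⟨v, hv, rfl⟩
  exact ⟨v, hv, transpose_transpose _⟩

end Rows

section Stable

theorem exists_coprime {a b c x y s : ℤ} (hc : c ≠ 0) (h : x * a + y * b + s * c = 1) :
    ∃ t : ℤ, IsCoprime (b + t * a) c := by
  rcases eq_or_ne a 0 with rfl | ha
  · exact ⟨0, y, s, by linear_combination h⟩
  · have hg0 : ((Int.gcd a b : ℕ) : ℤ) ≠ 0 := by
      rw [Int.natCast_ne_zero]
      exact fun h0 => ha (Int.gcd_eq_zero_iff.mp h0).1
    obtain ⟨a', ha'⟩ : ((Int.gcd a b : ℕ) : ℤ) ∣ a := Int.gcd_dvd_left _ _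
    obtain ⟨b', hb'⟩ : ((Int.gcd a b : ℕ) : ℤ) ∣ b := Int.gcd_dvd_right _ _
    have hgab := Int.gcd_eq_gcd_ab a b
    set g : ℤ := ((Int.gcd a b : ℕ) : ℤ) with hg
    have ha'0 : a' ≠ 0 := by
      rintro rfl
      exact ha (by rw [ha', mul_zero])
    have hcop : IsCoprime b' (a'.natAbs : ℤ) := by
      have h1 : IsCoprime b' a' := by
        refine ⟨Int.gcdB a b, Int.gcdA a b, ?_⟩
        apply mul_left_cancel₀ hg0
        calc g * (Int.gcdB a b * b' + Int.gcdA a b * a') =
            (g * a') * Int.gcdA a b + (g * b') * Int.gcdB a b := by ring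
          _ = g * 1 := by rw [← ha', ← hb', mul_one]; exact hgab.symm
      rw [Int.natCast_natAbs]
      rcases abs_choice a' with h2 | h2 <;> rw [h2]
      · exact h1
      · exact h1.neg_right
    obtain ⟨p, hp, hpp, hmod⟩ := Nat.forall_exists_prime_gt_and_zmodEq c.natAbs
      (Int.natAbs_ne_zero.mpr ha'0) hcop
    have hd : a' ∣ b' - p := by
      have h1 := Int.modEq_iff_dvd.mp hmod
      rwa [Int.natAbs_dvd] at h1
    obtain ⟨t, ht⟩ := hd
    refine ⟨-t, ?_⟩
    have h1 : b + -t * a = g * p := by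
      calc b + -t * a = g * b' + -t * (g * a') := by rw [← ha', ← hb']
        _ = g * p := by linear_combination g * ht
    rw [h1]
    apply IsCoprime.mul_left
    · refine ⟨x * a' + y * b', s, ?_⟩
      calc (x * a' + y * b') * g + s * c = x * (g * a') + y * (g * b') + s * c := by ring
        _ = 1 := by rw [← ha', ← hb', h]
    · rw [Int.isCoprime_iff_gcd_eq_one, Int.gcd_def, Int.natAbs_natCast,
        ← Nat.coprime_iff_gcd_eq_one, Nat.Prime.coprime_iff_not_dvd hpp]
      intro hdvd
      have h2 := Nat.le_of_dvd (Nat.pos_of_ne_zero (Int.natAbs_ne_zero.mpr hc)) hdvd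
      omega

theorem stable {k : ℕ} (a x : Fin (k + 3) → ℤ) (h : ∑ i, x i * a i = 1) :
    ∃ t y : Fin (k + 2) → ℤ, ∑ i, y i * (a i.succ + t i * a 0) = 1 := by
  set b : Fin (k + 1) → ℤ := fun i => a i.succ.succ with hb
  obtain ⟨c, hc⟩ := (IsPrincipalIdealRing.principal (Ideal.span (Set.range b))).principal
  have hcb : ∀ i, c ∣ b i := by
    intro i
    rw [← Ideal.mem_span_singleton]
    change b i ∈ Submodule.span ℤ {c}
    rw [← hc]
    exact Ideal.subset_span ⟨i, rfl⟩
  have hcs : ∃ z : Fin (k + 1) → ℤ, ∑ i, z i * b i = c := by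
    have h1 : c ∈ Ideal.span (Set.range b) := by
      rw [hc]
      exact Submodule.mem_span_singleton_self c
    have h2 := (Submodule.mem_span_range_iff_exists_fun ℤ).mp h1
    exact h2
  obtain ⟨z, hz⟩ := hcs
  choose w hw using hcb
  rw [Fin.sum_univ_succ, Fin.sum_univ_succ] at h
  have h3 : ∑ i : Fin (k + 1), x i.succ.succ * a i.succ.succ =
      (∑ i : Fin (k + 1), x i.succ.succ * w i) * c := by
    rw [Finset.sum_mul]
    refine Finset.sum_congr rfl fun i _ => ?_
    rw [mul_assoc, mul_comm (w i) c, ← hw i]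
  rw [h3] at h
  rcases eq_or_ne c 0 with h0 | h0
  · rw [h0, mul_zero, add_zero] at h
    have hb0 : ∀ i : Fin (k + 1), a i.succ.succ = 0 := by
      intro i
      have := hw i
      rw [h0, zero_mul] at this
      exact this
    refine ⟨Fin.cons 0 (Fin.cons 1 0), Fin.cons (x (Fin.succ 0)) (Fin.cons (x 0) 0), ?_⟩
    rw [Fin.sum_univ_succ, Fin.sum_univ_succ]
    simp only [Fin.cons_zero, Fin.cons_succ, hb0]
    simp only [Pi.zero_apply, zero_mul, Finset.sum_const_zero, add_zero, zero_add, one_mul]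
    linear_combination h
  · obtain ⟨t, u, v, huv⟩ := exists_coprime (a := a 0) (b := a (Fin.succ 0)) (c := c) (x := x 0)
      (y := x (Fin.succ 0)) (s := ∑ i : Fin (k + 1), x i.succ.succ * w i) h0
      (by linear_combination h)
    refine ⟨Fin.cons t 0, Fin.cons u (fun i : Fin (k + 1) => v * z i), ?_⟩
    rw [Fin.sum_univ_succ]
    simp only [Fin.cons_zero, Fin.cons_succ, Pi.zero_apply, zero_mul, add_zero]
    have h4 : ∑ i : Fin (k + 1), v * z i * a i.succ.succ = v * c := by
      rw [← hz, Finset.mul_sum]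
      refine Finset.sum_congr rfl fun i _ => ?_
      rw [mul_assoc]
    rw [h4]
    exact huv

end Stable

section Emb

variable {m : ℕ}

/-- The block sum with the identity. -/
def embM (A : Matrix (Fin m) (Fin m) ℤ) : Matrix (Fin (m + 1)) (Fin (m + 1)) ℤ :=
  Matrix.of (Fin.cons (Fin.cons 1 0) fun i => Fin.cons 0 (A i))

theorem embM_zero_zero (A : Matrix (Fin m) (Fin m) ℤ) : embM A 0 0 = 1 := rfl

theorem embM_zero_succ (A : Matrix (Fin m) (Fin m) ℤ) (j : Fin m) : embM A 0 j.succ = 0 := rfl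

theorem embM_succ_zero (A : Matrix (Fin m) (Fin m) ℤ) (i : Fin m) : embM A i.succ 0 = 0 := rfl

theorem embM_succ_succ (A : Matrix (Fin m) (Fin m) ℤ) (i j : Fin m) :
    embM A i.succ j.succ = A i j := rfl

theorem det_of_col {A : Matrix (Fin (m + 1)) (Fin (m + 1)) ℤ} (h0 : A 0 0 = 1)
    (h : ∀ i : Fin m, A i.succ 0 = 0) : A.det = (A.submatrix Fin.succ Fin.succ).det := by
  rw [det_succ_column_zero, Fin.sum_univ_succ]
  simp [h0, h, Fin.succAbove_zero]

theorem embM_mul (A B : Matrix (Fin m) (Fin m) ℤ) : embM (A * B) = embM A * embM B := by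
  ext i j
  rw [Matrix.mul_apply, Fin.sum_univ_succ]
  refine Fin.cases ?_ (fun i => ?_) i <;> refine Fin.cases ?_ (fun j => ?_) j <;>
    simp [embM_zero_zero, embM_zero_succ, embM_succ_zero, embM_succ_succ, Matrix.mul_apply]

theorem embM_one : embM (1 : Matrix (Fin m) (Fin m) ℤ) = 1 := by
  ext i j
  refine Fin.cases ?_ (fun i => ?_) i <;> refine Fin.cases ?_ (fun j => ?_) j <;>
    simp [embM_zero_zero, embM_zero_succ, embM_succ_zero, embM_succ_succ, Matrix.one_apply,
      Fin.succ_ne_zero, (Fin.succ_ne_zero _).symm]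

/-- The embedding of `SL(m)` into `SL(m+1)`. -/
def emb : SpecialLinearGroup (Fin m) ℤ →* SpecialLinearGroup (Fin (m + 1)) ℤ where
  toFun A := ⟨embM A.1, by
    rw [det_of_col (embM_zero_zero _) (embM_succ_zero _)]
    exact A.2⟩
  map_one' := Subtype.ext embM_one
  map_mul' := fun A B => Subtype.ext (embM_mul A.1 B.1)

theorem emb_transvection {i j : Fin m} (h : i ≠ j) (t : ℤ) :
    emb (Matrix.SpecialLinearGroup.transvection h t) =
      Matrix.SpecialLinearGroup.transvection (fun h' => h (Fin.succ_injective _ h')) t := by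
  apply Subtype.ext
  change embM (Matrix.transvection i j t) = Matrix.transvection i.succ j.succ t
  ext a b
  refine Fin.cases ?_ (fun a => ?_) a <;> refine Fin.cases ?_ (fun b => ?_) b <;>
    simp [embM_zero_zero, embM_zero_succ, embM_succ_zero, embM_succ_succ, Matrix.transvection,
      Matrix.one_apply, Matrix.single_apply, Fin.succ_ne_zero, (Fin.succ_ne_zero _).symm]

end Emb

section Reduction

variable {k : ℕ}

/-- The reduction from `SL(m+1)` to `SL(m)`. -/
theorem reduction {U : Set (SpecialLinearGroup (Fin (k + 3)) ℤ) → Prop} (hU : Born U)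
    (hE : ∀ (i j : Fin (k + 3)) (h : i ≠ j),
      U (Set.range fun t : ℤ => Matrix.SpecialLinearGroup.transvection h t))
    (hemb : U (Set.range (emb (m := k + 2)))) : U Set.univ := by
  have hC := col_bdd hU hE 0
  have hR := row_bdd hU hE 0
  refine hU.mono (hU.mul (hU.mul (hU.mul (hU.mul hC hR) hC) hemb) hR) ?_
  rintro g -
  -- the first column is unimodular
  have hx : ∑ i, (g⁻¹) 0 i * g i 0 = 1 := by
    have h1 : (g⁻¹ * g) 0 0 = 1 := by
      rw [inv_mul_cancel]
      rfl
    change (g⁻¹.1 * g.1) 0 0 = 1 at h1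
    rwa [Matrix.mul_apply] at h1
  obtain ⟨t, y, hty⟩ := stable (fun i => g i 0) (fun i => (g⁻¹) 0 i) hx
  -- the first step
  set v₁ : Fin (k + 3) → ℤ := Fin.cons 0 t with hv₁
  set g₁ := colEl 0 v₁ rfl * g with hg₁
  have h1 : ∀ i : Fin (k + 2), g₁ i.succ 0 = g i.succ 0 + t i * g 0 0 := by
    intro i
    rw [hg₁, colEl_mul]
    rfl
  -- the second step
  set v₂ : Fin (k + 3) → ℤ := Fin.cons 0 fun i => (1 - g₁ 0 0) * y i with hv₂
  set g₂ := rowEl 0 v₂ rfl * g₁ with hg₂
  have h2 : g₂ 0 0 = 1 := by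
    rw [hg₂, rowEl_mul, if_pos rfl, Fin.sum_univ_succ]
    simp only [hv₂, Fin.cons_zero, Fin.cons_succ, zero_mul, zero_add]
    have h3 : ∑ i, (1 - g₁ 0 0) * y i * g₁ i.succ 0 = 1 - g₁ 0 0 := by
      have h4 : ∀ i, (1 - g₁ 0 0) * y i * g₁ i.succ 0 =
          (1 - g₁ 0 0) * (y i * (g i.succ 0 + t i * g 0 0)) := by
        intro i
        rw [h1 i]
        ring
      simp only [h4]
      rw [← Finset.mul_sum, hty, mul_one]
    rw [h3]
    ring
  -- the third step
  set v₃ : Fin (k + 3) → ℤ := Fin.cons 0 fun i => -g₂ i.succ 0 with hv₃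
  set g₃ := colEl 0 v₃ rfl * g₂ with hg₃
  have h3 : g₃ 0 0 = 1 := by
    rw [hg₃, colEl_mul, h2]
    simp [hv₃]
  have h3' : ∀ i : Fin (k + 2), g₃ i.succ 0 = 0 := by
    intro i
    rw [hg₃, colEl_mul, h2]
    simp [hv₃]
  -- the last step
  set A : SpecialLinearGroup (Fin (k + 2)) ℤ := ⟨g₃.1.submatrix Fin.succ Fin.succ, by
    rw [← det_of_col h3 h3']
    exact g₃.2⟩ with hA
  set v₄ : Fin (k + 3) → ℤ := Fin.cons 0 fun i => g₃ 0 i.succ with hv₄
  have h4 : g₃ = emb A * rowEl 0 v₄ rfl := by
    apply Matrix.SpecialLinearGroup.ext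
    intro a b
    change _ = (embM A.1 * (rowEl 0 v₄ rfl).1) a b
    rw [Matrix.mul_apply, Fin.sum_univ_succ]
    have hr : ∀ i j, (rowEl 0 v₄ rfl).1 i j = (1 : Matrix (Fin (k + 3)) (Fin (k + 3)) ℤ) i j +
        if i = 0 then v₄ j else 0 := rowEl_apply 0 v₄ rfl
    simp only [hr]
    refine Fin.cases ?_ (fun a => ?_) a <;> refine Fin.cases ?_ (fun b => ?_) b
    · simp [embM_zero_zero, embM_zero_succ, h3, hv₄]
    · simp [embM_zero_zero, embM_zero_succ, hv₄, Matrix.one_apply, (Fin.succ_ne_zero _).symm]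
    · simp [embM_succ_zero, embM_succ_succ, h3', Matrix.one_apply]
    · simp [embM_succ_zero, embM_succ_succ, hA, Matrix.one_apply]
  have hn : ∀ v : Fin (k + 3) → ℤ, v 0 = 0 → (-v) 0 = 0 := by
    intro v hv
    simp [hv]
  have e₁ : g = colEl 0 (-v₁) (hn _ rfl) * g₁ := by
    rw [hg₁, ← mul_assoc, colEl_inv, one_mul]
  have e₂ : g₁ = rowEl 0 (-v₂) (hn _ rfl) * g₂ := by
    rw [hg₂, ← mul_assoc, rowEl_inv, one_mul]
  have e₃ : g₂ = colEl 0 (-v₃) (hn _ rfl) * g₃ := by
    rw [hg₃, ← mul_assoc, colEl_inv, one_mul]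
  have e₄ : g = colEl 0 (-v₁) (hn _ rfl) * rowEl 0 (-v₂) (hn _ rfl) * colEl 0 (-v₃) (hn _ rfl) *
      emb A * rowEl 0 v₄ rfl := by
    calc g = colEl 0 (-v₁) (hn _ rfl) * (rowEl 0 (-v₂) (hn _ rfl) * (colEl 0 (-v₃) (hn _ rfl) *
        (emb A * rowEl 0 v₄ rfl))) := by rw [← h4, ← e₃, ← e₂, ← e₁]
      _ = _ := by simp only [mul_assoc]
  rw [e₄]
  exact Set.mul_mem_mul (Set.mul_mem_mul (Set.mul_mem_mul (Set.mul_mem_mul ⟨_, _, rfl⟩
    ⟨_, _, rfl⟩) ⟨_, _, rfl⟩) ⟨_, rfl⟩) ⟨_, _, rfl⟩

theorem emb_two : ∀ A : SL(2, ℤ), emb A = ioHom A := by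
  intro A
  apply Matrix.SpecialLinearGroup.ext
  intro i j
  change embM A.1 i j = (io A).1 i j
  refine Fin.cases ?_ (fun i => ?_) i <;> refine Fin.cases ?_ (fun j => ?_) j
  · rfl
  · rw [embM_zero_succ]
    fin_cases j <;> rfl
  · rw [embM_succ_zero]
    fin_cases i <;> rfl
  · rw [embM_succ_succ]
    fin_cases i <;> fin_cases j <;> rfl

/-- The theorem of Carter and Keller: `SL(m, ℤ)` is boundedly generated by elementary matrices. -/
theorem carter_keller : ∀ (k : ℕ) {U : Set (SpecialLinearGroup (Fin (k + 3)) ℤ) → Prop}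
    (_ : Born U) (_ : ∀ (i j : Fin (k + 3)) (h : i ≠ j),
      U (Set.range fun t : ℤ => Matrix.SpecialLinearGroup.transvection h t)), U Set.univ := by
  intro k
  induction k with
  | zero =>
    intro U hU hE
    refine reduction hU hE ?_
    have h1 := two_in_three hU hE
    refine hU.mono h1 ?_
    rintro _ ⟨A, rfl⟩
    exact ⟨A, (emb_two A).symm⟩
  | succ k ih =>
    intro U hU hE
    refine reduction hU hE ?_
    rw [← Set.image_univ]
    refine ih (hU.comap (emb (m := k + 3))) ?_
    intro i j h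
    refine hU.mono (hE i.succ j.succ (fun h' => h (Fin.succ_injective _ h'))) ?_
    rintro _ ⟨_, ⟨t, rfl⟩, rfl⟩
    exact ⟨t, (emb_transvection h t).symm⟩

end Reduction

end Pool.Agent.Helper66.GV.CK
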