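import Pool.Agent.Helper66.GV.BornDef
import Pool.Agent.Helper66.GV.CKArith

/-!
# The theorem of Carter and Keller: the multiplicativity of bounded sets in `SL(3, ℤ)`
-/

open Matrix
open scoped MatrixGroups Pointwise

namespace Pool.Agent.Helper66.GV.CK

/-- The upper triangular unipotents. -/
def up (t : ℤ) : SL(2, ℤ) := ⟨!![1, t; 0, 1], by simp [det_fin_two]⟩

/-- The lower triangular unipotents. -/
def lo (t : ℤ) : SL(2, ℤ) := ⟨!![1, 0; t, 1], by simp [det_fin_two]⟩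

/-- The embedding of `SL(2)` into `SL(3)`. -/
def io (A : SL(2, ℤ)) : SL(3, ℤ) :=
  ⟨!![1, 0, 0; 0, A 0 0, A 0 1; 0, A 1 0, A 1 1], by
    have h := A.det_coe
    rw [det_fin_two] at h
    simp [det_fin_three, h]⟩

theorem io_mul (A B : SL(2, ℤ)) : io (A * B) = io A * io B := by
  ext i j
  fin_cases i <;> fin_cases j <;>
    simp [io, Matrix.mul_apply, Fin.sum_univ_succ]

theorem io_one : io 1 = 1 := by
  ext i j
  fin_cases i <;> fin_cases j <;> simp [io]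

/-- Elementary matrices. -/
abbrev E (i j : Fin 3) (h : i ≠ j) (t : ℤ) : SL(3, ℤ) := SpecialLinearGroup.transvection h t

theorem io_up (t : ℤ) : io (up t) = E 1 2 (by decide) t := by
  ext i j
  fin_cases i <;> fin_cases j <;>
    simp [io, up, SpecialLinearGroup.transvection_coe]

theorem io_lo (t : ℤ) : io (lo t) = E 2 1 (by decide) t := by
  ext i j
  fin_cases i <;> fin_cases j <;>
    simp [io, lo, SpecialLinearGroup.transvection_coe]

/-- A constant matrix. -/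
def c₁ : SL(3, ℤ) := ⟨!![0, 0, 1; 0, 1, 0; -1, 0, 0], by simp [det_fin_three]⟩
/-- A constant matrix. -/
def c₂ : SL(3, ℤ) := ⟨!![0, 0, -1; -1, 0, 0; 0, 1, 0], by simp [det_fin_three]⟩
/-- A constant matrix. -/
def c₃ : SL(3, ℤ) := ⟨!![0, -1, 0; 1, 0, 0; 0, 0, 1], by simp [det_fin_three]⟩

/-- The two factors. -/
def fa (a b c d : ℤ) (h : a * d - b * c = 1) : SL(2, ℤ) :=
  ⟨!![a, b; c, d], by rw [det_fin_two]; simpa using h⟩

theorem mult_identity_matrix (a b₁ b₂ c d : ℤ) (h : a * d - b₁ * b₂ * c = 1) :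
    (!![1, 0, 0; 0, a, b₁ * b₂; 0, c, d] : Matrix (Fin 3) (Fin 3) ℤ) =
      !![1, 0, 0; 0, 1, 0; 0, c * d, 1] * !![0, 0, 1; 0, 1, 0; -1, 0, 0] *
      !![1, 0, b₁ * c; 0, 1, 0; 0, 0, 1] * !![1, 0, 0; 0, a, b₁; 0, b₂ * c, d] *
      !![0, 0, -1; -1, 0, 0; 0, 1, 0] * !![1, 0, 0; 0, a, b₂; 0, b₁ * c, d] *
      !![0, -1, 0; 1, 0, 0; 0, 0, 1] * !![1, 0, 0; -b₁, 1, 0; 0, 0, 1] *
      !![1, -(b₂ * c), 0; 0, 1, 0; 0, 0, 1] * !![1, 0, -(d * b₂); 0, 1, 0; 0, 0, 1] := by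
  ext i j
  fin_cases i <;> fin_cases j <;>
    simp [Matrix.mul_apply, Fin.sum_univ_succ] <;> grind

theorem E_coe (i j : Fin 3) (h : i ≠ j) (t : ℤ) :
    ((E i j h t : SL(3, ℤ)) : Matrix (Fin 3) (Fin 3) ℤ) = Matrix.transvection i j t := rfl

theorem tv_eq (t : ℤ) :
    Matrix.transvection (2 : Fin 3) 1 t = !![1, 0, 0; 0, 1, 0; 0, t, 1] ∧
    Matrix.transvection (0 : Fin 3) 2 t = !![1, 0, t; 0, 1, 0; 0, 0, 1] ∧
    Matrix.transvection (1 : Fin 3) 0 t = !![1, 0, 0; t, 1, 0; 0, 0, 1] ∧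
    Matrix.transvection (0 : Fin 3) 1 t = !![1, t, 0; 0, 1, 0; 0, 0, 1] := by
  refine ⟨?_, ?_, ?_, ?_⟩ <;> (ext i j; fin_cases i <;> fin_cases j <;>
    simp [Matrix.transvection])

theorem mult_identity (a b₁ b₂ c d : ℤ) (h : a * d - b₁ * b₂ * c = 1) :
    io (fa a (b₁ * b₂) c d h) = E 2 1 (by decide) (c * d) * c₁ * E 0 2 (by decide) (b₁ * c) *
      io (fa a b₁ (b₂ * c) d (by linear_combination h)) * c₂ *
      io (fa a b₂ (b₁ * c) d (by linear_combination h)) * c₃ * E 1 0 (by decide) (-b₁) *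
      E 0 1 (by decide) (-(b₂ * c)) * E 0 2 (by decide) (-(d * b₂)) := by
  apply Subtype.ext
  have key := mult_identity_matrix a b₁ b₂ c d h
  rw [← (tv_eq (c * d)).1, ← (tv_eq (b₁ * c)).2.1, ← (tv_eq (-b₁)).2.2.1,
    ← (tv_eq (-(b₂ * c))).2.2.2, ← (tv_eq (-(d * b₂))).2.1] at key
  exact key

end Pool.Agent.Helper66.GV.CK
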