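import Pool.Agent.Helper66.GV.CKThree

/-!
# The theorem of Carter and Keller: `SL(2, ℤ)` is bounded in `SL(3, ℤ)`
-/

open Matrix
open scoped MatrixGroups Pointwise

namespace Pool.Agent.Helper66.GV.CK

/-- Bounded subsets of `SL(2, ℤ)` satisfying the multiplicativity rule. -/
structure CKB (V : Set SL(2, ℤ) → Prop) : Prop extends Born V where
  up : V (Set.range up)
  lo : V (Set.range lo)
  mulRule : ∀ D₁ D₂ : ℤ → ℤ → Prop, V {A | D₁ (A 0 0) (A 0 1)} → V {A | D₂ (A 0 0) (A 0 1)} →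
    V {A | ∃ b₁ b₂, A 0 1 = b₁ * b₂ ∧ D₁ (A 0 0) b₁ ∧ D₂ (A 0 0) b₂}

theorem det2 (A : SL(2, ℤ)) : A 0 0 * A 1 1 - A 0 1 * A 1 0 = 1 := by
  have h := A.det_coe
  rwa [det_fin_two] at h

theorem ext2 {A B : SL(2, ℤ)} (h₀ : A 0 0 = B 0 0) (h₁ : A 0 1 = B 0 1) (h₂ : A 1 0 = B 1 0)
    (h₃ : A 1 1 = B 1 1) : A = B := by
  apply Matrix.SpecialLinearGroup.ext
  intro i j
  fin_cases i <;> fin_cases j
  · exact h₀
  · exact h₁
  · exact h₂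
  · exact h₃

theorem mul2 (A B : SL(2, ℤ)) (i j : Fin 2) : (A * B) i j = A i 0 * B 0 j + A i 1 * B 1 j := by
  change (A.1 * B.1) i j = _
  rw [Matrix.mul_apply, Fin.sum_univ_two]

theorem inv2 (A : SL(2, ℤ)) : (A⁻¹) 0 0 = A 1 1 ∧ (A⁻¹) 0 1 = - A 0 1 ∧ (A⁻¹) 1 0 = - A 1 0 ∧
    (A⁻¹) 1 1 = A 0 0 := by
  change (adjugate A.1) 0 0 = _ ∧ (adjugate A.1) 0 1 = _ ∧ (adjugate A.1) 1 0 = _ ∧
    (adjugate A.1) 1 1 = _
  rw [adjugate_fin_two]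
  simp

namespace CKB

variable {V : Set SL(2, ℤ) → Prop} (hV : CKB V)

include hV

theorem col1 {D : ℤ → ℤ → Prop} (h : V {A | D (A 0 0) (A 0 1)}) :
    V {A | ∃ t : ℤ, D (A 0 0) (A 0 1 + t * A 0 0)} := by
  refine hV.mono (hV.mul h hV.up) ?_
  rintro A ⟨t, ht⟩
  refine ⟨A * CK.up t, ?_, CK.up (-t), ⟨-t, rfl⟩, ?_⟩
  · have h1 : (A * CK.up t) 0 0 = A 0 0 := by
      rw [mul2]
      simp [CK.up]
    have h2 : (A * CK.up t) 0 1 = A 0 1 + t * A 0 0 := by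
      rw [mul2]
      simp [CK.up]
      ring
    change D ((A * CK.up t) 0 0) ((A * CK.up t) 0 1)
    rw [h1, h2]
    exact ht
  · apply ext2 <;> simp [mul2, CK.up]

theorem col2 {D : ℤ → ℤ → Prop} (h : V {A | D (A 0 0) (A 0 1)}) :
    V {A | ∃ t : ℤ, D (A 0 0 + t * A 0 1) (A 0 1)} := by
  refine hV.mono (hV.mul h hV.lo) ?_
  rintro A ⟨t, ht⟩
  refine ⟨A * CK.lo t, ?_, CK.lo (-t), ⟨-t, rfl⟩, ?_⟩
  · have h1 : (A * CK.lo t) 0 0 = A 0 0 + t * A 0 1 := by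
      rw [mul2]
      simp [CK.lo]
      ring
    have h2 : (A * CK.lo t) 0 1 = A 0 1 := by
      rw [mul2]
      simp [CK.lo]
    change D ((A * CK.lo t) 0 0) ((A * CK.lo t) 0 1)
    rw [h1, h2]
    exact ht
  · apply ext2 <;> simp [mul2, CK.lo]

theorem one_zero : V {A | A 0 0 = 1 ∧ A 0 1 = 0} := by
  refine hV.mono hV.lo ?_
  rintro A ⟨h1, h2⟩
  have h3 := det2 A
  rw [h1, h2] at h3
  refine ⟨A 1 0, ?_⟩
  apply ext2 <;> simp [CK.lo, h1, h2]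
  linarith

theorem neg_zero : V {A | A 0 0 = -1 ∧ A 0 1 = 0} := by
  refine hV.mono (hV.mul (hV.single (fa (-1) 0 0 (-1) (by norm_num))) hV.lo) ?_
  rintro A ⟨h1, h2⟩
  have h3 := det2 A
  rw [h1, h2] at h3
  refine ⟨_, rfl, CK.lo (-A 1 0), ⟨_, rfl⟩, ?_⟩
  apply ext2 <;> simp [CK.lo, fa, mul2, h1, h2]
  linarith

theorem one_any : V {A | A 0 0 = 1} := by
  refine hV.mono (hV.col1 (D := fun a b => a = 1 ∧ b = 0) hV.one_zero) ?_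
  rintro A h1
  exact ⟨-A 0 1, h1, by rw [h1]; ring⟩

theorem neg_any : V {A | A 0 0 = -1} := by
  refine hV.mono (hV.col1 (D := fun a b => a = -1 ∧ b = 0) hV.neg_zero) ?_
  rintro A h1
  exact ⟨A 0 1, h1, by rw [h1]; ring⟩

theorem base : V {A | A 0 1 ∣ A 0 0 - 1 ∨ A 0 1 ∣ A 0 0 + 1} := by
  refine hV.mono (hV.union (hV.col2 (D := fun a _ => a = 1) hV.one_any)
    (hV.col2 (D := fun a _ => a = -1) hV.neg_any)) ?_
  rintro A (⟨c, hc⟩ | ⟨c, hc⟩)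
  · left
    exact ⟨-c, by linear_combination hc⟩
  · right
    exact ⟨-c, by linear_combination hc⟩

theorem triple : V {A | ∃ b₁ b₂ b₃ : ℤ, A 0 1 = b₁ * b₂ * b₃ ∧
    (b₁ ∣ A 0 0 - 1 ∨ b₁ ∣ A 0 0 + 1) ∧ (b₂ ∣ A 0 0 - 1 ∨ b₂ ∣ A 0 0 + 1) ∧
    (b₃ ∣ A 0 0 - 1 ∨ b₃ ∣ A 0 0 + 1)} := by
  have h1 := hV.mulRule (fun a b => b ∣ a - 1 ∨ b ∣ a + 1) (fun a b => b ∣ a - 1 ∨ b ∣ a + 1)
    hV.base hV.base
  have h2 := hV.mulRule (fun a b => ∃ b₁ b₂, b = b₁ * b₂ ∧ (b₁ ∣ a - 1 ∨ b₁ ∣ a + 1) ∧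
    (b₂ ∣ a - 1 ∨ b₂ ∣ a + 1)) (fun a b => b ∣ a - 1 ∨ b ∣ a + 1) h1 hV.base
  refine hV.mono h2 ?_
  rintro A ⟨b₁, b₂, b₃, h, h₁, h₂, h₃⟩
  exact ⟨b₁ * b₂, b₃, h, ⟨b₁, b₂, rfl, h₁, h₂⟩, h₃⟩

/-- The power lemma of Carter and Keller. -/
theorem power : V {X | ∃ B : SL(2, ℤ), ∃ f g : ℤ, X 0 0 = f + g * B 0 0 ∧ X 0 1 = g * B 0 1 ∧
    X 1 0 = g * B 1 0 ∧ X 1 1 = f + g * B 1 1 ∧ B 0 1 ∣ X 0 0 - 1} := by
  refine hV.mono hV.triple ?_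
  rintro X ⟨B, f, g, h00, h01, h10, h11, hd⟩
  have hX := det2 X
  have hB := det2 B
  rw [h00, h01, h10, h11] at hX
  have key : (f - 1) * (f + 1) = -(g * (f * (B 0 0 + B 1 1) + g)) := by
    linear_combination hX - g ^ 2 * hB
  rcases eq_or_ne g 0 with hg | hg
  · subst hg
    refine ⟨0, 1, 1, by rw [h01]; ring, ?_, Or.inl (one_dvd _), Or.inl (one_dvd _)⟩
    have h1 : (f - 1) * (f + 1) = 0 := by rw [key]; ring
    rw [h00, zero_mul, add_zero]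
    rcases mul_eq_zero.mp h1 with h | h
    · exact Or.inl ⟨0, by rw [h]; norm_num⟩
    · exact Or.inr ⟨0, by rw [h]; norm_num⟩
  · -- `g = g₁ g₂`
    obtain ⟨g₂, hg₂⟩ : ((Int.gcd (f - 1) g : ℕ) : ℤ) ∣ g := Int.gcd_dvd_right _ _
    obtain ⟨s, hs⟩ : ((Int.gcd (f - 1) g : ℕ) : ℤ) ∣ f - 1 := Int.gcd_dvd_left _ _
    set g₁ : ℤ := ((Int.gcd (f - 1) g : ℕ) : ℤ) with hg₁
    have hg₁0 : g₁ ≠ 0 := by
      rintro h0
      rw [h0, zero_mul] at hg₂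
      exact hg hg₂
    have hcop : IsCoprime g₂ s := by
      have h1 : g₁ = (f - 1) * Int.gcdA (f - 1) g + g * Int.gcdB (f - 1) g :=
        Int.gcd_eq_gcd_ab _ _
      refine ⟨Int.gcdB (f - 1) g, Int.gcdA (f - 1) g, ?_⟩
      apply mul_left_cancel₀ hg₁0
      calc g₁ * (Int.gcdB (f - 1) g * g₂ + Int.gcdA (f - 1) g * s) =
          (g₁ * s) * Int.gcdA (f - 1) g + (g₁ * g₂) * Int.gcdB (f - 1) g := by ring
        _ = g₁ * 1 := by rw [← hs, ← hg₂, mul_one]; exact h1.symm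
    have h2 : g₂ ∣ f + 1 := by
      have h3 : g₂ ∣ s * (f + 1) := by
        refine ⟨-(f * (B 0 0 + B 1 1) + g), ?_⟩
        apply mul_left_cancel₀ hg₁0
        calc g₁ * (s * (f + 1)) = (f - 1) * (f + 1) := by rw [hs]; ring
          _ = -(g * (f * (B 0 0 + B 1 1) + g)) := key
          _ = -((g₁ * g₂) * (f * (B 0 0 + B 1 1) + g)) := by rw [← hg₂]
          _ = _ := by ring
      exact hcop.dvd_of_dvd_mul_left h3
    refine ⟨g₁, g₂, B 0 1, by rw [h01, ← hg₂], ?_, ?_, Or.inl hd⟩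
    · left
      rw [h00, hg₂]
      refine ⟨s + g₂ * B 0 0, ?_⟩
      linear_combination hs
    · right
      rw [h00, hg₂]
      obtain ⟨r, hr⟩ := h2
      refine ⟨r + g₁ * B 0 0, ?_⟩
      linear_combination hr

end CKB

/-- Powers are linear combinations of the identity and the matrix. -/
theorem zpow_form (B : SL(2, ℤ)) (k : ℤ) : ∃ f g : ℤ, (B ^ k) 0 0 = f + g * B 0 0 ∧
    (B ^ k) 0 1 = g * B 0 1 ∧ (B ^ k) 1 0 = g * B 1 0 ∧ (B ^ k) 1 1 = f + g * B 1 1 := by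
  have hB := det2 B
  induction k using Int.induction_on with
  | zero => exact ⟨1, 0, by simp, by simp, by simp, by simp⟩
  | succ k ih =>
    obtain ⟨f, g, h00, h01, h10, h11⟩ := ih
    refine ⟨-g, f + g * (B 0 0 + B 1 1), ?_, ?_, ?_, ?_⟩ <;>
      rw [_root_.zpow_add_one, mul2] <;> simp only [h00, h01, h10, h11]
    · linear_combination -g * hB
    · ring
    · ring
    · linear_combination -g * hB
  | pred k ih =>
    obtain ⟨f, g, h00, h01, h10, h11⟩ := ih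
    obtain ⟨i00, i01, i10, i11⟩ := inv2 B
    refine ⟨f * (B 0 0 + B 1 1) + g, -f, ?_, ?_, ?_, ?_⟩ <;>
      rw [_root_.zpow_sub_one, mul2] <;> simp only [h00, h01, h10, h11, i00, i01, i10, i11]
    · linear_combination g * hB
    · ring
    · ring
    · linear_combination g * hB

/-- A subgroup. -/
def Hb (b : ℤ) : Subgroup SL(2, ℤ) where
  carrier := {X | b ∣ X 0 1 ∧ b ∣ X 0 0 - 1}
  one_mem' := by simp
  mul_mem' := by
    rintro X Y ⟨⟨x, hx⟩, ⟨x', hx'⟩⟩ ⟨⟨y, hy⟩, ⟨y', hy'⟩⟩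
    change b ∣ (X * Y) 0 1 ∧ b ∣ (X * Y) 0 0 - 1
    rw [mul2, mul2]
    constructor
    · exact ⟨X 0 0 * y + x * Y 1 1, by rw [hx, hy]; ring⟩
    · exact ⟨x' * Y 0 0 + y' + x * Y 1 0, by linear_combination Y 1 0 * hx + Y 0 0 * hx' + hy'⟩
  inv_mem' := by
    rintro X ⟨⟨x, hx⟩, ⟨x', hx'⟩⟩
    change b ∣ (X⁻¹) 0 1 ∧ b ∣ (X⁻¹) 0 0 - 1
    rw [(inv2 X).1, (inv2 X).2.1]
    have hX := det2 X
    constructor
    · exact ⟨-x, by rw [hx]; ring⟩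
    · exact ⟨-(X 1 1 * x') + x * X 1 0, by linear_combination hX - X 1 1 * hx' + X 1 0 * hx⟩

/-- A subgroup. -/
def Hb' (b : ℤ) : Subgroup SL(2, ℤ) where
  carrier := {X | b ∣ X 1 0 ∧ b ∣ X 0 0 - 1}
  one_mem' := by simp
  mul_mem' := by
    rintro X Y ⟨⟨x, hx⟩, ⟨x', hx'⟩⟩ ⟨⟨y, hy⟩, ⟨y', hy'⟩⟩
    change b ∣ (X * Y) 1 0 ∧ b ∣ (X * Y) 0 0 - 1
    rw [mul2, mul2]
    constructor
    · exact ⟨x * Y 0 0 + X 1 1 * y, by rw [hx, hy]; ring⟩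
    · exact ⟨x' * Y 0 0 + y' + X 0 1 * y, by linear_combination X 0 1 * hy + Y 0 0 * hx' + hy'⟩
  inv_mem' := by
    rintro X ⟨⟨x, hx⟩, ⟨x', hx'⟩⟩
    change b ∣ (X⁻¹) 1 0 ∧ b ∣ (X⁻¹) 0 0 - 1
    rw [(inv2 X).1, (inv2 X).2.2.1]
    have hX := det2 X
    constructor
    · exact ⟨-x, by rw [hx]; ring⟩
    · exact ⟨-(X 1 1 * x') + x * X 0 1, by linear_combination hX - X 1 1 * hx' + X 0 1 * hx⟩

theorem pow_mod {B : SL(2, ℤ)} {b : ℤ} (h : b ∣ B 0 1) (k : ℕ) :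
    b ∣ (B ^ k) 0 1 ∧ b ∣ (B ^ k) 0 0 - (B 0 0) ^ k := by
  obtain ⟨c, hc⟩ := h
  induction k with
  | zero => simp
  | succ k ih =>
    obtain ⟨⟨x, hx⟩, ⟨y, hy⟩⟩ := ih
    rw [pow_succ, mul2, mul2, pow_succ]
    constructor
    · exact ⟨(B ^ k) 0 0 * c + x * B 1 1, by rw [hc, hx]; ring⟩
    · exact ⟨y * B 0 0 + x * B 1 0, by linear_combination B 0 0 * hy + B 1 0 * hx⟩

theorem pow_mod' {B : SL(2, ℤ)} {b : ℤ} (h : b ∣ B 1 0) (k : ℕ) :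
    b ∣ (B ^ k) 1 0 ∧ b ∣ (B ^ k) 0 0 - (B 0 0) ^ k := by
  obtain ⟨c, hc⟩ := h
  induction k with
  | zero => simp
  | succ k ih =>
    obtain ⟨⟨x, hx⟩, ⟨y, hy⟩⟩ := ih
    rw [pow_succ, mul2, mul2, pow_succ]
    constructor
    · exact ⟨x * B 0 0 + (B ^ k) 1 1 * c, by rw [hc, hx]; ring⟩
    · exact ⟨y * B 0 0 + (B ^ k) 0 1 * c, by linear_combination B 0 0 * hy + (B ^ k) 0 1 * hc⟩

open scoped Matrix.SpecialLinearGroup in
theorem CKB.good {V : Set SL(2, ℤ) → Prop} (hV : CKB V) (hVT : CKB (fun X => V {A | Aᵀ ∈ X})) :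
    V {A | ∃ P p : ℕ, P.Prime ∧ P % 4 = 3 ∧ p.Prime ∧ p % 4 = 3 ∧ A 0 0 = P ∧
      (∃ ε : ℤ, (ε = 1 ∨ ε = -1) ∧ A 0 1 = ε * p) ∧ ¬ IsSquare (p : ZMod P)} := by
  refine hV.mono (hV.mul hV.lo (hV.mul hV.power hVT.power)) ?_
  rintro A ⟨P, p, hP, hP4, hp, hp4, hA, ⟨ε, hε, hA1⟩, hsq⟩
  have hdet := det2 A
  -- the third prime
  have hkP : IsCoprime ((p / 2 : ℕ) : ℤ) (P : ℤ) := coprime_half' hP hp4 hsq
  have hcop : IsCoprime (A 1 0) (P : ℤ) :=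
    ⟨-A 0 1, A 1 1, by rw [← hA]; linear_combination hdet⟩
  have hkodd : Odd (p / 2) := by
    rw [Nat.odd_iff]
    omega
  obtain ⟨q, ε', hq, hq4, hε', hmod, hsq', hqk⟩ := exists_prime_nonres' hP hP4 hcop hkP hkodd
  obtain ⟨s, hs⟩ := Int.modEq_iff_dvd.mp hmod
  -- `A 1 0 - ε' q = P s`
  set A' : SL(2, ℤ) := CK.lo (-s) * A with hA'
  have h00 : A' 0 0 = P := by
    rw [hA', mul2, hA]
    simp [CK.lo]
  have h01 : A' 0 1 = ε * p := by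
    rw [hA', mul2, hA1]
    simp [CK.lo]
  have h10 : A' 1 0 = ε' * q := by
    rw [hA', mul2, hA]
    simp only [CK.lo]
    simp
    linear_combination hs
  refine ⟨CK.lo s, ⟨s, rfl⟩, A', ?_, ?_⟩
  swap
  · change CK.lo s * (CK.lo (-s) * A) = A
    rw [← mul_assoc]
    have h1 : CK.lo s * CK.lo (-s) = 1 := by
      apply ext2 <;> rw [mul2] <;> simp [CK.lo]
    rw [h1, one_mul]
  · obtain ⟨x, y, hxy⟩ := coprime_half hp4 hq4 hqk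
    refine ⟨A' ^ (x * ((p / 2 : ℕ) : ℤ)), ?_, A' ^ (y * ((q / 2 : ℕ) : ℤ)), ?_, ?_⟩
    · obtain ⟨f, g, k00, k01, k10, k11⟩ := zpow_form A' (x * ((p / 2 : ℕ) : ℤ))
      refine ⟨A', f, g, k00, k01, k10, k11, ?_⟩
      have h1 : A' ^ (x * ((p / 2 : ℕ) : ℤ)) ∈ Hb (p : ℤ) := by
        rw [mul_comm, _root_.zpow_mul, zpow_natCast]
        apply Subgroup.zpow_mem
        have h2 := pow_mod (B := A') (b := (p : ℤ)) ⟨ε, by rw [h01]; ring⟩ (p / 2)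
        refine ⟨h2.1, ?_⟩
        have h3 := dvd_pow_sub_one hP hP4 hp hp4 hsq
        rw [← h00] at h3
        have h4 := dvd_add h2.2 h3
        rwa [sub_add_sub_cancel] at h4
      have h2 := h1.2
      rw [h01]
      rcases hε with rfl | rfl
      · rwa [one_mul]
      · rwa [neg_one_mul, neg_dvd]
    · obtain ⟨f, g, k00, k01, k10, k11⟩ := zpow_form A' (y * ((q / 2 : ℕ) : ℤ))
      refine ⟨A'ᵀ, f, g, k00, k10, k01, k11, ?_⟩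
      have h1 : A' ^ (y * ((q / 2 : ℕ) : ℤ)) ∈ Hb' (q : ℤ) := by
        rw [mul_comm, _root_.zpow_mul, zpow_natCast]
        apply Subgroup.zpow_mem
        have h2 := pow_mod' (B := A') (b := (q : ℤ)) ⟨ε', by rw [h10]; ring⟩ (q / 2)
        refine ⟨h2.1, ?_⟩
        have h3 := dvd_pow_sub_one hP hP4 hq hq4 hsq'
        rw [← h00] at h3
        have h4 := dvd_add h2.2 h3
        rwa [sub_add_sub_cancel] at h4
      have h2 := h1.2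
      change A' 1 0 ∣ (A' ^ (y * ((q / 2 : ℕ) : ℤ))) 0 0 - 1
      rw [h10]
      rcases hε' with rfl | rfl
      · rwa [one_mul]
      · rwa [neg_one_mul, neg_dvd]
    · change A' ^ (x * ((p / 2 : ℕ) : ℤ)) * A' ^ (y * ((q / 2 : ℕ) : ℤ)) = A'
      rw [← _root_.zpow_add, hxy, zpow_one]

open scoped Matrix.SpecialLinearGroup in
/-- The theorem of Carter and Keller for `SL(2, ℤ)` inside `SL(3, ℤ)`. -/
theorem CKB.univ {V : Set SL(2, ℤ) → Prop} (hV : CKB V)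
    (hVT : CKB (fun X => V {A | Aᵀ ∈ X})) : V Set.univ := by
  have h3 : V {A | ∃ P : ℕ, P.Prime ∧ P % 4 = 3 ∧ A 0 0 = P} := by
    refine hV.mono (hV.col1 (D := fun a b => ∃ P p : ℕ, P.Prime ∧ P % 4 = 3 ∧ p.Prime ∧
      p % 4 = 3 ∧ a = P ∧ (∃ ε : ℤ, (ε = 1 ∨ ε = -1) ∧ b = ε * p) ∧ ¬ IsSquare (p : ZMod P))
      (hV.good hVT)) ?_
    rintro A ⟨P, hP, hP4, hA⟩
    have hdet := det2 A
    have hcop : IsCoprime (A 0 1) (P : ℤ) :=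
      ⟨-A 1 0, A 1 1, by rw [← hA]; linear_combination hdet⟩
    obtain ⟨p, ε, hp, hp4, hε, hmod, hsq⟩ := exists_prime_nonres hP hP4 hcop
    obtain ⟨s, hs⟩ := Int.modEq_iff_dvd.mp hmod
    exact ⟨-s, P, p, hP, hP4, hp, hp4, hA, ⟨ε, hε, by rw [hA]; linear_combination hs⟩, hsq⟩
  have h2 : V {A | Odd (A 0 1)} := by
    refine hV.mono (hV.col2 (D := fun a _ => ∃ P : ℕ, P.Prime ∧ P % 4 = 3 ∧ a = P) h3) ?_
    rintro A hodd
    have hdet := det2 A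
    have hcop : IsCoprime (A 0 0) (A 0 1) := ⟨A 1 1, -A 1 0, by linear_combination hdet⟩
    obtain ⟨P, hP, hmod, hP4⟩ := exists_prime hcop hodd
    obtain ⟨s, hs⟩ := Int.modEq_iff_dvd.mp hmod
    exact ⟨-s, P, hP, hP4, by linear_combination hs⟩
  refine hV.mono (hV.col1 (D := fun _ b => Odd b) h2) ?_
  rintro A -
  have hdet := det2 A
  rcases Int.even_or_odd (A 0 1) with h | h
  · refine ⟨1, ?_⟩
    rw [one_mul]
    apply h.add_odd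
    by_contra hne
    rw [Int.not_odd_iff_even] at hne
    obtain ⟨x, hx⟩ := h
    obtain ⟨y, hy⟩ := hne
    rw [hx, hy] at hdet
    have : (2 : ℤ) * (y * A 1 1 - x * A 1 0) = 1 := by linear_combination hdet
    omega
  · exact ⟨0, by rwa [zero_mul, add_zero]⟩

end Pool.Agent.Helper66.GV.CK
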