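import Pool.Agent.Helper66.GV.DvB
import Pool.Agent.Helper66.GV.CKRed

/-!
# Bounded generation of groups commensurable with `SL(n, ℤ)`
-/

open scoped MatrixGroups Pointwise
open Matrix

namespace Pool.Agent.Helper66.GV

section General

variable {G : Type*} [Group G]

theorem Born.inter {ι : Type*} {U : ι → Set G → Prop} (h : ∀ i, Born (U i)) :
    Born (fun X => ∀ i, U i X) where
  mono := fun hX hYX i => (h i).mono (hX i) hYX
  union := fun hX hY i => (h i).union (hX i) (hY i)
  single := fun g i => (h i).single g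
  mul := fun hX hY i => (h i).mul (hX i) (hY i)

/-- Extending a family of bounded sets from a normal subgroup. -/
def Ext' (H : Subgroup G) (W : Set H → Prop) (Y : Set G) : Prop :=
  ∃ F : Set G, F.Finite ∧ ∃ Z : Set H, W Z ∧ Y ⊆ F * (Subtype.val '' Z)

theorem Born.extend (H : Subgroup G) [H.Normal] {W : Set H → Prop} (hW : Born W)
    (hconj : ∀ (g : G) (Z : Set H), W Z → W ((fun h => MulAut.conjNormal g h) '' Z)) :
    Born (Ext' H W) where
  mono := by
    rintro X Y ⟨F, hF, Z, hZ, hX⟩ hYX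
    exact ⟨F, hF, Z, hZ, hYX.trans hX⟩
  union := by
    rintro X Y ⟨F, hF, Z, hZ, hX⟩ ⟨F', hF', Z', hZ', hY⟩
    refine ⟨F ∪ F', hF.union hF', Z ∪ Z', hW.union hZ hZ', ?_⟩
    rintro x (hx | hx)
    · obtain ⟨f, hf, z, ⟨z', hz', rfl⟩, rfl⟩ := hX hx
      exact ⟨f, Or.inl hf, z', ⟨z', Or.inl hz', rfl⟩, rfl⟩
    · obtain ⟨f, hf, z, ⟨z', hz', rfl⟩, rfl⟩ := hY hx
      exact ⟨f, Or.inr hf, z', ⟨z', Or.inr hz', rfl⟩, rfl⟩
  single := by
    intro g
    refine ⟨{g}, Set.finite_singleton g, {1}, hW.single 1, ?_⟩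
    rintro x hx
    rw [Set.mem_singleton_iff] at hx
    subst hx
    exact ⟨x, rfl, 1, ⟨1, rfl, rfl⟩, mul_one x⟩
  mul := by
    rintro X Y ⟨F, hF, Z, hZ, hX⟩ ⟨F', hF', Z', hZ', hY⟩
    refine ⟨F * F', hF.mul hF', (⋃ f ∈ hF'.toFinset, (fun h => MulAut.conjNormal f⁻¹ h) '' Z) * Z',
      hW.mul (hW.biUnion _ fun f _ => hconj f⁻¹ Z hZ) hZ', ?_⟩
    rintro _ ⟨x, hx, y, hy, rfl⟩
    obtain ⟨f, hf, _, ⟨z, hz, rfl⟩, rfl⟩ := hX hx
    obtain ⟨f', hf', _, ⟨z', hz', rfl⟩, rfl⟩ := hY hy
    refine ⟨f * f', Set.mul_mem_mul hf hf', _, ⟨MulAut.conjNormal f'⁻¹ z * z',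
      Set.mul_mem_mul ?_ hz', rfl⟩, ?_⟩
    · rw [Set.mem_iUnion₂]
      exact ⟨f', hF'.mem_toFinset.mpr hf', z, hz, rfl⟩
    · push_cast
      rw [MulAut.conjNormal_apply]
      group

theorem Ext'.univ {H : Subgroup G} {W : Set H → Prop} (hW : Born W) (h : Ext' H W Set.univ) :
    W Set.univ := by
  obtain ⟨F, hF, Z, hZ, hX⟩ := h
  have hF' : (Subtype.val ⁻¹' F : Set H).Finite := hF.preimage Subtype.val_injective.injOn
  refine hW.mono (hW.mul (hW.finite hF') hZ) ?_
  rintro h -
  obtain ⟨f, hf, _, ⟨z, hz, rfl⟩, hfz⟩ := hX (Set.mem_univ (h : G))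
  simp only at hfz
  refine ⟨h * z⁻¹, ?_, z, hz, inv_mul_cancel_right h z⟩
  change (h : G) * (z : G)⁻¹ ∈ F
  rw [← hfz, mul_inv_cancel_right]
  exact hf

theorem Born.of_finiteIndex {U : Set G → Prop} (hU : Born U) (H : Subgroup G) [H.FiniteIndex]
    (h : U (H : Set G)) : U Set.univ := by
  have h1 : (Set.range (fun q : G ⧸ H => q.out)).Finite := Set.finite_range _
  refine hU.mono (hU.mul (hU.finite h1) h) ?_
  rintro g -
  refine ⟨(g : G ⧸ H).out, ⟨_, rfl⟩, (g : G ⧸ H).out⁻¹ * g, ?_, mul_inv_cancel_left _ _⟩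
  rw [SetLike.mem_coe, ← QuotientGroup.eq]
  exact QuotientGroup.out_eq' _

end General

section Main

variable {n : Type*} [Fintype n] [DecidableEq n]

/-- The homomorphism `SL(n, ℤ) → PGL(n, ℚ)`. -/
def intHom (n : Type*) [Fintype n] [DecidableEq n] : SpecialLinearGroup n ℤ →* PGL(n, ℚ) :=
  SpecialLinearGroup.toPGL.comp (SpecialLinearGroup.map (Int.castRingHom ℚ))

theorem intHom_transvection {i j : n} (hij : i ≠ j) (t : ℤ) :
    intHom n (SpecialLinearGroup.transvection hij t) = el hij (t : ℚ) := by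
  unfold intHom el
  rw [MonoidHom.comp_apply]
  congr 1
  apply Subtype.ext
  change ((Matrix.transvection i j t).map (Int.castRingHom ℚ)) = Matrix.transvection i j (t : ℚ)
  ext a b
  simp only [Matrix.transvection, Matrix.map_apply, Matrix.add_apply, Matrix.one_apply,
    Matrix.single_apply]
  split_ifs <;> simp

theorem conj_apply (f : SpecialLinearGroup n ℤ) {i j : n} (hij : i ≠ j) (t : ℤ) (r s : n) :
    (f * SpecialLinearGroup.transvection hij t * f⁻¹) r s =
      (1 : Matrix n n ℤ) r s + t * (f r i * (f⁻¹) j s) := by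
  have h1 : f.1 * (f⁻¹).1 = 1 := congrArg Subtype.val (mul_inv_cancel f)
  change (f.1 * (1 + single i j t) * (f⁻¹).1) r s = _
  rw [mul_add, add_mul, mul_one, h1, Matrix.add_apply]
  congr 1
  rw [Matrix.mul_apply, Finset.sum_eq_single j]
  · rw [Matrix.mul_apply, Finset.sum_eq_single i]
    · simp
      ring
    · intro c _ hc
      rw [Matrix.single_apply, if_neg (fun h => hc h.1.symm), mul_zero]
    · intro h
      exact absurd (Finset.mem_univ _) h
  · intro c _ hc
    rw [Matrix.mul_apply, Finset.sum_eq_zero, zero_mul]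
    intro d _
    rw [Matrix.single_apply, if_neg (fun h => hc h.2.symm), mul_zero]
  · intro h
    exact absurd (Finset.mem_univ _) h

variable {Γ : Subgroup (PGL(n, ℚ))} {U : Set Γ → Prop}

/-- Conjugates of bounded root groups are bounded. -/
theorem conj_bdd (hn : 3 ≤ Fintype.card n) (hU : Born U) (hR : RootB U)
    (f : SpecialLinearGroup n ℤ) {i j : n} (hij : i ≠ j) {N : ℤ}
    (hN : intHom n (f * SpecialLinearGroup.transvection hij N * f⁻¹) ∈ Γ) :
    U (Subgroup.zpowers (⟨_, hN⟩ : Γ) : Set Γ) := by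
  set u : n → ℚ := fun r => (f r i : ℚ) with hu
  set w : n → ℚ := fun s => ((f⁻¹) j s : ℚ) with hw
  have hwu : w ⬝ᵥ u = 0 := by
    have h1 : ((f⁻¹).1 * f.1) j i = 0 := by
      have : (f⁻¹).1 * f.1 = 1 := congrArg Subtype.val (inv_mul_cancel f)
      rw [this, one_apply_ne hij.symm]
    rw [Matrix.mul_apply] at h1
    rw [dotProduct, hw, hu]
    have h2 := congrArg (Int.cast : ℤ → ℚ) h1
    push_cast at h2
    exact h2
  obtain ⟨m, hm, S, hS, H⟩ := DvB.all hU hR hn hwu
  refine hU.zpowers_of_pow hm hS ?_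
  intro k
  obtain ⟨A, hA, x, hx, hxA⟩ := H (N * k)
  have h1 : (⟨_, hN⟩ : Γ) ^ ((m : ℤ) * k) = x := by
    apply Subtype.ext
    push_cast
    rw [hxA, ← map_zpow]
    unfold intHom
    rw [MonoidHom.comp_apply]
    congr 1
    have h2 : (f * SpecialLinearGroup.transvection hij N * f⁻¹) ^ ((m : ℤ) * k) =
        f * SpecialLinearGroup.transvection hij (N * (m * k)) * f⁻¹ := by
      have h3 : ∀ l : ℤ, (SpecialLinearGroup.transvection hij N) ^ l =
          SpecialLinearGroup.transvection hij (N * l) := by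
        intro l
        induction l using Int.induction_on with
        | zero => rw [mul_zero, SpecialLinearGroup.transvection_coeff_zero, zpow_zero]
        | succ l ih =>
          rw [_root_.zpow_add_one, ih, ← SpecialLinearGroup.transvection_add]
          congr 1
          ring
        | pred l ih =>
          rw [_root_.zpow_sub_one, ih, SpecialLinearGroup.transvection_inv,
            ← SpecialLinearGroup.transvection_add]
          congr 1
          ring
      rw [← h3]
      exact conj_zpow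
    rw [h2]
    apply Subtype.ext
    rw [hA]
    ext r s
    change (((f * SpecialLinearGroup.transvection hij (N * (m * k)) * f⁻¹) r s : ℤ) : ℚ) = _
    rw [conj_apply]
    simp only [Matrix.add_apply, Matrix.smul_apply, vecMulVec_apply, hu, hw, smul_eq_mul]
    push_cast
    rw [Matrix.one_apply, Matrix.one_apply]
    split_ifs <;> push_cast <;> ring
  rw [h1]
  exact hx

/-- Reindexing. -/
def reind {k : ℕ} (e : Fin k ≃ n) : SpecialLinearGroup (Fin k) ℤ →* SpecialLinearGroup n ℤ where
  toFun A := ⟨A.1.submatrix e.symm e.symm, by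
    rw [Matrix.det_submatrix_equiv_self]
    exact A.2⟩
  map_one' := Subtype.ext (Matrix.submatrix_one_equiv e.symm)
  map_mul' := fun A B => Subtype.ext (Matrix.submatrix_mul_equiv A.1 B.1 _ e.symm _).symm

theorem reind_surjective {k : ℕ} (e : Fin k ≃ n) : Function.Surjective (reind e) := by
  intro B
  refine ⟨⟨B.1.submatrix e e, by
    rw [Matrix.det_submatrix_equiv_self]
    exact B.2⟩, ?_⟩
  apply Subtype.ext
  change (B.1.submatrix e e).submatrix e.symm e.symm = B.1
  rw [Matrix.submatrix_submatrix]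
  simp

theorem reind_transvection {k : ℕ} (e : Fin k ≃ n) {i j : Fin k} (h : i ≠ j) (t : ℤ) :
    reind e (SpecialLinearGroup.transvection h t) =
      SpecialLinearGroup.transvection (fun h' => h (e.injective h')) t := by
  apply Subtype.ext
  change (Matrix.transvection i j t).submatrix e.symm e.symm = Matrix.transvection (e i) (e j) t
  ext a b
  simp [Matrix.transvection, Matrix.one_apply, Matrix.single_apply, Equiv.eq_symm_apply,
    e.symm.injective.eq_iff]

/-- The theorem of Carter and Keller. -/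
theorem carter_keller' (hn : 3 ≤ Fintype.card n) {V : Set (SpecialLinearGroup n ℤ) → Prop}
    (hV : Born V) (hE : ∀ (i j : n) (h : i ≠ j),
      V (Set.range fun t : ℤ => SpecialLinearGroup.transvection h t)) : V Set.univ := by
  obtain ⟨k, hk⟩ := Nat.exists_eq_add_of_le hn
  have e : Fin (k + 3) ≃ n := (Fintype.equivFinOfCardEq (by omega)).symm
  have h1 := CK.carter_keller k (hV.comap (reind e)) (fun i j h => by
    refine hV.mono (hE (e i) (e j) (fun h' => h (e.injective h'))) ?_
    rintro _ ⟨_, ⟨t, rfl⟩, rfl⟩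
    exact ⟨t, (reind_transvection e h t).symm⟩)
  rwa [Set.image_univ, (reind_surjective e).range_eq] at h1

/-- Groups commensurable with `SL(n, ℤ)` are boundedly generated by their root elements. -/
theorem comm_univ (hn : 3 ≤ Fintype.card n) (hΓ : Γ.Commensurable (intHom n).range)
    (hU : Born U) (hR : RootB U) : U Set.univ := by
  have hfin : (Γ.comap (intHom n)).FiniteIndex := ⟨by
    rw [Subgroup.index_comap]
    exact hΓ.1⟩
  set H : Subgroup (SpecialLinearGroup n ℤ) := (Γ.comap (intHom n)).normalCore with hH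
  have hHΓ : ∀ h ∈ H, intHom n h ∈ Γ := fun h hh =>
    Subgroup.normalCore_le (Γ.comap (intHom n)) hh
  set ψ : H →* Γ := ((intHom n).comp H.subtype).codRestrict Γ fun h => hHΓ h h.2 with hψ
  set φ : SpecialLinearGroup n ℤ → (H →* Γ) := fun f =>
    ψ.comp (MulAut.conjNormal f).toMonoidHom with hφ
  set W : Set H → Prop := fun Z => ∀ f, U (φ f '' Z) with hW
  have hWB : Born W := Born.inter fun f => hU.comap (φ f)
  have hconj : ∀ (g : SpecialLinearGroup n ℤ) (Z : Set H), W Z →
      W ((fun h => MulAut.conjNormal g h) '' Z) := by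
    intro g Z hZ f
    refine hU.mono (hZ (f * g)) ?_
    rintro _ ⟨_, ⟨z, hz, rfl⟩, rfl⟩
    refine ⟨z, hz, ?_⟩
    change ψ (MulAut.conjNormal (f * g) z) = ψ (MulAut.conjNormal f (MulAut.conjNormal g z))
    rw [map_mul]
    rfl
  have hV := Born.extend H hWB hconj
  have hE : ∀ (i j : n) (h : i ≠ j),
      Ext' H W (Set.range fun t : ℤ => SpecialLinearGroup.transvection h t) := by
    intro i j hij
    obtain ⟨N, hN, -, hNH⟩ := Subgroup.exists_pow_mem_of_index_ne_zero
      (H := H) Subgroup.FiniteIndex.index_ne_zero (SpecialLinearGroup.transvection hij (1 : ℤ))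
    have hpow : ∀ l : ℤ, (SpecialLinearGroup.transvection hij (1 : ℤ)) ^ l =
        SpecialLinearGroup.transvection hij l := by
      intro l
      induction l using Int.induction_on with
      | zero => rw [SpecialLinearGroup.transvection_coeff_zero, zpow_zero]
      | succ l ih => rw [_root_.zpow_add_one, ih, ← SpecialLinearGroup.transvection_add]
      | pred l ih =>
        rw [_root_.zpow_sub_one, ih, SpecialLinearGroup.transvection_inv,
          ← SpecialLinearGroup.transvection_add, sub_eq_add_neg]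
    set e : H := ⟨_, hNH⟩ with he
    have heN : (e : SpecialLinearGroup n ℤ) = SpecialLinearGroup.transvection hij (N : ℤ) :=
      (zpow_natCast (SpecialLinearGroup.transvection hij (1 : ℤ)) N).symm.trans (hpow N)
    refine ⟨(fun r : ℕ => SpecialLinearGroup.transvection hij (r : ℤ)) '' (Set.Iio N),
      (Set.finite_Iio N).image _, (Subgroup.zpowers e : Set H), ?_, ?_⟩
    · intro f
      have h0 : intHom n (f * SpecialLinearGroup.transvection hij (N : ℤ) * f⁻¹) ∈ Γ := by
        rw [← heN, ← MulAut.conjNormal_apply]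
        exact hHΓ _ (MulAut.conjNormal f e).2
      have h1 : φ f e = ⟨intHom n (f * SpecialLinearGroup.transvection hij (N : ℤ) * f⁻¹), h0⟩ := by
        apply Subtype.ext
        change intHom n ((MulAut.conjNormal f e : H) : SpecialLinearGroup n ℤ) =
          intHom n (f * SpecialLinearGroup.transvection hij (N : ℤ) * f⁻¹)
        rw [MulAut.conjNormal_apply, heN]
      have h2 := conj_bdd hn hU hR f hij (N := (N : ℤ)) h0
      rw [← h1] at h2
      refine hU.mono h2 ?_
      rintro _ ⟨_, ⟨m, rfl⟩, rfl⟩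
      exact ⟨m, (map_zpow _ _ _).symm⟩
    · rintro _ ⟨t, rfl⟩
      have hN0 : (N : ℤ) ≠ 0 := by omega
      have hr0 := Int.emod_nonneg t hN0
      have hrN := Int.emod_lt_of_pos t (show (0 : ℤ) < N by omega)
      refine ⟨_, ⟨(t % N).toNat, ?_, rfl⟩, _, ⟨e ^ (t / N), ⟨_, rfl⟩, rfl⟩, ?_⟩
      · rw [Set.mem_Iio]
        omega
      · simp only
        push_cast
        rw [heN, ← hpow, ← hpow N, ← _root_.zpow_mul, ← _root_.zpow_add, hpow,
          Int.toNat_of_nonneg hr0, Int.emod_add_mul_ediv]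
  have hWu : W Set.univ := Ext'.univ hWB (carter_keller' hn hV hE)
  have h1 := hWu 1
  have hidx : ψ.range.FiniteIndex := by
    refine ⟨?_⟩
    have h2 : ψ.range = (H.map (intHom n)).subgroupOf Γ := by
      ext x
      rw [Subgroup.mem_subgroupOf]
      constructor
      · rintro ⟨h, rfl⟩
        exact ⟨h, h.2, rfl⟩
      · rintro ⟨h, hh, hx⟩
        exact ⟨⟨h, hh⟩, Subtype.ext hx⟩
    rw [h2]
    change (H.map (intHom n)).relIndex Γ ≠ 0
    refine Subgroup.relIndex_ne_zero_trans ?_ hΓ.2
    rw [MonoidHom.range_eq_map, Subgroup.relIndex_map_map, top_sup_eq, Subgroup.relIndex_top_right]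
    exact (Subgroup.finiteIndex_of_le (le_sup_left : H ≤ H ⊔ (intHom n).ker)).index_ne_zero
  refine hU.of_finiteIndex ψ.range ?_
  refine hU.mono h1 ?_
  rintro _ ⟨h, rfl⟩
  refine ⟨h, trivial, ?_⟩
  change ψ (MulAut.conjNormal 1 h) = ψ h
  rw [map_one]
  rfl

end Main

end Pool.Agent.Helper66.GV
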