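import Pool.Agent.Helper66.GV.Prod

/-!
# Conjugations and the commutation theorem
-/

open scoped lp ENNReal InnerProductSpace

namespace Pool.Agent.Helper66.GV

section Basic

variable {A B : Type*}

/-- The function underlying the conjugate linear map `kj`. -/
def kjFun (e : A ≃ A) (f : HS A) : HS A :=
  mkHS (fun x => star (f (e.symm x))) (by
    simp only [norm_star]
    exact e.symm.summable_iff.mpr (hs_summable f))

theorem kjFun_norm (e : A ≃ A) (f : HS A) : ‖kjFun e f‖ = ‖f‖ := by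
  have h1 := hs_norm_sq (kjFun e f)
  have h2 : HasSum (fun x => ‖f (e.symm x)‖ ^ 2) (‖f‖ ^ 2) :=
    (e.symm.hasSum_iff).mpr (hs_norm_sq f)
  have h3 : (fun x => ‖kjFun e f x‖ ^ 2) = fun x => ‖f (e.symm x)‖ ^ 2 := by
    funext x
    change ‖star (f (e.symm x))‖ ^ 2 = _
    rw [norm_star]
  rw [h3] at h1
  exact sq_inj (norm_nonneg _) (norm_nonneg _) (h1.unique h2)

/-- The conjugate linear map `f ↦ conj (f ∘ e⁻¹)`. -/
noncomputable def kj (e : A ≃ A) : HS A →L⋆[ℂ] HS A :=
  LinearMap.mkContinuous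
    { toFun := kjFun e
      map_add' := fun f g => ext_apply fun x => by
        change star (f (e.symm x) + g (e.symm x)) = _
        rw [star_add]
        rfl
      map_smul' := fun c f => ext_apply fun x => by
        change star (c * f (e.symm x)) = _
        rw [star_mul, mul_comm]
        rfl } 1 (fun f => by
      rw [one_mul]
      exact (kjFun_norm e f).le)

theorem kj_apply (e : A ≃ A) (f : HS A) (x : A) : kj e f x = star (f (e.symm x)) := rfl

theorem norm_kj (e : A ≃ A) (f : HS A) : ‖kj e f‖ = ‖f‖ := kjFun_norm e f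

theorem inner_kj (e : A ≃ A) (f g : HS A) : ⟪kj e f, kj e g⟫_ℂ = ⟪g, f⟫_ℂ := by
  have h1 := hs_inner (kj e f) (kj e g)
  have h2 : HasSum (fun x => star (g (e.symm x)) * f (e.symm x)) ⟪g, f⟫_ℂ :=
    (e.symm.hasSum_iff).mpr (hs_inner g f)
  have h3 : (fun x => star (kj e f x) * kj e g x) =
      fun x => star (g (e.symm x)) * f (e.symm x) := by
    funext x
    rw [kj_apply, kj_apply, star_star, mul_comm]
  rw [h3] at h1
  exact h1.unique h2

theorem kj_kj {e : A ≃ A} (he : ∀ x, e (e x) = x) (f : HS A) : kj e (kj e f) = f := by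
  apply ext_apply
  intro x
  have hx : e.symm (e.symm x) = x := by rw [Equiv.symm_apply_eq, Equiv.symm_apply_eq, he]
  rw [kj_apply, kj_apply, star_star, hx]

theorem inner_kj_left {e : A ≃ A} (he : ∀ x, e (e x) = x) (f g : HS A) :
    ⟪kj e f, g⟫_ℂ = ⟪kj e g, f⟫_ℂ := by
  conv_lhs => rw [← kj_kj he g]
  rw [inner_kj]

/-- Conjugation of operators. -/
noncomputable def cn (e : A ≃ A) (T : BH A) : BH A := (kj e).comp (T.comp (kj e))

theorem cn_apply (e : A ≃ A) (T : BH A) (f : HS A) : cn e T f = kj e (T (kj e f)) := rfl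

theorem cn_mul {e : A ≃ A} (he : ∀ x, e (e x) = x) (S T : BH A) :
    cn e (S * T) = cn e S * cn e T := by
  apply ContinuousLinearMap.ext
  intro f
  rw [mul_apply_eq_comp, cn_apply, cn_apply, cn_apply, kj_kj he, mul_apply_eq_comp]

theorem cn_one {e : A ≃ A} (he : ∀ x, e (e x) = x) : cn e (1 : BH A) = 1 := by
  apply ContinuousLinearMap.ext
  intro f
  rw [cn_apply]
  exact kj_kj he f

theorem cn_cn {e : A ≃ A} (he : ∀ x, e (e x) = x) (T : BH A) : cn e (cn e T) = T := by
  apply ContinuousLinearMap.ext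
  intro f
  rw [cn_apply, cn_apply, kj_kj he, kj_kj he]

theorem cn_star {e : A ≃ A} (he : ∀ x, e (e x) = x) (T : BH A) : star (cn e T) = cn e (star T) := by
  symm
  rw [ContinuousLinearMap.star_eq_adjoint (cn e T), ContinuousLinearMap.eq_adjoint_iff]
  intro f g
  have h1 : ⟪kj e ((star T) (kj e f)), g⟫_ℂ = ⟪T (kj e g), kj e f⟫_ℂ := by
    rw [inner_kj_left he, ContinuousLinearMap.star_eq_adjoint,
      ContinuousLinearMap.adjoint_inner_right]
  have h2 : ⟪f, kj e (T (kj e g))⟫_ℂ = ⟪T (kj e g), kj e f⟫_ℂ := by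
    rw [← inner_conj_symm (𝕜 := ℂ) f, inner_kj_left he, inner_conj_symm]
  rw [cn_apply, cn_apply, h1, h2]

theorem refl_invol (x : A) : (Equiv.refl A) ((Equiv.refl A) x) = x := rfl

theorem kj_refl_tens (a : HS A) (b : HS B) :
    kj (Equiv.refl (A × B)) (tens a b) = tens (kj (Equiv.refl A) a) (kj (Equiv.refl B) b) := by
  apply ext_apply
  rintro ⟨x, y⟩
  change star (a x * b y) = star (a x) * star (b y)
  rw [star_mul']

theorem kj_refl_dl (x : A) : kj (Equiv.refl A) (dl x) = dl x := by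
  classical
  apply ext_apply
  intro y
  rw [kj_apply, dl_apply, dl_apply, Equiv.refl_symm, Equiv.refl_apply]
  split_ifs <;> simp

theorem hasSum_apply (T : HS A →L[ℂ] HS B) (f : HS A) (y : B) :
    HasSum (fun x => f x * T (dl x) y) (T f y) := by
  have h1 := ((hasSum_dl f).mapL T).mapL (innerSL ℂ (dl y))
  have h2 : ∀ g : HS B, (innerSL ℂ (dl y)) g = g y := fun g => inner_dl y g
  have h3 : (fun x => (innerSL ℂ (dl y)) (T (f x • dl x))) = fun x => f x * T (dl x) y := by
    funext x
    rw [h2, map_smul]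
    rfl
  rw [h3, h2] at h1
  exact h1

end Basic

section Group

variable {G H : Type*} [Group G] [Group H]

theorem inv_invol (x : G) : (Equiv.inv G) ((Equiv.inv G) x) = x := by simp

theorem kj_inv_apply (f : HS G) (x : G) : kj (Equiv.inv G) f x = star (f x⁻¹) := rfl

theorem kj_inv_dl (x : G) : kj (Equiv.inv G) (dl x) = dl x⁻¹ := by
  classical
  apply ext_apply
  intro y
  rw [kj_inv_apply, dl_apply, dl_apply]
  by_cases h : y = x⁻¹
  · rw [if_pos h, if_pos (by rw [h, inv_inv]), star_one]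
  · rw [if_neg h, if_neg (fun h1 => h (by rw [← h1, inv_inv])), star_zero]

theorem cn_inv_lam (g : G) : cn (Equiv.inv G) (lam g) = rho g := by
  apply ext_dl
  intro x
  rw [cn_apply, kj_inv_dl, lam_dl, kj_inv_dl, rho_dl, mul_inv_rev, inv_inv]

theorem cn_inv_rho (g : G) : cn (Equiv.inv G) (rho g) = lam g := by
  rw [← cn_inv_lam, cn_cn inv_invol]

theorem cn_refl_lam (g : G) : cn (Equiv.refl G) (lam g) = lam g := by
  apply ext_dl
  intro x
  rw [cn_apply, kj_refl_dl, lam_dl, kj_refl_dl]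

theorem cn_refl_rho (g : G) : cn (Equiv.refl G) (rho g) = rho g := by
  apply ext_dl
  intro x
  rw [cn_apply, kj_refl_dl, rho_dl, kj_refl_dl]

/-- Operators commuting with the left translations commute with operators commuting with the right
translations. -/
theorem comm_of_lam_rho {S T : BH G} (hS : ∀ g, lam g * S = S * lam g)
    (hT : ∀ g, rho g * T = T * rho g) : S * T = T * S := by
  have hS1 : ∀ z y : G, S (dl z) y = S (dl 1) (z⁻¹ * y) := by
    intro z y
    have h1 : S (dl z) = lam z (S (dl 1)) := by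
      have h2 : lam z (dl 1) = dl z := by rw [lam_dl, mul_one]
      rw [← h2, ← mul_apply_eq_comp, ← hS, mul_apply_eq_comp]
    rw [h1, lam_apply]
  have hT1 : ∀ z y : G, T (dl z) y = T (dl 1) (y * z⁻¹) := by
    intro z y
    have h1 : T (dl z) = rho z⁻¹ (T (dl 1)) := by
      have h2 : rho z⁻¹ (dl 1) = dl z := by rw [rho_dl, inv_inv, one_mul]
      rw [← h2, ← mul_apply_eq_comp, ← hT, mul_apply_eq_comp]
    rw [h1, rho_apply]
  apply ext_dl
  intro x
  apply ext_apply
  intro y
  rw [mul_apply_eq_comp, mul_apply_eq_comp]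
  have h1 := hasSum_apply S (T (dl x)) y
  have h2 := hasSum_apply T (S (dl x)) y
  let e : G ≃ G := ((Equiv.inv G).trans (Equiv.mulLeft x)).trans (Equiv.mulRight y)
  have he : ∀ z, e z = x * z⁻¹ * y := fun z => rfl
  have h3 := (e.hasSum_iff).mpr h2
  have h4 : ((fun z => S (dl x) z * T (dl z) y) ∘ e) = fun z => T (dl x) z * S (dl z) y := by
    funext z
    rw [Function.comp_apply, he, hS1 x, hT1 (x * z⁻¹ * y), hT1 x, hS1 z, mul_comm]
    congr 2 <;> group
  rw [h4] at h3
  exact h1.unique h3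

/-- The commutation theorem. -/
theorem mem_top_of_commute {T : BH G} (hT : ∀ g, rho g * T = T * rho g) :
    T ∈ vN (⊤ : Subgroup G) := by
  unfold vN
  rw [StarSubalgebra.mem_centralizer_iff]
  intro S hS
  rw [SetLike.mem_coe, StarSubalgebra.mem_centralizer_iff] at hS
  have h1 : ∀ g, lam g * S = S * lam g := fun g => (hS (lam g) ⟨g, trivial, rfl⟩).1
  have h2 : ∀ g, lam g * star S = star S * lam g := by
    intro g
    have h3 := (hS (lam g) ⟨g, trivial, rfl⟩).2
    rw [star_lam] at h3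
    have h4 := congrArg star h3
    rw [star_mul, star_mul, star_lam, inv_inv] at h4
    exact h4.symm
  exact ⟨comm_of_lam_rho h1 hT, comm_of_lam_rho h2 hT⟩

theorem cn_refl_mem {T : BH G} (hT : T ∈ vN (⊤ : Subgroup G)) :
    cn (Equiv.refl G) T ∈ vN (⊤ : Subgroup G) := by
  apply mem_top_of_commute
  intro g
  rw [← cn_refl_rho, ← cn_mul refl_invol, ← cn_mul refl_invol, commute_rho hT]

/-- The right version of an operator in `L(G)` commutes with `L(G)`. -/
theorem rt_comm {S T : BH G} (hS : S ∈ vN (⊤ : Subgroup G)) (hT : T ∈ vN (⊤ : Subgroup G)) :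
    cn (Equiv.inv G) T * S = S * cn (Equiv.inv G) T := by
  apply comm_of_lam_rho
  · intro g
    rw [← cn_inv_rho, ← cn_mul inv_invol, ← cn_mul inv_invol, commute_rho hT]
  · intro g
    exact commute_rho hS g

theorem lam_prod (g : G) (h : H) : lam (g, h) = tp (lam g) (lam h) := by
  apply ext_dl
  rintro ⟨x, y⟩
  rw [lam_dl, dl_prod x y, tp_tens, lam_dl, lam_dl, ← dl_prod]
  rfl

theorem rho_prod (g : G) (h : H) : rho (g, h) = tp (rho g) (rho h) := by
  apply ext_dl
  rintro ⟨x, y⟩
  rw [rho_dl, dl_prod x y, tp_tens, rho_dl, rho_dl, ← dl_prod]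
  rfl

theorem tp_mem {S : BH G} {T : BH H} (hS : S ∈ vN (⊤ : Subgroup G))
    (hT : T ∈ vN (⊤ : Subgroup H)) : tp S T ∈ vN (⊤ : Subgroup (G × H)) := by
  apply mem_top_of_commute
  rintro ⟨g, h⟩
  rw [rho_prod, ← tp_mul, ← tp_mul, commute_rho hS, commute_rho hT]

theorem kj_inv_tens (a : HS G) (b : HS H) :
    kj (Equiv.inv (G × H)) (tens a b) = tens (kj (Equiv.inv G) a) (kj (Equiv.inv H) b) := by
  apply ext_apply
  rintro ⟨x, y⟩
  change star (a x⁻¹ * b y⁻¹) = star (a x⁻¹) * star (b y⁻¹)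
  rw [star_mul']

theorem cn_inv_tp (S : BH G) (T : BH H) :
    cn (Equiv.inv (G × H)) (tp S T) = tp (cn (Equiv.inv G) S) (cn (Equiv.inv H) T) := by
  apply ext_dl
  rintro ⟨x, y⟩
  rw [cn_apply, dl_prod, kj_inv_tens, tp_tens, kj_inv_tens, tp_tens, cn_apply, cn_apply]

/-- The values of the right version of an operator. -/
theorem kj_inv_apply_one {T : BH G} (hT : T ∈ vN (⊤ : Subgroup G)) :
    kj (Equiv.inv G) (T (dl 1)) = (star T) (dl 1) := by
  apply ext_apply
  intro x
  rw [kj_inv_apply, star_apply_one hT]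

end Group

end Pool.Agent.Helper66.GV
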