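import Pool.Agent.Helper66.GV.Frame

/-!
# The diagonal embedding and the diagonal ampliation
-/

open scoped lp ENNReal InnerProductSpace
open Filter Topology

namespace Pool.Agent.Helper66.GV

section Push

variable {A B : Type*}

/-- The function underlying `push`. -/
noncomputable def pushFun (ι : A → B) (hι : Function.Injective ι) (f : HS A) : HS B :=
  mkHS (Function.extend ι (fun x => f x) 0) (by
    have h1 : (fun y => ‖Function.extend ι (fun x => f x) 0 y‖ ^ 2) =
        Function.extend ι (fun x => ‖f x‖ ^ 2) 0 := by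
      funext y
      by_cases hy : ∃ x, ι x = y
      · obtain ⟨x, rfl⟩ := hy
        rw [hι.extend_apply, hι.extend_apply]
      · rw [Function.extend_apply' _ _ _ hy, Function.extend_apply' _ _ _ hy]
        simp
    rw [h1, ← hι.summable_iff]
    · have h2 : Function.extend ι (fun x => ‖f x‖ ^ 2) 0 ∘ ι = fun x => ‖f x‖ ^ 2 := by
        funext x
        exact hι.extend_apply _ _ _
      rw [h2]
      exact hs_summable f
    · intro y hy
      rw [Function.extend_apply' _ _ _ hy]
      rfl)

theorem pushFun_apply {ι : A → B} (hι : Function.Injective ι) (f : HS A) (x : A) :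
    pushFun ι hι f (ι x) = f x := hι.extend_apply _ _ _

theorem pushFun_apply' {ι : A → B} (hι : Function.Injective ι) (f : HS A) {y : B}
    (hy : ¬ ∃ x, ι x = y) : pushFun ι hι f y = 0 := Function.extend_apply' _ _ _ hy

theorem pushFun_inner {ι : A → B} (hι : Function.Injective ι) (f : HS A) (g : HS B) :
    HasSum (fun x => star (f x) * g (ι x)) ⟪pushFun ι hι f, g⟫_ℂ := by
  have h1 := hs_inner (pushFun ι hι f) g
  rw [← hι.hasSum_iff] at h1
  · have h2 : (fun y => star (pushFun ι hι f y) * g y) ∘ ι = fun x => star (f x) * g (ι x) := by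
      funext x
      rw [Function.comp_apply, pushFun_apply]
    rwa [h2] at h1
  · intro y hy
    rw [pushFun_apply' hι f hy, star_zero, zero_mul]

theorem pushFun_norm {ι : A → B} (hι : Function.Injective ι) (f : HS A) :
    ‖pushFun ι hι f‖ = ‖f‖ := by
  have h1 := pushFun_inner hι f (pushFun ι hι f)
  have h2 := hs_inner f f
  have h3 : (fun x => star (f x) * pushFun ι hι f (ι x)) = fun x => star (f x) * f x := by
    funext x
    rw [pushFun_apply]
  rw [h3] at h1
  have h4 := h1.unique h2
  rw [inner_self_eq_norm_sq_to_K, inner_self_eq_norm_sq_to_K] at h4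
  have h5 : ((‖pushFun ι hι f‖ ^ 2 : ℝ) : ℂ) = ((‖f‖ ^ 2 : ℝ) : ℂ) := by
    push_cast
    exact h4
  exact sq_inj (norm_nonneg _) (norm_nonneg _) (Complex.ofReal_injective h5)

/-- The isometry `δ_x ↦ δ_{ι x}` induced by an injective map. -/
noncomputable def push (ι : A → B) (hι : Function.Injective ι) : HS A →L[ℂ] HS B :=
  LinearMap.mkContinuous
    { toFun := pushFun ι hι
      map_add' := fun f g => ext_apply fun y => by
        by_cases hy : ∃ x, ι x = y
        · obtain ⟨x, rfl⟩ := hy
          rw [hs_add_apply, pushFun_apply, pushFun_apply, pushFun_apply, hs_add_apply]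
        · rw [hs_add_apply, pushFun_apply' hι _ hy, pushFun_apply' hι _ hy,
            pushFun_apply' hι _ hy, add_zero]
      map_smul' := fun c f => ext_apply fun y => by
        by_cases hy : ∃ x, ι x = y
        · obtain ⟨x, rfl⟩ := hy
          rw [RingHom.id_apply, hs_smul_apply, pushFun_apply, pushFun_apply, hs_smul_apply]
        · rw [RingHom.id_apply, hs_smul_apply, pushFun_apply' hι _ hy,
            pushFun_apply' hι _ hy, mul_zero] } 1
    (fun f => by
      rw [one_mul]
      exact (pushFun_norm hι f).le)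

theorem push_apply {ι : A → B} (hι : Function.Injective ι) (f : HS A) (x : A) :
    push ι hι f (ι x) = f x := pushFun_apply hι f x

theorem push_apply' {ι : A → B} (hι : Function.Injective ι) (f : HS A) {y : B}
    (hy : ¬ ∃ x, ι x = y) : push ι hι f y = 0 := pushFun_apply' hι f hy

theorem push_inner {ι : A → B} (hι : Function.Injective ι) (f : HS A) (g : HS B) :
    HasSum (fun x => star (f x) * g (ι x)) ⟪push ι hι f, g⟫_ℂ := pushFun_inner hι f g

theorem push_norm {ι : A → B} (hι : Function.Injective ι) (f : HS A) :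
    ‖push ι hι f‖ = ‖f‖ := pushFun_norm hι f

theorem push_dl {ι : A → B} (hι : Function.Injective ι) (x : A) :
    push ι hι (dl x) = dl (ι x) := by
  classical
  apply ext_apply
  intro y
  by_cases hy : ∃ z, ι z = y
  · obtain ⟨z, rfl⟩ := hy
    rw [push_apply, dl_apply, dl_apply]
    simp [hι.eq_iff]
  · rw [push_apply' hι _ hy, dl_ne]
    rintro rfl
    exact hy ⟨x, rfl⟩

end Push

section Limit

variable {A B : Type*}

/-- Uniformly bounded operators which converge on the basis vectors converge strongly. -/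
theorem strong_limit {T : ℕ → HS A →L[ℂ] HS B} (hb : ∀ n f, ‖T n f‖ ≤ ‖f‖)
    (hc : ∀ x, CauchySeq fun n => T n (dl x)) :
    ∃ T₀ : HS A →L[ℂ] HS B, (∀ f, Tendsto (fun n => T n f) atTop (𝓝 (T₀ f))) ∧
      ∀ f, ‖T₀ f‖ ≤ ‖f‖ := by
  classical
  have h1 : ∀ f : HS A, CauchySeq fun n => T n f := by
    intro f
    rw [Metric.cauchySeq_iff']
    intro ε hε
    obtain ⟨s, hs'⟩ : ∃ s : Finset A, dist (∑ x ∈ s, f x • dl x) f < ε / 4 :=
      ((Metric.tendsto_nhds.mp (hasSum_dl f)) (ε / 4) (by positivity)).exists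
    set h : HS A := ∑ x ∈ s, f x • dl x with hh
    have h2 : CauchySeq fun n => T n h := by
      have h3 : ∀ x, ∃ y, Tendsto (fun n => T n (dl x)) atTop (𝓝 y) := fun x =>
        cauchySeq_tendsto_of_complete (hc x)
      choose y hy using h3
      have h4 : Tendsto (fun n => T n h) atTop (𝓝 (∑ x ∈ s, f x • y x)) := by
        have h5 : (fun n => T n h) = fun n => ∑ x ∈ s, f x • T n (dl x) := by
          funext n
          rw [hh, map_sum]
          simp only [map_smul]
        rw [h5]
        exact tendsto_finsetSum s fun x _ => (hy x).const_smul (f x)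
      exact h4.cauchySeq
    rw [Metric.cauchySeq_iff'] at h2
    obtain ⟨N, hN⟩ := h2 (ε / 4) (by positivity)
    refine ⟨N, fun n hn => ?_⟩
    have h3 := hN n hn
    rw [dist_eq_norm] at h3 hs' ⊢
    have h4 : T n f - T N f = (T n h - T N h) - T n (h - f) + T N (h - f) := by
      rw [map_sub, map_sub]
      abel
    rw [h4]
    have h5 := norm_add_le ((T n h - T N h) - T n (h - f)) (T N (h - f))
    have h6 := norm_sub_le (T n h - T N h) (T n (h - f))
    have h7 := hb n (h - f)
    have h8 := hb N (h - f)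
    linarith
  choose g hg using fun f => cauchySeq_tendsto_of_complete (h1 f)
  have hgb : ∀ f, ‖g f‖ ≤ 1 * ‖f‖ := by
    intro f
    rw [one_mul]
    exact le_of_tendsto' (hg f).norm fun n => hb n f
  refine ⟨LinearMap.mkContinuous
    { toFun := g
      map_add' := fun f f' => by
        refine tendsto_nhds_unique (hg (f + f')) ?_
        simpa only [map_add] using (hg f).add (hg f')
      map_smul' := fun c f => by
        refine tendsto_nhds_unique (hg (c • f)) ?_
        simpa only [map_smul, RingHom.id_apply] using (hg f).const_smul c } 1 hgb, hg, ?_⟩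
  intro f
  have := hgb f
  rwa [one_mul] at this

end Limit

section Diag

variable {L : Type*} [Group L]

/-- The index set of the threefold tensor product. -/
abbrev P3 (L : Type*) : Type _ := L × (L × L)

/-- The diagonal map. -/
def dg (s : L) : P3 L := (s, (s, s))

omit [Group L] in
theorem dg_inj : Function.Injective (dg : L → P3 L) := fun _ _ h => congrArg Prod.fst h

/-- The diagonal isometry. -/
noncomputable def Dl : HS L →L[ℂ] HS (P3 L) := push dg dg_inj

omit [Group L] in
theorem Dl_dl (s : L) : Dl (dl s) = dl (dg s) := push_dl dg_inj s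

omit [Group L] in
theorem Dl_norm (f : HS L) : ‖Dl f‖ = ‖f‖ := push_norm dg_inj f

omit [Group L] in
theorem Dl_inner (f : HS L) (g : HS (P3 L)) :
    HasSum (fun s => star (f s) * g (s, (s, s))) ⟪Dl f, g⟫_ℂ := push_inner dg_inj f g

/-- The coordinate change `(s, a, b) ↦ (s, s a, s b)`. -/
def cc (L : Type*) [Group L] : P3 L ≃ P3 L where
  toFun x := (x.1, (x.1 * x.2.1, x.1 * x.2.2))
  invFun x := (x.1, (x.1⁻¹ * x.2.1, x.1⁻¹ * x.2.2))
  left_inv x := by
    obtain ⟨a, b, c⟩ := x
    simp
  right_inv x := by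
    obtain ⟨a, b, c⟩ := x
    simp

theorem cc_apply (s a b : L) : cc L (s, (a, b)) = (s, (s * a, s * b)) := rfl

theorem cc_symm_apply (s a b : L) : (cc L).symm (s, (a, b)) = (s, (s⁻¹ * a, s⁻¹ * b)) := rfl

/-- The unitary of the coordinate change. -/
noncomputable def ccU : BH (P3 L) := ((rx (cc L)).toContinuousLinearEquiv : BH (P3 L))

/-- The inverse unitary of the coordinate change. -/
noncomputable def ccV : BH (P3 L) := ((rx (cc L)).symm.toContinuousLinearEquiv : BH (P3 L))

theorem ccU_apply (f : HS (P3 L)) (x : P3 L) : ccU f x = f ((cc L).symm x) := rfl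

theorem ccV_apply (f : HS (P3 L)) (x : P3 L) : ccV f x = f (cc L x) := rfl

theorem ccU_dl (x : P3 L) : ccU (dl x) = dl (cc L x) := rx_dl _ _

theorem ccV_dl (x : P3 L) : ccV (dl (cc L x)) = dl x := by
  rw [← ccU_dl]
  exact (rx (cc L)).symm_apply_apply _

theorem ccVU : (ccV : BH (P3 L)) * ccU = 1 := by
  apply ContinuousLinearMap.ext
  intro f
  exact (rx (cc L)).symm_apply_apply f

theorem ccUV : (ccU : BH (P3 L)) * ccV = 1 := by
  apply ContinuousLinearMap.ext
  intro f
  exact (rx (cc L)).apply_symm_apply f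

theorem ccU_star : star (ccU : BH (P3 L)) = ccV := by
  symm
  rw [ContinuousLinearMap.star_eq_adjoint ccU, ContinuousLinearMap.eq_adjoint_iff]
  intro f g
  change ⟪(rx (cc L)).symm f, g⟫_ℂ = ⟪f, rx (cc L) g⟫_ℂ
  rw [← (rx (cc L)).inner_map_map ((rx (cc L)).symm f) g, LinearIsometryEquiv.apply_symm_apply]

/-- The diagonal ampliation of an operator. -/
noncomputable def Am (T : BH L) : BH (P3 L) := ccU * amp1 T * ccV

theorem Am_mul (S T : BH L) : Am (S * T) = Am S * Am T := by
  unfold Am
  rw [amp1_mul]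
  calc ccU * (amp1 S * amp1 T) * ccV = ccU * amp1 S * 1 * amp1 T * ccV := by
        simp only [mul_one, mul_assoc]
    _ = ccU * amp1 S * (ccV * ccU) * amp1 T * ccV := by rw [ccVU]
    _ = _ := by
        simp only [mul_assoc]

theorem Am_one : Am (1 : BH L) = 1 := by
  unfold Am
  rw [amp1_one, mul_one, ccUV]

theorem Am_star (T : BH L) : star (Am T) = Am (star T) := by
  unfold Am
  have h : star (ccV : BH (P3 L)) = ccU := by rw [← ccU_star, star_star]
  rw [star_mul, star_mul, ccU_star, h, amp1_star, mul_assoc]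

theorem rho_ccU (s t r : L) :
    rho (s, (t, r)) * ccU = ccU * tp (rho s) (lam (s, s) * rho (t, r)) := by
  apply ext_dl
  rintro ⟨x, a, b⟩
  rw [mul_apply_eq_comp, mul_apply_eq_comp, ccU_dl, rho_dl, dl_prod x (a, b), tp_tens,
    mul_apply_eq_comp, rho_dl, rho_dl, lam_dl, ← dl_prod, ccU_dl]
  congr 1
  simp [cc, mul_assoc]

theorem Am_mem {T : BH L} (hT : T ∈ vN (⊤ : Subgroup L)) : Am T ∈ vN (⊤ : Subgroup (P3 L)) := by
  apply mem_top_of_commute
  rintro ⟨s, t, r⟩
  have h1 := rho_ccU s t r
  have h2 : ccV * rho (s, (t, r)) = tp (rho s) (lam (s, s) * rho (t, r)) * ccV := by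
    calc ccV * rho (s, (t, r)) = ccV * rho (s, (t, r)) * (ccU * ccV) := by rw [ccUV, mul_one]
      _ = ccV * (rho (s, (t, r)) * ccU) * ccV := by simp only [mul_assoc]
      _ = (ccV * ccU) * tp (rho s) (lam (s, s) * rho (t, r)) * ccV := by
          rw [h1]
          simp only [mul_assoc]
      _ = _ := by rw [ccVU, one_mul]
  have h3 : (amp1 T : BH (P3 L)) = tp T 1 := by
    unfold tp
    rw [amp_one, mul_one]
  unfold Am
  rw [h3]
  calc rho (s, (t, r)) * (ccU * tp T 1 * ccV)
      = (rho (s, (t, r)) * ccU) * tp T 1 * ccV := by simp only [mul_assoc]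
    _ = ccU * (tp (rho s) (lam (s, s) * rho (t, r)) * tp T 1) * ccV := by
        rw [h1]
        simp only [mul_assoc]
    _ = ccU * (tp T 1 * tp (rho s) (lam (s, s) * rho (t, r))) * ccV := by
        rw [← tp_mul, ← tp_mul, commute_rho hT, mul_one, one_mul]
    _ = ccU * tp T 1 * (tp (rho s) (lam (s, s) * rho (t, r)) * ccV) := by
        simp only [mul_assoc]
    _ = _ := by
        rw [← h2]
        simp only [mul_assoc]

theorem amp1_apply_apply {A B : Type*} (T : BH A) (f : HS (A × B)) (x : A) (y : B) :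
    amp1 T f (x, y) = T (slice (swp f) y) x := rfl

/-- The coordinates of `Am T f`. -/
theorem hasSum_Am {T : BH L} (hT : T ∈ vN (⊤ : Subgroup L)) (f : HS (P3 L)) (r p q : L) :
    HasSum (fun z => f (z, (z * (r⁻¹ * p), z * (r⁻¹ * q))) * T (dl 1) (r * z⁻¹))
      (Am T f (r, (p, q))) := by
  have h1 : Am T f (r, (p, q)) = T (slice (swp (ccV f)) (r⁻¹ * p, r⁻¹ * q)) r := rfl
  rw [h1]
  have h2 := hasSum_apply T (slice (swp (ccV f)) (r⁻¹ * p, r⁻¹ * q)) r
  have h3 : (fun z => slice (swp (ccV f)) (r⁻¹ * p, r⁻¹ * q) z * T (dl z) r) =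
      fun z => f (z, (z * (r⁻¹ * p), z * (r⁻¹ * q))) * T (dl 1) (r * z⁻¹) := by
    funext z
    rw [apply_dl hT]
    rfl
  rwa [h3] at h2

/-- An operator intertwining the left translations intertwines all of `L(L)`. -/
theorem intertwine {V : HS L →L[ℂ] HS (P3 L)} (hV : ∀ s f, V (lam s f) = lam (dg s) (V f))
    {T : BH L} (hT : T ∈ vN (⊤ : Subgroup L)) (f : HS L) : V (T f) = Am T (V f) := by
  have h1 : V.comp T = (Am T).comp V := by
    apply ext_dl'
    intro t
    apply ext_apply
    rintro ⟨r, p, q⟩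
    change V (T (dl t)) (r, (p, q)) = Am T (V (dl t)) (r, (p, q))
    have hV1 : ∀ z y, V (dl z) y = V (dl 1) ((dg z)⁻¹ * y) := by
      intro z y
      have h2 : dl z = lam z (dl 1) := by rw [lam_dl, mul_one]
      rw [h2, hV, lam_apply]
    have h2 := hasSum_apply V (T (dl t)) (r, (p, q))
    have h3 := hasSum_Am hT (V (dl t)) r p q
    let e : L ≃ L := ((Equiv.inv L).trans (Equiv.mulLeft t)).trans (Equiv.mulRight r)
    have he : ∀ z, e z = t * z⁻¹ * r := fun z => rfl
    have h4 := (e.hasSum_iff).mpr h3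
    have h5 : ((fun z => V (dl t) (z, (z * (r⁻¹ * p), z * (r⁻¹ * q))) * T (dl 1) (r * z⁻¹)) ∘ e) =
        fun z => T (dl t) z * V (dl z) (r, (p, q)) := by
      funext z
      rw [Function.comp_apply, he, hV1 t, hV1 z, apply_dl hT t z, mul_comm]
      congr 2
      · group
      · simp only [dg, Prod.inv_mk, Prod.mk_mul_mk]
        refine congrArg _ (Prod.ext ?_ (Prod.ext ?_ ?_))
        · simp [mul_assoc]
        · simp [mul_assoc]
        · simp [mul_assoc]
    rw [h5] at h4
    exact h2.unique h4
  exact congrArg (fun S : HS L →L[ℂ] HS (P3 L) => S f) h1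

theorem Dl_lam (s : L) (f : HS L) : Dl (lam s f) = lam (dg s) (Dl f) := by
  have h1 : (Dl : HS L →L[ℂ] HS (P3 L)).comp (lam s) = (lam (dg s)).comp Dl := by
    apply ext_dl'
    intro t
    change Dl (lam s (dl t)) = lam (dg s) (Dl (dl t))
    rw [lam_dl, Dl_dl, Dl_dl, lam_dl]
    rfl
  exact congrArg (fun S : HS L →L[ℂ] HS (P3 L) => S f) h1

theorem Am_Dl {T : BH L} (hT : T ∈ vN (⊤ : Subgroup L)) (f : HS L) :
    Am T (Dl f) = Dl (T f) := (intertwine Dl_lam hT f).symm

end Diag

end Pool.Agent.Helper66.GV
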