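import Pool.Agent.Helper66.GV.Unip

/-!
# Heights of elements of group von Neumann algebras and standard isomorphisms
-/

open scoped lp ENNReal InnerProductSpace MatrixGroups Pointwise
open Filter Topology Matrix

namespace Pool.Agent.Helper66.GV

section Height

variable {G : Type*} [Group G]

/-- The Fourier coefficient at `s` of an element of the group von Neumann algebra. -/
noncomputable def coeff (x : LG G) (s : G) : ℂ := (x : BH G) (dl 1) s

/-- The height of an element of the group von Neumann algebra: the supremum of the absolute values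
of its Fourier coefficients. -/
noncomputable def height (x : LG G) : ℝ := ⨆ s : G, ‖coeff x s‖

theorem coeff_le (x : LG G) (s : G) : ‖coeff x s‖ ≤ ‖(x : BH G) (dl 1)‖ := norm_apply_le _ _

theorem coeff_le_height (x : LG G) (s : G) : ‖coeff x s‖ ≤ height x :=
  le_ciSup (f := fun s => ‖coeff x s‖) ⟨_, by rintro _ ⟨s, rfl⟩; exact coeff_le x s⟩ s

theorem height_nonneg (x : LG G) : 0 ≤ height x := (norm_nonneg _).trans (coeff_le_height x 1)

theorem height_le {x : LG G} (hx : ‖(x : BH G) (dl 1)‖ ≤ 1) : height x ≤ 1 := by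
  have : Nonempty G := ⟨1⟩
  exact ciSup_le fun s => (coeff_le x s).trans hx

theorem exists_of_lt_height {x : LG G} {c : ℝ} (h : c < height x) : ∃ s, c < ‖coeff x s‖ := by
  have : Nonempty G := ⟨1⟩
  exact exists_lt_of_lt_ciSup h

end Height

section Trace

variable {G : Type*} [Group G]

theorem tr_comm {S T : BH G} (hS : S ∈ vN (⊤ : Subgroup G)) (hT : T ∈ vN (⊤ : Subgroup G)) :
    tr (S * T) = tr (T * S) := by
  have key : ∀ {T : BH G}, T ∈ vN (⊤ : Subgroup G) →
      (star T) (dl 1) = kj (Equiv.inv G) (T (dl 1)) := by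
    intro T hT
    apply ext_apply
    intro x
    rw [star_apply_one hT, kj_inv_apply]
  have h1 : ∀ A B : BH G, tr (A * B) = ⟪(star A) (dl 1), B (dl 1)⟫_ℂ := by
    intro A B
    unfold tr
    rw [mul_apply_eq_comp, ContinuousLinearMap.star_eq_adjoint,
      ContinuousLinearMap.adjoint_inner_left]
  rw [h1, h1, key hS, key hT, inner_kj_left inv_invol]

/-- Conjugation by a unitary. -/
noncomputable def conjW (w : LG G) (h1 : star w * w = 1) (h2 : w * star w = 1) :
    LG G ≃⋆ₐ[ℂ] LG G where
  toFun x := w * x * star w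
  invFun x := star w * x * w
  left_inv x := by
    calc star w * (w * x * star w) * w = (star w * w) * x * (star w * w) := by
          simp only [mul_assoc]
      _ = x := by rw [h1, one_mul, mul_one]
  right_inv x := by
    calc w * (star w * x * w) * star w = (w * star w) * x * (w * star w) := by
          simp only [mul_assoc]
      _ = x := by rw [h2, one_mul, mul_one]
  map_mul' x y := by
    calc w * (x * y) * star w = w * x * (1 * y) * star w := by simp only [mul_assoc, one_mul]
      _ = w * x * ((star w * w) * y) * star w := by rw [h1]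
      _ = _ := by simp only [mul_assoc]
  map_add' x y := by rw [mul_add, add_mul]
  map_star' x := by rw [star_mul, star_mul, star_star, mul_assoc]
  map_smul' r x := by rw [mul_smul_comm, smul_mul_assoc]

end Trace

section Cesaro

/-- Cesàro means which do not tend to zero. -/
theorem exists_density {h : ℕ → ℝ} (h0 : ∀ m, 0 ≤ h m) (h1 : ∀ m, h m ≤ 1)
    (hlim : ¬ Tendsto (fun N : ℕ => (∑ m ∈ Finset.range N, h m) / N) atTop (𝓝 0)) :
    ∃ c : ℝ, 0 < c ∧ ∃ᶠ N : ℕ in atTop,
      c * N ≤ (((Finset.range N).filter fun m => c < h m).card : ℝ) := by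
  rw [Metric.tendsto_atTop] at hlim
  push Not at hlim
  obtain ⟨ε, hε, H⟩ := hlim
  refine ⟨ε / 2, by positivity, ?_⟩
  rw [frequently_atTop]
  intro N₀
  obtain ⟨N, hN, hdist⟩ := H N₀
  refine ⟨N, hN, ?_⟩
  rw [Real.dist_eq, sub_zero] at hdist
  have hN0 : (0 : ℝ) < N := by
    rcases Nat.eq_zero_or_pos N with h2 | h2
    · subst h2
      simp at hdist
      linarith
    · exact_mod_cast h2
  have h2 : 0 ≤ ∑ m ∈ Finset.range N, h m := Finset.sum_nonneg fun m _ => h0 m
  rw [abs_of_nonneg (by positivity), le_div_iff₀ hN0] at hdist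
  have h3 : ∑ m ∈ Finset.range N, h m ≤
      (((Finset.range N).filter fun m => ε / 2 < h m).card : ℝ) + ε / 2 * N := by
    have h4 : ∀ m ∈ Finset.range N, h m ≤ (if ε / 2 < h m then 1 else 0) + ε / 2 := by
      intro m _
      split_ifs with h5
      · linarith [h1 m]
      · linarith [not_lt.mp h5]
    refine (Finset.sum_le_sum h4).trans ?_
    rw [Finset.sum_add_distrib, Finset.sum_const, Finset.card_range, nsmul_eq_mul,
      ← Finset.sum_filter, Finset.sum_const, nsmul_eq_mul, mul_one]
    linarith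
  linarith

theorem not_tendsto_of_le {h : ℕ → ℝ} {c : ℝ} (hc : 0 < c) (hh : ∀ m, c ≤ h m) :
    ¬ Tendsto (fun N : ℕ => (∑ m ∈ Finset.range N, h m) / N) atTop (𝓝 0) := by
  intro hlim
  have h1 : ∀ᶠ N : ℕ in atTop, (∑ m ∈ Finset.range N, h m) / N < c :=
    hlim.eventually (gt_mem_nhds hc)
  obtain ⟨N, hN, hN0⟩ := (h1.and (eventually_gt_atTop 0)).exists
  have hN0' : (0 : ℝ) < N := by exact_mod_cast hN0
  rw [div_lt_iff₀ hN0'] at hN
  have h2 : ∑ _m ∈ Finset.range N, c ≤ ∑ m ∈ Finset.range N, h m :=
    Finset.sum_le_sum fun m _ => hh m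
  rw [Finset.sum_const, Finset.card_range, nsmul_eq_mul] at h2
  linarith

end Cesaro

section Main

variable {n : Type*} [Fintype n] [DecidableEq n] {Γ : Subgroup (PGL(n, ℚ))}
  {L : Type*} [Group L] {θ : LG Γ ≃⋆ₐ[ℂ] LG L}

theorem norm_theta (hθ : TracePreserving θ) (g : Γ) : ‖(θ (u g) : BH L) (dl 1)‖ = 1 :=
  (ofIso hθ).norm_x g

theorem isUnip_el {i j : n} (hij : i ≠ j) (β : ℚ) : IsUnip (el hij β) := by
  refine ⟨SpecialLinearGroup.toGL (SpecialLinearGroup.transvection hij β), rfl, 2, ?_⟩
  change (transvection i j β - 1) ^ 2 = 0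
  rw [transvection, add_sub_cancel_left, pow_two, single_mul_single_of_ne _ _ _ _ hij.symm]

/-- The main dichotomy. -/
theorem dichotomy (hn : 3 ≤ Fintype.card n) (hΓ : Γ.Commensurable (intHom n).range)
    (hθ : TracePreserving θ) :
    (∃ w : LG L, star w * w = 1 ∧ w * star w = 1 ∧ ∃ (δ : Γ ≃* L) (χ : Γ →* Circle),
      ∀ g, θ (u g) = (χ g : ℂ) • (star w * u (δ g) * w)) ↔
    ∃ e : Γ, e ≠ 1 ∧ IsUnip (e : PGL(n, ℚ)) ∧
      ¬ Tendsto (fun N : ℕ => (∑ m ∈ Finset.range N, height (θ (u (e ^ m)))) / (N : ℝ))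
        atTop (𝓝 0) := by
  classical
  constructor
  · rintro ⟨w, hw1, hw2, δ, χ, H⟩
    have hstd : ∀ g, ∃ (z : ℂ) (s : L), (ofIso hθ).X g =
        z • (star (w : BH L) * lam s * (w : BH L)) := by
      intro g
      refine ⟨χ g, δ g, ?_⟩
      change (θ (u g) : BH L) = _
      rw [H]
      rfl
    obtain ⟨c, hc, hh⟩ := height_of_std (F := ofIso hθ) w.2 (congrArg Subtype.val hw1)
      (congrArg Subtype.val hw2) hstd
    have hh' : ∀ g, c ≤ height (θ (u g)) := by
      intro g
      obtain ⟨x, hx⟩ := hh g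
      exact hx.trans (coeff_le_height (θ (u g)) x)
    have hnt : Nontrivial n := Fintype.one_lt_card_iff_nontrivial.mp (by omega)
    obtain ⟨i, j, hij⟩ := exists_pair_ne n
    obtain ⟨m, hm, hmem⟩ := comm_rootDense hΓ i j hij 1
    refine ⟨⟨_, hmem⟩, ?_, isUnip_el hij _, ?_⟩
    · intro h0
      have h1 : el hij ((m : ℚ) * 1) = el hij 0 := by
        rw [el_zero]
        exact congrArg Subtype.val h0
      have h2 := el_inj hij h1
      rw [mul_one, Nat.cast_eq_zero] at h2
      omega
    · exact not_tendsto_of_le hc fun m => hh' _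
  · rintro ⟨e, he1, he, hlim⟩
    obtain ⟨c, hc, hfreq⟩ := exists_density (fun m => height_nonneg _)
      (fun m => height_le (norm_theta hθ _).le) hlim
    obtain ⟨w, hw, h1, h2, H⟩ := std_of_unip (F := ofIso hθ) hn hΓ he he1 hc (by
      refine hfreq.mono fun N hN => hN.trans ?_
      have hsub : (Finset.range N).filter (fun m => c < height (θ (u (e ^ m)))) ⊆
          (Finset.range N).filter fun m => ∃ x, c ≤ ‖(ofIso hθ).x (e ^ m) x‖ := by
        intro m hm
        rw [Finset.mem_filter] at hm ⊢
        obtain ⟨s, hs⟩ := exists_of_lt_height hm.2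
        exact ⟨hm.1, s, hs.le⟩
      exact_mod_cast Finset.card_le_card hsub)
    set W : LG L := ⟨w, hw⟩ with hW
    have hW1 : star W * W = 1 := Subtype.ext h1
    have hW2 : W * star W = 1 := Subtype.ext h2
    set θ' : LG Γ ≃⋆ₐ[ℂ] LG L := θ.trans (conjW W hW1 hW2) with hθ'
    have happ : ∀ x, θ' x = W * θ x * star W := fun x => rfl
    have hθ'tr : TracePreserving θ' := by
      intro x
      rw [happ]
      change tr ((w * (θ x : BH L)) * star w) = _
      rw [tr_comm (mul_mem hw (θ x).2) (star_mem hw), ← mul_assoc, h1, one_mul]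
      exact hθ x
    have hstd : ∀ g, Std θ' g := by
      intro g
      obtain ⟨z, s, hg⟩ := H g
      refine ⟨z, s, ?_⟩
      rw [happ]
      have h3 : θ (u g) = z • (star W * u s * W) := Subtype.ext hg
      rw [h3, mul_smul_comm, smul_mul_assoc]
      congr 1
      calc W * (star W * u s * W) * star W = (W * star W) * u s * (W * star W) := by
            simp only [mul_assoc]
        _ = u s := by rw [hW2, one_mul, mul_one]
    obtain ⟨δ, χ, hδ⟩ := exists_iso_of_std hθ'tr hstd
    refine ⟨W, hW1, hW2, δ, χ, fun g => ?_⟩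
    have h3 := hδ g
    rw [happ] at h3
    calc θ (u g) = (star W * W) * θ (u g) * (star W * W) := by rw [hW1, one_mul, mul_one]
      _ = star W * (W * θ (u g) * star W) * W := by simp only [mul_assoc]
      _ = star W * ((χ g : ℂ) • u (δ g)) * W := by rw [h3]
      _ = _ := by rw [mul_smul_comm, smul_mul_assoc]

end Main

end Pool.Agent.Helper66.GV
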