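import Pool.Agent.Helper66.GV.Born

/-!
# Suslin's decomposition with bounded families
-/

open scoped MatrixGroups Pointwise
open Matrix

namespace Pool.Agent.Helper66.GV

variable {n K : Type*} [Fintype n] [DecidableEq n] [Field K]

/-- The matrix `M` represents an element of the set `S`. -/
def MemB {Γ : Subgroup (PGL(n, K))} (S : Set Γ) (M : Matrix n n K) : Prop :=
  ∃ A : SpecialLinearGroup n K, (A : Matrix n n K) = M ∧
    ∃ x ∈ S, (x : PGL(n, K)) = SpecialLinearGroup.toPGL A

variable {Γ : Subgroup (PGL(n, K))}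

theorem MemB.one : MemB ({1} : Set Γ) 1 := ⟨1, rfl, 1, rfl, by rw [map_one]; rfl⟩

theorem MemB.mul {S T : Set Γ} {M N : Matrix n n K} (hM : MemB S M) (hN : MemB T N) :
    MemB (S * T) (M * N) := by
  obtain ⟨A, rfl, x, hx, hxA⟩ := hM
  obtain ⟨B, rfl, y, hy, hyB⟩ := hN
  refine ⟨A * B, rfl, x * y, Set.mul_mem_mul hx hy, ?_⟩
  rw [map_mul, ← hxA, ← hyB]
  rfl

/-- All sufficiently divisible multiples of `u wᵀ` give elements of a bounded set. -/
def DvB (U : Set Γ → Prop) (u w : n → K) : Prop :=
  ∃ m : ℕ, 0 < m ∧ ∃ S : Set Γ, U S ∧ ∀ k : ℤ, MemB S (1 + ((k : K) * m) • vecMulVec u w)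

variable {U : Set Γ → Prop} (hU : Born U)

include hU

theorem DvB.zero_left (w : n → K) : DvB U 0 w :=
  ⟨1, one_pos, {1}, hU.single 1,
    fun k => by rw [zero_vecMulVec, smul_zero, add_zero]; exact MemB.one⟩

theorem DvB.zero_right (u : n → K) : DvB U u 0 :=
  ⟨1, one_pos, {1}, hU.single 1,
    fun k => by rw [vecMulVec_zero, smul_zero, add_zero]; exact MemB.one⟩

theorem DvB.add_right {u w w' : n → K} (h : DvB U u w) (h' : DvB U u w') (h0 : w ⬝ᵥ u = 0) :
    DvB U u (w + w') := by
  obtain ⟨m, hm, S, hS, H⟩ := h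
  obtain ⟨m', hm', S', hS', H'⟩ := h'
  refine ⟨m * m', Nat.mul_pos hm hm', S * S', hU.mul hS hS', fun k => ?_⟩
  have h1 := (H (k * m')).mul (H' (k * m))
  have e : (1 + (((k * m' : ℤ) : K) * m) • vecMulVec u w) *
      (1 + (((k * m : ℤ) : K) * m') • vecMulVec u w') =
      1 + ((k : K) * ((m * m' : ℕ) : K)) • vecMulVec u (w + w') := by
    rw [mul_add, add_mul, add_mul, one_mul, one_mul, mul_one, smul_mul_smul_comm,
      vecMulVec_mul_vecMulVec, h0, vecMulVec_add]
    push_cast
    simp only [zero_smul, zero_vecMulVec, smul_zero, vecMulVec_zero, add_zero, smul_add]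
    rw [show (k : K) * m' * m = k * (m * m') by ring, show (k : K) * m * m' = k * (m * m') by ring]
    abel
  rwa [e] at h1

theorem DvB.add_left {u u' w : n → K} (h : DvB U u w) (h' : DvB U u' w) (h0 : w ⬝ᵥ u' = 0) :
    DvB U (u + u') w := by
  obtain ⟨m, hm, S, hS, H⟩ := h
  obtain ⟨m', hm', S', hS', H'⟩ := h'
  refine ⟨m * m', Nat.mul_pos hm hm', S * S', hU.mul hS hS', fun k => ?_⟩
  have h1 := (H (k * m')).mul (H' (k * m))
  have e : (1 + (((k * m' : ℤ) : K) * m) • vecMulVec u w) *
      (1 + (((k * m : ℤ) : K) * m') • vecMulVec u' w) =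
      1 + ((k : K) * ((m * m' : ℕ) : K)) • vecMulVec (u + u') w := by
    rw [mul_add, add_mul, add_mul, one_mul, one_mul, mul_one, smul_mul_smul_comm,
      vecMulVec_mul_vecMulVec, h0, add_vecMulVec]
    push_cast
    simp only [zero_smul, zero_vecMulVec, smul_zero, vecMulVec_zero, add_zero, smul_add]
    rw [show (k : K) * m' * m = k * (m * m') by ring, show (k : K) * m * m' = k * (m * m') by ring]
    abel
  rwa [e] at h1

/-- The commutator trick. -/
theorem DvB.comm {u w v z : n → K} (h : DvB U u v) (h' : DvB U z w) (hvz : v ⬝ᵥ z = 1)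
    (hvu : v ⬝ᵥ u = 0) (hwz : w ⬝ᵥ z = 0) (hwu : w ⬝ᵥ u = 0) : DvB U u w := by
  obtain ⟨m, hm, S, hS, H⟩ := h
  obtain ⟨m', hm', S', hS', H'⟩ := h'
  refine ⟨m * m', Nat.mul_pos hm hm', S * S' * S * S',
    hU.mul (hU.mul (hU.mul hS hS') hS) hS', fun k => ?_⟩
  have h1 := (((H k).mul (H' 1)).mul (H (-k))).mul (H' (-1))
  set A := vecMulVec u v with hA
  set B := vecMulVec z w with hB
  have hAB : A * B = vecMulVec u w := by
    rw [hA, hB, vecMulVec_mul_vecMulVec, hvz, one_smul]
  have hBA : B * A = 0 := by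
    rw [hA, hB, vecMulVec_mul_vecMulVec, hwu, zero_smul, vecMulVec_zero]
  have hAA : A * A = 0 := by
    rw [hA, vecMulVec_mul_vecMulVec, hvu, zero_smul, vecMulVec_zero]
  have hBB : B * B = 0 := by
    rw [hB, vecMulVec_mul_vecMulVec, hwz, zero_smul, vecMulVec_zero]
  have e : ∀ x y : K, (1 + x • A) * (1 + y • B) * (1 + (-x) • A) * (1 + (-y) • B) =
      1 + (x * y) • (A * B) := by
    intro x y
    have h1 : (1 + x • A) * (1 + y • B) = 1 + x • A + y • B + (x * y) • (A * B) := by
      rw [add_mul, mul_add, mul_add, smul_mul_smul_comm]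
      simp only [one_mul, mul_one]
      abel
    have h2 : (1 + (-x) • A) * (1 + (-y) • B) = 1 - x • A - y • B + (x * y) • (A * B) := by
      rw [add_mul, mul_add, mul_add, smul_mul_smul_comm, neg_mul_neg, neg_smul, neg_smul]
      simp only [one_mul, mul_one]
      abel
    rw [mul_assoc, h2, h1]
    have hAAB : A * (A * B) = 0 := by rw [← mul_assoc, hAA, zero_mul]
    have hBAB : B * (A * B) = 0 := by rw [← mul_assoc, hBA, zero_mul]
    have hABA : A * B * A = 0 := by rw [mul_assoc, hBA, mul_zero]
    have hABB : A * B * B = 0 := by rw [mul_assoc, hBB, mul_zero]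
    have hABAB : A * B * (A * B) = 0 := by rw [← mul_assoc, hABA, zero_mul]
    simp only [add_mul, mul_add, mul_sub, sub_mul, one_mul, mul_one, smul_mul_smul_comm, hAA, hBB,
      hBA, hAAB, hBAB, hABA, hABB, hABAB, smul_zero, add_zero, sub_zero, zero_add, zero_sub]
    abel
  have h2 := e ((k : K) * m) (((1 : ℤ) : K) * m')
  have h3 : (((-k : ℤ) : K) * m) = -((k : K) * m) := by push_cast; ring
  have h4 : (((-1 : ℤ) : K) * m') = -(((1 : ℤ) : K) * m') := by push_cast; ring
  rw [h3, h4, h2, hAB] at h1
  have h5 : (k : K) * m * (((1 : ℤ) : K) * m') = (k : K) * ((m * m' : ℕ) : K) := by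
    push_cast
    ring
  rwa [h5] at h1

/-- The root elements generate bounded cyclic groups. -/
def RootB (U : Set Γ → Prop) : Prop :=
  ∀ (i j : n) (hij : i ≠ j) (b : K), ∃ m : ℕ, 0 < m ∧ ∃ h : el hij ((m : K) * b) ∈ Γ,
    U (Subgroup.zpowers (⟨el hij ((m : K) * b), h⟩ : Γ) : Set Γ)

variable (hΓ : RootB U)

include hΓ

theorem DvB.basic {i j : n} (hij : i ≠ j) (a b : K) :
    DvB U (Pi.single i a) (Pi.single j b) := by
  obtain ⟨m, hm, h, hb⟩ := hΓ i j hij (a * b)
  refine ⟨m, hm, _, hb, fun k => ?_⟩
  have h1 : (1 : Matrix n n K) + ((k : K) * m) • vecMulVec (Pi.single i a) (Pi.single j b) =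
      transvection i j ((k : K) * (m * (a * b))) := by
    rw [transvection]
    congr 1
    ext r s
    simp only [Matrix.smul_apply, vecMulVec_apply, smul_eq_mul, Matrix.single_apply]
    by_cases hr : i = r <;> by_cases hs : j = s
    · subst hr hs
      simp
      ring
    · simp [Pi.single_eq_of_ne (Ne.symm hs), hs]
    · simp [Pi.single_eq_of_ne (Ne.symm hr), hr]
    · simp [Pi.single_eq_of_ne (Ne.symm hr), hr]
  refine ⟨SpecialLinearGroup.transvection hij ((k : K) * (m * (a * b))), h1.symm,
    (⟨el hij ((m : K) * (a * b)), h⟩ : Γ) ^ k, ⟨k, rfl⟩, ?_⟩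
  push_cast
  rw [← el_zsmul]
  rfl

theorem DvB.col {u : n → K} {j : n} (hu : u j = 0) (b : K) : DvB U u (Pi.single j b) := by
  classical
  have key : ∀ S : Finset n, DvB U (∑ i ∈ S, Pi.single i (u i)) (Pi.single j b) := by
    intro S
    induction S using Finset.induction_on with
    | empty => rw [Finset.sum_empty]; exact DvB.zero_left hU _
    | insert a S ha ih =>
      rw [Finset.sum_insert ha]
      apply DvB.add_left hU
      · by_cases haj : a = j
        · subst haj
          rw [hu, Pi.single_zero]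
          exact DvB.zero_left hU _
        · exact DvB.basic hU hΓ haj _ _
      · exact ih
      · rw [single_dotProduct, Finset.sum_apply]
        have : ∑ c ∈ S, (Pi.single c (u c) : n → K) j = 0 := by
          apply Finset.sum_eq_zero
          intro c _
          by_cases hcj : c = j
          · subst hcj
            rw [Pi.single_eq_same, hu]
          · rw [Pi.single_eq_of_ne (Ne.symm hcj)]
        rw [this, mul_zero]
  have h1 : u = ∑ i, Pi.single i (u i) := (Finset.univ_sum_single u).symm
  rw [h1]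
  exact key _

theorem DvB.row {w : n → K} {j : n} (hw : w j = 0) (a : K) : DvB U (Pi.single j a) w := by
  classical
  have key : ∀ S : Finset n, DvB U (Pi.single j a) (∑ i ∈ S, Pi.single i (w i)) := by
    intro S
    induction S using Finset.induction_on with
    | empty => rw [Finset.sum_empty]; exact DvB.zero_right hU _
    | insert b S hb ih =>
      rw [Finset.sum_insert hb]
      apply DvB.add_right hU
      · by_cases hbj : b = j
        · subst hbj
          rw [hw, Pi.single_zero]
          exact DvB.zero_right hU _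
        · exact DvB.basic hU hΓ (Ne.symm hbj) _ _
      · exact ih
      · rw [dotProduct_single]
        by_cases hbj : b = j
        · subst hbj
          rw [Pi.single_eq_same, hw, zero_mul]
        · rw [Pi.single_eq_of_ne (Ne.symm hbj), zero_mul]
  have h1 : w = ∑ i, Pi.single i (w i) := (Finset.univ_sum_single w).symm
  rw [h1]
  exact key _

theorem DvB.two (hn : 3 ≤ Fintype.card n) (u : n → K) {k l : n} (hkl : k ≠ l) (c : K) :
    DvB U u (Pi.single k (c * u l) + Pi.single l (-(c * u k))) := by
  classical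
  obtain ⟨r, hr⟩ : ∃ r, r ∉ ({k, l} : Finset n) := by
    by_contra h
    push Not at h
    have h1 : Fintype.card n ≤ ({k, l} : Finset n).card := by
      rw [← Finset.card_univ]
      exact Finset.card_le_card fun x _ => h x
    have h2 := Finset.card_le_two (a := k) (b := l)
    omega
  simp only [Finset.mem_insert, Finset.mem_singleton, not_or] at hr
  obtain ⟨hrk, hrl⟩ := hr
  set w : n → K := Pi.single k (c * u l) + Pi.single l (-(c * u k)) with hw
  set u' : n → K := Pi.single k (u k) + Pi.single l (u l) with hu'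
  set u'' : n → K := u - u' with hu''
  have hu''k : u'' k = 0 := by
    simp [hu'', hu', Pi.single_eq_of_ne hkl]
  have hu''l : u'' l = 0 := by
    simp [hu'', hu', Pi.single_eq_of_ne hkl.symm]
  have hu'r : u' r = 0 := by
    simp [hu', Pi.single_eq_of_ne hrk, Pi.single_eq_of_ne hrl]
  have hwr : w r = 0 := by
    simp [hw, Pi.single_eq_of_ne hrk, Pi.single_eq_of_ne hrl]
  have h1 : DvB U u'' w := by
    rw [hw]
    apply DvB.add_right hU (DvB.col hU hΓ hu''k _) (DvB.col hU hΓ hu''l _)
    rw [single_dotProduct, hu''k, mul_zero]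
  have h2 : DvB U u' w := by
    refine DvB.comm hU (v := Pi.single r 1) (z := Pi.single r 1) (DvB.col hU hΓ hu'r 1)
      (DvB.row hU hΓ hwr 1) ?_ ?_ ?_ ?_
    · rw [single_dotProduct, Pi.single_eq_same, one_mul]
    · rw [single_dotProduct, hu'r, mul_zero]
    · rw [dotProduct_single, hwr, zero_mul]
    · rw [hw, hu', add_dotProduct, single_dotProduct, single_dotProduct]
      simp [Pi.single_eq_of_ne hkl, Pi.single_eq_of_ne hkl.symm]
      ring
  have h3 : u = u' + u'' := by rw [hu'']; abel
  rw [h3]
  apply DvB.add_left hU h2 h1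
  rw [hw, add_dotProduct, single_dotProduct, single_dotProduct, hu''k, hu''l, mul_zero, mul_zero,
    add_zero]

theorem DvB.all (hn : 3 ≤ Fintype.card n) {u w : n → K} (h : w ⬝ᵥ u = 0) : DvB U u w := by
  classical
  by_cases hu : u = 0
  · rw [hu]
    exact DvB.zero_left hU _
  obtain ⟨l, hl⟩ : ∃ l, u l ≠ 0 := by
    by_contra h1
    push Not at h1
    exact hu (funext h1)
  have key : ∀ S : Finset n, l ∉ S → DvB U u (∑ k ∈ S, (Pi.single k (w k / u l * u l) +
      Pi.single l (-(w k / u l * u k)))) ∧
      (∑ k ∈ S, (Pi.single k (w k / u l * u l) +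
        Pi.single l (-(w k / u l * u k)))) ⬝ᵥ u = 0 := by
    intro S
    induction S using Finset.induction_on with
    | empty =>
      intro _
      rw [Finset.sum_empty]
      exact ⟨DvB.zero_right hU _, zero_dotProduct _⟩
    | insert b S hb ih =>
      intro hlS
      rw [Finset.mem_insert, not_or] at hlS
      obtain ⟨h1, h2⟩ := ih hlS.2
      have h3 : (Pi.single b (w b / u l * u l) + Pi.single l (-(w b / u l * u b)) : n → K) ⬝ᵥ u
          = 0 := by
        rw [add_dotProduct, single_dotProduct, single_dotProduct]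
        ring
      rw [Finset.sum_insert hb]
      refine ⟨DvB.add_right hU (DvB.two hU hΓ hn u (Ne.symm hlS.1) _) h1 h3, ?_⟩
      rw [add_dotProduct, h3, h2, add_zero]
  have h1 := (key (Finset.univ.erase l) (Finset.notMem_erase l _)).1
  have h2 : (∑ k ∈ Finset.univ.erase l, (Pi.single k (w k / u l * u l) +
      Pi.single l (-(w k / u l * u k)))) = w := by
    funext r
    rw [Finset.sum_apply]
    simp only [Pi.add_apply, div_mul_cancel₀ _ hl]
    rw [Finset.sum_add_distrib]
    by_cases hr : r = l
    · subst hr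
      rw [Finset.sum_eq_zero (s := Finset.univ.erase r)
        (f := fun k => (Pi.single k (w k) : n → K) r)]
      · simp only [Pi.single_eq_same, zero_add]
        have h3 : w r * u r + ∑ k ∈ Finset.univ.erase r, w k * u k = 0 := by
          rw [Finset.add_sum_erase _ (fun k => w k * u k) (Finset.mem_univ r)]
          exact h
        rw [Finset.sum_neg_distrib]
        have h4 : ∑ k ∈ Finset.univ.erase r, w k / u r * u k =
            (∑ k ∈ Finset.univ.erase r, w k * u k) / u r := by
          rw [Finset.sum_div]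
          exact Finset.sum_congr rfl fun k _ => by ring
        rw [h4]
        have h5 : ∑ k ∈ Finset.univ.erase r, w k * u k = -(w r * u r) := by
          linear_combination h3
        rw [h5]
        field_simp
      · intro k hk
        rw [Pi.single_eq_of_ne (Ne.symm (Finset.ne_of_mem_erase hk))]
    · rw [Finset.sum_eq_single_of_mem r (Finset.mem_erase.mpr ⟨hr, Finset.mem_univ _⟩)]
      · simp [Pi.single_eq_of_ne hr]
      · intro k _ hk
        rw [Pi.single_eq_of_ne (Ne.symm hk)]
  rwa [h2] at h1


end Pool.Agent.Helper66.GV
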