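import Pool.Agent.Helper66.GV.Ideal
import Mathlib.Analysis.InnerProductSpace.MeanErgodic

/-!
# Positive density of large coefficients gives an invariant vector
-/

open scoped lp ENNReal InnerProductSpace
open Filter Topology

namespace Pool.Agent.Helper66.GV

variable {G L : Type*} [Group G] [Group L] {F : Fr G L}

theorem Sg_iterate (g : G) (m : ℕ) (f : HS (P3 L)) : (F.Sg g)^[m] f = F.Sg (g ^ m) f := by
  induction m with
  | zero =>
    rw [Function.iterate_zero, pow_zero, F.Sg_one]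
    rfl
  | succ m ih =>
    rw [Function.iterate_succ_apply', ih, pow_succ', F.Sg_mul, mul_apply_eq_comp]

theorem hasSum_Sg (g : G) :
    HasSum (fun s => ‖F.x g⁻¹ s‖ ^ 4) (⟪F.Sg g (dl 1), dl 1⟫_ℂ).re := by
  have h1 : F.A' g (dl 1) = Dl (F.x g⁻¹) := by
    have h2 := F.A'_dl g⁻¹ 1
    rw [inv_inv, lam_one] at h2
    exact h2
  have h2 : ⟪F.Sg g (dl 1), dl 1⟫_ℂ =
      ⟪Dl (F.x g⁻¹), tens (F.x g⁻¹) (tens (F.x g⁻¹) (kc (F.x g⁻¹)))⟫_ℂ := by
    unfold Fr.Sg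
    rw [mul_apply_eq_comp, h1]
    have h3 : ⟪F.B g (Dl (F.x g⁻¹)), dl 1⟫_ℂ = ⟪Dl (F.x g⁻¹), F.B g⁻¹ (dl 1)⟫_ℂ :=
      F.F3.inner_X_left _ _ _
    rw [h3]
    congr 1
    have h4 : (dl 1 : HS (P3 L)) = tens (dl 1) (tens (dl 1) (dl 1)) := by
      rw [← dl_prod, ← dl_prod]
      rfl
    rw [h4]
    unfold Fr.B Fr.F3
    rw [Fr.prod_X, tp_tens, Fr.prod_X, tp_tens]
    congr 2
    change cn (Equiv.refl L) (F.X g⁻¹) (dl 1) = _
    rw [cn_apply, kj_refl_dl]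
    rfl
  rw [h2]
  have h3 := Complex.hasSum_re (Dl_tens (F.x g⁻¹) (F.x g⁻¹) (tens (F.x g⁻¹) (kc (F.x g⁻¹))))
  have h4 : (fun y => (star (F.x g⁻¹ y) * (F.x g⁻¹ y * tens (F.x g⁻¹) (kc (F.x g⁻¹)) (y, y))).re) =
      fun y => ‖F.x g⁻¹ y‖ ^ 4 := by
    funext y
    rw [tens_apply]
    change (star (F.x g⁻¹ y) * (F.x g⁻¹ y * (F.x g⁻¹ y * star (F.x g⁻¹ y)))).re = _
    have h3 : star (F.x g⁻¹ y) * F.x g⁻¹ y = ((‖F.x g⁻¹ y‖ ^ 2 : ℝ) : ℂ) := by
      rw [mul_comm]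
      change F.x g⁻¹ y * (starRingEnd ℂ) (F.x g⁻¹ y) = _
      rw [Complex.mul_conj, Complex.normSq_eq_norm_sq]
    have h4 : star (F.x g⁻¹ y) * (F.x g⁻¹ y * (F.x g⁻¹ y * star (F.x g⁻¹ y))) =
        ((‖F.x g⁻¹ y‖ ^ 4 : ℝ) : ℂ) := by
      calc star (F.x g⁻¹ y) * (F.x g⁻¹ y * (F.x g⁻¹ y * star (F.x g⁻¹ y))) =
          (star (F.x g⁻¹ y) * F.x g⁻¹ y) * (star (F.x g⁻¹ y) * F.x g⁻¹ y) := by ring
        _ = _ := by
          rw [h3]
          push_cast
          ring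
    rw [h4, Complex.ofReal_re]
  rw [h4] at h3
  exact h3

theorem Sg_re_nonneg (g : G) : 0 ≤ (⟪F.Sg g (dl 1), dl 1⟫_ℂ).re :=
  (hasSum_Sg g).nonneg fun _ => by positivity

theorem le_Sg_re {g : G} {c : ℝ} (hc : 0 ≤ c) {x : L} (hx : c ≤ ‖F.x g x‖) :
    c ^ 4 ≤ (⟪F.Sg g (dl 1), dl 1⟫_ℂ).re := by
  have h1 := le_hasSum (hasSum_Sg (F := F) g) x⁻¹ (fun _ _ => by positivity)
  have h2 : F.x g⁻¹ x⁻¹ = star (F.x g x) := by
    rw [← F.kj_x, kj_inv_apply, inv_inv]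
  rw [h2, norm_star] at h1
  exact (pow_le_pow_left₀ hc hx 4).trans h1

open Classical in
/-- If the unitaries of the powers of `g` have large coefficients with positive upper density, then
there is a nonzero vector fixed by `F.Sg g`. -/
theorem exists_fixed (g : G) {c : ℝ} (hc : 0 < c)
    (h : ∃ᶠ N : ℕ in atTop, c * N ≤
      (((Finset.range N).filter fun m => ∃ x, c ≤ ‖F.x (g ^ m) x‖).card : ℝ)) :
    ∃ z : HS (P3 L), z ≠ 0 ∧ F.Sg g z = z := by
  have hn : ‖F.Sg g‖ ≤ 1 := by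
    apply ContinuousLinearMap.opNorm_le_bound _ zero_le_one
    intro f
    rw [F.norm_Sg, one_mul]
  have h1 := (F.Sg g).tendsto_birkhoffAverage_orthogonalProjection hn (dl 1)
  set z : HS (P3 L) := (((F.Sg g).eqLocus (1 : BH (P3 L))).orthogonalProjectionOnto (dl 1) :
    HS (P3 L)) with hz
  refine ⟨z, ?_, ?_⟩
  · intro hz0
    rw [hz0] at h1
    have h2 : Tendsto (fun N => (⟪birkhoffAverage ℂ (F.Sg g) _root_.id N (dl 1), dl 1⟫_ℂ).re)
        atTop (𝓝 0) := by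
      have h3 := (h1.inner (tendsto_const_nhds (x := (dl 1 : HS (P3 L)))) (𝕜 := ℂ))
      rw [inner_zero_left] at h3
      exact (Complex.continuous_re.tendsto _).comp h3
    have h3 : ∀ N, (⟪birkhoffAverage ℂ (F.Sg g) _root_.id N (dl 1), dl 1⟫_ℂ).re =
        (N : ℝ)⁻¹ * ∑ m ∈ Finset.range N, (⟪F.Sg (g ^ m) (dl 1), dl 1⟫_ℂ).re := by
      intro N
      rw [birkhoffAverage, birkhoffSum, inner_smul_left, sum_inner]
      simp only [id, Sg_iterate]
      have h4 : (starRingEnd ℂ) ((N : ℂ)⁻¹) = (((N : ℝ)⁻¹ : ℝ) : ℂ) := by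
        rw [map_inv₀, Complex.conj_natCast]
        push_cast
        rfl
      rw [h4, Complex.re_ofReal_mul, Complex.re_sum]
    have h4 : ∀ᶠ N : ℕ in atTop,
        (⟪birkhoffAverage ℂ (F.Sg g) _root_.id N (dl 1), dl 1⟫_ℂ).re < c ^ 5 :=
      h2.eventually (gt_mem_nhds (by positivity))
    obtain ⟨N, hN, hN'⟩ := (h.and_eventually (h4.and (eventually_gt_atTop 0))).exists
    obtain ⟨hN1, hN0⟩ := hN'
    rw [h3] at hN1
    have hNr : (0 : ℝ) < N := by exact_mod_cast hN0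
    have h5 : (((Finset.range N).filter fun m => ∃ x, c ≤ ‖F.x (g ^ m) x‖).card : ℝ) * c ^ 4 ≤
        ∑ m ∈ Finset.range N, (⟪F.Sg (g ^ m) (dl 1), dl 1⟫_ℂ).re := by
      calc (((Finset.range N).filter fun m => ∃ x, c ≤ ‖F.x (g ^ m) x‖).card : ℝ) * c ^ 4 =
          ∑ _m ∈ (Finset.range N).filter fun m => ∃ x, c ≤ ‖F.x (g ^ m) x‖, c ^ 4 := by
            rw [Finset.sum_const, nsmul_eq_mul]
        _ ≤ ∑ m ∈ (Finset.range N).filter fun m => ∃ x, c ≤ ‖F.x (g ^ m) x‖,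
            (⟪F.Sg (g ^ m) (dl 1), dl 1⟫_ℂ).re := by
            refine Finset.sum_le_sum fun m hm => ?_
            obtain ⟨_, x, hx⟩ := Finset.mem_filter.mp hm
            exact le_Sg_re hc.le hx
        _ ≤ _ := Finset.sum_le_sum_of_subset_of_nonneg (Finset.filter_subset _ _)
            fun m _ _ => Sg_re_nonneg _
    have h6 : c * N * c ^ 4 ≤ ∑ m ∈ Finset.range N, (⟪F.Sg (g ^ m) (dl 1), dl 1⟫_ℂ).re :=
      (mul_le_mul_of_nonneg_right hN (by positivity)).trans h5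
    have h7 : c ^ 5 ≤ (N : ℝ)⁻¹ * ∑ m ∈ Finset.range N,
        (⟪F.Sg (g ^ m) (dl 1), dl 1⟫_ℂ).re := by
      calc c ^ 5 = (N : ℝ)⁻¹ * (c * N * c ^ 4) := by
            field_simp
        _ ≤ _ := by gcongr
    linarith
  · have h2 := (((F.Sg g).eqLocus (1 : BH (P3 L))).orthogonalProjectionOnto (dl 1)).2
    exact h2

/-- The consequence for the projection attached to the cyclic group generated by `g`. -/
theorem pj_ne_zero (g : G) {z : HS (P3 L)} (hz : z ≠ 0) (hg : F.Sg g z = z) :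
    pj F (Subgroup.zpowers g : Set G) (dl 1) ≠ 0 := by
  -- all powers fix `z`
  have h1 : ∀ h ∈ (Subgroup.zpowers g : Set G), F.Sg h z = z := by
    have hinv : F.Sg g⁻¹ z = z := by
      conv_lhs => rw [← hg]
      rw [← mul_apply_eq_comp, ← F.Sg_mul, inv_mul_cancel, F.Sg_one]
      rfl
    have hnat : ∀ (k : G), F.Sg k z = z → ∀ m : ℕ, F.Sg (k ^ m) z = z := by
      intro k hk m
      induction m with
      | zero =>
        rw [pow_zero, F.Sg_one]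
        rfl
      | succ m ih => rw [pow_succ, F.Sg_mul, mul_apply_eq_comp, hk, ih]
    rintro _ ⟨m, rfl⟩
    obtain ⟨k, rfl | rfl⟩ := m.eq_nat_or_neg
    · simp only [zpow_natCast]
      exact hnat g hg k
    · simp only [zpow_neg, zpow_natCast, ← inv_pow]
      exact hnat g⁻¹ hinv k
  -- a nonzero slice
  obtain ⟨a, b, hab⟩ : ∃ a b : L, ctr (tens (dl a) (dl b)) z ≠ 0 := by
    by_contra hcon
    push Not at hcon
    apply hz
    apply ext_apply
    rintro ⟨r, a, b⟩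
    have h2 := congrArg (fun f : HS L => f r) (hcon a b)
    simp only [ctr_apply] at h2
    rw [← dl_prod, inner_dl] at h2
    exact h2
  have h2 : ctr (tens (dl a) (dl b)) z ∈ Kb F (Subgroup.zpowers g : Set G) :=
    AFs_of_fixed h1 a b
  intro h0
  have h3 : pj F (Subgroup.zpowers g : Set G) = 0 := by
    apply ext_dl
    intro s
    rw [dl_eq_rho, ← mul_apply_eq_comp, ← commute_rho (pj_vN _), mul_apply_eq_comp, h0, map_zero]
    rfl
  have h4 := pj_eq h2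
  rw [h3] at h4
  exact hab h4.symm

end Pool.Agent.Helper66.GV
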