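import Pool.Agent.Helper66.GV.Iso

/-!
# From the root subgroups to the whole group
-/

open scoped lp ENNReal InnerProductSpace

namespace Pool.Agent.Helper66.GV

variable {G L : Type*} [Group G] [Group L] {θ : LG G ≃⋆ₐ[ℂ] LG L}

theorem exists_lt_eq {ι : Type*} {f : HS ι} {φ : ℕ → ι} (h : ∀ k, ‖f (φ k)‖ = ‖f (φ 0)‖)
    (h0 : f (φ 0) ≠ 0) : ∃ i j, i < j ∧ φ i = φ j := by
  by_contra hcon
  push Not at hcon
  have hinj : Function.Injective φ := by
    intro i j hij
    rcases lt_trichotomy i j with h1 | h1 | h1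
    · exact absurd hij (hcon i j h1)
    · exact h1
    · exact absurd hij.symm (hcon j i h1)
  have hs : Summable fun x => ‖f x‖ ^ 2 := by
    have h1 := (lp.memℓp f).summable (by norm_num)
    simpa using h1
  have hs2 := hs.comp_injective hinj
  have hs3 : (fun x => ‖f x‖ ^ 2) ∘ φ = fun _ : ℕ => ‖f (φ 0)‖ ^ 2 := by
    funext k
    simp only [Function.comp_apply, h k]
  rw [hs3, summable_const_iff] at hs2
  exact h0 (norm_eq_zero.mp (pow_eq_zero_iff (two_ne_zero) |>.mp hs2))

theorem exists_pow_fix {f : HS G} {a b x : G} (h : ∀ y, ‖f (a * y * b)‖ = ‖f y‖) (h0 : f x ≠ 0) :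
    ∃ k : ℕ, 0 < k ∧ a ^ k * x * b ^ k = x := by
  have hk : ∀ k : ℕ, ‖f (a ^ k * x * b ^ k)‖ = ‖f x‖ := by
    intro k
    induction k with
    | zero => simp
    | succ k ih =>
      rw [← ih, ← h (a ^ k * x * b ^ k)]
      congr 2
      rw [pow_succ' a, pow_succ b]
      group
  obtain ⟨i, j, hij, heq⟩ := exists_lt_eq (f := f) (φ := fun k => a ^ k * x * b ^ k)
    (fun k => by simp only [hk, pow_zero, one_mul, mul_one]) (by simpa using h0)
  refine ⟨j - i, by omega, ?_⟩
  have e1 : a ^ j = a ^ i * a ^ (j - i) := by rw [← pow_add]; congr 1; omega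
  have e2 : b ^ j = b ^ (j - i) * b ^ i := by rw [← pow_add]; congr 1; omega
  rw [e1, e2] at heq
  have e3 : a ^ i * (a ^ (j - i) * x * b ^ (j - i)) * b ^ i = a ^ i * x * b ^ i := by
    rw [heq]; group
  exact mul_left_cancel (mul_right_cancel e3)

theorem norm_coeff {g : G} {z : ℂ} {s : L} (h : θ (u g) = z • u s) : ‖z‖ = 1 := by
  have h1 : star (θ (u g) : BH L) * (θ (u g) : BH L) = 1 := by
    have : star (θ (u g)) * θ (u g) = 1 := by
      rw [← map_st, ← map_mul, star_u_mul, map_one]
    exact congrArg Subtype.val this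
  have h2 := norm_apply_of_isometry h1 (dl 1)
  rw [norm_dl, h] at h2
  change ‖(z • lam s) (dl 1)‖ = 1 at h2
  rw [smul_apply, norm_smul, lam_dl, norm_dl, mul_one] at h2
  exact h2

theorem coeff_intertwine {X : GvN L} {z z' : ℂ} {s s' : L}
    (h : X * (z • u s) = (z' • u s') * X) (x : L) :
    z * (X : BH L) (dl 1) x = z' * (X : BH L) (dl 1) (s'⁻¹ * x * s) := by
  have h1 : ((X * (z • u s) : GvN L) : BH L) (dl 1) (x * s) =
      (((z' • u s') * X : GvN L) : BH L) (dl 1) (x * s) := by rw [h]
  have h2 : ((X * (z • u s) : GvN L) : BH L) (dl 1) (x * s) = z * (X : BH L) (dl 1) x := by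
    change ((X : BH L) ((z • lam s) (dl 1))) (x * s) = _
    rw [smul_apply, map_smul, lam_dl, mul_one]
    change z * ((X : BH L) (dl s)) (x * s) = _
    rw [apply_dl X.2, mul_inv_cancel_right]
  have h3 : (((z' • u s') * X : GvN L) : BH L) (dl 1) (x * s) =
      z' * (X : BH L) (dl 1) (s'⁻¹ * x * s) := by
    change ((z' • lam s') ((X : BH L) (dl 1))) (x * s) = _
    rw [smul_apply]
    change z' * (lam s' ((X : BH L) (dl 1))) (x * s) = _
    rw [lam_apply, mul_assoc]
  rw [← h2, ← h3, h1]

theorem eq_smul_one {T : GvN L} (h : ∀ x, (T : BH L) (dl 1) x ≠ 0 → x = 1) :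
    T = (T : BH L) (dl 1) 1 • (1 : GvN L) := by
  apply Subtype.ext
  apply eq_of_apply_one T.2 (((T : BH L) (dl 1) 1 • (1 : GvN L)).2)
  intro x
  change (T : BH L) (dl 1) x = ((T : BH L) (dl 1) 1 • (1 : BH L)) (dl 1) x
  rw [smul_apply]
  change (T : BH L) (dl 1) x = (T : BH L) (dl 1) 1 * (dl 1) x
  by_cases hx : x = 1
  · rw [hx, dl_self, mul_one]
  · rw [dl_ne hx, mul_zero]
    by_contra h1
    exact hx (h x h1)

/-- If `θ` is standard on the subgroup generated by `E`, this subgroup is almost normalised and no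
nontrivial element of `G` commutes with powers of all elements of `E`, then `θ` is standard. -/
theorem std_of_generated {E : Set G} (hE : ∀ g ∈ Subgroup.closure E, Std θ g)
    (hW : ∀ g : G, ∀ e ∈ E, ∃ m : ℕ, 0 < m ∧ g * e ^ m * g⁻¹ ∈ Subgroup.closure E)
    (hC : ∀ g : G, (∀ e ∈ E, ∃ m : ℕ, 0 < m ∧ g * e ^ m = e ^ m * g) → g = 1) (g : G) :
    Std θ g := by
  classical
  set X : GvN L := θ (u g) with hX
  have hXu : star X * X = 1 := by
    rw [hX, ← map_st, ← map_mul, star_u_mul, map_one]
  obtain ⟨x, hx⟩ := exists_ne_zero (T := (X : BH L)) (congrArg Subtype.val hXu)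
  -- the key property of the points in the support
  have key : ∀ y, (X : BH L) (dl 1) y ≠ 0 → ∀ e ∈ E, ∀ m : ℕ, 0 < m → ∀ s s' : L, ∀ z z' : ℂ,
      θ (u (e ^ m)) = z • u s → θ (u (g * e ^ m * g⁻¹)) = z' • u s' →
      ∃ k : ℕ, 0 < k ∧ s' ^ k * y = y * s ^ k := by
    intro y hy e _ m _ s s' z z' hz hz'
    have h1 : X * (z • u s) = (z' • u s') * X := by
      rw [← hz, ← hz', hX, ← map_mul, ← map_mul, ← u_mul, ← u_mul]
      congr 2
      group
    have h2 : ∀ w, ‖(X : BH L) (dl 1) (s'⁻¹ * w * s)‖ = ‖(X : BH L) (dl 1) w‖ := by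
      intro w
      have h3 := congrArg norm (coeff_intertwine h1 w)
      rw [norm_mul, norm_mul, norm_coeff hz, norm_coeff hz', one_mul, one_mul] at h3
      exact h3.symm
    obtain ⟨k, hk, h4⟩ := exists_pow_fix h2 hy
    refine ⟨k, hk, ?_⟩
    rw [inv_pow, mul_assoc, inv_mul_eq_iff_eq_mul] at h4
    exact h4.symm
  -- two points of the support differ by something commuting with powers of the images
  have huniq : ∀ y, (X : BH L) (dl 1) y ≠ 0 → y = x := by
    intro y hy
    -- t = y⁻¹ x
    set t : L := y⁻¹ * x with ht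
    set T : GvN G := θ.symm (u t) with hT
    have hTsupp : ∀ a, (T : BH G) (dl 1) a ≠ 0 → a = 1 := by
      intro a ha
      apply hC
      intro e he
      obtain ⟨m, hm, hmem⟩ := hW g e he
      obtain ⟨z, s, hz⟩ := hE (e ^ m) (Subgroup.pow_mem _ (Subgroup.subset_closure he) m)
      obtain ⟨z', s', hz'⟩ := hE _ hmem
      obtain ⟨k, hk, hk'⟩ := key x hx e he m hm s s' z z' hz hz'
      obtain ⟨l, hl, hl'⟩ := key y hy e he m hm s s' z z' hz hz'
      have hx2 : s' ^ (k * l) * x = x * s ^ (k * l) := by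
        have : ∀ n : ℕ, s' ^ (k * n) * x = x * s ^ (k * n) := by
          intro n
          induction n with
          | zero => simp
          | succ n ih =>
            rw [Nat.mul_succ, pow_add, pow_add, mul_assoc, hk', ← mul_assoc, ih, mul_assoc]
        exact this l
      have hy2 : s' ^ (k * l) * y = y * s ^ (k * l) := by
        have : ∀ n : ℕ, s' ^ (l * n) * y = y * s ^ (l * n) := by
          intro n
          induction n with
          | zero => simp
          | succ n ih =>
            rw [Nat.mul_succ, pow_add, pow_add, mul_assoc, hl', ← mul_assoc, ih, mul_assoc]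
        have h2 := this k
        rwa [Nat.mul_comm l k] at h2
      -- t commutes with s ^ (k * l)
      have htc : t * s ^ (k * l) = s ^ (k * l) * t := by
        have h1 : y⁻¹ * s' ^ (k * l) = s ^ (k * l) * y⁻¹ := by
          rw [inv_mul_eq_iff_eq_mul, ← mul_assoc, ← hy2, mul_inv_cancel_right]
        rw [ht, mul_assoc, ← hx2, ← mul_assoc, h1, mul_assoc]
      have hek : θ (u (e ^ (m * (k * l)))) = z ^ (k * l) • u (s ^ (k * l)) := by
        have : ∀ n : ℕ, θ (u (e ^ (m * n))) = z ^ n • u (s ^ n) := by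
          intro n
          induction n with
          | zero => simp [u_one]
          | succ n ih =>
            rw [Nat.mul_succ, pow_add, u_mul, map_mul, ih, hz, smul_mul_smul_comm, ← u_mul,
              pow_succ, pow_succ]
        exact this (k * l)
      have hTc : T * u (e ^ (m * (k * l))) = u (e ^ (m * (k * l))) * T := by
        apply EquivLike.injective θ
        rw [map_mul, map_mul, hT, StarAlgEquiv.apply_symm_apply, hek, mul_smul_comm,
          smul_mul_assoc, ← u_mul, ← u_mul, htc]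
      have hTc' : T * ((1 : ℂ) • u (e ^ (m * (k * l)))) =
          ((1 : ℂ) • u (e ^ (m * (k * l)))) * T := by
        rw [one_smul, hTc]
      have h5 : ∀ w, ‖(T : BH G) (dl 1) ((e ^ (m * (k * l)))⁻¹ * w * e ^ (m * (k * l)))‖ =
          ‖(T : BH G) (dl 1) w‖ := by
        intro w
        have h3 := coeff_intertwine hTc' w
        rw [one_mul, one_mul] at h3
        rw [h3]
      obtain ⟨n, hn, h6⟩ := exists_pow_fix h5 ha
      refine ⟨m * (k * l) * n, by positivity, ?_⟩
      rw [inv_pow, mul_assoc, inv_mul_eq_iff_eq_mul, ← pow_mul] at h6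
      exact h6
    have hTs := eq_smul_one hTsupp
    have h7 : u t = (T : BH G) (dl 1) 1 • (1 : GvN L) := by
      have : θ T = u t := by rw [hT, StarAlgEquiv.apply_symm_apply]
      rw [← this]
      conv_lhs => rw [hTs]
      rw [map_smul, map_one]
    have h8 : t = 1 := by
      by_contra hne
      have h9 : ((u t : GvN L) : BH L) (dl 1) t =
          (((T : BH G) (dl 1) 1 • (1 : GvN L) : GvN L) : BH L) (dl 1) t := by rw [← h7]
      have h10 : ((u t : GvN L) : BH L) (dl 1) t = 1 := by
        change lam t (dl 1) t = 1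
        rw [lam_dl, mul_one, dl_self]
      have h11 : (((T : BH G) (dl 1) 1 • (1 : GvN L) : GvN L) : BH L) (dl 1) t = 0 := by
        change ((T : BH G) (dl 1) 1 • (1 : BH L)) (dl 1) t = 0
        rw [smul_apply]
        change (T : BH G) (dl 1) 1 * (dl 1) t = 0
        rw [dl_ne hne, mul_zero]
      rw [h10, h11] at h9
      exact one_ne_zero h9
    rw [ht, inv_mul_eq_one] at h8
    exact h8
  refine ⟨(X : BH L) (dl 1) x, x, ?_⟩
  apply Subtype.ext
  apply eq_of_apply_one X.2 (((X : BH L) (dl 1) x • u x).2)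
  intro y
  change (X : BH L) (dl 1) y = ((X : BH L) (dl 1) x • lam x) (dl 1) y
  rw [smul_apply, lam_dl, mul_one]
  change (X : BH L) (dl 1) y = (X : BH L) (dl 1) x * (dl x) y
  by_cases hy : y = x
  · rw [hy, dl_self, mul_one]
  · rw [dl_ne hy, mul_zero]
    by_contra h1
    exact hy (huniq y h1)

/-- If every group element is mapped to a multiple of a group element, then `θ` is induced by an
isomorphism of groups and a character. -/
theorem exists_iso_of_std (hθ : TracePreserving θ) (h : ∀ g, Std θ g) :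
    ∃ (δ : G ≃* L) (χ : G →* Circle), ∀ g, θ (u g) = (χ g : ℂ) • u (δ g) := by
  classical
  choose z s hzs using h
  have hz : ∀ g, ‖z g‖ = 1 := fun g => norm_coeff (hzs g)
  have huniq : ∀ (a b : ℂ) (s t : L), ‖a‖ = 1 → a • (u s : GvN L) = b • u t → s = t ∧ a = b := by
    intro a b s t ha hab
    have h1 : ∀ y, a * dl s y = b * dl t y := by
      intro y
      have h2 : ((a • u s : GvN L) : BH L) (dl 1) y = ((b • u t : GvN L) : BH L) (dl 1) y := by
        rw [hab]
      change (a • lam s) (dl 1) y = (b • lam t) (dl 1) y at h2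
      rw [smul_apply, smul_apply, lam_dl, lam_dl, mul_one, mul_one] at h2
      exact h2
    have hst : s = t := by
      by_contra hne
      have h2 := h1 s
      rw [dl_self, dl_ne hne, mul_one, mul_zero] at h2
      rw [h2, norm_zero] at ha
      exact zero_ne_one ha
    subst hst
    have h2 := h1 s
    rw [dl_self, mul_one, mul_one] at h2
    exact ⟨rfl, h2⟩
  have hmul : ∀ g h, s (g * h) = s g * s h ∧ z (g * h) = z g * z h := by
    intro g h
    apply huniq _ _ _ _ (hz _)
    rw [← hzs, u_mul, map_mul, hzs, hzs, smul_mul_smul_comm, u_mul]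
  have hone : s 1 = 1 ∧ z 1 = 1 := by
    apply huniq _ _ _ _ (hz _)
    rw [← hzs, u_one, map_one, u_one, one_smul]
  have hinj : Function.Injective s := by
    intro g h hgh
    have h1 : θ (u g) = θ ((z g * (z h)⁻¹) • u h) := by
      rw [map_smul, hzs, hzs, smul_smul, hgh, inv_mul_cancel_right₀]
      intro h0
      have := hz h
      rw [h0, norm_zero] at this
      exact zero_ne_one this
    have h2 := EquivLike.injective θ h1
    have h3 : ((u g : GvN G) : BH G) (dl 1) g =
        (((z g * (z h)⁻¹) • u h : GvN G) : BH G) (dl 1) g := by rw [← h2]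
    change lam g (dl 1) g = ((z g * (z h)⁻¹) • lam h) (dl 1) g at h3
    rw [smul_apply, lam_dl, lam_dl, mul_one, mul_one, dl_self] at h3
    change 1 = (z g * (z h)⁻¹) * dl h g at h3
    by_contra hne
    rw [dl_ne hne, mul_zero] at h3
    exact one_ne_zero h3
  have hsurj : Function.Surjective s := by
    intro t
    obtain ⟨g, hg⟩ := exists_ne_zero (symm_unitary (θ := θ) t).1
    refine ⟨g, ?_⟩
    rw [apply_one_eq_tr] at hg
    rw [tr_move hθ] at hg
    obtain ⟨z', hz'⟩ : ∃ z' : ℂ, θ (u g⁻¹) = z' • u (s g)⁻¹ := by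
      refine ⟨star (z g), ?_⟩
      rw [← star_u, map_st, hzs, star_smul, star_u]
    rw [hz'] at hg
    change tr ((z' • lam (s g)⁻¹) * lam t) ≠ 0 at hg
    rw [smul_mul_assoc, ← lam_mul, tr_eq, smul_apply, lam_dl, mul_one] at hg
    change z' * dl ((s g)⁻¹ * t) 1 ≠ 0 at hg
    by_contra hne
    apply hg
    rw [dl_ne, mul_zero]
    intro h1
    exact hne (inv_mul_eq_one.mp h1.symm)
  let δ : G →* L := MonoidHom.mk' s (fun g h => (hmul g h).1)
  let χ : G →* Circle := MonoidHom.mk' (fun g => ⟨z g, mem_sphere_zero_iff_norm.mpr (hz g)⟩)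
    (fun g h => Subtype.ext (hmul g h).2)
  exact ⟨MulEquiv.ofBijective δ ⟨hinj, hsurj⟩, χ, fun g => hzs g⟩

end Pool.Agent.Helper66.GV
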