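import Pool.Agent.Helper66.GV.Comm

/-!
# The dichotomy for isomorphisms of group von Neumann algebras
-/

open scoped lp ENNReal InnerProductSpace MatrixGroups Pointwise
open Filter Topology Matrix

namespace Pool.Agent.Helper66.GV

section Height

/-- Almost finitely supported families of unit vectors have large coefficients. -/
theorem AFs.exists_height {A : Type*} {S : Set (HS A)} (hS : AFs S) (hn : ∀ f ∈ S, ‖f‖ = 1) :
    ∃ c : ℝ, 0 < c ∧ ∀ f ∈ S, ∃ x, c ≤ ‖f x‖ := by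
  obtain ⟨M, hM⟩ := hS (1 / 2) (by norm_num)
  refine ⟨1 / (4 * (M + 1)), by positivity, fun f hf => ?_⟩
  obtain ⟨t, f', h1, h2, h3⟩ := hM f hf
  by_contra hcon
  push Not at hcon
  have hf1 := hn f hf
  have h4 : ‖f'‖ ≤ 3 / 2 := by
    have h5 : ‖f'‖ ≤ ‖f‖ + ‖f - f'‖ := by
      have h6 : f' = f - (f - f') := by abel
      calc ‖f'‖ = ‖f - (f - f')‖ := by rw [← h6]
        _ ≤ _ := norm_sub_le _ _
    rw [hf1] at h5
    linarith
  have h5 : (3 : ℝ) / 8 ≤ (⟪f, f'⟫_ℂ).re := by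
    have h6 : ‖f - f'‖ ^ 2 = ‖f‖ ^ 2 - 2 * (⟪f, f'⟫_ℂ).re + ‖f'‖ ^ 2 := by
      have := norm_sub_sq (𝕜 := ℂ) f f'
      simpa using this
    have h7 : ‖f - f'‖ ^ 2 ≤ 1 / 4 := by
      nlinarith [norm_nonneg (f - f')]
    rw [hf1] at h6
    nlinarith [sq_nonneg ‖f'‖]
  have h6 : ‖⟪f, f'⟫_ℂ‖ ≤ t.card * (1 / (4 * ((M : ℝ) + 1)) * (3 / 2)) := by
    conv_lhs => rw [eq_sum_of_support h2, inner_sum]
    refine (norm_sum_le _ _).trans ?_
    rw [← nsmul_eq_mul, ← Finset.sum_const]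
    refine Finset.sum_le_sum fun x _ => ?_
    rw [inner_smul_right, norm_mul, ← inner_conj_symm, inner_dl, RCLike.norm_conj, mul_comm]
    exact mul_le_mul (hcon x).le ((norm_apply_le _ _).trans h4) (norm_nonneg _) (by positivity)
  have h7 : (t.card : ℝ) ≤ M := by exact_mod_cast h1
  have h9 : (t.card : ℝ) * (1 / (4 * ((M : ℝ) + 1)) * (3 / 2)) < 3 / 8 := by
    have h9 : (t.card : ℝ) * (1 / (4 * ((M : ℝ) + 1)) * (3 / 2)) =
        (3 / 8) * (t.card / ((M : ℝ) + 1)) := by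
      have : (M : ℝ) + 1 ≠ 0 := by positivity
      field_simp
      ring
    rw [h9]
    have h10 : (t.card : ℝ) / ((M : ℝ) + 1) < 1 := by
      rw [div_lt_one (by positivity)]
      linarith
    nlinarith
  have h10 := Complex.re_le_norm ⟪f, f'⟫_ℂ
  linarith

variable {G L : Type*} [Group G] [Group L] {F : Fr G L}

theorem hgt_of_AF (h : AFs (Orb F Set.univ (dl 1))) : ∃ c₀ : ℝ, 0 < c₀ ∧ Hgt F c₀ := by
  obtain ⟨c, hc, H⟩ := h.exists_height (by
    rintro _ ⟨g, -, rfl⟩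
    rw [F.norm_X, norm_dl])
  refine ⟨c ^ 4, by positivity, fun g => ?_⟩
  have hs : Summable fun x => ‖F.x g x‖ ^ 2 := by
    have := (lp.memℓp (F.x g)).summable (by norm_num)
    simpa using this
  have hs4 : Summable fun x => ‖F.x g x‖ ^ 4 := by
    refine hs.of_nonneg_of_le (fun x => by positivity) fun x => ?_
    have h1 : ‖F.x g x‖ ≤ 1 := (norm_apply_le _ _).trans (by rw [F.norm_x])
    calc ‖F.x g x‖ ^ 4 = ‖F.x g x‖ ^ 2 * ‖F.x g x‖ ^ 2 := by ring
      _ ≤ ‖F.x g x‖ ^ 2 * 1 := by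
        gcongr
        exact pow_le_one₀ (norm_nonneg _) h1
      _ = _ := mul_one _
  refine ⟨_, hs4.hasSum, ?_⟩
  obtain ⟨x, hx⟩ := H (F.X g (dl 1)) ⟨g, trivial, rfl⟩
  calc c ^ 4 ≤ ‖F.x g x‖ ^ 4 := by
        gcongr
        exact hx
    _ ≤ _ := le_hasSum hs4.hasSum x fun y _ => by positivity

/-- The orbit of a vector under the translations is almost finitely supported. -/
theorem AFs_lam (f : HS L) : AFs (Set.range fun s : L => lam s f) := by
  classical
  intro ε hε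
  obtain ⟨t, ht⟩ := exists_restr f hε
  refine ⟨t.card, ?_⟩
  rintro _ ⟨s, rfl⟩
  refine ⟨t.image fun x => s * x, lam s (restr (t : Set L) f), Finset.card_image_le, ?_, ?_⟩
  · intro x hx
    rw [lam_apply, restr_apply, if_neg]
    intro h
    apply hx
    rw [Finset.mem_image]
    exact ⟨s⁻¹ * x, h, mul_inv_cancel_left s x⟩
  · rw [← map_sub, norm_apply_of_isometry (T := lam s) (by rw [star_lam, lam_inv_mul])]
    exact ht

/-- Conjugates of standard frames have height bounded from below. -/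
theorem height_of_std {w : BH L} (hw : w ∈ vN (⊤ : Subgroup L)) (h1 : star w * w = 1)
    (h2 : w * star w = 1) (h : ∀ g, ∃ (z : ℂ) (s : L), F.X g = z • (star w * lam s * w)) :
    ∃ c : ℝ, 0 < c ∧ ∀ g, ∃ x, c ≤ ‖F.x g x‖ := by
  have hn : ∀ f, ‖star w f‖ = ‖f‖ := norm_apply_of_isometry (by rw [star_star]; exact h2)
  have hn' : ∀ f, ‖w f‖ = ‖f‖ := norm_apply_of_isometry h1
  have hz : ∀ g, ∃ (z : ℂ) (s : L), ‖z‖ = 1 ∧ F.X g = z • (star w * lam s * w) := by
    intro g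
    obtain ⟨z, s, hg⟩ := h g
    refine ⟨z, s, ?_, hg⟩
    have h3 := F.norm_X g (dl 1)
    rw [hg, _root_.smul_apply, norm_smul, mul_apply_eq_comp, mul_apply_eq_comp, hn,
      norm_apply_of_isometry (T := lam s) (by rw [star_lam, lam_inv_mul]), hn', norm_dl,
      mul_one] at h3
    exact h3
  have hAF : AFs {f | ∃ T ∈ ({star w} : Set (BH L)), ∃ g ∈ (Set.range fun s : L => lam s (w (dl 1))),
      T g = f} := by
    refine AFs.mul ?_ ?_ ?_ (AFs_lam _) (B := 1) ?_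
    · rintro _ rfl
      exact star_mem hw
    · rintro _ rfl f
      exact (hn f).le
    · refine AFs.mono (AFs.singleton (star w (dl 1))) ?_
      rintro _ ⟨_, rfl, rfl⟩
      rfl
    · rintro _ ⟨s, rfl⟩
      rw [norm_apply_of_isometry (T := lam s) (by rw [star_lam, lam_inv_mul]), hn', norm_dl]
  obtain ⟨c, hc, H⟩ := hAF.exists_height (by
    rintro _ ⟨_, rfl, _, ⟨s, rfl⟩, rfl⟩
    rw [hn, norm_apply_of_isometry (T := lam s) (by rw [star_lam, lam_inv_mul]), hn', norm_dl])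
  refine ⟨c, hc, fun g => ?_⟩
  obtain ⟨z, s, hz1, hg⟩ := hz g
  obtain ⟨x, hx⟩ := H _ ⟨star w, rfl, _, ⟨s, rfl⟩, rfl⟩
  refine ⟨x, ?_⟩
  unfold Fr.x
  rw [hg, _root_.smul_apply, hs_smul_apply, norm_mul, hz1, one_mul]
  exact hx

end Height

section Groups

variable {n : Type*} [Fintype n] [DecidableEq n]

/-- Subgroups with sufficiently many root elements are icc. -/
theorem icc_of_rootDense {K : Type*} [Field K] [CharZero K] {Γ : Subgroup (PGL(n, K))}
    (hΓ : RootDense Γ) : ICC Γ := by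
  intro g hg hfin
  apply hg
  apply Subtype.ext
  apply eq_one_of_commute
  intro i j hij
  obtain ⟨m, hm, hmem⟩ := hΓ i j hij 1
  set e : Γ := ⟨el hij ((m : K) * 1), hmem⟩ with he
  have h1 : ¬ Function.Injective fun k : ℕ => (⟨e ^ k * g * (e ^ k)⁻¹, e ^ k, rfl⟩ :
      Set.range fun h : Γ => h * g * h⁻¹) := by
    intro hinj
    have := hfin.to_subtype
    exact not_injective_infinite_finite _ hinj
  rw [Function.Injective] at h1
  push Not at h1
  obtain ⟨a, b, hab, hne⟩ := h1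
  have hab' : e ^ a * g * (e ^ a)⁻¹ = e ^ b * g * (e ^ b)⁻¹ := congrArg Subtype.val hab
  have h2 : g * e ^ ((b : ℤ) - a) = e ^ ((b : ℤ) - a) * g := by
    rw [← zpow_natCast, ← zpow_natCast] at hab'
    have h3 : g = (e ^ (a : ℤ))⁻¹ * (e ^ (b : ℤ) * g * (e ^ (b : ℤ))⁻¹) * e ^ (a : ℤ) := by
      rw [← hab']
      group
    calc g * e ^ ((b : ℤ) - a) =
        (e ^ (a : ℤ))⁻¹ * (e ^ (b : ℤ) * g * (e ^ (b : ℤ))⁻¹) * e ^ (a : ℤ) * e ^ ((b : ℤ) - a) := by
          rw [← h3]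
      _ = e ^ ((b : ℤ) - a) * g := by group
  refine ⟨(((b : ℤ) - a : ℤ) : K) * ((m : K) * 1), ?_, ?_⟩
  · apply mul_ne_zero
    · rw [Int.cast_ne_zero]
      omega
    · rw [mul_one]
      exact Nat.cast_ne_zero.mpr hm.ne'
  · rw [el_zsmul]
    exact congrArg Subtype.val h2

theorem comm_rootDense {Γ : Subgroup (PGL(n, ℚ))} (hΓ : Γ.Commensurable (intHom n).range) :
    RootDense Γ := by
  intro i j hij b
  have hfin : (Γ.comap (intHom n)).index ≠ 0 := by
    rw [Subgroup.index_comap]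
    exact hΓ.1
  obtain ⟨N, hN, -, hNΓ⟩ := Subgroup.exists_pow_mem_of_index_ne_zero hfin
    (SpecialLinearGroup.transvection hij b.num)
  refine ⟨N * b.den, Nat.mul_pos hN b.den_pos, ?_⟩
  rw [Subgroup.mem_comap, map_pow, intHom_transvection, el_pow] at hNΓ
  have h1 : ((N * b.den : ℕ) : ℚ) * b = N * b.num := by
    push_cast
    rw [mul_assoc, mul_comm (b.den : ℚ) b, Rat.mul_den_eq_num]
  rwa [h1]

variable {L : Type*} [Group L] {Γ : Subgroup (PGL(n, ℚ))} {F : Fr Γ L}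

/-- If the projection of a root element does not vanish, then the frame is conjugate to a standard
one. -/
theorem std_of_pj (hn : 3 ≤ Fintype.card n) (hΓ : Γ.Commensurable (intHom n).range)
    {i j : n} (hij : i ≠ j) {β : ℚ} (hβ : el hij β ∈ Γ) (hβ0 : β ≠ 0)
    (h0 : pj F (Subgroup.zpowers (⟨el hij β, hβ⟩ : Γ) : Set Γ) (dl 1) ≠ 0) :
    ∃ w ∈ vN (⊤ : Subgroup L), star w * w = 1 ∧ w * star w = 1 ∧
      ∀ g, ∃ (z : ℂ) (s : L), F.X g = z • (star w * lam s * w) := by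
  have hRD := comm_rootDense hΓ
  have hHR : HasRoots Γ := by
    intro i j hij
    obtain ⟨m, hm, hmem⟩ := hRD i j hij 1
    exact ⟨_, by rw [mul_one]; exact Nat.cast_ne_zero.mpr hm.ne', hmem⟩
  obtain ⟨l, hl⟩ : ∃ l, l ∉ ({i, j} : Finset n) := by
    by_contra h
    push Not at h
    have h1 : Fintype.card n ≤ ({i, j} : Finset n).card := by
      rw [← Finset.card_univ]
      exact Finset.card_le_card fun x _ => h x
    have h2 := Finset.card_le_two (a := i) (b := j)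
    omega
  simp only [Finset.mem_insert, Finset.mem_singleton, not_or] at hl
  have hjl : j ≠ l := Ne.symm hl.2
  have hil : i ≠ l := Ne.symm hl.1
  obtain ⟨γ, hγ0, hγ⟩ := hHR j l hjl
  have hβγ : el hil (β * γ) ∈ Γ := by
    rw [← comm_el hij hjl hil]
    exact Γ.mul_mem (Γ.mul_mem (Γ.mul_mem (Γ.inv_mem hβ) (Γ.inv_mem hγ)) hβ) hγ
  have hAF := step_row hn hHR hij hjl hil hβ hγ hγ0 hβγ h0
  have hU := born_AF F
  have hRB : RB (fun X => AFs (Orb F X (dl 1))) hil :=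
    ⟨β * γ, mul_ne_zero hβ0 hγ0, hβγ, hAF⟩
  have hRootB : RootB (fun X => AFs (Orb F X (dl 1))) := by
    intro a b hab q
    obtain ⟨m, hm, hmem⟩ := hRD a b hab q
    exact ⟨m, hm, hmem, (hRB.all hn hU hHR hil hab).rat hU hab hmem⟩
  have huniv := comm_univ hn hΓ hU hRootB
  obtain ⟨c₀, hc₀, hH⟩ := hgt_of_AF huniv
  exact frame_main F (icc_of_rootDense hRD) hH hc₀

end Groups

end Pool.Agent.Helper66.GV
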