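import Pool.Agent.Helper66.GV.AF

/-!
# Invariant vectors give almost finitely supported orbits
-/

open scoped lp ENNReal InnerProductSpace
open Filter Topology

namespace Pool.Agent.Helper66.GV

section Ctr

variable {A B : Type*}

/-- The function underlying the contraction with a vector in the second tensor factor. -/
noncomputable def ctrFun (η : HS B) (ξ : HS (A × B)) : HS A :=
  mkHS (fun i => ⟪η, slice ξ i⟫_ℂ) (by
    refine Summable.of_nonneg_of_le (fun _ => by positivity) (fun i => ?_)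
      ((hasSum_slice ξ).summable.mul_left (‖η‖ ^ 2))
    rw [← mul_pow]
    have := norm_inner_le_norm (𝕜 := ℂ) η (slice ξ i)
    gcongr)

theorem ctrFun_apply (η : HS B) (ξ : HS (A × B)) (i : A) : ctrFun η ξ i = ⟪η, slice ξ i⟫_ℂ := rfl

theorem ctrFun_norm_le (η : HS B) (ξ : HS (A × B)) : ‖ctrFun η ξ‖ ≤ ‖η‖ * ‖ξ‖ := by
  have h1 := hs_norm_sq (ctrFun η ξ)
  have h2 := (hasSum_slice ξ).mul_left (‖η‖ ^ 2)
  have h3 : ‖ctrFun η ξ‖ ^ 2 ≤ ‖η‖ ^ 2 * ‖ξ‖ ^ 2 := by
    refine hasSum_le (fun i => ?_) h1 h2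
    rw [← mul_pow]
    have := norm_inner_le_norm (𝕜 := ℂ) η (slice ξ i)
    rw [ctrFun_apply]
    gcongr
  rw [← mul_pow] at h3
  exact (pow_le_pow_iff_left₀ (norm_nonneg _) (by positivity) two_ne_zero).mp h3

/-- The contraction with a vector in the second tensor factor. -/
noncomputable def ctr (η : HS B) : HS (A × B) →L[ℂ] HS A :=
  LinearMap.mkContinuous
    { toFun := ctrFun η
      map_add' := fun ξ ζ => ext_apply fun i => by
        rw [hs_add_apply, ctrFun_apply, ctrFun_apply, ctrFun_apply, slice_add, inner_add_right]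
      map_smul' := fun z ξ => ext_apply fun i => by
        rw [RingHom.id_apply, hs_smul_apply, ctrFun_apply, ctrFun_apply, slice_smul,
          inner_smul_right] } ‖η‖
    (ctrFun_norm_le η)

theorem ctr_apply (η : HS B) (ξ : HS (A × B)) (i : A) : ctr η ξ i = ⟪η, slice ξ i⟫_ℂ := rfl

theorem ctr_norm_le (η : HS B) (ξ : HS (A × B)) : ‖ctr η ξ‖ ≤ ‖η‖ * ‖ξ‖ := ctrFun_norm_le η ξ

theorem inner_ctr (η : HS B) (ξ : HS (A × B)) (d : HS A) :
    ⟪d, ctr η ξ⟫_ℂ = ⟪tens d η, ξ⟫_ℂ :=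
  (hs_inner d (ctr η ξ)).unique (inner_tens_right ξ d η)

end Ctr

section Level

variable {A : Type*}

/-- The large coefficients of a vector. -/
theorem exists_level (f : HS A) (hf : ‖f‖ ≤ 1) {δ : ℝ} (hδ : 0 < δ) :
    ∃ t : Finset A, (∀ x ∉ t, ‖f x‖ ≤ δ) ∧ t.card ≤ ⌈1 / δ ^ 2⌉₊ := by
  classical
  have h1 : {x | δ ^ 2 < ‖f x‖ ^ 2}.Finite := by
    have h2 := (hs_summable f).tendsto_cofinite_zero
    have h3 := h2.eventually (gt_mem_nhds (show (0 : ℝ) < δ ^ 2 by positivity))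
    have h4 : {x | ¬ ‖f x‖ ^ 2 < δ ^ 2}.Finite := h3
    refine h4.subset fun x hx => ?_
    exact not_lt.mpr (le_of_lt hx)
  refine ⟨h1.toFinset, ?_, ?_⟩
  · intro x hx
    rw [Set.Finite.mem_toFinset] at hx
    have h2 : ‖f x‖ ^ 2 ≤ δ ^ 2 := not_lt.mp hx
    exact (pow_le_pow_iff_left₀ (norm_nonneg _) hδ.le two_ne_zero).mp h2
  · have h2 : (h1.toFinset.card : ℝ) * δ ^ 2 ≤ 1 := by
      calc (h1.toFinset.card : ℝ) * δ ^ 2 = ∑ _x ∈ h1.toFinset, δ ^ 2 := by
            rw [Finset.sum_const, nsmul_eq_mul]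
        _ ≤ ∑ x ∈ h1.toFinset, ‖f x‖ ^ 2 := by
            refine Finset.sum_le_sum fun x hx => ?_
            rw [Set.Finite.mem_toFinset] at hx
            exact le_of_lt hx
        _ ≤ ‖f‖ ^ 2 := sum_le_hasSum _ (fun _ _ => by positivity) (hs_norm_sq f)
        _ ≤ 1 := by nlinarith [norm_nonneg f]
    have h3 : (h1.toFinset.card : ℝ) ≤ 1 / δ ^ 2 := by
      rw [le_div_iff₀ (by positivity)]
      exact h2
    exact_mod_cast h3.trans (Nat.le_ceil _)

end Level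

section Sum

variable {A ι : Type*}

theorem AFs.sum (s : Finset ι) {S : ι → Set (HS A)} (h : ∀ i ∈ s, AFs (S i)) :
    AFs {f | ∃ φ : ι → HS A, (∀ i ∈ s, φ i ∈ S i) ∧ ∑ i ∈ s, φ i = f} := by
  classical
  induction s using Finset.induction_on with
  | empty =>
    refine (AFs.singleton (0 : HS A)).mono ?_
    rintro f ⟨φ, _, rfl⟩
    rw [Finset.sum_empty]
    rfl
  | insert a s ha ih =>
    have h1 := (h a (Finset.mem_insert_self _ _)).add
      (ih fun i hi => h i (Finset.mem_insert_of_mem hi))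
    refine h1.mono ?_
    rintro f ⟨φ, hφ, rfl⟩
    refine ⟨φ a, hφ a (Finset.mem_insert_self _ _), ∑ i ∈ s, φ i,
      ⟨φ, fun i hi => hφ i (Finset.mem_insert_of_mem hi), rfl⟩, ?_⟩
    rw [Finset.sum_insert ha]

end Sum

section Fix

variable {G L : Type*} [Group G] [Group L] (F : Fr G L)

/-- The right version of the diagonal ampliations. -/
noncomputable def Fr.A' (g : G) : BH (P3 L) := cn (Equiv.inv (P3 L)) (F.A g)

theorem Fr.A'_mul (g h : G) : F.A' (g * h) = F.A' g * F.A' h := by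
  unfold Fr.A'
  rw [F.A_mul, cn_mul inv_invol]

theorem Fr.A'_one : F.A' 1 = 1 := by
  unfold Fr.A'
  rw [F.A_one, cn_one inv_invol]

theorem Fr.norm_A' (g : G) (f : HS (P3 L)) : ‖F.A' g f‖ = ‖f‖ := by
  unfold Fr.A'
  rw [cn_apply, norm_kj, F.norm_A, norm_kj]

theorem Fr.A'_comm (g : G) {T : BH (P3 L)} (hT : T ∈ vN (⊤ : Subgroup (P3 L))) :
    F.A' g * T = T * F.A' g := rt_comm hT (F.A_mem g)

/-- The operators whose fixed vectors we use. -/
noncomputable def Fr.Sg (g : G) : BH (P3 L) := F.B g * F.A' g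

theorem Fr.Sg_mul (g h : G) : F.Sg (g * h) = F.Sg g * F.Sg h := by
  unfold Fr.Sg
  rw [F.B_mul, F.A'_mul]
  calc F.B g * F.B h * (F.A' g * F.A' h) = F.B g * (F.B h * F.A' g) * F.A' h := by
        simp only [mul_assoc]
    _ = F.B g * (F.A' g * F.B h) * F.A' h := by rw [F.A'_comm g (F.B_mem h)]
    _ = _ := by simp only [mul_assoc]

theorem Fr.B_one : F.B 1 = 1 := F.F3.map_one

theorem Fr.Sg_one : F.Sg 1 = 1 := by
  unfold Fr.Sg
  rw [F.B_one, F.A'_one, mul_one]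

theorem Fr.norm_Sg (g : G) (f : HS (P3 L)) : ‖F.Sg g f‖ = ‖f‖ := by
  unfold Fr.Sg
  rw [mul_apply_eq_comp, F.norm_B, F.norm_A']

theorem Fr.A'_dl (g : G) (x : P3 L) : F.A' g⁻¹ (dl x) = lam x (Dl (F.x g)) := by
  have h1 : (dl x : HS (P3 L)) = lam x (dl 1) := by rw [lam_dl, mul_one]
  rw [h1, ← mul_apply_eq_comp, F.A'_comm g⁻¹ (lam_mem_top x), mul_apply_eq_comp]
  congr 1
  unfold Fr.A'
  rw [cn_apply, kj_inv_dl, inv_one]
  have h2 : (dl 1 : HS (P3 L)) = Dl (dl 1) := by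
    rw [Dl_dl]
    rfl
  rw [h2]
  unfold Fr.A
  rw [Am_Dl (F.mem g⁻¹)]
  change kj (Equiv.inv (P3 L)) (Dl (F.x g⁻¹)) = _
  have h3 := F.kj_x g⁻¹
  rw [inv_inv] at h3
  rw [← h3]
  apply ext_apply
  intro y
  rw [kj_inv_apply]
  by_cases hy : ∃ s, dg s = y
  · obtain ⟨s, rfl⟩ := hy
    have h4 : (dg s)⁻¹ = dg s⁻¹ := rfl
    rw [h4]
    unfold Dl
    rw [push_apply, push_apply, kj_inv_apply]
  · have hy' : ¬ ∃ s, dg s = y⁻¹ := by
      rintro ⟨s, hs⟩
      apply hy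
      refine ⟨s⁻¹, ?_⟩
      have h4 : dg s⁻¹ = (dg s)⁻¹ := rfl
      rw [h4, hs, inv_inv]
    unfold Dl
    rw [push_apply' _ _ hy, push_apply' _ _ hy', star_zero]

theorem slice_lam_Dl (x : P3 L) (f : HS L) (r : L) :
    slice (lam x (Dl f)) r = f (x.1⁻¹ * r) • dl (x.2.1 * (x.1⁻¹ * r), x.2.2 * (x.1⁻¹ * r)) := by
  apply ext_apply
  rintro ⟨p, q⟩
  have h1 : slice (lam x (Dl f)) r (p, q) = Dl f (x.1⁻¹ * r, (x.2.1⁻¹ * p, x.2.2⁻¹ * q)) := rfl
  rw [h1, hs_smul_apply]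
  by_cases hpq : p = x.2.1 * (x.1⁻¹ * r) ∧ q = x.2.2 * (x.1⁻¹ * r)
  · obtain ⟨rfl, rfl⟩ := hpq
    rw [dl_self, mul_one, inv_mul_cancel_left, inv_mul_cancel_left]
    exact push_apply dg_inj f (x.1⁻¹ * r)
  · rw [dl_ne, mul_zero]
    · apply push_apply'
      rintro ⟨s, hs⟩
      apply hpq
      have h2 := congrArg Prod.fst hs
      have h3 := congrArg (fun y => y.2.1) hs
      have h4 := congrArg (fun y => y.2.2) hs
      simp only [dg] at h2 h3 h4
      rw [← h2, h3]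
      constructor
      · rw [mul_inv_cancel_left]
      · rw [← h3, h4, mul_inv_cancel_left]
    · intro h2
      exact hpq ⟨congrArg Prod.fst h2, congrArg Prod.snd h2⟩

variable {F}

/-- The families of contractions of the translated diagonal vectors. -/
theorem AFs_ctr (a b : L) (x : P3 L) :
    AFs {f | ∃ g : G, ctr (tens (F.X g (dl a)) (kc (F.X g (dl b)))) (lam x (Dl (F.x g))) = f} := by
  classical
  intro δ hδ
  refine ⟨⌈1 / δ ^ 2⌉₊, ?_⟩
  rintro f ⟨g, rfl⟩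
  obtain ⟨t, ht, hcard⟩ := exists_level (F.x g) (F.norm_x g).le hδ
  set t' := t.image (fun s => x.1 * s) with ht'
  set h := ctr (tens (F.X g (dl a)) (kc (F.X g (dl b)))) (lam x (Dl (F.x g))) with hh
  refine ⟨t', restr (t' : Set L) h, Finset.card_image_le.trans hcard, ?_, ?_⟩
  · intro y hy
    rw [restr_apply, if_neg]
    exact hy
  · have h1 : ∀ r, ‖(h - restr (t' : Set L) h) r‖ ^ 2 ≤
        δ ^ 2 * ‖F.X g (dl a) (x.2.1 * (x.1⁻¹ * r))‖ ^ 2 := by
      intro r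
      by_cases hr : r ∈ t'
      · rw [hs_sub_apply, restr_apply, if_pos (by exact hr), sub_self, norm_zero,
          zero_pow two_ne_zero]
        positivity
      · rw [hs_sub_apply, restr_apply, if_neg (by exact hr), sub_zero, hh, ctr_apply,
          slice_lam_Dl, inner_smul_right, norm_mul, ← mul_pow]
        have h2 : ‖F.x g (x.1⁻¹ * r)‖ ≤ δ := by
          apply ht
          intro h3
          apply hr
          rw [ht', Finset.mem_image]
          exact ⟨x.1⁻¹ * r, h3, by simp⟩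
        have h3 : ‖⟪tens (F.X g (dl a)) (kc (F.X g (dl b))),
            dl (x.2.1 * (x.1⁻¹ * r), x.2.2 * (x.1⁻¹ * r))⟫_ℂ‖ ≤
              ‖F.X g (dl a) (x.2.1 * (x.1⁻¹ * r))‖ := by
          rw [← inner_conj_symm, RCLike.norm_conj, inner_dl, tens_apply, norm_mul]
          have h4 : ‖(kc (F.X g (dl b)) : HS L) (x.2.2 * (x.1⁻¹ * r))‖ ≤ 1 := by
            refine (norm_apply_le _ _).trans ?_
            rw [norm_kj, F.norm_X, norm_dl]
          exact mul_le_of_le_one_right (norm_nonneg _) h4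
        gcongr
    have h2 : HasSum (fun r => δ ^ 2 * ‖F.X g (dl a) (x.2.1 * (x.1⁻¹ * r))‖ ^ 2)
        (δ ^ 2 * ‖F.X g (dl a)‖ ^ 2) := by
      apply HasSum.mul_left
      have h3 := hs_norm_sq (F.X g (dl a))
      exact (((Equiv.mulLeft x.1⁻¹).trans (Equiv.mulLeft x.2.1)).hasSum_iff).mpr h3
    have h3 := hasSum_le h1 (hs_norm_sq (h - restr (t' : Set L) h)) h2
    rw [F.norm_X, norm_dl, one_pow, mul_one] at h3
    exact (pow_le_pow_iff_left₀ (norm_nonneg _) hδ.le two_ne_zero).mp h3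

/-- The slices of a vector fixed by the operators `F.Sg g`, `g ∈ 𝒢`, have almost finitely supported
orbits under `𝒢`. -/
theorem AFs_of_fixed {z : HS (P3 L)} {𝒢 : Set G} (hz : ∀ g ∈ 𝒢, F.Sg g z = z) (a b : L) :
    AFs {f | ∃ g ∈ 𝒢, F.X g (ctr (tens (dl a) (dl b)) z) = f} := by
  classical
  apply AFs.of_approx
  intro ε hε
  obtain ⟨t, ht⟩ := exists_restr z hε
  set z' := restr (t : Set (P3 L)) z with hz'
  have hz'0 : ∀ x ∉ t, z' x = 0 := by
    intro x hx
    rw [hz', restr_apply, if_neg]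
    exact hx
  refine ⟨{f | ∃ g : G, ctr (tens (F.X g (dl a)) (kc (F.X g (dl b)))) (F.A' g⁻¹ z') = f}, ?_, ?_⟩
  · -- a finite sum
    have h1 := AFs.sum t (S := fun x => (fun f => z' x • f) '' {f | ∃ g : G,
      ctr (tens (F.X g (dl a)) (kc (F.X g (dl b)))) (lam x (Dl (F.x g))) = f})
      (fun x _ => (AFs_ctr a b x).smul (z' x))
    refine h1.mono ?_
    rintro f ⟨g, rfl⟩
    refine ⟨fun x => z' x • ctr (tens (F.X g (dl a)) (kc (F.X g (dl b)))) (lam x (Dl (F.x g))),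
      fun x _ => ⟨_, ⟨g, rfl⟩, rfl⟩, ?_⟩
    conv_rhs => rw [eq_sum_of_support hz'0, map_sum, map_sum]
    refine Finset.sum_congr rfl fun x _ => ?_
    rw [map_smul, map_smul, F.A'_dl]
  · rintro f ⟨g, hg, rfl⟩
    refine ⟨_, ⟨g, rfl⟩, ?_⟩
    have h1 : F.B g z = F.A' g⁻¹ z := by
      have h2 := hz g hg
      unfold Fr.Sg at h2
      rw [← F.A'_comm g (F.B_mem g), mul_apply_eq_comp] at h2
      rw [← h2]
      conv_rhs => rw [← mul_apply_eq_comp, ← F.A'_mul, inv_mul_cancel, F.A'_one]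
      rw [h2]
      rfl
    have h2 : F.X g (ctr (tens (dl a) (dl b)) z) =
        ctr (tens (F.X g (dl a)) (kc (F.X g (dl b)))) (F.B g z) := by
      apply ext_inner_left ℂ
      intro d
      have h3 : ⟪d, F.X g (ctr (tens (dl a) (dl b)) z)⟫_ℂ =
          ⟪F.X g⁻¹ d, ctr (tens (dl a) (dl b)) z⟫_ℂ := by
        rw [F.inner_X_left, inv_inv]
      rw [h3, inner_ctr, inner_ctr]
      have h4 : F.B g (tens (F.X g⁻¹ d) (tens (dl a) (dl b))) =
          tens d (tens (F.X g (dl a)) (kc (F.X g (dl b)))) := by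
        unfold Fr.B Fr.F3
        rw [Fr.prod_X, tp_tens, F.X_apply_inv, Fr.prod_X, tp_tens]
        congr 2
        change cn (Equiv.refl L) (F.X g) (dl b) = _
        rw [cn_apply, kj_refl_dl]
      rw [← h4]
      have h5 : ⟪F.B g (tens (F.X g⁻¹ d) (tens (dl a) (dl b))), F.B g z⟫_ℂ =
          ⟪tens (F.X g⁻¹ d) (tens (dl a) (dl b)), F.B g⁻¹ (F.B g z)⟫_ℂ :=
        F.F3.inner_X_left _ _ _
      rw [h5, ← mul_apply_eq_comp (F.B g⁻¹), ← F.B_mul, inv_mul_cancel, F.B_one]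
      rfl
    rw [h2, h1, ← map_sub, ← map_sub]
    refine (ctr_norm_le _ _).trans ?_
    rw [norm_tens, norm_kj, F.norm_X, F.norm_X, norm_dl, norm_dl, one_mul, one_mul, F.norm_A']
    exact ht

end Fix

end Pool.Agent.Helper66.GV
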