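import Pool.Agent.Helper66.GV.Heis

/-!
# Isomorphisms of group von Neumann algebras respecting a family of subgroup algebras
-/

open scoped lp ENNReal InnerProductSpace

namespace Pool.Agent.Helper66.GV

variable {G L : Type*} [Group G] [Group L]

/-- The group von Neumann algebra. -/
noncomputable abbrev GvN (G : Type*) [Group G] : StarSubalgebra ℂ (BH G) := vN (⊤ : Subgroup G)

/-- The group von Neumann algebra `L(G)` as a type. -/
abbrev LG (G : Type*) [Group G] : Type _ := GvN G

section Instances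

/-! Names for the standard instances on the subalgebra `L(G)`. -/

variable (G : Type*) [Group G]

noncomputable instance lgRing : Ring (LG G) := inferInstance

noncomputable instance lgSemiring : Semiring (LG G) := inferInstance

noncomputable instance lgAlgebra : Algebra ℂ (LG G) := inferInstance

noncomputable instance lgStarRing : StarRing (LG G) := inferInstance

noncomputable instance lgAdd : Add (LG G) := inferInstance

noncomputable instance lgMul : Mul (LG G) := inferInstance

noncomputable instance lgStar : Star (LG G) := inferInstance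

noncomputable instance lgSMul : SMul ℂ (LG G) := inferInstance

end Instances

/-- The canonical unitary `λ_g` as an element of the group von Neumann algebra. -/
noncomputable def u (g : G) : GvN G := ⟨lam g, lam_mem_top g⟩

theorem u_mul (g h : G) : u (g * h) = u g * u h := Subtype.ext (lam_mul g h)

theorem u_one : u (1 : G) = 1 := Subtype.ext lam_one

theorem star_u (g : G) : star (u g) = u g⁻¹ := Subtype.ext (star_lam g)

theorem star_u_mul (g : G) : star (u g) * u g = 1 := by
  rw [star_u, ← u_mul, inv_mul_cancel, u_one]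

theorem u_mul_star (g : G) : u g * star (u g) = 1 := by
  rw [star_u, ← u_mul, mul_inv_cancel, u_one]

open Classical in
theorem tr_u (g : G) : tr (u g : BH G) = if g = 1 then 1 else 0 := by
  rw [tr_eq]
  change lam g (dl 1) 1 = _
  rw [lam_dl, mul_one, dl_apply]
  simp [eq_comm]

variable (θ : LG G ≃⋆ₐ[ℂ] LG L)

/-- The isomorphism `θ` preserves the canonical traces. -/
def TracePreserving : Prop := ∀ x : GvN G, tr (θ x : BH L) = tr (x : BH G)

/-- The isomorphism `θ` maps the von Neumann algebra of the subgroup `A` onto the one of the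
subgroup `A'`. -/
def MapsOnto (A : Subgroup G) (A' : Subgroup L) : Prop :=
  ∀ x : GvN G, (x : BH G) ∈ vN A ↔ (θ x : BH L) ∈ vN A'

variable {θ}

theorem map_st (θ : LG G ≃⋆ₐ[ℂ] LG L) (x : GvN G) : θ (star x) = star (θ x) := θ.map_star' x

theorem TracePreserving.symm (h : TracePreserving θ) (y : GvN L) :
    tr (θ.symm y : BH G) = tr (y : BH L) := by
  rw [← h, StarAlgEquiv.apply_symm_apply]

theorem MapsOnto.symm {A : Subgroup G} {A' : Subgroup L} (h : MapsOnto θ A A') (y : GvN L)
    (hy : (y : BH L) ∈ vN A') : (θ.symm y : BH G) ∈ vN A := by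
  rw [h, StarAlgEquiv.apply_symm_apply]
  exact hy

theorem MapsOnto.mem {A : Subgroup G} {A' : Subgroup L} (h : MapsOnto θ A A') {a : G}
    (ha : a ∈ A) : (θ (u a) : BH L) ∈ vN A' := (h (u a)).mp (lam_mem_vN ha)

/-- The element `g` is mapped to a multiple of a group element. -/
def Std (θ : LG G ≃⋆ₐ[ℂ] LG L) (g : G) : Prop := ∃ (z : ℂ) (s : L), θ (u g) = z • u s

theorem Std.mul {g h : G} (hg : Std θ g) (hh : Std θ h) : Std θ (g * h) := by
  obtain ⟨z, s, hz⟩ := hg
  obtain ⟨z', s', hz'⟩ := hh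
  refine ⟨z * z', s * s', ?_⟩
  rw [u_mul, map_mul, hz, hz', u_mul, smul_mul_smul_comm]

theorem Std.inv {g : G} (hg : Std θ g) : Std θ g⁻¹ := by
  obtain ⟨z, s, hz⟩ := hg
  refine ⟨star z, s⁻¹, ?_⟩
  rw [← star_u, map_st, hz, star_smul, star_u]

theorem Std.one : Std θ (1 : G) := ⟨1, 1, by rw [u_one, map_one, u_one, one_smul]⟩

/-- The coefficients of `θ (u g)`. -/
theorem coeff_eq (hθ : TracePreserving θ) (g : G) (s : L) :
    (θ (u g) : BH L) (dl 1) s = tr ((θ.symm (u s⁻¹) * u g : GvN G) : BH G) := by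
  rw [apply_one_eq_tr, ← hθ]
  rw [map_mul, StarAlgEquiv.apply_symm_apply]
  rfl

theorem exists_coeff_ne (g : G) : ∃ s, (θ (u g) : BH L) (dl 1) s ≠ 0 := by
  apply exists_ne_zero
  have h1 : star (θ (u g)) * θ (u g) = 1 := by
    rw [← map_st, ← map_mul, star_u_mul, map_one]
  exact congrArg Subtype.val h1

theorem symm_unitary (s : L) : star (θ.symm (u s) : BH G) * (θ.symm (u s) : BH G) = 1 ∧
    (θ.symm (u s) : BH G) * star (θ.symm (u s) : BH G) = 1 := by
  have h1 : star (θ.symm (u s)) * θ.symm (u s) = 1 := by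
    rw [← map_st, ← map_mul, star_u_mul, map_one]
  have h2 : θ.symm (u s) * star (θ.symm (u s)) = 1 := by
    rw [← map_st, ← map_mul, u_mul_star, map_one]
  exact ⟨congrArg Subtype.val h1, congrArg Subtype.val h2⟩

theorem symm_coeff_one (hθ : TracePreserving θ) {s : L} (hs : s ≠ 1) :
    (θ.symm (u s) : BH G) (dl 1) 1 = 0 := by
  classical
  rw [← tr_eq, hθ.symm, tr_u, if_neg hs]

theorem tr_move (hθ : TracePreserving θ) (w : G) (x : L) :
    tr (lam w * ((θ.symm (u x) : GvN G) : BH G)) = tr ((θ (u w) : BH L) * lam x) := by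
  have h8 := hθ (u w * θ.symm (u x))
  rw [map_mul, StarAlgEquiv.apply_symm_apply] at h8
  exact h8.symm

theorem mem_of_tr_ne {H : Subgroup L} {T : BH L} (hT : T ∈ vN H) {x : L}
    (hx : tr (T * lam x) ≠ 0) : x ∈ H := by
  rw [tr_eq, mul_apply_eq_comp, lam_dl, mul_one, apply_dl hT, one_mul] at hx
  by_contra h1
  apply hx
  apply apply_one_eq_zero hT
  intro h2
  exact h1 (by simpa using H.inv_mem h2)

theorem symm_comm (g k : L) : star (θ.symm (u g) : BH G) * star (θ.symm (u k) : BH G) *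
    (θ.symm (u g) : BH G) * (θ.symm (u k) : BH G) =
      ((θ.symm (u (g⁻¹ * k⁻¹ * g * k)) : GvN G) : BH G) := by
  have h1 : θ.symm (u (g⁻¹ * k⁻¹ * g * k)) = star (θ.symm (u g)) * star (θ.symm (u k)) *
      θ.symm (u g) * θ.symm (u k) := by
    rw [u_mul, u_mul, u_mul, ← star_u, ← star_u, map_mul, map_mul, map_mul, map_st, map_st]
  have h2 := congrArg Subtype.val h1
  exact h2.symm

/-- The commutator of `θ⁻¹ (u g)` and `θ⁻¹ (u h)` lies in the algebra of `N`. -/
theorem comm_mem (hθ : TracePreserving θ) {A B N : Subgroup G} (h : Triple A B N)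
    {A' B' N' : Subgroup L} (hA : MapsOnto θ A A') (hB : MapsOnto θ B B') (hN : MapsOnto θ N N')
    {g k : L} (hg : g ∈ A') (hk : k ∈ B') :
    star (θ.symm (u g) : BH G) * star (θ.symm (u k) : BH G) * (θ.symm (u g) : BH G) *
      (θ.symm (u k) : BH G) ∈ vN N := by
  classical
  set P : BH G := (θ.symm (u g) : BH G) with hP
  set Q : BH G := (θ.symm (u k) : BH G) with hQ
  have hPA : P ∈ vN A := hA.symm (u g) (lam_mem_vN hg)
  have hQB : Q ∈ vN B := hB.symm (u k) (lam_mem_vN hk)
  obtain ⟨a, ha⟩ := exists_ne_zero (symm_unitary (θ := θ) g).1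
  obtain ⟨b, hb⟩ := exists_ne_zero (symm_unitary (θ := θ) k).1
  have haA : a ∈ A := by
    by_contra h1
    exact ha (apply_one_eq_zero hPA h1)
  have hbB : b ∈ B := by
    by_contra h1
    exact hb (apply_one_eq_zero hQB h1)
  set w : G := a⁻¹ * b⁻¹ * a * b with hw
  have hwN : w ∈ N := h.mem a haA b hbB
  set x : L := g⁻¹ * k⁻¹ * g * k with hx
  have hcx : star P * star Q * P * Q = ((θ.symm (u x) : GvN G) : BH G) := symm_comm g k
  have hcne : (star P * star Q * P * Q) (dl 1) w ≠ 0 := by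
    have h3 := comm_coeff h hPA hQB hwN
    have h4 : HasSum (fun y => if kap A B y = w then (‖(P * Q) (dl 1) y‖ ^ 2 : ℝ) else 0)
        ((star P * star Q * P * Q) (dl 1) w).re := by
      have h5 := Complex.hasSum_re h3
      convert h5 using 1
      funext y
      split_ifs
      · rw [Complex.ofReal_re]
      · rfl
    have h5 : (‖(P * Q) (dl 1) (a * b)‖ ^ 2 : ℝ) ≤ ((star P * star Q * P * Q) (dl 1) w).re := by
      have h6 := le_hasSum h4 (a * b) (fun j _ => by split_ifs <;> positivity)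
      rw [kap_mul h haA hbB, if_pos rfl] at h6
      exact h6
    have h6 : 0 < (‖(P * Q) (dl 1) (a * b)‖ ^ 2 : ℝ) := by
      have h7 : (P * Q) (dl 1) (a * b) ≠ 0 := by
        rw [mul_coeff (fun x hx hx' => h.inter hx hx') hPA hQB haA hbB]
        exact mul_ne_zero ha hb
      have := norm_pos_iff.mpr h7
      positivity
    intro h0
    rw [h0] at h5
    simp only [Complex.zero_re] at h5
    linarith
  have hxN : x ∈ N' := by
    rw [hcx, apply_one_eq_tr] at hcne
    exact mem_of_tr_ne (hN.mem (N.inv_mem hwN)) (by rwa [tr_move hθ] at hcne)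
  rw [hcx]
  exact hN.symm (u x) (lam_mem_vN hxN)

theorem exists_ne_one (hθ : TracePreserving θ) {B : Subgroup G} {B' : Subgroup L}
    (hB : MapsOnto θ B B') (hB1 : B ≠ ⊥) : ∃ k ∈ B', k ≠ 1 := by
  classical
  by_contra h1
  push Not at h1
  obtain ⟨⟨b, hb⟩, hbne⟩ := Subgroup.ne_bot_iff_exists_ne_one.mp hB1
  have hb1 : b ≠ 1 := fun h => hbne (Subtype.ext h)
  obtain ⟨s, hs⟩ := exists_coeff_ne (θ := θ) b
  have hsB : s ∈ B' := by
    by_contra h2
    exact hs (apply_one_eq_zero (hB.mem hb) h2)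
  have hs1 := h1 s hsB
  subst hs1
  apply hs
  rw [← tr_eq, hθ, tr_u, if_neg hb1]

theorem std_left (hθ : TracePreserving θ) {A B N : Subgroup G} (h : Triple A B N)
    {A' B' N' : Subgroup L} (hA : MapsOnto θ A A') (hB : MapsOnto θ B B') (hN : MapsOnto θ N N')
    (hB1 : B ≠ ⊥) {a : G} (ha : a ∈ A) : Std θ a := by
  classical
  obtain ⟨k, hk, hk1⟩ := exists_ne_one hθ hB hB1
  obtain ⟨s, hs⟩ := exists_coeff_ne (θ := θ) a
  have hsA : s ∈ A' := by
    by_contra h2
    exact hs (apply_one_eq_zero (hA.mem ha) h2)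
  by_cases hs1 : s = 1
  · subst hs1
    rw [← tr_eq, hθ, tr_u] at hs
    have : a = 1 := by
      by_contra h1
      exact hs (if_neg h1)
    rw [this]
    exact Std.one
  · have hsA' : s⁻¹ ∈ A' := A'.inv_mem hsA
    obtain ⟨a₁, ha₁, z, hz⟩ := single_left h (hA.symm (u s⁻¹) (lam_mem_vN hsA'))
      (hB.symm (u k) (lam_mem_vN hk)) (symm_unitary _).1 (symm_unitary _).2 (symm_unitary _).1
      (symm_unitary _).2 (comm_mem hθ h hA hB hN hsA' hk) (symm_coeff_one hθ hk1)
    have hz' : θ.symm (u s⁻¹) = z • u a₁ := Subtype.ext hz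
    rw [coeff_eq hθ, hz'] at hs
    have h3 : tr (((z • u a₁) * u a : GvN G) : BH G) = z * tr ((u (a₁ * a) : GvN G) : BH G) := by
      rw [u_mul, smul_mul_assoc]
      unfold tr
      change ⟪dl 1, (z • ((u a₁ * u a : GvN G) : BH G)) (dl 1)⟫_ℂ = _
      rw [smul_apply, inner_smul_right]
    rw [h3, tr_u] at hs
    have h4 : a₁ * a = 1 := by
      by_contra h1
      rw [if_neg h1, mul_zero] at hs
      exact hs rfl
    have h5 : a₁ = a⁻¹ := eq_inv_of_mul_eq_one_left h4
    have hzne : z ≠ 0 := by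
      rintro rfl
      simp at hs
    have h6 : Std θ a⁻¹ := by
      refine ⟨z⁻¹, s⁻¹, ?_⟩
      have h7 : u s⁻¹ = z • θ (u a₁) := by
        rw [← map_smul, ← hz', StarAlgEquiv.apply_symm_apply]
      rw [h7, ← h5, smul_smul, inv_mul_cancel₀ hzne, one_smul]
    simpa using h6.inv

theorem std_right (hθ : TracePreserving θ) {A B N : Subgroup G} (h : Triple A B N)
    {A' B' N' : Subgroup L} (hA : MapsOnto θ A A') (hB : MapsOnto θ B B') (hN : MapsOnto θ N N')
    (hA1 : A ≠ ⊥) {b : G} (hb : b ∈ B) : Std θ b := by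
  classical
  obtain ⟨k, hk, hk1⟩ := exists_ne_one hθ hA hA1
  obtain ⟨s, hs⟩ := exists_coeff_ne (θ := θ) b
  have hsB : s ∈ B' := by
    by_contra h2
    exact hs (apply_one_eq_zero (hB.mem hb) h2)
  by_cases hs1 : s = 1
  · subst hs1
    rw [← tr_eq, hθ, tr_u] at hs
    have : b = 1 := by
      by_contra h1
      exact hs (if_neg h1)
    rw [this]
    exact Std.one
  · have hsB' : s⁻¹ ∈ B' := B'.inv_mem hsB
    obtain ⟨a₁, ha₁, z, hz⟩ := single_right h (hA.symm (u k) (lam_mem_vN hk))
      (hB.symm (u s⁻¹) (lam_mem_vN hsB')) (symm_unitary _).1 (symm_unitary _).2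
      (symm_unitary _).1 (symm_unitary _).2 (comm_mem hθ h hA hB hN hk hsB')
      (symm_coeff_one hθ hk1)
    have hz' : θ.symm (u s⁻¹) = z • u a₁ := Subtype.ext hz
    rw [coeff_eq hθ, hz'] at hs
    have h3 : tr (((z • u a₁) * u b : GvN G) : BH G) = z * tr ((u (a₁ * b) : GvN G) : BH G) := by
      rw [u_mul, smul_mul_assoc]
      unfold tr
      change ⟪dl 1, (z • ((u a₁ * u b : GvN G) : BH G)) (dl 1)⟫_ℂ = _
      rw [smul_apply, inner_smul_right]
    rw [h3, tr_u] at hs
    have h4 : a₁ * b = 1 := by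
      by_contra h1
      rw [if_neg h1, mul_zero] at hs
      exact hs rfl
    have h5 : a₁ = b⁻¹ := eq_inv_of_mul_eq_one_left h4
    have hzne : z ≠ 0 := by
      rintro rfl
      simp at hs
    have h6 : Std θ b⁻¹ := by
      refine ⟨z⁻¹, s⁻¹, ?_⟩
      have h7 : u s⁻¹ = z • θ (u a₁) := by
        rw [← map_smul, ← hz', StarAlgEquiv.apply_symm_apply]
      rw [h7, ← h5, smul_smul, inv_mul_cancel₀ hzne, one_smul]
    simpa using h6.inv

end Pool.Agent.Helper66.GV
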