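import Pool.Agent.Helper66.GV.Conj
import Pool.Agent.Helper66.GV.Iso

/-!
# Frames: a group `G` realised by unitaries of `L(L)` forming an orthonormal basis
-/

open scoped lp ENNReal InnerProductSpace

namespace Pool.Agent.Helper66.GV

/-- A homomorphism `X` from `G` to the unitary group of `L(L)` such that the vectors `X g δ_1` form
an orthonormal basis of `ℓ²(L)`. -/
structure Fr (G L : Type*) [Group G] [Group L] where
  /-- The unitaries. -/
  X : G → BH L
  mem : ∀ g, X g ∈ vN (⊤ : Subgroup L)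
  map_mul : ∀ g h, X (g * h) = X g * X h
  map_one : X 1 = 1
  map_star : ∀ g, star (X g) = X g⁻¹
  tr : ∀ g, g ≠ 1 → X g (dl 1) 1 = 0
  total : ∀ ζ : HS L, (∀ g, ⟪X g (dl 1), ζ⟫_ℂ = 0) → ζ = 0

namespace Fr

variable {G L : Type*} [Group G] [Group L] (F : Fr G L)

/-- The basis vectors. -/
noncomputable def x (g : G) : HS L := F.X g (dl 1)

/-- The right versions of the unitaries. -/
noncomputable def R (g : G) : BH L := cn (Equiv.inv L) (F.X g)

theorem X_x (g h : G) : F.X g (F.x h) = F.x (g * h) := by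
  unfold x
  rw [F.map_mul, mul_apply_eq_comp]

theorem x_one : F.x 1 = dl 1 := by
  unfold x
  rw [F.map_one]
  rfl

theorem R_mul (g h : G) : F.R (g * h) = F.R g * F.R h := by
  unfold R
  rw [F.map_mul, cn_mul inv_invol]

theorem R_one : F.R 1 = 1 := by
  unfold R
  rw [F.map_one, cn_one inv_invol]

theorem R_star (g : G) : star (F.R g) = F.R g⁻¹ := by
  unfold R
  rw [cn_star inv_invol, F.map_star]

theorem R_inv_apply (g : G) (f : HS L) : F.R g⁻¹ (F.R g f) = f := by
  rw [← mul_apply_eq_comp, ← R_mul, inv_mul_cancel, R_one]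
  rfl

theorem R_apply_inv (g : G) (f : HS L) : F.R g (F.R g⁻¹ f) = f := by
  rw [← mul_apply_eq_comp, ← R_mul, mul_inv_cancel, R_one]
  rfl

theorem X_inv_apply (g : G) (f : HS L) : F.X g⁻¹ (F.X g f) = f := by
  rw [← mul_apply_eq_comp, ← F.map_mul, inv_mul_cancel, F.map_one]
  rfl

theorem X_apply_inv (g : G) (f : HS L) : F.X g (F.X g⁻¹ f) = f := by
  rw [← mul_apply_eq_comp, ← F.map_mul, mul_inv_cancel, F.map_one]
  rfl

theorem inner_R_left (g : G) (f h : HS L) : ⟪F.R g f, h⟫_ℂ = ⟪f, F.R g⁻¹ h⟫_ℂ := by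
  rw [← R_star, ContinuousLinearMap.star_eq_adjoint, ContinuousLinearMap.adjoint_inner_right]

theorem inner_X_left (g : G) (f h : HS L) : ⟪F.X g f, h⟫_ℂ = ⟪f, F.X g⁻¹ h⟫_ℂ := by
  rw [← F.map_star, ContinuousLinearMap.star_eq_adjoint, ContinuousLinearMap.adjoint_inner_right]

theorem norm_R (g : G) (f : HS L) : ‖F.R g f‖ = ‖f‖ := by
  apply norm_apply_of_isometry
  rw [R_star, ← R_mul, inv_mul_cancel, R_one]

theorem norm_X (g : G) (f : HS L) : ‖F.X g f‖ = ‖f‖ := by
  apply norm_apply_of_isometry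
  rw [F.map_star, ← F.map_mul, inv_mul_cancel, F.map_one]

theorem kj_x (g : G) : kj (Equiv.inv L) (F.x g) = F.x g⁻¹ := by
  unfold x
  rw [kj_inv_apply_one (F.mem g), F.map_star]

theorem R_x (g h : G) : F.R g (F.x h) = F.x (h * g⁻¹) := by
  unfold R
  rw [cn_apply, kj_x, X_x, kj_x, mul_inv_rev, inv_inv]

theorem R_dl (g : G) : F.R g (dl 1) = F.x g⁻¹ := by
  rw [← F.x_one, R_x, one_mul]

theorem R_comm (g : G) {T : BH L} (hT : T ∈ vN (⊤ : Subgroup L)) : F.R g * T = T * F.R g :=
  rt_comm hT (F.mem g)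

theorem R_comm_apply (g : G) {T : BH L} (hT : T ∈ vN (⊤ : Subgroup L)) (f : HS L) :
    F.R g (T f) = T (F.R g f) := by
  rw [← mul_apply_eq_comp, R_comm F g hT, mul_apply_eq_comp]

theorem inner_x (g h : G) : ⟪F.x g, F.x h⟫_ℂ = F.X (g⁻¹ * h) (dl 1) 1 := by
  unfold x
  rw [inner_X_left, ← mul_apply_eq_comp, ← F.map_mul, inner_dl]

theorem norm_x (g : G) : ‖F.x g‖ = 1 := by
  unfold x
  rw [norm_X, norm_dl]

theorem orthonormal : Orthonormal ℂ F.x := by
  refine ⟨F.norm_x, ?_⟩
  intro g h hgh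
  rw [inner_x]
  apply F.tr
  intro h1
  exact hgh (inv_mul_eq_one.mp h1)

theorem eq_zero_of_infinite {Q : Type*} {φ : Q → ℂ} (hφ : Summable fun q => ‖φ q‖ ^ 2) {S : Set Q}
    (hS : S.Infinite) {c : ℂ} (hc : ∀ q ∈ S, φ q = c) : c = 0 := by
  have h1 : Summable fun q : S => ‖φ q‖ ^ 2 := hφ.subtype S
  have h2 : (fun q : S => ‖φ q‖ ^ 2) = fun _ => ‖c‖ ^ 2 := by
    funext q
    rw [hc q q.2]
  have := hS.to_subtype
  rw [h2, summable_const_iff] at h1
  exact norm_eq_zero.mp (pow_eq_zero_iff two_ne_zero |>.mp h1)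

/-- A vector which is invariant under the conjugation by sufficiently many elements is a multiple
of `δ_1`. -/
theorem eq_smul_of_fixed {Q : Type*} [Group Q] (F : Fr Q L) (d : G →* Q)
    (hd : ∀ q : Q, q ≠ 1 → (Set.range fun g => d g * q * (d g)⁻¹).Infinite) {ζ : HS L}
    (hζ : ∀ g, F.X (d g) (F.R (d g) ζ) = ζ) : ∃ z : ℂ, ζ = z • dl 1 := by
  have h1 : ∀ (g : G) (q : Q), ⟪F.x (d g * q * (d g)⁻¹), ζ⟫_ℂ = ⟪F.x q, ζ⟫_ℂ := by
    intro g q
    conv_lhs => rw [← hζ g]
    have h2 : ⟪F.x (d g * q * (d g)⁻¹), F.X (d g) (F.R (d g) ζ)⟫_ℂ =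
        ⟪F.R (d g)⁻¹ (F.X (d g)⁻¹ (F.x (d g * q * (d g)⁻¹))), ζ⟫_ℂ := by
      rw [inner_R_left, inner_X_left, inv_inv]
    rw [h2, X_x, R_x]
    congr 2
    group
  have h3 := F.orthonormal.inner_products_summable ζ
  have h4 : ∀ q, q ≠ 1 → ⟪F.x q, ζ⟫_ℂ = 0 := by
    intro q hq
    apply eq_zero_of_infinite (φ := fun q => ⟪F.x q, ζ⟫_ℂ) (by simpa using h3) (hd q hq)
    rintro _ ⟨g, rfl⟩
    exact h1 g q
  refine ⟨⟪F.x 1, ζ⟫_ℂ, ?_⟩
  rw [← sub_eq_zero]
  apply F.total
  intro q
  change ⟪F.x q, _⟫_ℂ = 0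
  rw [inner_sub_right, inner_smul_right, ← F.x_one]
  by_cases hq : q = 1
  · rw [hq, inner_self_eq_norm_sq_to_K, norm_x]
    simp
  · rw [h4 q hq, F.orthonormal.2 hq, mul_zero, sub_zero]

/-- The complex conjugate frame. -/
noncomputable def bar : Fr G L where
  X g := cn (Equiv.refl L) (F.X g)
  mem g := cn_refl_mem (F.mem g)
  map_mul g h := by rw [F.map_mul, cn_mul refl_invol]
  map_one := by rw [F.map_one, cn_one refl_invol]
  map_star g := by rw [cn_star refl_invol, F.map_star]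
  tr g hg := by
    rw [cn_apply, kj_refl_dl, kj_apply, Equiv.refl_symm, Equiv.refl_apply, F.tr g hg, star_zero]
  total ζ hζ := by
    have h1 : kj (Equiv.refl L) ζ = 0 := by
      apply F.total
      intro g
      have h2 := hζ g
      rw [cn_apply, kj_refl_dl, inner_kj_left refl_invol] at h2
      rw [← inner_conj_symm, h2, map_zero]
    rw [← kj_kj refl_invol ζ, h1, map_zero]

theorem bar_x (g : G) : F.bar.x g = kj (Equiv.refl L) (F.x g) := by
  change cn (Equiv.refl L) (F.X g) (dl 1) = _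
  rw [cn_apply, kj_refl_dl]
  rfl

theorem inv_refl_comm (f : HS L) : kj (Equiv.inv L) (kj (Equiv.refl L) f) =
    kj (Equiv.refl L) (kj (Equiv.inv L) f) := by
  apply ext_apply
  intro y
  rfl

theorem bar_R (g : G) : F.bar.R g = cn (Equiv.refl L) (F.R g) := by
  apply ContinuousLinearMap.ext
  intro f
  change cn (Equiv.inv L) (cn (Equiv.refl L) (F.X g)) f =
    cn (Equiv.refl L) (cn (Equiv.inv L) (F.X g)) f
  rw [cn_apply, cn_apply, cn_apply, cn_apply, inv_refl_comm, inv_refl_comm]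

theorem bar_R_kj (g : G) (f : HS L) :
    F.bar.R g (kj (Equiv.refl L) f) = kj (Equiv.refl L) (F.R g f) := by
  rw [bar_R, cn_apply, kj_kj refl_invol]

/-- The product of two frames. -/
noncomputable def prod {G' L' : Type*} [Group G'] [Group L'] (F' : Fr G' L') :
    Fr (G × G') (L × L') where
  X g := tp (F.X g.1) (F'.X g.2)
  mem g := tp_mem (F.mem g.1) (F'.mem g.2)
  map_mul g h := by rw [Prod.fst_mul, Prod.snd_mul, F.map_mul, F'.map_mul, tp_mul]
  map_one := by rw [Prod.fst_one, Prod.snd_one, F.map_one, F'.map_one, tp_one]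
  map_star g := by rw [tp_star, F.map_star, F'.map_star]; rfl
  tr g hg := by
    have h1 : (dl (1 : L × L')) = tens (dl 1) (dl 1) := dl_prod 1 1
    rw [h1, tp_tens]
    change F.X g.1 (dl 1) 1 * F'.X g.2 (dl 1) 1 = 0
    by_cases h2 : g.1 = 1
    · have h3 : g.2 ≠ 1 := fun h3 => hg (Prod.ext h2 h3)
      rw [F'.tr _ h3, mul_zero]
    · rw [F.tr _ h2, zero_mul]
  total ζ hζ := by
    have h1 : (dl (1 : L × L')) = tens (dl 1) (dl 1) := dl_prod 1 1
    have key : ∀ (g : G) (s : L'), ⟪F.x g, slice (swp ζ) s⟫_ℂ = 0 := by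
      intro g
      -- the vector `⟨x g, slice⟩`
      have hsum : Summable fun s => ‖⟪F.x g, slice (swp ζ) s⟫_ℂ‖ ^ 2 := by
        refine Summable.of_nonneg_of_le (fun _ => by positivity) (fun s => ?_)
          (hasSum_slice (swp ζ)).summable
        have := norm_inner_le_norm (𝕜 := ℂ) (F.x g) (slice (swp ζ) s)
        rw [F.norm_x, one_mul] at this
        gcongr
      set η : HS L' := mkHS (fun s => ⟪F.x g, slice (swp ζ) s⟫_ℂ) hsum with hη
      have h2 : η = 0 := by
        apply F'.total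
        intro g'
        have h3 := hζ (g, g')
        simp only [h1, tp_tens] at h3
        have h4 : ⟪tens (F.X g (dl 1)) (F'.X g' (dl 1)), ζ⟫_ℂ =
            ⟪tens (F'.X g' (dl 1)) (F.X g (dl 1)), swp ζ⟫_ℂ := by
          rw [← swp_tens]
          exact ((swp : HS (L × L') ≃ₗᵢ[ℂ] HS (L' × L)).inner_map_map _ _).symm
        rw [h4] at h3
        have h5 := inner_tens_right (swp ζ) (F'.X g' (dl 1)) (F.X g (dl 1))
        rw [h3] at h5
        exact (hs_inner (F'.X g' (dl 1)) η).unique h5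
      intro s
      have h3 : η s = 0 := by rw [h2]; rfl
      exact h3
    have h2 : swp ζ = 0 := by
      apply ext_slice
      intro s
      have h3 : slice (swp ζ) s = 0 := F.total _ fun g => key g s
      rw [h3]
      rfl
    rw [← swp_swp ζ, h2, map_zero]

theorem prod_X {G' L' : Type*} [Group G'] [Group L'] (F' : Fr G' L') (g : G) (g' : G') :
    (F.prod F').X (g, g') = tp (F.X g) (F'.X g') := rfl

theorem prod_R {G' L' : Type*} [Group G'] [Group L'] (F' : Fr G' L') (g : G) (g' : G') :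
    (F.prod F').R (g, g') = tp (F.R g) (F'.R g') := by
  change cn (Equiv.inv (L × L')) (tp (F.X g) (F'.X g')) = _
  rw [cn_inv_tp]
  rfl

end Fr

section OfIso

variable {G L : Type*} [Group G] [Group L] {θ : LG G ≃⋆ₐ[ℂ] LG L}

theorem norm_sq_eq_tr (T : BH L) : ((‖T (dl 1)‖ ^ 2 : ℝ) : ℂ) = tr (star T * T) := by
  unfold tr
  rw [mul_apply_eq_comp, ContinuousLinearMap.star_eq_adjoint,
    ContinuousLinearMap.adjoint_inner_right, inner_self_eq_norm_sq_to_K]
  push_cast
  rfl

/-- Trace preserving isomorphisms preserve the 2-norm. -/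
theorem norm_map_dl (hθ : TracePreserving θ) (y : LG G) :
    ‖(θ y : BH L) (dl 1)‖ = ‖(y : BH G) (dl 1)‖ := by
  have h1 := norm_sq_eq_tr (θ y : BH L)
  have h2 := norm_sq_eq_tr (y : BH G)
  have h3 : tr (star (θ y : BH L) * (θ y : BH L)) = tr (star (y : BH G) * (y : BH G)) := by
    have h4 := hθ (star y * y)
    rw [map_mul, map_st] at h4
    exact h4
  rw [h3, ← h2] at h1
  have h5 := Complex.ofReal_injective h1
  exact sq_inj (norm_nonneg _) (norm_nonneg _) h5

/-- The frame of a trace preserving isomorphism. -/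
noncomputable def ofIso (hθ : TracePreserving θ) : Fr G L where
  X g := (θ (u g) : BH L)
  mem g := (θ (u g)).2
  map_mul g h := by rw [u_mul, map_mul]; rfl
  map_one := by rw [u_one, map_one]; rfl
  map_star g := by
    rw [← star_u, map_st]
    rfl
  tr g hg := by
    classical
    rw [← tr_eq, hθ, tr_u, if_neg hg]
  total ζ hζ := by
    classical
    have key : ∀ y : LG G, ⟪(θ y : BH L) (dl 1), ζ⟫_ℂ = 0 := by
      intro y
      have hs := hasSum_dl ((y : BH G) (dl 1))
      have h1 : Filter.Tendsto (fun s : Finset G => ‖(y : BH G) (dl 1) -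
          ∑ g ∈ s, (y : BH G) (dl 1) g • dl g‖) Filter.atTop (nhds 0) := by
        have h2 := (tendsto_const_nhds (x := (y : BH G) (dl 1))).sub hs
        rw [sub_self] at h2
        simpa using h2.norm
      have h2 : ∀ s : Finset G, ‖⟪(θ y : BH L) (dl 1), ζ⟫_ℂ‖ ≤ ‖(y : BH G) (dl 1) -
          ∑ g ∈ s, (y : BH G) (dl 1) g • dl g‖ * ‖ζ‖ := by
        intro s
        set w : LG G := ∑ g ∈ s, (y : BH G) (dl 1) g • u g with hw
        have h3 : (w : BH G) (dl 1) = ∑ g ∈ s, (y : BH G) (dl 1) g • dl g := by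
          have h4 : (w : BH G) = ∑ g ∈ s, (y : BH G) (dl 1) g • lam g := by
            rw [hw]
            push_cast
            rfl
          rw [h4, sum_apply]
          apply Finset.sum_congr rfl
          intro g _
          rw [smul_apply, lam_dl, mul_one]
        have h5 : ⟪(θ w : BH L) (dl 1), ζ⟫_ℂ = 0 := by
          have h6 : (θ w : BH L) (dl 1) =
              ∑ g ∈ s, (y : BH G) (dl 1) g • ((θ (u g) : BH L) (dl 1)) := by
            have h7 : (θ w : BH L) = ∑ g ∈ s, (y : BH G) (dl 1) g • (θ (u g) : BH L) := by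
              rw [hw, map_sum]
              simp only [map_smul]
              push_cast
              rfl
            rw [h7, sum_apply]
            rfl
          rw [h6, sum_inner]
          apply Finset.sum_eq_zero
          intro g _
          rw [inner_smul_left, hζ, mul_zero]
        have h8 : ⟪(θ y : BH L) (dl 1), ζ⟫_ℂ = ⟪(θ (y - w) : BH L) (dl 1), ζ⟫_ℂ := by
          have h9 : (θ (y - w) : BH L) (dl 1) = (θ y : BH L) (dl 1) - (θ w : BH L) (dl 1) := by
            rw [map_sub]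
            rfl
          rw [h9, inner_sub_left, h5, sub_zero]
        rw [h8]
        refine (norm_inner_le_norm _ _).trans ?_
        rw [norm_map_dl hθ]
        have h10 : ((y - w : LG G) : BH G) (dl 1) = (y : BH G) (dl 1) -
          ∑ g ∈ s, (y : BH G) (dl 1) g • dl g := by
          rw [← h3]
          rfl
        rw [h10]
      have h3 : ‖⟪(θ y : BH L) (dl 1), ζ⟫_ℂ‖ ≤ 0 := by
        have h4 := h1.mul_const ‖ζ‖
        rw [zero_mul] at h4
        exact ge_of_tendsto' h4 h2
      exact norm_eq_zero.mp (le_antisymm h3 (norm_nonneg _))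
    apply ext_apply
    intro s
    have h1 := key (θ.symm (u s))
    rw [StarAlgEquiv.apply_symm_apply] at h1
    change ⟪lam s (dl 1), ζ⟫_ℂ = 0 at h1
    rw [lam_dl, mul_one, inner_dl] at h1
    exact h1

end OfIso

end Pool.Agent.Helper66.GV
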