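import Mathlib

/-!
# `SL_m(ℤ)` is generated by elementary matrices
-/

open Matrix

namespace Pool.Agent.Helper66.GV

variable {m : ℕ}

/-- The subgroup of `SL_m(ℤ)` generated by the elementary matrices. -/
def elGroup (m : ℕ) : Subgroup (SpecialLinearGroup (Fin m) ℤ) :=
  Subgroup.closure {A | ∃ (i j : Fin m) (hij : i ≠ j) (b : ℤ),
    A = SpecialLinearGroup.transvection hij b}

theorem tv_mem {i j : Fin m} (hij : i ≠ j) (b : ℤ) :
    SpecialLinearGroup.transvection hij b ∈ elGroup m :=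
  Subgroup.subset_closure ⟨i, j, hij, b, rfl⟩

theorem tv_mul_apply_same {i j : Fin m} (hij : i ≠ j) (b : ℤ)
    (A : SpecialLinearGroup (Fin m) ℤ) (l : Fin m) :
    (SpecialLinearGroup.transvection hij b * A) i l = A i l + b * A j l :=
  transvection_mul_apply_same i j l b A.1

theorem tv_mul_apply_ne {i j : Fin m} (hij : i ≠ j) (b : ℤ)
    (A : SpecialLinearGroup (Fin m) ℤ) {r : Fin m} (hr : r ≠ i) (l : Fin m) :
    (SpecialLinearGroup.transvection hij b * A) r l = A r l :=
  transvection_mul_apply_of_ne i j r l hr b A.1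

theorem sl_mul_apply (A B : SpecialLinearGroup (Fin m) ℤ) (i l : Fin m) :
    (A * B) i l = ∑ j, A i j * B j l := Matrix.mul_apply

/-- The first `k` columns are those of the identity. -/
def IdCols (k : ℕ) (A : SpecialLinearGroup (Fin m) ℤ) : Prop :=
  ∀ i l : Fin m, (l : ℕ) < k → A i l = if i = l then 1 else 0

theorem IdCols.tv {k : ℕ} {A : SpecialLinearGroup (Fin m) ℤ} (h : IdCols k A) {i j : Fin m}
    (hij : i ≠ j) (b : ℤ) (hj : k ≤ j) :
    IdCols k (SpecialLinearGroup.transvection hij b * A) := by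
  intro r l hl
  have hjl : j ≠ l := by
    rintro rfl
    omega
  by_cases hr : r = i
  · subst hr
    rw [tv_mul_apply_same, h r l hl, h j l hl, if_neg hjl, mul_zero, add_zero]
  · rw [tv_mul_apply_ne hij b A hr, h r l hl]

/-- The Euclidean algorithm in column `k`. -/
theorem exists_reduce {k : Fin m} (N : ℕ) : ∀ A : SpecialLinearGroup (Fin m) ℤ, IdCols k A →
    ∑ i ∈ Finset.Ici k, (A i k).natAbs ≤ N →
    ∃ T ∈ elGroup m, IdCols k (T * A) ∧ ∀ i, k < i → (T * A) i k = 0 := by
  induction N using Nat.strong_induction_on with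
  | _ N ih =>
  intro A hA hN
  by_cases hex : ∃ i j : Fin m, k ≤ i ∧ k ≤ j ∧ i ≠ j ∧ A i k ≠ 0 ∧ A j k ≠ 0
  · have hex' : ∃ i j : Fin m, k ≤ i ∧ k ≤ j ∧ i ≠ j ∧ A i k ≠ 0 ∧ A j k ≠ 0 ∧
        (A j k).natAbs ≤ (A i k).natAbs := by
      obtain ⟨i, j, hi, hj, hij, h1, h2⟩ := hex
      rcases le_total (A j k).natAbs (A i k).natAbs with h | h
      · exact ⟨i, j, hi, hj, hij, h1, h2, h⟩
      · exact ⟨j, i, hj, hi, hij.symm, h2, h1, h⟩
    obtain ⟨i, j, hi, hj, hij, h1, h2, h3⟩ := hex'
    -- choose the sign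
    obtain ⟨b, hb⟩ : ∃ b : ℤ, (A i k + b * A j k).natAbs < (A i k).natAbs := by
      rcases lt_or_gt_of_ne h1 with h4 | h4 <;> rcases lt_or_gt_of_ne h2 with h5 | h5
      · exact ⟨-1, by omega⟩
      · exact ⟨1, by omega⟩
      · exact ⟨1, by omega⟩
      · exact ⟨-1, by omega⟩
    have hlt : ∑ r ∈ Finset.Ici k,
        ((SpecialLinearGroup.transvection hij b * A) r k).natAbs <
        ∑ r ∈ Finset.Ici k, (A r k).natAbs := by
      apply Finset.sum_lt_sum
      · intro r _
        by_cases hr : r = i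
        · subst hr
          rw [tv_mul_apply_same]
          exact hb.le
        · rw [tv_mul_apply_ne hij b A hr]
      · exact ⟨i, Finset.mem_Ici.mpr hi, by rw [tv_mul_apply_same]; exact hb⟩
    obtain ⟨T, hT, h6, h7⟩ := ih _ (lt_of_lt_of_le hlt hN) _ (hA.tv hij b (Fin.le_def.mp hj)) le_rfl
    refine ⟨T * SpecialLinearGroup.transvection hij b, mul_mem hT (tv_mem hij b), ?_, ?_⟩
    · rw [mul_assoc]
      exact h6
    · rw [mul_assoc]
      exact h7
  · push Not at hex
    by_cases hz : ∀ i, k < i → A i k = 0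
    · exact ⟨1, one_mem _, by rwa [one_mul], by rwa [one_mul]⟩
    · push Not at hz
      obtain ⟨i, hi, hi0⟩ := hz
      have hki : k ≠ i := hi.ne
      have hrest : ∀ j, k ≤ j → j ≠ i → A j k = 0 := by
        intro j hj hji
        exact hex i j hi.le hj hji.symm hi0
      refine ⟨SpecialLinearGroup.transvection hki.symm (-1) *
        SpecialLinearGroup.transvection hki 1, mul_mem (tv_mem _ _) (tv_mem _ _), ?_, ?_⟩
      · rw [mul_assoc]
        exact (hA.tv hki 1 (Fin.le_def.mp hi.le)).tv hki.symm (-1) le_rfl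
      · intro j hj
        rw [mul_assoc]
        by_cases hji : j = i
        · subst hji
          rw [tv_mul_apply_same, tv_mul_apply_ne hki 1 A hki.symm, tv_mul_apply_same,
            hrest k le_rfl hki]
          ring
        · rw [tv_mul_apply_ne _ _ _ hji, tv_mul_apply_ne _ _ _ hj.ne', hrest j hj.le hji]

theorem IdCols.inv {k : ℕ} {A : SpecialLinearGroup (Fin m) ℤ} (h : IdCols k A) :
    IdCols k A⁻¹ := by
  intro i l hl
  have h1 : (A⁻¹ * A) i l = A⁻¹ i l := by
    rw [sl_mul_apply, Finset.sum_eq_single l]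
    · rw [h l l hl, if_pos rfl, mul_one]
    · intro j _ hj
      rw [h j l hl, if_neg hj, mul_zero]
    · intro h2
      exact absurd (Finset.mem_univ l) h2
  rw [← h1, inv_mul_cancel]
  change (1 : Matrix (Fin m) (Fin m) ℤ) i l = _
  rw [one_apply]

theorem sq_eq_one_of {k : Fin m} {A : SpecialLinearGroup (Fin m) ℤ} (h : IdCols k A)
    (h0 : ∀ i, k < i → A i k = 0) : A k k * A k k = 1 := by
  have h1 : A⁻¹ k k * A k k = 1 := by
    have h2 : (A⁻¹ * A) k k = 1 := by
      rw [inv_mul_cancel]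
      change (1 : Matrix (Fin m) (Fin m) ℤ) k k = 1
      rw [one_apply_eq]
    rw [sl_mul_apply, Finset.sum_eq_single k] at h2
    · exact h2
    · intro j _ hj
      rcases lt_or_gt_of_ne hj with h3 | h3
      · have h4 := h.inv k j (Fin.lt_def.mp h3)
        rw [if_neg hj.symm] at h4
        rw [h4, zero_mul]
      · rw [h0 j h3, mul_zero]
    · intro h2
      exact absurd (Finset.mem_univ k) h2
  have h5 : IsUnit (A k k) := IsUnit.of_mul_eq_one _ (by rw [mul_comm]; exact h1)
  rcases Int.isUnit_iff.mp h5 with h6 | h6 <;> rw [h6] <;> norm_num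

theorem exists_one {k : Fin m} {A : SpecialLinearGroup (Fin m) ℤ} (h : IdCols k A)
    (h0 : ∀ i, k < i → A i k = 0) :
    ∃ T ∈ elGroup m, IdCols k (T * A) ∧ (∀ i, k < i → (T * A) i k = 0) ∧ (T * A) k k = 1 := by
  have hc := sq_eq_one_of h h0
  by_cases hk : (k : ℕ) + 1 < m
  · set l : Fin m := ⟨k + 1, hk⟩ with hl
    have hkl : k < l := by
      rw [Fin.lt_def]
      simp [hl]
    have hne : k ≠ l := hkl.ne
    set c := A k k with hcdef
    set A₁ := SpecialLinearGroup.transvection hne.symm c * A with hA₁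
    set A₂ := SpecialLinearGroup.transvection hne (1 - c) * A₁ with hA₂
    set A₃ := SpecialLinearGroup.transvection hne.symm (-1) * A₂ with hA₃
    have e1 : A₁ l k = 1 := by
      rw [hA₁, tv_mul_apply_same, h0 l hkl, ← hcdef, hc, zero_add]
    have e1' : A₁ k k = c := by rw [hA₁, tv_mul_apply_ne _ _ _ hne]
    have e2 : A₂ k k = 1 := by
      rw [hA₂, tv_mul_apply_same, e1, e1']
      ring
    have e2' : A₂ l k = 1 := by rw [hA₂, tv_mul_apply_ne _ _ _ hne.symm, e1]
    have e3 : A₃ l k = 0 := by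
      rw [hA₃, tv_mul_apply_same, e2, e2']
      ring
    have e3' : A₃ k k = 1 := by rw [hA₃, tv_mul_apply_ne _ _ _ hne, e2]
    have hlk : (k : ℕ) ≤ l := Fin.le_def.mp hkl.le
    refine ⟨SpecialLinearGroup.transvection hne.symm (-1) *
      (SpecialLinearGroup.transvection hne (1 - c) *
        SpecialLinearGroup.transvection hne.symm c), mul_mem (tv_mem _ _)
        (mul_mem (tv_mem _ _) (tv_mem _ _)), ?_⟩
    rw [mul_assoc, mul_assoc, ← hA₁, ← hA₂, ← hA₃]
    refine ⟨((h.tv _ _ le_rfl).tv _ _ hlk).tv _ _ le_rfl, ?_, e3'⟩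
    intro i hi
    by_cases hil : i = l
    · rw [hil, e3]
    · rw [hA₃, tv_mul_apply_ne _ _ _ hil, hA₂, tv_mul_apply_ne _ _ _ hi.ne', hA₁,
        tv_mul_apply_ne _ _ _ hil, h0 i hi]
  · refine ⟨1, one_mem _, by rwa [one_mul], by rwa [one_mul], ?_⟩
    rw [one_mul]
    have hlast : ∀ j : Fin m, j ≤ k := by
      intro j
      rw [Fin.le_def]
      omega
    have htri : (A : Matrix (Fin m) (Fin m) ℤ).BlockTriangular id := by
      intro i j hij
      simp only [id] at hij
      have hjk : j < k := lt_of_lt_of_le hij (hlast i)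
      have := h i j (Fin.lt_def.mp hjk)
      rw [if_neg hij.ne'] at this
      exact this
    have hdet := det_of_isUpperTriangular htri
    rw [A.2, Finset.prod_eq_single k] at hdet
    · exact hdet.symm
    · intro j _ hj
      have hjk : j < k := lt_of_le_of_ne (hlast j) hj
      have := h j j (Fin.lt_def.mp hjk)
      rw [if_pos rfl] at this
      exact this
    · intro h2
      exact absurd (Finset.mem_univ k) h2

theorem exists_clear {k : Fin m} (t : ℕ) : ∀ A : SpecialLinearGroup (Fin m) ℤ, IdCols k A →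
    (∀ i, k < i → A i k = 0) → A k k = 1 → t ≤ k →
    ∃ T ∈ elGroup m, IdCols k (T * A) ∧ (∀ i, k < i → (T * A) i k = 0) ∧ (T * A) k k = 1 ∧
      ∀ i : Fin m, (i : ℕ) < t → (T * A) i k = 0 := by
  induction t with
  | zero =>
    intro A h1 h2 h3 _
    refine ⟨1, one_mem _, ?_⟩
    rw [one_mul]
    exact ⟨h1, h2, h3, fun i hi => absurd hi (Nat.not_lt_zero _)⟩
  | succ t ih =>
    intro A h1 h2 h3 ht
    obtain ⟨T, hT, g1, g2, g3, g4⟩ := ih A h1 h2 h3 (by omega)
    set B := T * A with hB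
    have htm : t < m := by
      have := k.2
      omega
    set r : Fin m := ⟨t, htm⟩ with hr
    have hrk : r < k := by
      rw [Fin.lt_def]
      change t < k
      omega
    refine ⟨SpecialLinearGroup.transvection hrk.ne (-(B r k)) * T,
      mul_mem (tv_mem _ _) hT, ?_⟩
    rw [mul_assoc, ← hB]
    refine ⟨g1.tv _ _ le_rfl, ?_, ?_, ?_⟩
    · intro i hi
      rw [tv_mul_apply_ne _ _ _ (hrk.trans hi).ne', g2 i hi]
    · rw [tv_mul_apply_ne _ _ _ hrk.ne', g3]
    · intro i hi
      by_cases hir : i = r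
      · rw [hir, tv_mul_apply_same, g3]
        ring
      · rw [tv_mul_apply_ne _ _ _ hir]
        apply g4
        have : (i : ℕ) ≠ t := fun h => hir (Fin.ext h)
        omega

theorem exists_idCols (k : ℕ) : k ≤ m → ∀ A : SpecialLinearGroup (Fin m) ℤ,
    ∃ T ∈ elGroup m, IdCols k (T * A) := by
  induction k with
  | zero =>
    intro _ A
    exact ⟨1, one_mem _, fun i l hl => absurd hl (Nat.not_lt_zero _)⟩
  | succ k ih =>
    intro hk A
    obtain ⟨T₀, hT₀, h0⟩ := ih (by omega) A
    set κ : Fin m := ⟨k, by omega⟩ with hκ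
    have h0' : IdCols (κ : ℕ) (T₀ * A) := h0
    obtain ⟨T₁, hT₁, h1, h1'⟩ := exists_reduce (k := κ) _ (T₀ * A) h0' le_rfl
    obtain ⟨T₂, hT₂, h2, h2', h2''⟩ := exists_one h1 h1'
    obtain ⟨T₃, hT₃, h3, h3', h3'', h3'''⟩ := exists_clear (k : ℕ) _ h2 h2' h2'' (by simp [hκ])
    refine ⟨T₃ * (T₂ * (T₁ * T₀)), mul_mem hT₃ (mul_mem hT₂ (mul_mem hT₁ hT₀)), ?_⟩
    rw [mul_assoc, mul_assoc, mul_assoc]
    intro i l hl
    rcases Nat.lt_succ_iff_lt_or_eq.mp hl with h | h
    · exact h3 i l h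
    · have hl' : l = κ := Fin.ext h
      subst hl'
      rcases lt_trichotomy i κ with h4 | h4 | h4
      · rw [if_neg h4.ne]
        exact h3''' i (Fin.lt_def.mp h4)
      · rw [if_pos h4, h4]
        exact h3''
      · rw [if_neg h4.ne']
        exact h3' i h4

theorem elGroup_eq_top (m : ℕ) : elGroup m = ⊤ := by
  rw [eq_top_iff]
  intro A _
  obtain ⟨T, hT, h⟩ := exists_idCols m le_rfl A
  have h1 : T * A = 1 := by
    apply Subtype.ext
    ext i l
    have := h i l l.2
    change (T * A) i l = (1 : Matrix (Fin m) (Fin m) ℤ) i l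
    rw [this, one_apply]
  rw [← inv_eq_of_mul_eq_one_right h1]
  exact inv_mem hT

end Pool.Agent.Helper66.GV
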