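import Pool.Agent.Helper66.GV.Alg

/-!
# From height to a unitary conjugating the frame into multiples of group elements
-/

open scoped lp ENNReal InnerProductSpace
open Filter Topology

namespace Pool.Agent.Helper66.GV

section Bessel

variable {E ι : Type*} [NormedAddCommGroup E] [InnerProductSpace ℂ E]

/-- A Bessel type inequality for families with few correlations. -/
theorem bessel_bound (s : Finset ι) (u : ι → E) (v : E) {K : ℝ} (hK0 : 0 ≤ K)
    (hK : ∀ i ∈ s, ∑ j ∈ s, ‖⟪u i, u j⟫_ℂ‖ ≤ K) :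
    ∑ i ∈ s, ‖⟪u i, v⟫_ℂ‖ ^ 2 ≤ K * ‖v‖ ^ 2 := by
  set c : ι → ℂ := fun i => ⟪u i, v⟫_ℂ with hc
  set S : ℝ := ∑ i ∈ s, ‖c i‖ ^ 2 with hS
  have hS0 : 0 ≤ S := Finset.sum_nonneg fun i _ => by positivity
  set w : E := ∑ i ∈ s, c i • u i with hw
  have h1 : ⟪w, v⟫_ℂ = (S : ℂ) := by
    rw [hw, sum_inner, hS]
    push_cast
    refine Finset.sum_congr rfl fun i _ => ?_
    rw [inner_smul_left, mul_comm, Complex.mul_conj, Complex.normSq_eq_norm_sq]
    push_cast
    rfl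
  have h2 : S ≤ ‖w‖ * ‖v‖ := by
    have h3 := norm_inner_le_norm (𝕜 := ℂ) w v
    rw [h1, Complex.norm_real, Real.norm_of_nonneg hS0] at h3
    exact h3
  have h3 : ‖w‖ ^ 2 ≤ K * S := by
    have h4 : ((‖w‖ ^ 2 : ℝ) : ℂ) = ∑ i ∈ s, ∑ j ∈ s, (starRingEnd ℂ) (c i) * c j * ⟪u i, u j⟫_ℂ := by
      have h5 : ((‖w‖ ^ 2 : ℝ) : ℂ) = ⟪w, w⟫_ℂ := by
        rw [inner_self_eq_norm_sq_to_K]
        push_cast
        rfl
      rw [h5]
      conv_lhs => rw [hw]
      rw [sum_inner]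
      refine Finset.sum_congr rfl fun i _ => ?_
      rw [inner_smul_left, inner_sum, Finset.mul_sum]
      refine Finset.sum_congr rfl fun j _ => ?_
      rw [inner_smul_right]
      ring
    have h5 : ‖w‖ ^ 2 ≤ ∑ i ∈ s, ∑ j ∈ s, ‖c i‖ * ‖c j‖ * ‖⟪u i, u j⟫_ℂ‖ := by
      calc ‖w‖ ^ 2 = ‖((‖w‖ ^ 2 : ℝ) : ℂ)‖ := by
            rw [Complex.norm_real, Real.norm_of_nonneg (by positivity)]
        _ = ‖∑ i ∈ s, ∑ j ∈ s, (starRingEnd ℂ) (c i) * c j * ⟪u i, u j⟫_ℂ‖ := by rw [h4]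
        _ ≤ ∑ i ∈ s, ‖∑ j ∈ s, (starRingEnd ℂ) (c i) * c j * ⟪u i, u j⟫_ℂ‖ := norm_sum_le _ _
        _ ≤ ∑ i ∈ s, ∑ j ∈ s, ‖(starRingEnd ℂ) (c i) * c j * ⟪u i, u j⟫_ℂ‖ :=
            Finset.sum_le_sum fun i _ => norm_sum_le _ _
        _ = _ := by
            refine Finset.sum_congr rfl fun i _ => Finset.sum_congr rfl fun j _ => ?_
            rw [norm_mul, norm_mul, RCLike.norm_conj]
    have h6 : ∑ i ∈ s, ∑ j ∈ s, ‖c i‖ * ‖c j‖ * ‖⟪u i, u j⟫_ℂ‖ ≤
        ∑ i ∈ s, ∑ j ∈ s, (1 / 2 * (‖c i‖ ^ 2 * ‖⟪u i, u j⟫_ℂ‖) +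
          1 / 2 * (‖c j‖ ^ 2 * ‖⟪u i, u j⟫_ℂ‖)) := by
      refine Finset.sum_le_sum fun i _ => Finset.sum_le_sum fun j _ => ?_
      have h7 : ‖c i‖ * ‖c j‖ ≤ 1 / 2 * ‖c i‖ ^ 2 + 1 / 2 * ‖c j‖ ^ 2 := by
        nlinarith [sq_nonneg (‖c i‖ - ‖c j‖)]
      have h8 := mul_le_mul_of_nonneg_right h7 (norm_nonneg ⟪u i, u j⟫_ℂ)
      linarith
    have h7 : ∑ i ∈ s, ∑ j ∈ s, ‖c i‖ ^ 2 * ‖⟪u i, u j⟫_ℂ‖ ≤ K * S := by
      rw [hS, Finset.mul_sum]
      refine Finset.sum_le_sum fun i hi => ?_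
      rw [← Finset.mul_sum, mul_comm]
      exact mul_le_mul_of_nonneg_right (hK i hi) (by positivity)
    have h8 : ∑ i ∈ s, ∑ j ∈ s, ‖c j‖ ^ 2 * ‖⟪u i, u j⟫_ℂ‖ ≤ K * S := by
      rw [Finset.sum_comm]
      refine le_trans (le_of_eq ?_) h7
      refine Finset.sum_congr rfl fun i _ => Finset.sum_congr rfl fun j _ => ?_
      rw [← inner_conj_symm, RCLike.norm_conj]
    have h9 : ∑ i ∈ s, ∑ j ∈ s, (1 / 2 * (‖c i‖ ^ 2 * ‖⟪u i, u j⟫_ℂ‖) +
          1 / 2 * (‖c j‖ ^ 2 * ‖⟪u i, u j⟫_ℂ‖)) =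
        1 / 2 * (∑ i ∈ s, ∑ j ∈ s, ‖c i‖ ^ 2 * ‖⟪u i, u j⟫_ℂ‖) +
          1 / 2 * ∑ i ∈ s, ∑ j ∈ s, ‖c j‖ ^ 2 * ‖⟪u i, u j⟫_ℂ‖ := by
      simp only [Finset.sum_add_distrib, Finset.mul_sum]
    rw [h9] at h6
    linarith
  rcases eq_or_lt_of_le hS0 with h4 | h4
  · change S ≤ _
    rw [← h4]
    positivity
  · have h5 : S ^ 2 ≤ K * S * ‖v‖ ^ 2 := by
      calc S ^ 2 ≤ (‖w‖ * ‖v‖) ^ 2 := by gcongr
        _ = ‖w‖ ^ 2 * ‖v‖ ^ 2 := by ring
        _ ≤ K * S * ‖v‖ ^ 2 := by gcongr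
    have h6 : S * S ≤ S * (K * ‖v‖ ^ 2) := by nlinarith
    exact le_of_mul_le_mul_left h6 h4

end Bessel

variable {G L : Type*} [Group G] [Group L]

namespace Fr

variable (F : Fr G L)

/-- Parseval's identity for the basis of a frame. -/
theorem parseval (v : HS L) : HasSum (fun g => ‖⟪F.x g, v⟫_ℂ‖ ^ 2) (‖v‖ ^ 2) := by
  have hsp : (Submodule.span ℂ (Set.range F.x))ᗮ = ⊥ := by
    rw [eq_bot_iff]
    intro ζ hζ
    rw [Submodule.mem_orthogonal] at hζ
    exact F.total ζ fun g => hζ _ (Submodule.subset_span ⟨g, rfl⟩)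
  have h1 := (HilbertBasis.mkOfOrthogonalEqBot F.orthonormal hsp).hasSum_inner_mul_inner v v
  rw [HilbertBasis.coe_mkOfOrthogonalEqBot, inner_self'] at h1
  have h2 : (fun i => ⟪v, F.x i⟫_ℂ * ⟪F.x i, v⟫_ℂ) =
      fun i => ((‖⟪F.x i, v⟫_ℂ‖ ^ 2 : ℝ) : ℂ) := by
    funext i
    rw [← inner_conj_symm v, mul_comm, Complex.mul_conj, Complex.normSq_eq_norm_sq]
  rw [h2] at h1
  exact_mod_cast h1

end Fr

/-- The group `L` is icc as well. -/
theorem icc_of_frame (F : Fr G L) (hG : ICC G) : ICC L := by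
  classical
  intro s hs hfin
  set C : Finset L := hfin.toFinset with hC
  have hmem : ∀ t, t ∈ C ↔ ∃ h, h * s * h⁻¹ = t := by
    intro t
    rw [hC, Set.Finite.mem_toFinset, Set.mem_range]
  set T : BH L := ∑ t ∈ C, lam t with hT
  have hTm : T ∈ vN (⊤ : Subgroup L) := sum_mem fun t _ => lam_mem_top t
  have h1 : ∀ r, lam r * T = T * lam r := by
    intro r
    rw [hT, Finset.mul_sum, Finset.sum_mul]
    refine Finset.sum_nbij' (fun t => r * t * r⁻¹) (fun t => r⁻¹ * t * r) ?_ ?_ ?_ ?_ ?_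
    · intro t ht
      rw [hmem] at ht ⊢
      obtain ⟨h, rfl⟩ := ht
      exact ⟨r * h, by group⟩
    · intro t ht
      rw [hmem] at ht ⊢
      obtain ⟨h, rfl⟩ := ht
      exact ⟨r⁻¹ * h, by group⟩
    · intro t _
      group
    · intro t _
      group
    · intro t _
      rw [← lam_mul, ← lam_mul]
      congr 1
      group
  have h2 : ∀ g, F.R g * T = T * F.R g := fun g => F.R_comm g hTm
  obtain ⟨z, hz⟩ := irred (F := F) hG h1 h2
  have h3 := congrArg (fun f : HS L => f s) (hz (dl 1))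
  have h4 : T (dl 1) s = 1 := by
    rw [hT, sum_apply]
    have h5 : (∑ t ∈ C, lam t (dl 1) : HS L) s = ∑ t ∈ C, (lam t (dl 1) : HS L) s := by
      rw [← inner_dl s, inner_sum]
      simp only [inner_dl]
    rw [h5, Finset.sum_eq_single s]
    · rw [lam_dl, mul_one, dl_self]
    · intro t _ hts
      rw [lam_dl, mul_one, dl_ne (Ne.symm hts)]
    · intro h6
      exact absurd ((hmem s).mpr ⟨1, by group⟩) h6
  change T (dl 1) s = z * dl 1 s at h3
  rw [h4, dl_ne hs, mul_zero] at h3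
  exact one_ne_zero h3

/-- The basic vector. -/
theorem exists_b (F : Fr G L) (hG : ICC G) {c₀ : ℝ} (hF : Hgt F c₀) (hc₀ : 0 < c₀) :
    ∃ b : HS L, ‖b‖ = 1 ∧ ∀ (s s' : L) (g g' : G),
      ⟪lam s (F.R g b), lam s' (F.R g' b)⟫_ℂ = 0 ∨
        ∃ z : ℂ, lam s' (F.R g' b) = z • lam s (F.R g b) := by
  obtain ⟨V, Y, P, hT, hinv⟩ := exists_limit hF
  obtain ⟨c, k, hK⟩ := exists_krn hG hT hc₀ hinv
  obtain ⟨b, hb, hPb⟩ := hK.exists_rank_one
  have hn : ∀ (s : L) (g : G), ‖lam s (F.R g b)‖ = 1 := by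
    intro s g
    rw [norm_apply_of_isometry (T := lam s) (by rw [star_lam, lam_inv_mul]), F.norm_R, hb]
  have hP : ∀ (s : L) (g : G), P (tens (lam s (F.R g b)) (kc (lam s (F.R g b)))) =
      (c : ℂ) • tens (lam s (F.R g b)) (kc (lam s (F.R g b))) := by
    intro s g
    have h1 : tens (lam s (F.R g b)) (kc (lam s (F.R g b))) =
        lam (s, s) (F.R2 g (tens b (kc b))) := by
      rw [F.R2_tens, lam_prod, tp_tens]
      congr 1
    have h2 : P (lam (s, s) (F.R2 g (tens b (kc b)))) = lam (s, s) (F.R2 g (P (tens b (kc b)))) := by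
      rw [← mul_apply_eq_comp P, P_lam hT, mul_apply_eq_comp, ← mul_apply_eq_comp P,
        P_R2 hT hinv, mul_apply_eq_comp]
    rw [h1, h2, hPb, map_smul, map_smul]
  exact ⟨b, hb, fun s s' g g' => hK.par (hn s g) (hn s' g') (hP s g) (hP s' g')⟩

section Final

variable (F : Fr G L) (b : HS L)

/-- The elements of `L` which appear in the stabilizer of the line of `b`. -/
def stabL : Subgroup L where
  carrier := {s | ∃ (g : G) (z : ℂ), z ≠ 0 ∧ lam s (F.R g b) = z • b}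
  one_mem' := ⟨1, 1, one_ne_zero, by rw [lam_one, F.R_one]; simp⟩
  mul_mem' := by
    rintro s s' ⟨g, z, hz, h⟩ ⟨g', z', hz', h'⟩
    refine ⟨g * g', z * z', mul_ne_zero hz hz', ?_⟩
    rw [lam_mul, F.R_mul, mul_apply_eq_comp, mul_apply_eq_comp,
      ← F.R_comm_apply g (lam_mem_top s'), h', map_smul, map_smul, h, smul_smul, mul_comm]
  inv_mem' := by
    rintro s ⟨g, z, hz, h⟩
    refine ⟨g⁻¹, z⁻¹, inv_ne_zero hz, ?_⟩
    have h1 : b = z • lam s⁻¹ (F.R g⁻¹ b) := by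
      have h2 := congrArg (fun f => lam s⁻¹ (F.R g⁻¹ f)) h
      simp only [map_smul] at h2
      rw [← h2, F.R_comm_apply g⁻¹ (lam_mem_top s), F.R_inv_apply, ← mul_apply_eq_comp,
        lam_inv_mul]
      rfl
    conv_rhs => rw [h1]
    rw [smul_smul, inv_mul_cancel₀ hz, one_smul]

variable {F b}

theorem finite_R (hb : ‖b‖ = 1) : {g : G | ∃ z : ℂ, z ≠ 0 ∧ F.R g b = z • b}.Finite := by
  by_contra hinf
  have hinf' : {g : G | ∃ z : ℂ, z ≠ 0 ∧ F.R g b = z • b}.Infinite := hinf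
  have h1 : ∃ h, ⟪F.x h, b⟫_ℂ ≠ 0 := by
    by_contra h2
    push Not at h2
    have := F.total b h2
    rw [this, norm_zero] at hb
    exact zero_ne_one hb
  obtain ⟨h, hh⟩ := h1
  have h2 : ∀ g ∈ {g : G | ∃ z : ℂ, z ≠ 0 ∧ F.R g b = z • b},
      ‖⟪F.x (h * g), b⟫_ℂ‖ = ‖⟪F.x h, b⟫_ℂ‖ := by
    rintro g ⟨z, _, hz⟩
    have h3 : ‖z‖ = 1 := by
      have h4 := congrArg norm hz
      rw [F.norm_R, norm_smul, hb, mul_one] at h4
      exact h4.symm
    have h4 : ⟪F.x h, F.R g b⟫_ℂ = ⟪F.x (h * g), b⟫_ℂ := by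
      have h5 : ⟪F.x h, F.R g b⟫_ℂ = ⟪F.R g⁻¹ (F.x h), b⟫_ℂ := by
        rw [F.inner_R_left, inv_inv]
      rw [h5, F.R_x, inv_inv]
    rw [← h4, hz, inner_smul_right, norm_mul, h3, one_mul]
  have h3 : ((fun g => h * g) '' {g : G | ∃ z : ℂ, z ≠ 0 ∧ F.R g b = z • b}).Infinite :=
    hinf'.image ((mul_right_injective h).injOn)
  have h4 := Fr.eq_zero_of_infinite (φ := fun g => ((‖⟪F.x g, b⟫_ℂ‖ : ℝ) : ℂ))
    (by
      simp only [Complex.norm_real, norm_norm]
      exact (F.parseval b).summable) h3 (c := ((‖⟪F.x h, b⟫_ℂ‖ : ℝ) : ℂ)) (by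
      rintro _ ⟨g, hg, rfl⟩
      simp only
      rw [h2 g hg])
  rw [Complex.ofReal_eq_zero, norm_eq_zero] at h4
  exact hh h4

theorem finite_lam (hb : ‖b‖ = 1) : {s : L | ∃ z : ℂ, z ≠ 0 ∧ lam s b = z • b}.Finite := by
  by_contra hinf
  have hinf' : {s : L | ∃ z : ℂ, z ≠ 0 ∧ lam s b = z • b}.Infinite := hinf
  have h1 : ∃ x, b x ≠ 0 := by
    by_contra h2
    push Not at h2
    have : b = 0 := ext_apply h2
    rw [this, norm_zero] at hb
    exact zero_ne_one hb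
  obtain ⟨x, hx⟩ := h1
  have h2 : ∀ s ∈ {s : L | ∃ z : ℂ, z ≠ 0 ∧ lam s b = z • b}, ‖b (s⁻¹ * x)‖ = ‖b x‖ := by
    rintro s ⟨z, _, hz⟩
    have h3 : ‖z‖ = 1 := by
      have h4 := congrArg norm hz
      rw [norm_apply_of_isometry (T := lam s) (by rw [star_lam, lam_inv_mul]), norm_smul, hb,
        mul_one] at h4
      exact h4.symm
    have h4 : lam s b x = z * b x := by
      rw [hz]
      rfl
    rw [lam_apply] at h4
    rw [h4, norm_mul, h3, one_mul]
  have h3 : ((fun s => s⁻¹ * x) '' {s : L | ∃ z : ℂ, z ≠ 0 ∧ lam s b = z • b}).Infinite :=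
    hinf'.image (fun s _ t _ hst => inv_injective (mul_left_injective x hst))
  have h4 := Fr.eq_zero_of_infinite (φ := fun y => ((‖b y‖ : ℝ) : ℂ))
    (by
      simp only [Complex.norm_real, norm_norm]
      exact hs_summable b) h3 (c := ((‖b x‖ : ℝ) : ℂ)) (by
      rintro _ ⟨s, hs, rfl⟩
      simp only
      rw [h2 s hs])
  rw [Complex.ofReal_eq_zero, norm_eq_zero] at h4
  exact hx h4

/-- The subgroup `stabL` has finite index. -/
theorem stabL_index (hb : ‖b‖ = 1) (hpar : ∀ (s s' : L) (g g' : G),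
      ⟪lam s (F.R g b), lam s' (F.R g' b)⟫_ℂ = 0 ∨
        ∃ z : ℂ, lam s' (F.R g' b) = z • lam s (F.R g b)) : Finite (L ⧸ stabL F b) := by
  classical
  by_contra hinf
  rw [not_finite_iff_infinite] at hinf
  set N := (finite_R (F := F) hb).toFinset with hN
  have hmemN : ∀ g, g ∈ N ↔ ∃ z : ℂ, z ≠ 0 ∧ F.R g b = z • b := by
    intro g
    rw [hN, Set.Finite.mem_toFinset, Set.mem_ofPred_eq]
  obtain ⟨Q, hQ⟩ := Infinite.exists_subset_card_eq (L ⧸ stabL F b) (N.card + 1)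
  have hn : ∀ (s : L) (g : G), ‖lam s (F.R g b)‖ = 1 := by
    intro s g
    rw [norm_apply_of_isometry (T := lam s) (by rw [star_lam, lam_inv_mul]), F.norm_R, hb]
  -- the key inequality
  have key : ∀ S : Finset G,
      ∑ g ∈ S, ∑ q ∈ Q, ‖⟪F.x g, lam q.out b⟫_ℂ‖ ^ 2 ≤ N.card := by
    intro S
    set u : (L ⧸ stabL F b) × G → HS L := fun p => lam p.1.out (F.R p.2 b) with hu
    have hcorr : ∀ i ∈ Q ×ˢ S, ∑ j ∈ Q ×ˢ S, ‖⟪u i, u j⟫_ℂ‖ ≤ (N.card : ℝ) := by
      rintro ⟨q, g⟩ _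
      have h1 : ∀ j ∈ Q ×ˢ S, ‖⟪u (q, g), u j⟫_ℂ‖ ≤
          if j ∈ N.image (fun n => (q, g * n)) then 1 else 0 := by
        rintro ⟨q', g'⟩ _
        split_ifs with h2
        · refine (norm_inner_le_norm _ _).trans ?_
          rw [hu]
          simp only
          rw [hn, hn, one_mul]
        · rcases hpar q.out q'.out g g' with h3 | ⟨z, hz⟩
          · rw [hu]
            simp only
            rw [h3, norm_zero]
          · exfalso
            apply h2
            have hz0 : z ≠ 0 := by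
              rintro rfl
              have h4 := hn q'.out g'
              rw [hz, zero_smul, norm_zero] at h4
              exact zero_ne_one h4
            have h4 : lam (q.out⁻¹ * q'.out) (F.R (g⁻¹ * g') b) = z • b := by
              rw [lam_mul, F.R_mul, mul_apply_eq_comp, mul_apply_eq_comp,
                ← F.R_comm_apply g⁻¹ (lam_mem_top q'.out), hz, map_smul, map_smul,
                F.R_comm_apply g⁻¹ (lam_mem_top q.out), F.R_inv_apply, ← mul_apply_eq_comp,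
                lam_inv_mul]
              rfl
            have h5 : q.out⁻¹ * q'.out ∈ stabL F b := ⟨g⁻¹ * g', z, hz0, h4⟩
            have h6 : q = q' := by
              rw [← Quotient.out_eq q, ← Quotient.out_eq q']
              exact QuotientGroup.eq.mpr h5
            subst h6
            rw [inv_mul_cancel, lam_one] at h4
            rw [Finset.mem_image]
            refine ⟨g⁻¹ * g', (hmemN _).mpr ⟨z, hz0, h4⟩, ?_⟩
            rw [mul_inv_cancel_left]
      refine (Finset.sum_le_sum h1).trans ?_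
      rw [← Finset.sum_filter]
      rw [Finset.sum_const, nsmul_eq_mul, mul_one]
      have h2 : (Finset.filter (fun j => j ∈ N.image (fun n => (q, g * n))) (Q ×ˢ S)).card ≤
          N.card := by
        refine (Finset.card_le_card ?_).trans (Finset.card_image_le (s := N)
          (f := fun n => (q, g * n)))
        intro j hj
        exact (Finset.mem_filter.mp hj).2
      exact_mod_cast h2
    have h1 := bessel_bound (Q ×ˢ S) u (dl 1) (Nat.cast_nonneg _) hcorr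
    rw [norm_dl, one_pow, mul_one, Finset.sum_product_right] at h1
    refine le_trans (le_of_eq ?_) h1
    refine Finset.sum_congr rfl fun g _ => Finset.sum_congr rfl fun q _ => ?_
    congr 1
    rw [hu]
    simp only
    rw [← F.R_comm_apply g (lam_mem_top q.out), F.inner_R_left, F.R_dl, inv_inv,
      ← inner_conj_symm, RCLike.norm_conj]
  have hsum : HasSum (fun g => ∑ q ∈ Q, ‖⟪F.x g, lam q.out b⟫_ℂ‖ ^ 2) ((N.card + 1 : ℕ) : ℝ) := by
    have h1 : HasSum (fun g => ∑ q ∈ Q, ‖⟪F.x g, lam q.out b⟫_ℂ‖ ^ 2)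
        (∑ q ∈ Q, ‖lam q.out b‖ ^ 2) := hasSum_sum fun q _ => F.parseval _
    have h2 : ∑ q ∈ Q, ‖lam q.out b‖ ^ 2 = ((N.card + 1 : ℕ) : ℝ) := by
      have h3 : ∀ q ∈ Q, ‖lam q.out b‖ ^ 2 = 1 := by
        intro q _
        rw [norm_apply_of_isometry (T := lam q.out) (by rw [star_lam, lam_inv_mul]), hb, one_pow]
      rw [Finset.sum_congr rfl h3, Finset.sum_const, hQ, nsmul_eq_mul, mul_one]
    rwa [h2] at h1
  have h1 := hasSum_le_of_sum_le hsum key
  push_cast at h1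
  linarith

/-- The vector `b` has trivial stabilizer in `L`. -/
theorem stab_trivial (hL : ICC L) (hb : ‖b‖ = 1) (hfin : Finite (L ⧸ stabL F b)) {s : L} {z : ℂ}
    (hz : z ≠ 0) (hs : lam s b = z • b) : s = 1 := by
  by_contra hs1
  apply hL s hs1
  have := hfin
  set N := {s : L | ∃ z : ℂ, z ≠ 0 ∧ lam s b = z • b} with hN
  have hNf : N.Finite := finite_lam hb
  have h1 : (Set.range fun h => h * s * h⁻¹) ⊆
      (fun p : (L ⧸ stabL F b) × L => p.1.out * p.2 * p.1.out⁻¹) '' (Set.univ ×ˢ N) := by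
    rintro _ ⟨t, rfl⟩
    set q : L ⧸ stabL F b := (t : L ⧸ stabL F b) with hq
    have h2 : q.out⁻¹ * t ∈ stabL F b := by
      apply QuotientGroup.eq.mp
      rw [QuotientGroup.out_eq']
    obtain ⟨g, y, hy, hg⟩ := h2
    set h := q.out⁻¹ * t with hh
    refine ⟨(q, h * s * h⁻¹), ⟨trivial, z, hz, ?_⟩, ?_⟩
    · have h3 : F.R g b = y • lam h⁻¹ b := by
        have h4 := congrArg (fun f => lam h⁻¹ f) hg
        simp only [map_smul] at h4
        rw [← h4, ← mul_apply_eq_comp, lam_inv_mul]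
        rfl
      have h4 : y • lam (h * s * h⁻¹) b = y • z • b := by
        rw [lam_mul, lam_mul, mul_apply_eq_comp, mul_apply_eq_comp, ← map_smul, ← map_smul, ← h3,
          ← F.R_comm_apply g (lam_mem_top s), hs, map_smul, map_smul, hg, smul_comm]
      exact smul_right_injective (HS L) hy h4
    · simp only [hh]
      group
  exact (((Set.finite_univ.prod hNf).image _).subset h1)

/-- The main theorem on frames with height bounded from below. -/
theorem frame_main (F : Fr G L) (hG : ICC G) {c₀ : ℝ} (hF : Hgt F c₀) (hc₀ : 0 < c₀) :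
    ∃ w ∈ vN (⊤ : Subgroup L), star w * w = 1 ∧ w * star w = 1 ∧
      ∀ g, ∃ (z : ℂ) (s : L), F.X g = z • (star w * lam s * w) := by
  classical
  obtain ⟨b, hb, hpar⟩ := exists_b F hG hF hc₀
  have hL := icc_of_frame F hG
  have hfin := stabL_index hb hpar
  have hn : ∀ (s : L) (g : G), ‖lam s (F.R g b)‖ = 1 := by
    intro s g
    rw [norm_apply_of_isometry (T := lam s) (by rw [star_lam, lam_inv_mul]), F.norm_R, hb]
  have hR1 : F.R 1 b = b := by
    rw [F.R_one]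
    rfl
  have hns : ∀ s, ‖lam s b‖ = 1 := by
    intro s
    have := hn s 1
    rwa [hR1] at this
  have horth : Orthonormal ℂ fun s => lam s b := by
    refine ⟨hns, ?_⟩
    intro s s' hss
    rcases hpar s s' 1 1 with h1 | ⟨z, hz⟩
    · rw [hR1] at h1
      exact h1
    · exfalso
      rw [hR1] at hz
      have hz0 : z ≠ 0 := by
        rintro rfl
        have h4 := hns s'
        rw [hz, zero_smul, norm_zero] at h4
        exact zero_ne_one h4
      have h1 : lam (s⁻¹ * s') b = z • b := by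
        rw [lam_mul, mul_apply_eq_comp, hz, map_smul, ← mul_apply_eq_comp, lam_inv_mul]
        rfl
      have h2 := stab_trivial hL hb hfin hz0 h1
      exact hss (inv_mul_eq_one.mp h2)
  -- the isometry
  set W₀ : HS L →ₗᵢ[ℂ] HS L := horth.orthogonalFamily.linearIsometry with hW₀
  set W : BH L := W₀.toContinuousLinearMap with hW
  have hWdl : ∀ s, W (dl s) = lam s b := by
    intro s
    change W₀ (dl s) = _
    unfold dl
    rw [hW₀, OrthogonalFamily.linearIsometry_apply_single]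
    change (1 : ℂ) • lam s b = _
    rw [one_smul]
  have hWlam : ∀ s, lam s * W = W * lam s := by
    intro s
    apply ext_dl
    intro t
    rw [mul_apply_eq_comp, mul_apply_eq_comp, hWdl, lam_dl, hWdl, lam_mul, mul_apply_eq_comp]
  have hWW : ∀ f, (star W) (W f) = f := by
    intro f
    apply ext_inner_left ℂ
    intro g
    rw [ContinuousLinearMap.star_eq_adjoint, ContinuousLinearMap.adjoint_inner_right]
    exact W₀.inner_map_map g f
  have hWW1 : star W * W = 1 := ContinuousLinearMap.ext hWW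
  set w₀ : BH L := cn (Equiv.inv L) W with hw₀
  have hw₀m : w₀ ∈ vN (⊤ : Subgroup L) := by
    apply mem_top_of_commute
    intro g
    rw [← cn_inv_lam, hw₀, ← cn_mul inv_invol, ← cn_mul inv_invol, hWlam]
  have hw₀1 : star w₀ * w₀ = 1 := by
    rw [hw₀, cn_star inv_invol, ← cn_mul inv_invol, hWW1, cn_one inv_invol]
  have hw₀2 : w₀ * star w₀ = 1 := by
    apply ContinuousLinearMap.ext
    intro f
    have h1 := star_comm_of_scalar hw₀m (z := 1) (by
      intro f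
      rw [← mul_apply_eq_comp, hw₀1]
      simp) f
    rw [mul_apply_eq_comp, h1]
    simp
  have hWW2 : W * star W = 1 := by
    have h1 : cn (Equiv.inv L) (w₀ * star w₀) = W * star W := by
      rw [cn_mul inv_invol, hw₀, cn_star inv_invol, cn_cn inv_invol, cn_cn inv_invol]
    rw [← h1, hw₀2, cn_one inv_invol]
  have hwb : (star w₀) (dl 1) = b := by
    rw [← kj_inv_apply_one hw₀m, hw₀, cn_apply, kj_inv_dl, inv_one, hWdl, lam_one,
      kj_kj inv_invol]
    rfl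
  refine ⟨star w₀, star_mem hw₀m, by rw [star_star]; exact hw₀2, by rw [star_star]; exact hw₀1, ?_⟩
  intro g
  have h1 : ∃ s, ⟪lam s b, F.R g⁻¹ b⟫_ℂ ≠ 0 := by
    by_contra h2
    push Not at h2
    have h3 : (star W) (F.R g⁻¹ b) = 0 := by
      apply ext_apply
      intro s
      rw [← inner_dl s, ContinuousLinearMap.star_eq_adjoint,
        ContinuousLinearMap.adjoint_inner_right, hWdl, h2]
      rfl
    have h4 : F.R g⁻¹ b = 0 := by
      have h5 := congrArg (fun S : BH L => S (F.R g⁻¹ b)) hWW2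
      change W ((star W) (F.R g⁻¹ b)) = F.R g⁻¹ b at h5
      rw [← h5, h3, map_zero]
    have h5 := F.norm_R g⁻¹ b
    rw [h4, hb, norm_zero] at h5
    exact zero_ne_one h5
  obtain ⟨s, hs⟩ := h1
  have h2 : ∃ z : ℂ, F.R g⁻¹ b = z • lam s b := by
    rcases hpar s 1 1 g⁻¹ with h3 | ⟨z, hz⟩
    · rw [hR1, lam_one] at h3
      exact absurd h3 hs
    · rw [hR1, lam_one] at hz
      exact ⟨z, hz⟩
  obtain ⟨z, hz⟩ := h2
  refine ⟨z, s, ?_⟩
  rw [star_star]
  have hwm := star_mem hw₀m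
  have h3 : star w₀ * F.X g = z • (lam s * star w₀) := by
    have hm1 : star w₀ * F.X g ∈ vN (⊤ : Subgroup L) := mul_mem hwm (F.mem g)
    have hm2 : z • (lam s * star w₀) ∈ vN (⊤ : Subgroup L) :=
      (vN (⊤ : Subgroup L)).smul_mem (mul_mem (lam_mem_top s) hwm) _
    apply eq_of_apply_one hm1 hm2
    intro x
    rw [mul_apply_eq_comp, smul_apply, mul_apply_eq_comp, hwb, ← hz, ← hwb]
    have h4 := F.R_dl g⁻¹
    rw [inv_inv] at h4
    rw [F.R_comm_apply g⁻¹ hwm, h4]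
    rfl
  calc F.X g = (w₀ * star w₀) * F.X g := by rw [hw₀2, one_mul]
    _ = w₀ * (star w₀ * F.X g) := by rw [mul_assoc]
    _ = z • (w₀ * lam s * star w₀) := by
        rw [h3, mul_smul_comm, mul_assoc]

end Final

end Pool.Agent.Helper66.GV
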