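import Pool.Agent.Helper66.GV.Basic

/-!
# Heisenberg triples of subgroups and group von Neumann algebras
-/

open scoped lp ENNReal InnerProductSpace

namespace Pool.Agent.Helper66.GV

variable {G : Type*} [Group G]

/-- `A`, `B`, `N` is a Heisenberg triple of subgroups: the commutators of elements of `A` and `B`
lie in `N`, they are injective functions of each of the two arguments (the other one being
nontrivial), and modulo `N` there are no relations `a' b' ≡ b a`, except for the trivial ones.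
The standard example is given by the root subgroups `E_ij`, `E_jk`, `E_ik`. -/
structure Triple (A B N : Subgroup G) : Prop where
  mem : ∀ a ∈ A, ∀ b ∈ B, a⁻¹ * b⁻¹ * a * b ∈ N
  sep : ∀ a ∈ A, ∀ a' ∈ A, ∀ b ∈ B, ∀ b' ∈ B, a'⁻¹ * b'⁻¹ * a * b ∈ N → a = a' ∧ b = b'
  injL : ∀ a ∈ A, ∀ a' ∈ A, ∀ b ∈ B, b ≠ 1 →
    a⁻¹ * b⁻¹ * a * b = a'⁻¹ * b⁻¹ * a' * b → a = a'
  injR : ∀ a ∈ A, ∀ b ∈ B, ∀ b' ∈ B, a ≠ 1 →
    a⁻¹ * b⁻¹ * a * b = a⁻¹ * b'⁻¹ * a * b' → b = b'

variable {A B N : Subgroup G}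

theorem Triple.inter (h : Triple A B N) {x : G} (hA : x ∈ A) (hB : x ∈ B) : x = 1 := by
  have := h.sep x hA 1 A.one_mem x⁻¹ (B.inv_mem hB) 1 B.one_mem (by simp)
  exact this.1

/-- The coefficients of a product. -/
theorem mul_coeff {H K : Subgroup G} (hHK : ∀ x, x ∈ H → x ∈ K → x = 1) {S T : BH G}
    (hS : S ∈ vN H) (hT : T ∈ vN K) {h k : G} (hh : h ∈ H) (hk : k ∈ K) :
    (S * T) (dl 1) (h * k) = S (dl 1) h * T (dl 1) k := by
  have h1 := mul_apply_one hS hT (h * k)
  have h2 : HasSum (fun y => S (dl 1) (h * k * y⁻¹) * T (dl 1) y)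
      (S (dl 1) (h * k * k⁻¹) * T (dl 1) k) := by
    apply hasSum_single
    intro y hy
    by_cases hyK : y ∈ K
    · have : h * k * y⁻¹ ∉ H := by
        intro hH
        apply hy
        have h3 : k * y⁻¹ ∈ H := by
          have := H.mul_mem (H.inv_mem hh) hH
          simpa [mul_assoc] using this
        have h4 := hHK _ h3 (K.mul_mem hk (K.inv_mem hyK))
        rw [mul_inv_eq_one] at h4
        exact h4.symm
      rw [apply_one_eq_zero hS this, zero_mul]
    · rw [apply_one_eq_zero hT hyK, mul_zero]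
  rw [h1.unique h2, mul_inv_cancel_right]

theorem mul_coeff_zero {H K : Subgroup G} {S T : BH G}
    (hS : S ∈ vN H) (hT : T ∈ vN K) {x : G} (hx : ¬ ∃ h ∈ H, ∃ k ∈ K, x = h * k) :
    (S * T) (dl 1) x = 0 := by
  have h1 := mul_apply_one hS hT x
  have h2 : (fun y => S (dl 1) (x * y⁻¹) * T (dl 1) y) = fun _ => 0 := by
    funext y
    by_cases hyK : y ∈ K
    · have : x * y⁻¹ ∉ H := by
        intro hH
        exact hx ⟨x * y⁻¹, hH, y, hyK, by simp⟩
      rw [apply_one_eq_zero hS this, zero_mul]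
    · rw [apply_one_eq_zero hT hyK, mul_zero]
  rw [h2] at h1
  exact h1.unique hasSum_zero

open Classical in
/-- The commutator `a⁻¹ b⁻¹ a b` as a function of the product `a b`. -/
noncomputable def kap (A B : Subgroup G) (y : G) : G :=
  if h : ∃ a ∈ A, ∃ b ∈ B, y = a * b then
    h.choose⁻¹ * h.choose_spec.2.choose⁻¹ * h.choose * h.choose_spec.2.choose else 1

theorem kap_mul (h : Triple A B N) {a b : G} (ha : a ∈ A) (hb : b ∈ B) :
    kap A B (a * b) = a⁻¹ * b⁻¹ * a * b := by
  have hex : ∃ a' ∈ A, ∃ b' ∈ B, a * b = a' * b' := ⟨a, ha, b, hb, rfl⟩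
  unfold kap
  rw [dif_pos hex]
  have h1 : hex.choose ∈ A := hex.choose_spec.1
  have h2 : hex.choose_spec.2.choose ∈ B := hex.choose_spec.2.choose_spec.1
  have h3 : a * b = hex.choose * hex.choose_spec.2.choose := hex.choose_spec.2.choose_spec.2
  generalize hex.choose_spec.2.choose = b' at *
  generalize hex.choose = a' at *
  have h4 : a'⁻¹ * a = b' * b⁻¹ := by
    rw [inv_mul_eq_iff_eq_mul, ← mul_assoc, ← h3, mul_inv_cancel_right]
  have h5 : a'⁻¹ * a = 1 :=
    h.inter (A.mul_mem (A.inv_mem h1) ha) (h4 ▸ B.mul_mem h2 (B.inv_mem hb))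
  have h6 : a = a' := by rwa [inv_mul_eq_one, eq_comm] at h5
  rw [h5] at h4
  have h7 : b' = b := by rwa [eq_comm, mul_inv_eq_one] at h4
  rw [h6, h7]

theorem kap_mem (h : Triple A B N) (y : G) : kap A B y ∈ N := by
  by_cases hy : ∃ a ∈ A, ∃ b ∈ B, y = a * b
  · obtain ⟨a, ha, b, hb, rfl⟩ := hy
    rw [kap_mul h ha hb]
    exact h.mem a ha b hb
  · unfold kap
    rw [dif_neg hy]
    exact N.one_mem

open Classical in
/-- The coefficients of the commutator of elements of `vN A` and `vN B` in `N` are sums of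
squares. -/
theorem comm_coeff (h : Triple A B N) {P Q : BH G} (hP : P ∈ vN A) (hQ : Q ∈ vN B) {w : G}
    (hw : w ∈ N) :
    HasSum (fun y => if kap A B y = w then ((‖(P * Q) (dl 1) y‖ ^ 2 : ℝ) : ℂ) else 0)
      ((star P * star Q * P * Q) (dl 1) w) := by
  have h1 : (star P * star Q * P * Q) (dl 1) w = ⟪(Q * P) (dl w), (P * Q) (dl 1)⟫_ℂ := by
    rw [← inner_dl w]
    simp only [ContinuousLinearMap.star_eq_adjoint, mul_apply_eq_comp,
      ContinuousLinearMap.adjoint_inner_right]
  rw [h1]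
  have h2 := lp.hasSum_inner (𝕜 := ℂ) ((Q * P) (dl w)) ((P * Q) (dl 1))
  have h3 : (fun y => if kap A B y = w then ((‖(P * Q) (dl 1) y‖ ^ 2 : ℝ) : ℂ) else 0) =
      fun y => ⟪((Q * P) (dl w)) y, ((P * Q) (dl 1)) y⟫_ℂ := by
    funext y
    have hPQ : Q * P ∈ vN (⊤ : Subgroup G) :=
      mul_mem (vN_mono le_top hQ) (vN_mono le_top hP)
    rw [apply_dl hPQ]
    by_cases hy : ∃ a ∈ A, ∃ b ∈ B, y = a * b
    · obtain ⟨a, ha, b, hb, rfl⟩ := hy
      rw [kap_mul h ha hb]
      by_cases hy' : ∃ b' ∈ B, ∃ a' ∈ A, a * b * w⁻¹ = b' * a'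
      · obtain ⟨b', hb', a', ha', h4⟩ := hy'
        have h5 : w = a'⁻¹ * b'⁻¹ * a * b := by
          have : w = (b' * a')⁻¹ * (a * b) := by rw [← h4]; group
          rw [this]; group
        obtain ⟨rfl, rfl⟩ := h.sep a ha a' ha' b hb b' hb' (h5 ▸ hw)
        rw [if_pos h5.symm, h4, mul_coeff (fun x hx hx' => h.inter hx' hx) hQ hP hb ha,
          mul_coeff (fun x hx hx' => h.inter hx hx') hP hQ ha hb]
        rw [RCLike.inner_apply, mul_comm (Q (dl 1) b), RCLike.mul_conj]
        push_cast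
        rfl
      · have h5 : a⁻¹ * b⁻¹ * a * b ≠ w := by
          rintro rfl
          apply hy'
          exact ⟨b, hb, a, ha, by group⟩
        rw [if_neg h5, mul_coeff_zero hQ hP hy']
        simp
    · rw [mul_coeff_zero hP hQ hy]
      simp
  rw [h3]
  exact h2

omit [Group G] in
theorem hasSum_sq {x : HS G} (hx : ‖x‖ = 1) : HasSum (fun y => ‖x y‖ ^ 2) 1 := by
  have h1 := lp.hasSum_norm (by norm_num : 0 < (2 : ℝ≥0∞).toReal) x
  rw [hx] at h1
  simpa using h1

omit [Group G] in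
theorem norm_apply_of_isometry {T : BH G} (hT : star T * T = 1) (x : HS G) : ‖T x‖ = ‖x‖ := by
  have h1 : ‖T x‖ ^ 2 = ‖x‖ ^ 2 := by
    have h2 : (⟪T x, T x⟫_ℂ : ℂ) = ⟪x, x⟫_ℂ := by
      rw [← ContinuousLinearMap.adjoint_inner_right, ← ContinuousLinearMap.star_eq_adjoint,
        ← mul_apply_eq_comp, hT]
      rfl
    rw [inner_self_eq_norm_sq_to_K, inner_self_eq_norm_sq_to_K] at h2
    exact_mod_cast h2
  exact (sq_eq_sq₀ (norm_nonneg _) (norm_nonneg _)).mp h1

theorem exists_ne_zero {T : BH G} (hT : star T * T = 1) : ∃ x, T (dl 1) x ≠ 0 := by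
  by_contra h1
  push Not at h1
  have h2 : T (dl 1) = 0 := ext_apply h1
  have h3 := norm_apply_of_isometry hT (dl 1)
  rw [h2, norm_zero, norm_dl] at h3
  exact zero_ne_one h3

/-- If the commutator of two unitaries in `vN A` and `vN B` lies in `vN N`, then the commutators
`a⁻¹ b⁻¹ a b` are the same for all `a`, `b` in their supports. -/
theorem kap_const (h : Triple A B N) {P Q : BH G} (hP : P ∈ vN A) (hQ : Q ∈ vN B)
    (hP1 : star P * P = 1) (hP2 : P * star P = 1) (hQ1 : star Q * Q = 1) (hQ2 : Q * star Q = 1)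
    (hc : star P * star Q * P * Q ∈ vN N) {y₁ y₂ : G} (h₁ : (P * Q) (dl 1) y₁ ≠ 0)
    (h₂ : (P * Q) (dl 1) y₂ ≠ 0) : kap A B y₁ = kap A B y₂ := by
  classical
  set m : G → ℝ := fun y => ‖(P * Q) (dl 1) y‖ ^ 2 with hm
  set c : BH G := star P * star Q * P * Q with hcdef
  have hm1 : HasSum m 1 := by
    apply hasSum_sq
    rw [norm_apply_of_isometry _ (dl 1), norm_dl]
    rw [star_mul, mul_assoc, ← mul_assoc (star P), hP1, one_mul, hQ1]
  have hc1 : HasSum (fun w => ‖c (dl 1) w‖ ^ 2) 1 := by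
    apply hasSum_sq
    rw [norm_apply_of_isometry _ (dl 1), norm_dl]
    rw [hcdef]
    simp only [star_mul, star_star]
    calc star Q * (star P * (Q * P)) * (star P * star Q * P * Q)
        = star Q * star P * Q * (P * star P) * star Q * P * Q := by noncomm_ring
      _ = star Q * star P * (Q * star Q) * P * Q := by rw [hP2]; noncomm_ring
      _ = star Q * (star P * P) * Q := by rw [hQ2]; noncomm_ring
      _ = 1 := by rw [hP1, mul_one, hQ1]
  set p : G → ℝ := fun w => ∑' y : (kap A B) ⁻¹' {w}, m y with hp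
  have hp1 : HasSum p 1 := hm1.tsum_fiberwise (kap A B)
  have hmn : ∀ y, 0 ≤ m y := fun y => by positivity
  have hpn : ∀ w, 0 ≤ p w := fun w => tsum_nonneg fun y => hmn _
  have hcp : ∀ w, ‖c (dl 1) w‖ = p w := by
    intro w
    by_cases hw : w ∈ N
    · have h3 := comm_coeff h hP hQ hw
      have h4 : HasSum (fun y => if kap A B y = w then m y else 0) (p w) := by
        rw [hp]
        have h5 : (fun y => if kap A B y = w then m y else 0) =
            (kap A B ⁻¹' {w}).indicator m := by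
          funext y
          simp [Set.indicator_apply]
        rw [h5]
        have h6 : Summable ((kap A B ⁻¹' {w}).indicator m) := hm1.summable.indicator _
        simp only
        rw [tsum_subtype]
        exact h6.hasSum
      have h7 : HasSum (fun y => if kap A B y = w then ((m y : ℝ) : ℂ) else 0) ((p w : ℝ) : ℂ) := by
        have h8 := Complex.hasSum_ofReal.mpr h4
        have h9 : (fun y => (((if kap A B y = w then m y else 0 : ℝ)) : ℂ)) =
            fun y => if kap A B y = w then ((m y : ℝ) : ℂ) else 0 := by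
          funext y
          split_ifs <;> simp
        rw [h9] at h8
        exact h8
      rw [h3.unique h7, Complex.norm_real, Real.norm_of_nonneg (hpn w)]
    · rw [apply_one_eq_zero hc hw, norm_zero]
      have h3 : kap A B ⁻¹' {w} = ∅ := by
        ext y
        simp only [Set.mem_preimage, Set.mem_singleton_iff, Set.mem_empty_iff_false, iff_false]
        rintro rfl
        exact hw (kap_mem h y)
      simp only [hp]
      rw [h3]
      simp
  have hple : ∀ w, p w ≤ 1 := fun w => le_hasSum hp1 w fun j _ => hpn j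
  have hsq : HasSum (fun w => p w - ‖c (dl 1) w‖ ^ 2) 0 := by
    have := hp1.sub hc1
    rwa [sub_self] at this
  have hsq0 : ∀ w, p w - ‖c (dl 1) w‖ ^ 2 = 0 := by
    have h3 : ∀ w, 0 ≤ p w - ‖c (dl 1) w‖ ^ 2 := by
      intro w
      rw [hcp]
      nlinarith [hpn w, hple w]
    exact fun w => congrFun ((hasSum_zero_iff_of_nonneg h3).mp hsq) w
  have h01 : ∀ w, p w ≠ 0 → p w = 1 := by
    intro w hw
    have h3 := hsq0 w
    rw [hcp] at h3
    have h4 : p w * (1 - p w) = 0 := by linarith [h3, sq (p w)]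
    rcases mul_eq_zero.mp h4 with h5 | h5
    · exact absurd h5 hw
    · linarith
  have hpos : ∀ y, (P * Q) (dl 1) y ≠ 0 → p (kap A B y) = 1 := by
    intro y hy
    apply h01
    have h3 : m y ≤ p (kap A B y) := by
      have h4 : Summable fun z : (kap A B ⁻¹' {kap A B y}) => m z :=
        hm1.summable.subtype _
      exact h4.le_tsum (⟨y, rfl⟩ : (kap A B ⁻¹' {kap A B y})) fun j _ => hmn _
    have h4 : 0 < m y := by
      rw [hm]
      simp only
      have := norm_pos_iff.mpr hy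
      positivity
    linarith
  by_contra hne
  have h3 := sum_le_hasSum {kap A B y₁, kap A B y₂} (fun j _ => hpn j) hp1
  rw [Finset.sum_pair hne, hpos y₁ h₁, hpos y₂ h₂] at h3
  linarith

/-- A unitary of `vN A` with trace zero is a multiple of some `λ_a`, if its commutator with a
unitary of `vN B` of trace zero lies in `vN N`. -/
theorem single_left (h : Triple A B N) {P Q : BH G} (hP : P ∈ vN A) (hQ : Q ∈ vN B)
    (hP1 : star P * P = 1) (hP2 : P * star P = 1) (hQ1 : star Q * Q = 1) (hQ2 : Q * star Q = 1)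
    (hc : star P * star Q * P * Q ∈ vN N) (hQ0 : Q (dl 1) 1 = 0) :
    ∃ a ∈ A, ∃ z : ℂ, P = z • lam a := by
  obtain ⟨a, ha⟩ := exists_ne_zero hP1
  obtain ⟨b, hb⟩ := exists_ne_zero hQ1
  have haA : a ∈ A := by
    by_contra h1
    exact ha (apply_one_eq_zero hP h1)
  have hbB : b ∈ B := by
    by_contra h1
    exact hb (apply_one_eq_zero hQ h1)
  have hb1 : b ≠ 1 := by
    rintro rfl
    exact hb hQ0
  have hi : ∀ x, x ∈ A → x ∈ B → x = 1 := fun x hx hx' => h.inter hx hx'
  have key : ∀ x, P (dl 1) x ≠ 0 → x = a := by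
    intro x hx
    have hxA : x ∈ A := by
      by_contra h1
      exact hx (apply_one_eq_zero hP h1)
    have h1 : (P * Q) (dl 1) (x * b) ≠ 0 := by
      rw [mul_coeff hi hP hQ hxA hbB]
      exact mul_ne_zero hx hb
    have h2 : (P * Q) (dl 1) (a * b) ≠ 0 := by
      rw [mul_coeff hi hP hQ haA hbB]
      exact mul_ne_zero ha hb
    have h3 := kap_const h hP hQ hP1 hP2 hQ1 hQ2 hc h1 h2
    rw [kap_mul h hxA hbB, kap_mul h haA hbB] at h3
    exact h.injL x hxA a haA b hbB hb1 h3
  refine ⟨a, haA, P (dl 1) a, ?_⟩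
  apply eq_of_apply_one hP ((vN A).smul_mem (lam_mem_vN haA) (P (dl 1) a))
  intro x
  have e : ((P (dl 1) a) • lam a) (dl 1) x = P (dl 1) a * dl a x := by
    change (P (dl 1) a • (lam a (dl 1))) x = _
    rw [lam_dl, mul_one]
    rfl
  rw [e]
  by_cases hx : x = a
  · rw [hx, dl_self, mul_one]
  · rw [dl_ne hx, mul_zero]
    by_contra h1
    exact hx (key x h1)

theorem single_right (h : Triple A B N) {P Q : BH G} (hP : P ∈ vN A) (hQ : Q ∈ vN B)
    (hP1 : star P * P = 1) (hP2 : P * star P = 1) (hQ1 : star Q * Q = 1) (hQ2 : Q * star Q = 1)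
    (hc : star P * star Q * P * Q ∈ vN N) (hP0 : P (dl 1) 1 = 0) :
    ∃ b ∈ B, ∃ z : ℂ, Q = z • lam b := by
  obtain ⟨a, ha⟩ := exists_ne_zero hP1
  obtain ⟨b, hb⟩ := exists_ne_zero hQ1
  have haA : a ∈ A := by
    by_contra h1
    exact ha (apply_one_eq_zero hP h1)
  have hbB : b ∈ B := by
    by_contra h1
    exact hb (apply_one_eq_zero hQ h1)
  have ha1 : a ≠ 1 := by
    rintro rfl
    exact ha hP0
  have hi : ∀ x, x ∈ A → x ∈ B → x = 1 := fun x hx hx' => h.inter hx hx'
  have key : ∀ x, Q (dl 1) x ≠ 0 → x = b := by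
    intro x hx
    have hxB : x ∈ B := by
      by_contra h1
      exact hx (apply_one_eq_zero hQ h1)
    have h1 : (P * Q) (dl 1) (a * x) ≠ 0 := by
      rw [mul_coeff hi hP hQ haA hxB]
      exact mul_ne_zero ha hx
    have h2 : (P * Q) (dl 1) (a * b) ≠ 0 := by
      rw [mul_coeff hi hP hQ haA hbB]
      exact mul_ne_zero ha hb
    have h3 := kap_const h hP hQ hP1 hP2 hQ1 hQ2 hc h1 h2
    rw [kap_mul h haA hxB, kap_mul h haA hbB] at h3
    exact h.injR a haA x hxB b hbB ha1 h3
  refine ⟨b, hbB, Q (dl 1) b, ?_⟩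
  apply eq_of_apply_one hQ ((vN B).smul_mem (lam_mem_vN hbB) (Q (dl 1) b))
  intro x
  have e : ((Q (dl 1) b) • lam b) (dl 1) x = Q (dl 1) b * dl b x := by
    change (Q (dl 1) b • (lam b (dl 1))) x = _
    rw [lam_dl, mul_one]
    rfl
  rw [e]
  by_cases hx : x = b
  · rw [hx, dl_self, mul_one]
  · rw [dl_ne hx, mul_zero]
    by_contra h1
    exact hx (key x h1)

end Pool.Agent.Helper66.GV
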