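import Pool.Agent.Helper66.GV.Final

/-!
# Heisenberg relations and almost finitely supported vectors
-/

open scoped lp ENNReal InnerProductSpace MatrixGroups Pointwise
open Filter Topology

namespace Pool.Agent.Helper66.GV

variable {G L : Type*} [Group G] [Group L] {F : Fr G L}

/-- Heisenberg relations transport almost finitely supported vectors to the centre. -/
theorem heis_mem {e d c : G} (hce : c * e = e * c)
    (hcomm : ∀ (m : ℤ) (k : ℕ), c ^ (m * k) = (e ^ m)⁻¹ * (d ^ k)⁻¹ * e ^ m * d ^ k) (k : ℕ) :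
    pj F (Subgroup.zpowers e : Set G) (F.X (d ^ (k + 1))⁻¹
      (pj F (Subgroup.zpowers e : Set G) (F.X (d ^ (k + 1)) (dl 1)))) ∈
        Kb F (Subgroup.zpowers c : Set G) := by
  set p := pj F (Subgroup.zpowers e : Set G) with hp
  have hpX : ∀ m : ℤ, F.X (e ^ m) * p = p * F.X (e ^ m) := by
    intro m
    apply pj_X_comm
    exact zpowers_comm rfl ⟨m, rfl⟩
  have hpXc : ∀ m : ℤ, F.X (c ^ m) * p = p * F.X (c ^ m) := by
    intro m
    apply pj_X_comm
    exact zpowers_comm hce ⟨m, rfl⟩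
  set N : ℕ := k + 1 with hN
  set f₁ : HS L := p (F.X (d ^ N) (dl 1)) with hf₁
  set ζ : HS L := p (F.X (d ^ N)⁻¹ f₁) with hζ
  have hf₁K : f₁ ∈ Kb F (Subgroup.zpowers e : Set G) := pj_mem _ _
  have hS₂ := AFs_X_single (F := F) (d ^ N)⁻¹ hf₁K norm_orb
  have hS₃ := AFs.mul (𝒯 := {T | ∃ m : ℤ, F.X (e ^ m) * p = T}) (B := ‖f₁‖) ?_ ?_ ?_ hS₂ ?_
  · -- the orbit of `ζ`
    have horb : ∀ m : ℤ, F.X (c ^ (m * N)) ζ = (F.X (e ^ (-m)) * p)
        (F.X (d ^ N)⁻¹ (F.X (e ^ m) f₁)) := by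
      intro m
      have h1 : ∀ a b : G, F.X a (F.X b f₁) = F.X (a * b) f₁ := fun a b => by
        rw [F.map_mul]
        rfl
      have h2 : F.X (c ^ (m * N)) (F.X (d ^ N)⁻¹ f₁) =
          F.X (e ^ (-m)) (F.X (d ^ N)⁻¹ (F.X (e ^ m) f₁)) := by
        rw [h1, h1, h1, hcomm, _root_.zpow_neg]
        congr 2
        group
      calc F.X (c ^ (m * N)) ζ = p (F.X (c ^ (m * N)) (F.X (d ^ N)⁻¹ f₁)) := by
            rw [hζ, ← mul_apply_eq_comp (F.X (c ^ (m * N))), hpXc, mul_apply_eq_comp]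
        _ = p (F.X (e ^ (-m)) (F.X (d ^ N)⁻¹ (F.X (e ^ m) f₁))) := by rw [h2]
        _ = _ := by rw [← mul_apply_eq_comp p, ← hpX]
    have h1 := AFs.biUnion (Finset.range N) (S := fun r => (fun f => F.X (c ^ r) f) ''
      {f | ∃ T ∈ {T | ∃ m : ℤ, F.X (e ^ m) * p = T}, ∃ g ∈ (fun f => F.X (d ^ N)⁻¹ f) ''
        Orb F (Subgroup.zpowers e : Set G) f₁, T g = f}) (fun r _ =>
        AFs_X_single (F := F) (c ^ r) hS₃ (B := ‖f₁‖) ?_)
    · refine AFs.mono h1 ?_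
      rintro _ ⟨_, ⟨m, rfl⟩, rfl⟩
      have hN0 : (N : ℤ) ≠ 0 := by
        rw [hN]
        positivity
      have hm := Int.emod_add_mul_ediv m N
      have hr0 := Int.emod_nonneg m hN0
      have hrN := Int.emod_lt_of_pos m (show (0 : ℤ) < N by rw [hN]; positivity)
      rw [Set.mem_iUnion₂]
      refine ⟨(m % N).toNat, ?_, F.X (c ^ ((m / N) * N)) ζ, ?_, ?_⟩
      · rw [Finset.mem_range]
        omega
      · refine ⟨F.X (e ^ (-(m / N))) * p, ⟨-(m / N), rfl⟩, _,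
          ⟨F.X (e ^ (m / N)) f₁, ⟨_, ⟨m / N, rfl⟩, rfl⟩, rfl⟩, (horb _).symm⟩
      · simp only
        rw [← mul_apply_eq_comp, ← F.map_mul]
        congr 2
        rw [← zpow_natCast, Int.toNat_of_nonneg hr0, ← _root_.zpow_add]
        congr 1
        rw [mul_comm (m / N)]
        exact hm
    · rintro _ ⟨_, ⟨m, rfl⟩, _, ⟨_, ⟨_, _, rfl⟩, rfl⟩, rfl⟩
      rw [mul_apply_eq_comp, F.norm_X]
      refine (pj_norm_le _ _).trans ?_
      rw [F.norm_X, F.norm_X]
  · rintro _ ⟨m, rfl⟩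
    exact mul_mem (F.mem _) (pj_vN _)
  · rintro _ ⟨m, rfl⟩ f
    rw [mul_apply_eq_comp, F.norm_X]
    exact pj_norm_le _ _
  · refine AFs.mono (pj_mem (F := F) (Subgroup.zpowers e : Set G) (dl 1)) ?_
    rintro _ ⟨_, ⟨m, rfl⟩, rfl⟩
    exact ⟨_, ⟨m, rfl⟩, rfl⟩
  · rintro _ ⟨_, ⟨_, _, rfl⟩, rfl⟩
    rw [F.norm_X, F.norm_X]

/-- If the projection of `e` does not vanish, then the projection of the centre of a Heisenberg
group containing `e` does not vanish. -/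
theorem pj_heis {e d c : G} (hce : c * e = e * c)
    (hcomm : ∀ (m : ℤ) (k : ℕ), c ^ (m * k) = (e ^ m)⁻¹ * (d ^ k)⁻¹ * e ^ m * d ^ k)
    (h0 : pj F (Subgroup.zpowers e : Set G) (dl 1) ≠ 0) :
    pj F (Subgroup.zpowers c : Set G) (dl 1) ≠ 0 := by
  classical
  set p := pj F (Subgroup.zpowers e : Set G) with hp
  set ξ : HS L := p (dl 1) with hξ
  have hpv : p ∈ vN (⊤ : Subgroup L) := pj_vN _
  -- the conjugates
  set T : ℕ → HS L := fun k => F.X (d ^ k)⁻¹ (F.R (d ^ k)⁻¹ ξ) with hT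
  have hTp : ∀ k, F.X (d ^ k)⁻¹ (p (F.X (d ^ k) (dl 1))) = T k := by
    intro k
    have h1 := conj_apply_one (F := F) hpv (d ^ k)⁻¹
    rw [inv_inv] at h1
    exact h1
  obtain ⟨k, hk⟩ : ∃ k, p (T (k + 1)) ≠ 0 := by
    by_contra hcon
    push Not at hcon
    -- inner products
    have hin : ∀ i j : ℕ, i < j → ⟪T i, T j⟫_ℂ = 0 := by
      intro i j hij
      obtain ⟨k, rfl⟩ := Nat.exists_eq_add_of_lt hij
      have h1 : T (i + k + 1) = F.X (d ^ i)⁻¹ (F.R (d ^ i)⁻¹ (T (k + 1))) := by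
        rw [hT]
        simp only
        have h2 : (d ^ (i + k + 1))⁻¹ = (d ^ i)⁻¹ * (d ^ (k + 1))⁻¹ := by
          rw [← mul_inv_rev, ← pow_add]
          congr 2
          omega
        rw [h2, F.map_mul, F.R_mul, mul_apply_eq_comp, mul_apply_eq_comp,
          F.R_comm_apply _ (F.mem _)]
      rw [h1, hT]
      simp only
      rw [F.inner_X_left, inv_inv, F.X_apply_inv, F.inner_R_left, inv_inv, F.R_apply_inv, hξ,
        pj_sa]
      have h2 := hcon k
      rw [hT] at h2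
      simp only at h2
      rw [h2, inner_zero_right]
    have hin' : ∀ i j : ℕ, i ≠ j → ⟪T i, T j⟫_ℂ = 0 := by
      intro i j hij
      rcases lt_or_gt_of_ne hij with h | h
      · exact hin i j h
      · rw [← inner_conj_symm, hin j i h, map_zero]
    have hnT : ∀ i, ‖T i‖ = ‖ξ‖ := by
      intro i
      rw [hT]
      simp only
      rw [F.norm_X, F.norm_R]
    have hT1 : ∀ i, ⟪T i, dl 1⟫_ℂ = ⟪ξ, dl 1⟫_ℂ := by
      intro i
      rw [hT]
      simp only
      rw [F.inner_X_left, inv_inv, F.inner_R_left, inv_inv]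
      congr 1
      have h1 : F.X (d ^ i) (dl 1) = F.x (d ^ i) := rfl
      rw [h1, F.R_x, mul_inv_cancel, F.x_one]
    have hξ0 : 0 < ‖ξ‖ := norm_pos_iff.mpr h0
    have hξ1 : ⟪ξ, dl 1⟫_ℂ = ((‖ξ‖ ^ 2 : ℝ) : ℂ) := by
      have h1 : ⟪ξ, dl 1⟫_ℂ = ⟪ξ, ξ⟫_ℂ := by
        conv_lhs => rw [hξ, ← pj_idem, pj_sa]
      rw [h1, inner_self_eq_norm_sq_to_K]
      push_cast
      rfl
    have hb : ∀ n : ℕ, (n : ℝ) * (‖ξ‖ ^ 2) ^ 2 ≤ ‖ξ‖ ^ 2 := by
      intro n
      have h1 := bessel_bound (Finset.range n) T (dl 1 : HS L) (K := ‖ξ‖ ^ 2) (by positivity) (by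
        intro i hi
        rw [Finset.sum_eq_single i]
        · rw [inner_self_eq_norm_sq_to_K, hnT]
          simp
        · intro j _ hj
          rw [hin' i j (Ne.symm hj), norm_zero]
        · intro h
          exact absurd hi h)
      have h2 : ∀ i ∈ Finset.range n, ‖⟪T i, dl 1⟫_ℂ‖ ^ 2 = (‖ξ‖ ^ 2) ^ 2 := by
        intro i _
        rw [hT1, hξ1, Complex.norm_real, Real.norm_of_nonneg (by positivity)]
      rw [Finset.sum_congr rfl h2, Finset.sum_const, Finset.card_range, nsmul_eq_mul, norm_dl,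
        one_pow, mul_one] at h1
      exact h1
    obtain ⟨n, hn⟩ := exists_nat_gt (1 / ‖ξ‖ ^ 2)
    have h1 := hb n
    have h2 : 0 < ‖ξ‖ ^ 2 := by positivity
    rw [div_lt_iff₀ h2] at hn
    nlinarith
  -- the vector in the image of the projection of `c`
  have h1 := heis_mem (F := F) hce hcomm k
  rw [← hp, hTp] at h1
  intro hc0
  have h3 : pj F (Subgroup.zpowers c : Set G) = 0 := by
    apply ext_dl
    intro s
    rw [dl_eq_rho, ← mul_apply_eq_comp, ← commute_rho (pj_vN _), mul_apply_eq_comp, hc0, map_zero]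
    rfl
  have h4 := pj_eq h1
  rw [h3] at h4
  exact hk h4.symm

end Pool.Agent.Helper66.GV
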