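import Pool.Agent.Helper66.GV.Fix

/-!
# The subspace of vectors with almost finitely supported orbits
-/

open scoped lp ENNReal InnerProductSpace
open Filter Topology

namespace Pool.Agent.Helper66.GV

variable {G L : Type*} [Group G] [Group L] (F : Fr G L)

/-- The orbit of a vector. -/
def Orb (𝒢 : Set G) (f : HS L) : Set (HS L) := {h | ∃ g ∈ 𝒢, F.X g f = h}

theorem norm_rho (s : L) (f : HS L) : ‖rho s f‖ = ‖f‖ := (reidx (Equiv.mulRight s⁻¹)).norm_map f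

/-- The vectors with almost finitely supported orbits. -/
def Kb (𝒢 : Set G) : Submodule ℂ (HS L) where
  carrier := {f | AFs (Orb F 𝒢 f)}
  add_mem' := by
    intro f f' hf hf'
    refine (AFs.add hf hf').mono ?_
    rintro _ ⟨g, hg, rfl⟩
    exact ⟨F.X g f, ⟨g, hg, rfl⟩, F.X g f', ⟨g, hg, rfl⟩, (map_add _ _ _).symm⟩
  zero_mem' := by
    refine (AFs.singleton (0 : HS L)).mono ?_
    rintro _ ⟨g, hg, rfl⟩
    exact map_zero _
  smul_mem' := by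
    intro c f hf
    refine (AFs.smul hf c).mono ?_
    rintro _ ⟨g, hg, rfl⟩
    exact ⟨F.X g f, ⟨g, hg, rfl⟩, (map_smul _ _ _).symm⟩

variable {F}

theorem mem_Kb {𝒢 : Set G} {f : HS L} : f ∈ Kb F 𝒢 ↔ AFs (Orb F 𝒢 f) := Iff.rfl

theorem Kb_closed (𝒢 : Set G) : IsClosed (Kb F 𝒢 : Set (HS L)) := by
  rw [← isSeqClosed_iff_isClosed]
  intro u f hu hf
  change AFs (Orb F 𝒢 f)
  apply AFs.of_approx
  intro ε hε
  rw [Metric.tendsto_atTop] at hf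
  obtain ⟨N, hN⟩ := hf ε hε
  have h1 := hN N le_rfl
  refine ⟨Orb F 𝒢 (u N), hu N, ?_⟩
  rintro _ ⟨g, hg, rfl⟩
  refine ⟨F.X g (u N), ⟨g, hg, rfl⟩, ?_⟩
  rw [← map_sub, F.norm_X, ← dist_eq_norm, dist_comm]
  exact h1.le

theorem Kb_rho {𝒢 : Set G} {f : HS L} (hf : f ∈ Kb F 𝒢) (s : L) : rho s f ∈ Kb F 𝒢 := by
  refine (AFs.rho_image hf s).mono ?_
  rintro _ ⟨g, hg, rfl⟩
  refine ⟨F.X g f, ⟨g, hg, rfl⟩, ?_⟩
  change rho s (F.X g f) = F.X g (rho s f)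
  rw [← mul_apply_eq_comp, commute_rho (F.mem g), mul_apply_eq_comp]

/-- Products of a set of group elements with an almost finitely supported set. -/
theorem AFs_X_mul {X : Set G} (hX : AFs (Orb F X (dl 1))) {S : Set (HS L)} (hS : AFs S) {B : ℝ}
    (hB : ∀ f ∈ S, ‖f‖ ≤ B) : AFs {f | ∃ g ∈ X, ∃ h ∈ S, F.X g h = f} := by
  have h1 := AFs.mul (𝒯 := {T | ∃ g ∈ X, F.X g = T}) (S := S) ?_ ?_ ?_ hS hB
  · refine h1.mono ?_
    rintro f ⟨g, hg, h, hh, rfl⟩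
    exact ⟨F.X g, ⟨g, hg, rfl⟩, h, hh, rfl⟩
  · rintro T ⟨g, _, rfl⟩
    exact F.mem g
  · rintro T ⟨g, _, rfl⟩ f
    exact (F.norm_X g f).le
  · refine AFs.mono hX ?_
    rintro f ⟨T, ⟨g, hg, rfl⟩, rfl⟩
    exact ⟨g, hg, rfl⟩

theorem AFs_X_single (c : G) {S : Set (HS L)} (hS : AFs S) {B : ℝ}
    (hB : ∀ f ∈ S, ‖f‖ ≤ B) : AFs ((fun f => F.X c f) '' S) := by
  refine (AFs_X_mul (F := F) (X := {c}) ?_ hS hB).mono ?_
  · refine (AFs.singleton (F.X c (dl 1))).mono ?_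
    rintro _ ⟨g, hg, rfl⟩
    rw [Set.mem_singleton_iff] at hg
    rw [hg]
    rfl
  · rintro _ ⟨f, hf, rfl⟩
    exact ⟨c, rfl, f, hf, rfl⟩

theorem norm_orb {𝒢 : Set G} {f : HS L} : ∀ h ∈ Orb F 𝒢 f, ‖h‖ ≤ ‖f‖ := by
  rintro _ ⟨g, _, rfl⟩
  exact (F.norm_X g f).le

theorem Kb_X {𝒢 : Set G} {c : G} (hc : ∀ g ∈ 𝒢, c * g = g * c) {f : HS L} (hf : f ∈ Kb F 𝒢) :
    F.X c f ∈ Kb F 𝒢 := by
  refine (AFs_X_single (F := F) c hf norm_orb).mono ?_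
  rintro _ ⟨g, hg, rfl⟩
  refine ⟨F.X g f, ⟨g, hg, rfl⟩, ?_⟩
  simp only
  rw [← mul_apply_eq_comp, ← F.map_mul, hc g hg, F.map_mul, mul_apply_eq_comp]

instance Kb_complete (𝒢 : Set G) : CompleteSpace (Kb F 𝒢) := (Kb_closed 𝒢).completeSpace_coe

variable (F)

/-- The projection on the subspace `Kb`. -/
noncomputable def pj (𝒢 : Set G) : BH L := (Kb F 𝒢).starProjection

variable {F}

theorem pj_mem (𝒢 : Set G) (f : HS L) : pj F 𝒢 f ∈ Kb F 𝒢 :=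
  Submodule.starProjection_apply_mem _ _

theorem pj_eq {𝒢 : Set G} {f : HS L} (hf : f ∈ Kb F 𝒢) : pj F 𝒢 f = f :=
  Submodule.starProjection_eq_self_iff.mpr hf

theorem pj_idem (𝒢 : Set G) (f : HS L) : pj F 𝒢 (pj F 𝒢 f) = pj F 𝒢 f := pj_eq (pj_mem 𝒢 f)

theorem pj_sa (𝒢 : Set G) (f h : HS L) : ⟪pj F 𝒢 f, h⟫_ℂ = ⟪f, pj F 𝒢 h⟫_ℂ :=
  Submodule.inner_starProjection_left_eq_right _ _ _

theorem pj_norm_le (𝒢 : Set G) (f : HS L) : ‖pj F 𝒢 f‖ ≤ ‖f‖ :=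
  Submodule.norm_starProjection_apply_le _ _

/-- The projection commutes with unitaries which preserve the subspace. -/
theorem pj_comm {𝒢 : Set G} {U U' : BH L} (hU : ∀ f h, ⟪U f, h⟫_ℂ = ⟪f, U' h⟫_ℂ)
    (h1 : ∀ f ∈ Kb F 𝒢, U f ∈ Kb F 𝒢) (h2 : ∀ f ∈ Kb F 𝒢, U' f ∈ Kb F 𝒢) :
    U * pj F 𝒢 = pj F 𝒢 * U := by
  apply ContinuousLinearMap.ext
  intro f
  rw [mul_apply_eq_comp, mul_apply_eq_comp]
  symm
  apply Submodule.eq_starProjection_of_mem_of_inner_eq_zero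
  · exact h1 _ (pj_mem 𝒢 f)
  · intro w hw
    rw [← map_sub, hU]
    exact Submodule.starProjection_inner_eq_zero f (U' w) (h2 w hw)

theorem inner_rho (s : L) (f h : HS L) : ⟪rho s f, h⟫_ℂ = ⟪f, rho s⁻¹ h⟫_ℂ := by
  have h1 : rho s (rho s⁻¹ h) = h := by
    apply ext_apply
    intro x
    rw [rho_apply, rho_apply]
    simp
  conv_lhs => rw [← h1]
  exact (reidx (Equiv.mulRight s⁻¹)).inner_map_map _ _

theorem pj_vN (𝒢 : Set G) : pj F 𝒢 ∈ vN (⊤ : Subgroup L) := by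
  apply mem_top_of_commute
  intro s
  exact pj_comm (inner_rho s) (fun f hf => Kb_rho hf s) (fun f hf => Kb_rho hf s⁻¹)

theorem pj_X_comm {𝒢 : Set G} {c : G} (hc : ∀ g ∈ 𝒢, c * g = g * c) :
    F.X c * pj F 𝒢 = pj F 𝒢 * F.X c := by
  refine pj_comm (U' := F.X c⁻¹) (F.inner_X_left c) (fun f hf => Kb_X hc hf) (fun f hf => ?_)
  refine Kb_X ?_ hf
  intro g hg
  rw [inv_mul_eq_iff_eq_mul, ← mul_assoc, eq_mul_inv_iff_mul_eq, hc g hg]

section Coeff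

/-- The coefficients of an operator with respect to the frame. -/
noncomputable def co (F : Fr G L) (T : BH L) (g : G) : ℂ := ⟪F.x g, T (dl 1)⟫_ℂ

/-- The coefficients of the conjugate of an operator. -/
theorem inner_x_conj (c : G) (g : G) (ζ : HS L) :
    ⟪F.x g, F.X c (F.R c ζ)⟫_ℂ = ⟪F.x (c⁻¹ * g * c), ζ⟫_ℂ := by
  have h2 : ⟪F.x g, F.X c (F.R c ζ)⟫_ℂ = ⟪F.R c⁻¹ (F.X c⁻¹ (F.x g)), ζ⟫_ℂ := by
    rw [F.inner_R_left, F.inner_X_left, inv_inv]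
  rw [h2, F.X_x, F.R_x, inv_inv]

theorem conj_apply_one {T : BH L} (hT : T ∈ vN (⊤ : Subgroup L)) (c : G) :
    F.X c (T (F.X c⁻¹ (dl 1))) = F.X c (F.R c (T (dl 1))) := by
  have h1 : F.X c⁻¹ (dl 1) = F.R c (dl 1) := by
    rw [F.R_dl]
    rfl
  rw [h1, F.R_comm_apply c hT]

theorem co_conj {T : BH L} (hT : T ∈ vN (⊤ : Subgroup L)) {c : G}
    (hc : F.X c * T = T * F.X c) (g : G) : co F T (c⁻¹ * g * c) = co F T g := by
  unfold co
  rw [← inner_x_conj, ← conj_apply_one hT]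
  congr 1
  rw [← mul_apply_eq_comp, hc, mul_apply_eq_comp, F.X_apply_inv]

/-- The coefficients vanish at elements with infinite orbits. -/
theorem co_eq_zero {T : BH L} (hT : T ∈ vN (⊤ : Subgroup L)) {C : Set G}
    (hC : ∀ c ∈ C, F.X c * T = T * F.X c) {g : G}
    (hinf : ((fun c => c⁻¹ * g * c) '' C).Infinite) : co F T g = 0 := by
  have h1 := F.orthonormal.inner_products_summable (T (dl 1))
  apply Fr.eq_zero_of_infinite (φ := fun g => ⟪F.x g, T (dl 1)⟫_ℂ) (by simpa using h1) hinf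
  rintro _ ⟨c, hc, rfl⟩
  exact co_conj hT (hC c hc) g

/-- Parseval's identity. -/
theorem parseval_inner (v w : HS L) :
    HasSum (fun g => (starRingEnd ℂ) ⟪F.x g, v⟫_ℂ * ⟪F.x g, w⟫_ℂ) ⟪v, w⟫_ℂ := by
  have hsp : (Submodule.span ℂ (Set.range F.x))ᗮ = ⊥ := by
    rw [eq_bot_iff]
    intro ζ hζ
    rw [Submodule.mem_orthogonal] at hζ
    exact F.total ζ fun g => hζ _ (Submodule.subset_span ⟨g, rfl⟩)
  have h1 := (HilbertBasis.mkOfOrthogonalEqBot F.orthonormal hsp).hasSum_inner_mul_inner v w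
  rw [HilbertBasis.coe_mkOfOrthogonalEqBot] at h1
  have h2 : (fun g => (starRingEnd ℂ) ⟪F.x g, v⟫_ℂ * ⟪F.x g, w⟫_ℂ) =
      fun g => ⟪v, F.x g⟫_ℂ * ⟪F.x g, w⟫_ℂ := by
    funext g
    rw [inner_conj_symm]
  rw [h2]
  exact h1

/-- The zero-one law. -/
theorem zero_one {p p' : BH L} (hp : p ∈ vN (⊤ : Subgroup L))
    (hpsa : ∀ f h, ⟪p f, h⟫_ℂ = ⟪f, p h⟫_ℂ) (hpid : ∀ f, p (p f) = p f)
    (hpsa' : ∀ f h, ⟪p' f, h⟫_ℂ = ⟪f, p' h⟫_ℂ) (hpid' : ∀ f, p' (p' f) = p' f)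
    {A N : Set G} (hA : ∀ g ∉ A, co F p g = 0) (hN : ∀ g ∉ N, co F p' g = 0)
    (hAN : ∀ g ∈ A, g ∈ N → g = 1) {b : ℕ → G}
    (hdisj : ∀ k l : ℕ, ∀ y ∈ A, ∀ y' ∈ A, y ≠ 1 →
      b k * y * (b k)⁻¹ = b l * y' * (b l)⁻¹ → k = l)
    (hrel : ∀ k : ℕ, p' (p (F.X (b k) (p (F.X (b k)⁻¹ (dl 1))))) =
      p (F.X (b k) (p (F.X (b k)⁻¹ (dl 1)))))
    (h0 : p (dl 1) ≠ 0) : p' (dl 1) = dl 1 := by
  classical
  set t : ℝ := ‖p (dl 1)‖ ^ 2 with ht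
  set t' : ℝ := ‖p' (dl 1)‖ ^ 2 with ht'
  have htpos : 0 < t := by
    have := norm_pos_iff.mpr h0
    positivity
  have hco1 : ⟪dl 1, p (dl 1)⟫_ℂ = (t : ℂ) := by
    rw [← hpid, ← hpsa, inner_self']
  have hco1' : ⟪dl 1, p' (dl 1)⟫_ℂ = (t' : ℂ) := by
    rw [← hpid', ← hpsa', inner_self']
  have hx1 : F.x 1 = dl 1 := F.x_one
  -- the inner product of the two vectors
  have hpp' : ⟪p' (dl 1), p (dl 1)⟫_ℂ = (t' : ℂ) * t := by
    have h1 := parseval_inner (F := F) (p' (dl 1)) (p (dl 1))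
    have h2 := hasSum_single (f := fun g => (starRingEnd ℂ) ⟪F.x g, p' (dl 1)⟫_ℂ *
      ⟪F.x g, p (dl 1)⟫_ℂ) 1 (by
      intro g hg
      by_cases h3 : g ∈ A
      · have h4 : g ∉ N := fun h5 => hg (hAN g h3 h5)
        have h5 : ⟪F.x g, p' (dl 1)⟫_ℂ = 0 := hN g h4
        rw [h5, map_zero, zero_mul]
      · have h5 : ⟪F.x g, p (dl 1)⟫_ℂ = 0 := hA g h3
        rw [h5, mul_zero])
    rw [h1.unique h2, hx1, hco1, hco1', Complex.conj_ofReal]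
  set w : HS L := p (dl 1 - p' (dl 1)) with hw
  set ζ : ℕ → HS L := fun k => F.X (b k) (F.R (b k) (p (dl 1))) - (t : ℂ) • dl 1 with hζ
  -- `⟪w, ·⟫` vanishes on the conjugates
  have hw0 : ∀ k, ⟪w, F.X (b k) (F.R (b k) (p (dl 1)))⟫_ℂ = 0 := by
    intro k
    rw [← conj_apply_one hp, hw, hpsa, inner_sub_left, hpsa', hrel, sub_self]
  have hwζ : ∀ k, ⟪ζ k, w⟫_ℂ = - (t : ℂ) * ⟪dl 1, w⟫_ℂ := by
    intro k
    rw [hζ]
    simp only
    rw [inner_sub_left, inner_smul_left, Complex.conj_ofReal, ← inner_conj_symm, hw0, map_zero]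
    ring
  -- the coefficients of `ζ k`
  have hcoef : ∀ k g, ⟪F.x g, ζ k⟫_ℂ ≠ 0 → g ≠ 1 ∧ (b k)⁻¹ * g * b k ∈ A := by
    intro k g hne
    have h1 : ⟪F.x g, ζ k⟫_ℂ = co F p ((b k)⁻¹ * g * b k) - (t : ℂ) * ⟪F.x g, dl 1⟫_ℂ := by
      rw [hζ]
      simp only
      rw [inner_sub_right, inner_smul_right, inner_x_conj]
      rfl
    have hg1 : g ≠ 1 := by
      rintro rfl
      apply hne
      rw [h1, mul_one, inv_mul_cancel, hx1, inner_self', norm_dl]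
      unfold co
      rw [hx1, hco1]
      simp
    refine ⟨hg1, ?_⟩
    by_contra h2
    apply hne
    rw [h1, hA _ h2, ← hx1, F.orthonormal.2 hg1, mul_zero, sub_zero]
  have horth : ∀ k l, k ≠ l → ⟪ζ k, ζ l⟫_ℂ = 0 := by
    intro k l hkl
    have h1 := parseval_inner (F := F) (ζ k) (ζ l)
    have h2 : (fun g => (starRingEnd ℂ) ⟪F.x g, ζ k⟫_ℂ * ⟪F.x g, ζ l⟫_ℂ) = fun _ => 0 := by
      funext g
      by_contra h3
      have h4 : ⟪F.x g, ζ k⟫_ℂ ≠ 0 := by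
        intro h5
        rw [h5, map_zero, zero_mul] at h3
        exact h3 rfl
      have h5 : ⟪F.x g, ζ l⟫_ℂ ≠ 0 := by
        intro h5
        rw [h5, mul_zero] at h3
        exact h3 rfl
      obtain ⟨hg1, h6⟩ := hcoef k g h4
      obtain ⟨_, h7⟩ := hcoef l g h5
      apply hkl
      refine hdisj k l _ h6 _ h7 ?_ (by group)
      intro h8
      apply hg1
      have h9 : g = b k * ((b k)⁻¹ * g * b k) * (b k)⁻¹ := by group
      rw [h9, h8]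
      group
    rw [h2] at h1
    exact h1.unique hasSum_zero
  have hζn : ∀ k, ‖ζ k‖ ≤ 1 + t := by
    intro k
    rw [hζ]
    simp only
    refine (norm_sub_le _ _).trans ?_
    rw [F.norm_X, F.norm_R, norm_smul, norm_dl, mul_one, Complex.norm_real,
      Real.norm_of_nonneg htpos.le]
    have h1 : ‖p (dl 1)‖ ≤ 1 := by
      have h2 := norm_inner_le_norm (𝕜 := ℂ) (dl 1) (p (dl 1))
      rw [hco1, Complex.norm_real, Real.norm_of_nonneg htpos.le, norm_dl, one_mul, ht] at h2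
      have h3 := norm_pos_iff.mpr h0
      nlinarith
    linarith
  -- Bessel's inequality
  have hfin : (t : ℂ) * ⟪dl 1, w⟫_ℂ = 0 := by
    by_contra hne
    set r : ℝ := ‖(t : ℂ) * ⟪dl 1, w⟫_ℂ‖ with hr
    have hr0 : 0 < r := norm_pos_iff.mpr hne
    have h1 : ∀ n : ℕ, (n : ℝ) * r ^ 2 ≤ (1 + t) ^ 2 * ‖w‖ ^ 2 := by
      intro n
      have h2 := bessel_bound (Finset.range n) ζ w (K := (1 + t) ^ 2) (by positivity) (by
        intro i hi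
        rw [Finset.sum_eq_single_of_mem i hi]
        · have h3 := norm_inner_le_norm (𝕜 := ℂ) (ζ i) (ζ i)
          have h4 := hζn i
          have h5 : ‖ζ i‖ * ‖ζ i‖ ≤ (1 + t) ^ 2 := by nlinarith [norm_nonneg (ζ i)]
          exact h3.trans h5
        · intro j _ hj
          rw [horth i j (Ne.symm hj), norm_zero])
      have h3 : ∑ i ∈ Finset.range n, ‖⟪ζ i, w⟫_ℂ‖ ^ 2 = n * r ^ 2 := by
        rw [Finset.sum_congr rfl (g := fun _ => r ^ 2), Finset.sum_const, Finset.card_range,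
          nsmul_eq_mul]
        intro i _
        rw [hwζ, neg_mul, norm_neg]
      rwa [h3] at h2
    obtain ⟨n, hn⟩ := exists_nat_gt ((1 + t) ^ 2 * ‖w‖ ^ 2 / r ^ 2)
    rw [div_lt_iff₀ (by positivity)] at hn
    exact absurd (h1 n) (not_le.mpr hn)
  have hdlw : ⟪dl 1, w⟫_ℂ = (t : ℂ) * (1 - t') := by
    rw [hw, ← hpsa, inner_sub_right]
    have h1 : ⟪p (dl 1), dl 1⟫_ℂ = (t : ℂ) := by
      rw [← inner_conj_symm, hco1, Complex.conj_ofReal]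
    have h2 : ⟪p (dl 1), p' (dl 1)⟫_ℂ = (t' : ℂ) * t := by
      rw [← inner_conj_symm, hpp', map_mul, Complex.conj_ofReal, Complex.conj_ofReal]
    rw [h1, h2]
    ring
  rw [hdlw] at hfin
  have htne : (t : ℂ) ≠ 0 := by exact_mod_cast htpos.ne'
  have ht1 : t' = 1 := by
    have h1 := (mul_eq_zero.mp hfin).resolve_left htne
    have h2 := (mul_eq_zero.mp h1).resolve_left htne
    have h3 : (t' : ℂ) = 1 := (sub_eq_zero.mp h2).symm
    exact_mod_cast h3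
  have h1 : ‖p' (dl 1) - dl 1‖ ^ 2 = 0 := by
    have h2 : ((‖p' (dl 1) - dl 1‖ ^ 2 : ℝ) : ℂ) = 0 := by
      rw [← inner_self', inner_sub_left, inner_sub_right, inner_sub_right, inner_self',
        ← inner_conj_symm (p' (dl 1)) (dl 1), hco1', inner_self', norm_dl, ← ht', ht1]
      simp
    exact_mod_cast h2
  rw [pow_eq_zero_iff two_ne_zero, norm_eq_zero, sub_eq_zero] at h1
  exact h1

end Coeff

end Pool.Agent.Helper66.GV
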