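import Pool.Agent.Helper66.GV.Op

/-!
# Symmetric kernels with `P² = c P` and a trace formula contain a rank one projection
-/

open scoped lp ENNReal InnerProductSpace
open Filter Topology

namespace Pool.Agent.Helper66.GV

variable {A : Type*}

/-- The properties of the kernel. -/
structure Krn (P : BH (A × A)) (c k : ℝ) : Prop where
  cpos : 0 < c
  kpos : 0 < k
  sa : ∀ ξ η, ⟪P ξ, η⟫_ℂ = ⟪ξ, P η⟫_ℂ
  sq : ∀ ξ, P (P ξ) = (c : ℂ) • P ξ
  sym1 : ∀ a b c d, ⟪tens d (kc c), P (tens a (kc b))⟫_ℂ = ⟪tens d (kc a), P (tens c (kc b))⟫_ℂ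
  sym2 : ∀ a b c d, ⟪tens d (kc c), P (tens a (kc b))⟫_ℂ = ⟪tens b (kc c), P (tens a (kc d))⟫_ℂ
  trc : ∀ a, HasSum (fun t => ‖P (tens (dl t) (kc a))‖ ^ 2) (c * k * ‖a‖ ^ 2)

namespace Krn

variable {P : BH (A × A)} {c k : ℝ} (h : Krn P c k)

include h

theorem inner_PP (ξ η : HS (A × A)) : ⟪P ξ, P η⟫_ℂ = c * ⟪ξ, P η⟫_ℂ := by
  rw [h.sa, h.sq, inner_smul_right]

theorem q_eq (x y : HS A) : ((‖P (tens x (kc y))‖ ^ 2 : ℝ) : ℂ) =
    c * ⟪tens x (kc y), P (tens x (kc y))⟫_ℂ := by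
  rw [← h.inner_PP, inner_self_eq_norm_sq_to_K]
  push_cast
  rfl

theorem q_symm (x y : HS A) : ‖P (tens x (kc y))‖ ^ 2 = ‖P (tens y (kc x))‖ ^ 2 := by
  have h1 := h.q_eq x y
  have h2 := h.q_eq y x
  rw [h.sym1, h.sym2] at h1
  have h3 := h1.trans h2.symm
  exact_mod_cast h3

/-- The operators attached to the kernel. -/
theorem inner_L (a x : HS A) : (c : ℂ) * ⟪x, Op (P (tens a (kc a))) x⟫_ℂ =
    ((‖P (tens x (kc a))‖ ^ 2 : ℝ) : ℂ) := by
  rw [inner_Op, h.sym1, h.q_eq]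

theorem L_sa (a x y : HS A) : ⟪Op (P (tens a (kc a))) x, y⟫_ℂ =
    ⟪x, Op (P (tens a (kc a))) y⟫_ℂ := by
  rw [← inner_conj_symm, inner_Op, inner_conj_symm, h.sa, h.sym1, h.sym2, inner_Op]

theorem inner_L_re (a x : HS A) : c * (⟪x, Op (P (tens a (kc a))) x⟫_ℂ).re =
    ‖P (tens x (kc a))‖ ^ 2 := by
  have h1 := congrArg Complex.re (h.inner_L a x)
  rwa [Complex.re_ofReal_mul, Complex.ofReal_re] at h1

theorem L_pos (a x : HS A) : 0 ≤ (⟪x, Op (P (tens a (kc a))) x⟫_ℂ).re := by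
  have h1 := h.inner_L_re a x
  have h2 : 0 ≤ ‖P (tens x (kc a))‖ ^ 2 := by positivity
  rw [← h1] at h2
  exact nonneg_of_mul_nonneg_right h2 h.cpos

theorem q_le (a x : HS A) :
    ‖P (tens x (kc a))‖ ^ 2 ≤ c * (‖Op (P (tens a (kc a)))‖ * ‖x‖ ^ 2) := by
  rw [← h.inner_L_re]
  apply mul_le_mul_of_nonneg_left _ h.cpos.le
  calc (⟪x, Op (P (tens a (kc a))) x⟫_ℂ).re ≤ ‖⟪x, Op (P (tens a (kc a))) x⟫_ℂ‖ :=
        Complex.re_le_norm _
    _ ≤ ‖x‖ * ‖Op (P (tens a (kc a))) x‖ := norm_inner_le_norm _ _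
    _ ≤ ‖x‖ * (‖Op (P (tens a (kc a)))‖ * ‖x‖) := by
        gcongr
        exact ContinuousLinearMap.le_opNorm _ _
    _ = _ := by ring

/-- The vector representing `x ↦ P (x ⊗ conj b)`. -/
noncomputable def mv (h : Krn P c k) (b : HS A) : HS (A × (A × A)) :=
  glue (fun t => P (tens (dl t) (kc b))) (h.trc b).summable

theorem slice_mv (b : HS A) (t : A) : slice (h.mv b) t = P (tens (dl t) (kc b)) :=
  slice_glue _ _ _

theorem mv_norm_sq (b : HS A) : ‖h.mv b‖ ^ 2 = c * k * ‖b‖ ^ 2 :=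
  (glue_norm_sq _ (h.trc b).summable).unique (h.trc b)

/-- The vectors of the decomposition of `Op (P (b ⊗ conj b))`. -/
noncomputable def xv (h : Krn P c k) (b : HS A) (q : A × A) : HS A :=
  kc (slice (swp (h.mv b)) q)

theorem hasSum_xv (b : HS A) : HasSum (fun q => ‖h.xv b q‖ ^ 2) (c * k * ‖b‖ ^ 2) := by
  have h1 := hasSum_slice (swp (h.mv b))
  rw [LinearIsometryEquiv.norm_map, h.mv_norm_sq] at h1
  unfold xv
  simp only [norm_kj]
  exact h1

theorem inner_xv (b v : HS A) (q : A × A) : ⟪h.xv b q, v⟫_ℂ = P (tens v (kc b)) q := by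
  let tr : HS A →L[ℂ] HS (A × A) := LinearMap.mkContinuous
    { toFun := fun x => tens x (kc b)
      map_add' := fun x y => tens_add_left x y (kc b)
      map_smul' := fun z x => tens_smul_left z x (kc b) } ‖kc b‖
    (fun x => by
      change ‖tens x (kc b)‖ ≤ _
      rw [norm_tens, mul_comm])
  have h1 := hasSum_apply (P.comp tr) v q
  have h2 := hs_inner (h.xv b q) v
  have h3 : (fun x => star (h.xv b q x) * v x) = fun x => v x * (P.comp tr) (dl x) q := by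
    funext x
    rw [mul_comm]
    congr 1
    unfold xv
    rw [kj_apply, star_star]
    change h.mv b (x, q) = P (tens (dl x) (kc b)) q
    rw [← slice_apply, h.slice_mv]
  rw [h3] at h2
  exact h2.unique h1

/-- The trace of a product. -/
theorem hasSum_trace (a b : HS A) :
    HasSum (fun q => ‖P (tens (h.xv b q) (kc a))‖ ^ 2) (c ^ 2 * ‖P (tens a (kc b))‖ ^ 2) := by
  set T : BH A := Op (P (tens a (kc a))) with hT
  set m := h.mv b with hm
  -- the sum over `q`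
  have h1 := inner_slice (amp (cn (Equiv.refl A) T) (swp m)) (swp m)
  have h2 : (fun q => ⟪slice (amp (cn (Equiv.refl A) T) (swp m)) q, slice (swp m) q⟫_ℂ) =
      fun q => ⟪h.xv b q, T (h.xv b q)⟫_ℂ := by
    funext q
    rw [slice_amp, cn_apply]
    have h3 : slice (swp m) q = kc (h.xv b q) := by
      unfold xv
      rw [kj_kj refl_invol]
    conv_lhs => rw [h3]
    rw [kj_kj refl_invol, inner_kj]
  rw [h2] at h1
  -- the sum over `j`
  set n := swp (amp (cn (Equiv.refl A) T) (swp m)) with hn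
  have h3 : ⟪amp (cn (Equiv.refl A) T) (swp m), swp m⟫_ℂ = ⟪n, m⟫_ℂ := by
    rw [hn, ← (swp : HS (A × (A × A)) ≃ₗᵢ[ℂ] HS ((A × A) × A)).inner_map_map _ m, swp_swp]
  have h4 : ∀ j, slice n j = P (tens (T (dl j)) (kc b)) := by
    intro j
    apply ext_apply
    intro q
    have h5 : slice n j q = star (T (h.xv b q) j) := rfl
    rw [h5, ← inner_dl j, ← h.inner_xv b, ← h.L_sa a]
    exact inner_conj_symm _ _
  have h5 := inner_slice n m
  have h6 : (fun j => ⟪slice n j, slice m j⟫_ℂ) =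
      fun j => (c : ℂ) * ⟪T (dl j), Op (P (tens b (kc b))) (dl j)⟫_ℂ := by
    funext j
    rw [h4, hm, h.slice_mv, h.inner_PP, h.sym1, inner_Op]
  rw [h6] at h5
  have h7 : HasSum (fun j => (c : ℂ) * ⟪T (dl j), Op (P (tens b (kc b))) (dl j)⟫_ℂ)
      ((c : ℂ) * ⟪P (tens a (kc a)), P (tens b (kc b))⟫_ℂ) := by
    have h8 := inner_slice (swp (P (tens a (kc a)))) (swp (P (tens b (kc b))))
    rw [LinearIsometryEquiv.inner_map_map] at h8
    simp only [hT, Op_dl]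
    exact h8.mul_left _
  have h8 := h5.unique h7
  have h9 : HasSum (fun q => (c : ℂ) * ⟪h.xv b q, T (h.xv b q)⟫_ℂ)
      ((c : ℂ) * ((c : ℂ) * ⟪P (tens a (kc a)), P (tens b (kc b))⟫_ℂ)) := by
    rw [← h8, ← h3]
    exact h1.mul_left _
  have h10 : (fun q => (c : ℂ) * ⟪h.xv b q, T (h.xv b q)⟫_ℂ) =
      fun q => ((‖P (tens (h.xv b q) (kc a))‖ ^ 2 : ℝ) : ℂ) := by
    funext q
    rw [hT, h.inner_L]
  have h11 : (c : ℂ) * ((c : ℂ) * ⟪P (tens a (kc a)), P (tens b (kc b))⟫_ℂ) =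
      ((c ^ 2 * ‖P (tens a (kc b))‖ ^ 2 : ℝ) : ℂ) := by
    rw [h.inner_PP, h.sym1]
    have h12 := h.q_eq a b
    rw [Complex.ofReal_mul, h12]
    push_cast
    ring
  rw [h10, h11] at h9
  exact_mod_cast h9

theorem k_le_c [Nonempty A] : k ≤ c := by
  obtain ⟨i⟩ := ‹Nonempty A›
  set b : HS A := dl i with hb
  have hbn : ‖b‖ = 1 := norm_dl i
  have h1 : ∀ s : Finset (A × A), ∑ q ∈ s, c * k * ‖h.xv b q‖ ^ 2 ≤ c ^ 2 * (c * k) := by
    intro s
    have h2 : HasSum (fun t => ∑ q ∈ s, ‖P (tens (dl t) (kc (h.xv b q)))‖ ^ 2)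
        (∑ q ∈ s, c * k * ‖h.xv b q‖ ^ 2) := hasSum_sum fun q _ => h.trc _
    have h3 := (h.trc b).mul_left (c ^ 2)
    rw [hbn, one_pow, mul_one] at h3
    refine hasSum_le (fun t => ?_) h2 h3
    have h4 := h.hasSum_trace (dl t) b
    have h5 : ∀ q, ‖P (tens (dl t) (kc (h.xv b q)))‖ ^ 2 = ‖P (tens (h.xv b q) (kc (dl t)))‖ ^ 2 :=
      fun q => h.q_symm _ _
    simp only [h5]
    exact sum_le_hasSum s (fun q _ => by positivity) h4
  have h2 := (h.hasSum_xv b).mul_left (c * k)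
  rw [hbn, one_pow, mul_one] at h2
  have h3 : c * k * (c * k) ≤ c ^ 2 * (c * k) := hasSum_le_of_sum_le h2 h1
  have hc := h.cpos
  have hk := h.kpos
  have h4 : 0 < c * k * c := by positivity
  have h5 : (c * k * c) * k ≤ (c * k * c) * c := by nlinarith
  exact le_of_mul_le_mul_left h5 h4

theorem L_ne_zero {a : HS A} (ha : ‖a‖ = 1) : Op (P (tens a (kc a))) ≠ 0 := by
  intro h0
  have h1 := h.trc a
  have h2 : (fun t => ‖P (tens (dl t) (kc a))‖ ^ 2) = fun _ => 0 := by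
    funext t
    rw [← h.inner_L_re, h0]
    change c * (⟪dl t, (0 : HS A)⟫_ℂ).re = 0
    rw [inner_zero_right, Complex.zero_re, mul_zero]
  rw [h2, ha] at h1
  have h3 := h1.unique hasSum_zero
  have := mul_pos h.cpos h.kpos
  rw [one_pow, mul_one] at h3
  linarith

/-- The products with the operators of top eigenvectors. -/
theorem L_L [Nonempty A] {a b : HS A} (ha : ‖a‖ = 1) (hb : ‖b‖ = 1)
    (hab : Op (P (tens a (kc a))) b = (‖Op (P (tens a (kc a)))‖ : ℂ) • b) (v : HS A) :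
    Op (P (tens a (kc a))) (Op (P (tens b (kc b))) v) =
      (‖Op (P (tens a (kc a)))‖ : ℂ) • Op (P (tens b (kc b))) v := by
  set T : BH A := Op (P (tens a (kc a))) with hT
  set μ := ‖T‖ with hμ
  have hμ0 : 0 < μ := norm_pos_iff.mpr (h.L_ne_zero ha)
  have hc := h.cpos
  have hk := h.kpos
  -- all the vectors of the decomposition are top eigenvectors
  have h1 : ∀ q, T (h.xv b q) = (μ : ℂ) • h.xv b q := by
    have h2 := h.hasSum_trace a b
    have h3 := (h.hasSum_xv b).mul_left (c * μ)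
    have h4 : ‖P (tens a (kc b))‖ ^ 2 = c * μ := by
      rw [h.q_symm, ← h.inner_L_re, ← hT, hab, inner_smul_right, inner_self_eq_norm_sq_to_K, hb]
      simp
    rw [h4] at h2
    rw [hb, one_pow, mul_one] at h3
    have h5 := h3.sub h2
    have h6 : ∀ q, 0 ≤ c * μ * ‖h.xv b q‖ ^ 2 - ‖P (tens (h.xv b q) (kc a))‖ ^ 2 := by
      intro q
      have := h.q_le a (h.xv b q)
      rw [← hT, ← hμ, ← mul_assoc] at this
      linarith
    have h7 : c * μ * (c * k) - c ^ 2 * (c * μ) ≤ 0 := by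
      have h8 := h.k_le_c
      have h9 : c * μ * (c * k) - c ^ 2 * (c * μ) = c ^ 2 * μ * (k - c) := by ring
      rw [h9]
      exact mul_nonpos_of_nonneg_of_nonpos (by positivity) (by linarith)
    have h8 : ∀ q, c * μ * ‖h.xv b q‖ ^ 2 - ‖P (tens (h.xv b q) (kc a))‖ ^ 2 = 0 := by
      intro q
      have h9 := le_hasSum h5 q (fun j _ => h6 j)
      exact le_antisymm (h9.trans h7) (h6 q)
    intro q
    have h9 := h8 q
    rw [← h.inner_L_re, ← hT] at h9
    have h10 : (⟪h.xv b q, T (h.xv b q)⟫_ℂ).re = μ * ‖h.xv b q‖ ^ 2 := by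
      have h11 : c * (μ * ‖h.xv b q‖ ^ 2 - (⟪h.xv b q, T (h.xv b q)⟫_ℂ).re) = 0 := by
        rw [← h9]
        ring
      have h12 := (mul_eq_zero.mp h11).resolve_left hc.ne'
      linarith
    -- `S = μ - T`
    have h11 : ∀ x : HS A, ((μ : ℂ) • (1 : BH A) - T) x = (μ : ℂ) • x - T x := fun x => rfl
    have h12 := eq_zero_of_form (S := (μ : ℂ) • (1 : BH A) - T) (x := h.xv b q) ?_ ?_ ?_
    · rw [h11, sub_eq_zero] at h12
      exact h12.symm
    · intro x y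
      rw [h11, h11, inner_sub_left, inner_sub_right, inner_smul_left, inner_smul_right,
        Complex.conj_ofReal, hT, h.L_sa]
    · intro x
      rw [h11, inner_sub_right, inner_smul_right, inner_self_eq_norm_sq_to_K, Complex.sub_re]
      have h13 : ((μ : ℂ) * ((‖x‖ : ℂ) ^ 2)).re = μ * ‖x‖ ^ 2 := by
        have : (μ : ℂ) * ((‖x‖ : ℂ) ^ 2) = ((μ * ‖x‖ ^ 2 : ℝ) : ℂ) := by push_cast; ring
        rw [this, Complex.ofReal_re]
      have h14 : (⟪x, T x⟫_ℂ).re ≤ μ * ‖x‖ ^ 2 := by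
        calc (⟪x, T x⟫_ℂ).re ≤ ‖⟪x, T x⟫_ℂ‖ := Complex.re_le_norm _
          _ ≤ ‖x‖ * ‖T x‖ := norm_inner_le_norm _ _
          _ ≤ ‖x‖ * (‖T‖ * ‖x‖) := by
              gcongr
              exact ContinuousLinearMap.le_opNorm _ _
          _ = _ := by rw [hμ]; ring
      change 0 ≤ ((μ : ℂ) * ((‖x‖ : ℂ) ^ 2)).re - _
      rw [h13]
      linarith
    · rw [h11, inner_sub_right, inner_smul_right, inner_self_eq_norm_sq_to_K, Complex.sub_re, h10]
      have h13 : ((μ : ℂ) * ((‖h.xv b q‖ : ℂ) ^ 2)).re = μ * ‖h.xv b q‖ ^ 2 := by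
        have : (μ : ℂ) * ((‖h.xv b q‖ : ℂ) ^ 2) = ((μ * ‖h.xv b q‖ ^ 2 : ℝ) : ℂ) := by
          push_cast
          ring
        rw [this, Complex.ofReal_re]
      change ((μ : ℂ) * ((‖h.xv b q‖ : ℂ) ^ 2)).re - _ = 0
      rw [h13, sub_self]
  rw [← sub_eq_zero]
  apply ext_inner_left ℂ
  intro w
  rw [inner_zero_right, inner_sub_right, inner_smul_right]
  have h2 : ⟪w, T (Op (P (tens b (kc b))) v)⟫_ℂ - (μ : ℂ) * ⟪w, Op (P (tens b (kc b))) v⟫_ℂ =
      ⟪T w - (μ : ℂ) • w, Op (P (tens b (kc b))) v⟫_ℂ := by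
    rw [inner_sub_left, inner_smul_left, Complex.conj_ofReal, hT, h.L_sa]
  rw [h2]
  have h3 : P (tens (T w - (μ : ℂ) • w) (kc b)) = 0 := by
    apply ext_apply
    intro q
    rw [← h.inner_xv, inner_sub_right, inner_smul_right, hT, ← h.L_sa, ← hT, h1, inner_smul_left,
      Complex.conj_ofReal, sub_self]
    rfl
  rw [inner_Op, h.sym1, ← h.sa, h3, inner_zero_left]

end Krn

end Pool.Agent.Helper66.GV
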