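import Pool.Agent.Helper66.GV.Tri

/-!
# The limit of a minimizing sequence of triples
-/

open scoped lp ENNReal InnerProductSpace
open Filter Topology

namespace Pool.Agent.Helper66.GV

section Mid

variable {G L : Type*} [Group G] [Group L]

theorem norm_half_add_le {E : Type*} [NormedAddCommGroup E] [NormedSpace ℂ E] {x y : E} {r : ℝ}
    (hx : ‖x‖ ≤ r) (hy : ‖y‖ ≤ r) : ‖(1 / 2 : ℂ) • (x + y)‖ ≤ r := by
  rw [norm_smul]
  have h1 : ‖(1 / 2 : ℂ)‖ = 1 / 2 := by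
    rw [norm_div, norm_one, Complex.norm_two]
  rw [h1]
  have := norm_add_le x y
  linarith

theorem inner_half_left {E : Type*} [NormedAddCommGroup E] [InnerProductSpace ℂ E] (x y t : E) :
    ⟪(1 / 2 : ℂ) • (x + y), t⟫_ℂ = (1 / 2 : ℂ) * (⟪x, t⟫_ℂ + ⟪y, t⟫_ℂ) := by
  rw [inner_smul_left, inner_add_left]
  congr 1
  rw [map_div₀, map_one]
  congr 1
  exact map_ofNat (starRingEnd ℂ) 2

theorem inner_half_right {E : Type*} [NormedAddCommGroup E] [InnerProductSpace ℂ E] (x y t : E) :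
    ⟪t, (1 / 2 : ℂ) • (x + y)⟫_ℂ = (1 / 2 : ℂ) * (⟪t, x⟫_ℂ + ⟪t, y⟫_ℂ) := by
  rw [inner_smul_right, inner_add_right]

theorem Tri.mid {c₀ : ℝ} {V V' : HS L →L[ℂ] HS (P3 L)} {Y Y' : BH (P3 L)} {P P' : BH (L × L)}
    (h : Tri c₀ V Y P) (h' : Tri c₀ V' Y' P') :
    Tri c₀ ((1 / 2 : ℂ) • (V + V')) ((1 / 2 : ℂ) • (Y + Y')) ((1 / 2 : ℂ) • (P + P')) where
  nV f := norm_half_add_le (h.nV f) (h'.nV f)
  nY f := norm_half_add_le (h.nY f) (h'.nY f)
  nP f := norm_half_add_le (h.nP f) (h'.nP f)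
  lamV s f := by
    change (1 / 2 : ℂ) • (V (lam s f) + V' (lam s f)) = lam (dg s) ((1 / 2 : ℂ) • (V f + V' f))
    rw [map_smul, map_add, h.lamV, h'.lamV]
  rhoY x f := by
    change (1 / 2 : ℂ) • (Y (rho x f) + Y' (rho x f)) = rho x ((1 / 2 : ℂ) • (Y f + Y' f))
    rw [map_smul, map_add, h.rhoY, h'.rhoY]
  VY := by
    change (1 / 2 : ℂ) • (V (dl 1) + V' (dl 1)) = (1 / 2 : ℂ) • (Y (dl 1) + Y' (dl 1))
    rw [h.VY, h'.VY]
  compat d c ξ := by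
    change ⟪(1 / 2 : ℂ) • (V d + V' d), _⟫_ℂ = ⟪_, (1 / 2 : ℂ) • (P ξ + P' ξ)⟫_ℂ
    rw [inner_half_left, inner_half_right, h.compat, h'.compat]
  sa ξ η := by
    change ⟪(1 / 2 : ℂ) • (P ξ + P' ξ), _⟫_ℂ = ⟪_, (1 / 2 : ℂ) • (P η + P' η)⟫_ℂ
    rw [inner_half_left, inner_half_right, h.sa, h'.sa]
  sym1 a b c d := by
    change ⟪(1 / 2 : ℂ) • (V d + V' d), _⟫_ℂ = ⟪(1 / 2 : ℂ) • (V d + V' d), _⟫_ℂ
    rw [inner_half_left, inner_half_left, h.sym1, h'.sym1]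
  sym2 a b c d := by
    change ⟪(1 / 2 : ℂ) • (V d + V' d), _⟫_ℂ = ⟪(1 / 2 : ℂ) • (V b + V' b), _⟫_ℂ
    rw [inner_half_left, inner_half_left, h.sym2, h'.sym2]
  pos := by
    change c₀ ≤ (⟪(1 / 2 : ℂ) • (V (dl 1) + V' (dl 1)), dl 1⟫_ℂ).re
    rw [inner_half_left]
    have h1 := h.pos
    have h2 := h'.pos
    have h3 : ((1 / 2 : ℂ) * (⟪V (dl 1), dl 1⟫_ℂ + ⟪V' (dl 1), dl 1⟫_ℂ)).re =
        1 / 2 * ((⟪V (dl 1), dl 1⟫_ℂ).re + (⟪V' (dl 1), dl 1⟫_ℂ).re) := by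
      rw [Complex.mul_re, Complex.add_re]
      simp
    rw [h3]
    linarith

theorem MK.tri {F : Fr G L} {c₀ : ℝ} (hF : Hgt F c₀) {V : HS L →L[ℂ] HS (P3 L)} {Y : BH (P3 L)}
    {P : BH (L × L)} (h : MK F V Y P) : Tri c₀ V Y P := by
  induction h with
  | gen g => exact Tri.gen hF g
  | mid _ _ h1 h2 => exact h1.mid h2

theorem MK.act {F : Fr G L} {V : HS L →L[ℂ] HS (P3 L)} {Y : BH (P3 L)}
    {P : BH (L × L)} (h : MK F V Y P) (g : G) :
    MK F ((F.R3 g).comp (V.comp (F.R g⁻¹))) (F.A g * Y * F.B g⁻¹) (F.R2 g * P * F.R2 g⁻¹) := by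
  induction h with
  | gen g' =>
    have h1 : (F.R3 g).comp ((gV F g').comp (F.R g⁻¹)) = gV F (g * g') := by
      apply ContinuousLinearMap.ext
      intro f
      change F.R3 g (F.R3 g' (Dl (F.R g'⁻¹ (F.R g⁻¹ f)))) =
        F.R3 (g * g') (Dl (F.R (g * g')⁻¹ f))
      rw [F.R3_mul, mul_inv_rev, F.R_mul, mul_apply_eq_comp, mul_apply_eq_comp]
    have h2 : F.A g * gY F g' * F.B g⁻¹ = gY F (g * g') := by
      unfold gY
      rw [F.A_mul, mul_inv_rev, F.B_mul]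
      simp only [mul_assoc]
    have h3 : F.R2 g * gP F g' * F.R2 g⁻¹ = gP F (g * g') := by
      unfold gP
      rw [F.R2_mul, mul_inv_rev, F.R2_mul]
      simp only [mul_assoc]
    rw [h1, h2, h3]
    exact MK.gen _
  | @mid V V' Y Y' P P' _ _ ih ih' =>
    have h1 : (F.R3 g).comp (((1 / 2 : ℂ) • (V + V')).comp (F.R g⁻¹)) =
        (1 / 2 : ℂ) • ((F.R3 g).comp (V.comp (F.R g⁻¹)) + (F.R3 g).comp (V'.comp (F.R g⁻¹))) := by
      apply ContinuousLinearMap.ext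
      intro f
      change F.R3 g ((1 / 2 : ℂ) • (V (F.R g⁻¹ f) + V' (F.R g⁻¹ f))) =
        (1 / 2 : ℂ) • (F.R3 g (V (F.R g⁻¹ f)) + F.R3 g (V' (F.R g⁻¹ f)))
      rw [map_smul, map_add]
    have h2 : F.A g * ((1 / 2 : ℂ) • (Y + Y')) * F.B g⁻¹ =
        (1 / 2 : ℂ) • (F.A g * Y * F.B g⁻¹ + F.A g * Y' * F.B g⁻¹) := by
      rw [mul_smul_comm, smul_mul_assoc, mul_add, add_mul]
    have h3 : F.R2 g * ((1 / 2 : ℂ) • (P + P')) * F.R2 g⁻¹ =
        (1 / 2 : ℂ) • (F.R2 g * P * F.R2 g⁻¹ + F.R2 g * P' * F.R2 g⁻¹) := by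
      rw [mul_smul_comm, smul_mul_assoc, mul_add, add_mul]
    rw [h1, h2, h3]
    exact MK.mid ih ih'

/-- The action on the distinguished vector. -/
theorem act_one {F : Fr G L} {V : HS L →L[ℂ] HS (P3 L)}
    (hV : ∀ s f, V (lam s f) = lam (dg s) (V f)) (g : G) :
    F.R3 g (V (F.R g⁻¹ (dl 1))) = F.A g (F.R3 g (V (dl 1))) := by
  rw [F.R_dl, inv_inv]
  unfold Fr.x
  rw [intertwine hV (F.mem g)]
  change F.R3 g (F.A g (V (dl 1))) = _
  rw [F.R3_comm g (F.A_mem g)]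

end Mid

section Slice

variable {A B : Type*}

theorem norm_slice_le (f : HS (A × B)) (a : A) : ‖slice f a‖ ≤ ‖f‖ := by
  have h1 := le_hasSum (hasSum_slice f) a (fun j _ => by positivity)
  exact (pow_le_pow_iff_left₀ (norm_nonneg _) (norm_nonneg _) two_ne_zero).mp h1

theorem slice_sub (f g : HS (A × B)) (a : A) : slice (f - g) a = slice f a - slice g a :=
  ext_apply fun _ => rfl

theorem Tri.P_tens_dl {L : Type*} [Group L] {c₀ : ℝ} {V : HS L →L[ℂ] HS (P3 L)} {Y : BH (P3 L)}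
    {P : BH (L × L)} (h : Tri c₀ V Y P) (a : HS L) (q : L) :
    P (tens a (dl q)) = slice (V a) q := by
  apply ext_apply
  intro x
  rw [← inner_dl x, ← inner_dl x, ← h.sa, ← inner_dl_tens, ← inner_conj_symm,
    ← inner_conj_symm (tens (dl q) (dl x)), h.compat, kj_refl_dl]

end Slice

section Limit

variable {G L : Type*} [Group G] [Group L]

theorem minimizer {F : Fr G L} {m : ℝ}
    (hm : ∀ V Y P, MK F V Y P → m ≤ ‖V (dl 1)‖ ^ 2)
    {V V' : HS L →L[ℂ] HS (P3 L)} {Y Y' : BH (P3 L)} {P P' : BH (L × L)}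
    (h : MK F V Y P) (h' : MK F V' Y' P') {ε : ℝ} (h1 : ‖V (dl 1)‖ ^ 2 ≤ m + ε)
    (h2 : ‖V' (dl 1)‖ ^ 2 ≤ m + ε) : ‖V (dl 1) - V' (dl 1)‖ ^ 2 ≤ 4 * ε := by
  have h3 := hm _ _ _ (h.mid h')
  have h4 := parallelogram_law_with_norm ℂ (V (dl 1)) (V' (dl 1))
  have h5 : ‖((1 / 2 : ℂ) • (V + V')) (dl 1)‖ = 1 / 2 * ‖V (dl 1) + V' (dl 1)‖ := by
    change ‖(1 / 2 : ℂ) • (V (dl 1) + V' (dl 1))‖ = _
    rw [norm_smul, norm_div, norm_one, Complex.norm_two]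
  rw [h5] at h3
  nlinarith

/-- The limit of a minimizing sequence. -/
theorem exists_limit {F : Fr G L} {c₀ : ℝ} (hF : Hgt F c₀) :
    ∃ (V : HS L →L[ℂ] HS (P3 L)) (Y : BH (P3 L)) (P : BH (L × L)), Tri c₀ V Y P ∧
      ∀ g, F.A g (F.R3 g (V (dl 1))) = V (dl 1) := by
  set S : Set ℝ := {r | ∃ V Y P, MK F V Y P ∧ ‖V (dl 1)‖ ^ 2 = r} with hS
  have hne : S.Nonempty := ⟨_, _, _, _, MK.gen 1, rfl⟩
  have hbd : BddBelow S := ⟨0, by
    rintro _ ⟨V, Y, P, _, rfl⟩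
    positivity⟩
  set m := sInf S with hm
  have hmin : ∀ V Y P, MK F V Y P → m ≤ ‖V (dl 1)‖ ^ 2 := fun V Y P h =>
    csInf_le hbd ⟨V, Y, P, h, rfl⟩
  have hex : ∀ n : ℕ, ∃ V Y P, MK F V Y P ∧ ‖V (dl 1)‖ ^ 2 ≤ m + 1 / ((n : ℝ) + 1) := by
    intro n
    have h1 : sInf S < m + 1 / ((n : ℝ) + 1) := by
      rw [← hm]
      have : (0 : ℝ) < 1 / ((n : ℝ) + 1) := by positivity
      linarith
    obtain ⟨_, ⟨V, Y, P, h2, rfl⟩, h3⟩ := exists_lt_of_csInf_lt hne h1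
    exact ⟨V, Y, P, h2, h3.le⟩
  choose V Y P hMK hle using hex
  have hT : ∀ n, Tri c₀ (V n) (Y n) (P n) := fun n => (hMK n).tri hF
  have hC1 : CauchySeq fun n => V n (dl 1) := by
    rw [Metric.cauchySeq_iff']
    intro ε hε
    obtain ⟨N, hN⟩ := exists_nat_gt (4 / ε ^ 2)
    refine ⟨N, fun n hn => ?_⟩
    rw [dist_eq_norm]
    have hNpos : (0 : ℝ) < (N : ℝ) + 1 := by positivity
    have h1 : (1 : ℝ) / ((n : ℝ) + 1) ≤ 1 / ((N : ℝ) + 1) := by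
      apply one_div_le_one_div_of_le hNpos
      have : (N : ℝ) ≤ (n : ℝ) := by exact_mod_cast hn
      linarith
    have h2 := minimizer hmin (hMK n) (hMK N) (ε := 1 / ((N : ℝ) + 1))
      ((hle n).trans (by linarith)) (hle N)
    have h3 : 4 * (1 / ((N : ℝ) + 1)) < ε ^ 2 := by
      rw [mul_one_div, div_lt_iff₀ hNpos]
      have h4 : 4 < (N : ℝ) * ε ^ 2 := by
        rwa [div_lt_iff₀ (by positivity)] at hN
      nlinarith [sq_nonneg ε]
    exact lt_of_pow_lt_pow_left₀ 2 hε.le (lt_of_le_of_lt h2 h3)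
  have hCV : ∀ s, CauchySeq fun n => V n (dl s) := by
    intro s
    have h1 : (fun n => V n (dl s)) = fun n => lam (dg s) (V n (dl 1)) := by
      funext n
      rw [← (hT n).lamV, lam_dl, mul_one]
    rw [h1]
    exact (lam (dg s)).uniformContinuous.comp_cauchySeq hC1
  have hCY : ∀ x, CauchySeq fun n => Y n (dl x) := by
    intro x
    have h1 : (fun n => Y n (dl x)) = fun n => rho x⁻¹ (V n (dl 1)) := by
      funext n
      rw [(hT n).VY, ← (hT n).rhoY, rho_dl, inv_inv, one_mul]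
    rw [h1]
    exact (rho x⁻¹).uniformContinuous.comp_cauchySeq hC1
  have hCP : ∀ x, CauchySeq fun n => P n (dl x) := by
    rintro ⟨p, q⟩
    have h1 : (fun n => P n (dl (p, q))) = fun n => slice (V n (dl p)) q := by
      funext n
      rw [dl_prod, (hT n).P_tens_dl]
    rw [h1, Metric.cauchySeq_iff']
    intro ε hε
    obtain ⟨N, hN⟩ := (Metric.cauchySeq_iff'.mp (hCV p)) ε hε
    refine ⟨N, fun n hn => ?_⟩
    have h2 := hN n hn
    rw [dist_eq_norm] at h2 ⊢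
    rw [← slice_sub]
    exact (norm_slice_le _ _).trans_lt h2
  obtain ⟨V₀, hV₀, hV₀n⟩ := strong_limit (fun n => (hT n).nV) hCV
  obtain ⟨Y₀, hY₀, hY₀n⟩ := strong_limit (fun n => (hT n).nY) hCY
  obtain ⟨P₀, hP₀, hP₀n⟩ := strong_limit (fun n => (hT n).nP) hCP
  refine ⟨V₀, Y₀, P₀, ⟨hV₀n, hY₀n, hP₀n, ?_, ?_, ?_, ?_, ?_, ?_, ?_, ?_⟩, ?_⟩
  · intro s f
    refine tendsto_nhds_unique (hV₀ (lam s f)) ?_
    simp only [(hT _).lamV]
    exact ((lam (dg s)).continuous.tendsto _).comp (hV₀ f)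
  · intro x f
    refine tendsto_nhds_unique (hY₀ (rho x f)) ?_
    simp only [(hT _).rhoY]
    exact ((rho x).continuous.tendsto _).comp (hY₀ f)
  · refine tendsto_nhds_unique (hV₀ (dl 1)) ?_
    simp only [(hT _).VY]
    exact hY₀ (dl 1)
  · intro d c ξ
    refine tendsto_nhds_unique ((hV₀ d).inner tendsto_const_nhds) ?_
    simp only [(hT _).compat]
    exact tendsto_const_nhds.inner (hP₀ ξ)
  · intro ξ η
    refine tendsto_nhds_unique ((hP₀ ξ).inner tendsto_const_nhds) ?_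
    simp only [(hT _).sa]
    exact tendsto_const_nhds.inner (hP₀ η)
  · intro a b c d
    refine tendsto_nhds_unique ((hV₀ d).inner tendsto_const_nhds) ?_
    have h1 : (fun n => ⟪V n d, tens c (tens a (kc b))⟫_ℂ) =
        fun n => ⟪V n d, tens a (tens c (kc b))⟫_ℂ := by
      funext n
      exact (hT n).sym1 a b c d
    rw [h1]
    exact (hV₀ d).inner tendsto_const_nhds
  · intro a b c d
    refine tendsto_nhds_unique ((hV₀ d).inner tendsto_const_nhds) ?_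
    have h1 : (fun n => ⟪V n d, tens c (tens a (kc b))⟫_ℂ) =
        fun n => ⟪V n b, tens c (tens a (kc d))⟫_ℂ := by
      funext n
      exact (hT n).sym2 a b c d
    rw [h1]
    exact (hV₀ b).inner tendsto_const_nhds
  · have h1 : Tendsto (fun n => (⟪V n (dl 1), dl 1⟫_ℂ).re) atTop
        (𝓝 (⟪V₀ (dl 1), dl 1⟫_ℂ).re) :=
      (Complex.continuous_re.tendsto _).comp ((hV₀ (dl 1)).inner tendsto_const_nhds)
    exact ge_of_tendsto' h1 fun n => (hT n).pos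
  · intro g
    have h1 : Tendsto (fun n => F.A g (F.R3 g (V n (dl 1)))) atTop
        (𝓝 (F.A g (F.R3 g (V₀ (dl 1))))) :=
      ((F.A g).continuous.tendsto _).comp (((F.R3 g).continuous.tendsto _).comp (hV₀ (dl 1)))
    have h2 : Tendsto (fun n => ‖F.A g (F.R3 g (V n (dl 1))) - V n (dl 1)‖ ^ 2) atTop (𝓝 0) := by
      refine squeeze_zero (fun _ => by positivity) (fun n => ?_)
        (g := fun n : ℕ => 4 * (1 / ((n : ℝ) + 1))) ?_
      · have h3 := minimizer hmin ((hMK n).act g) (hMK n) (ε := 1 / ((n : ℝ) + 1)) ?_ (hle n)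
        · change ‖F.R3 g (V n (F.R g⁻¹ (dl 1))) - V n (dl 1)‖ ^ 2 ≤ _ at h3
          rwa [act_one (hT n).lamV] at h3
        · change ‖F.R3 g (V n (F.R g⁻¹ (dl 1)))‖ ^ 2 ≤ _
          rw [act_one (hT n).lamV, F.norm_A, F.norm_R3]
          exact hle n
      · have := (tendsto_one_div_add_atTop_nhds_zero_nat (𝕜 := ℝ)).const_mul 4
        simpa using this
    have h3 : Tendsto (fun n => ‖F.A g (F.R3 g (V n (dl 1))) - V n (dl 1)‖ ^ 2) atTop
        (𝓝 (‖F.A g (F.R3 g (V₀ (dl 1))) - V₀ (dl 1)‖ ^ 2)) :=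
      ((h1.sub (hV₀ (dl 1))).norm).pow 2
    have h4 := tendsto_nhds_unique h3 h2
    rw [pow_eq_zero_iff two_ne_zero, norm_eq_zero, sub_eq_zero] at h4
    exact h4

end Limit

end Pool.Agent.Helper66.GV
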