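import Pool.Agent.Helper66.GV.Ext

/-!
# Root subgroups of subgroups of `PGL(n, K)`
-/

open scoped MatrixGroups
open Matrix

namespace Pool.Agent.Helper66.GV

section General

variable {G : Type*} [Group G] {A B N : Subgroup G}

theorem Triple.subgroupOf (h : Triple A B N) (Γ : Subgroup G) :
    Triple (A.subgroupOf Γ) (B.subgroupOf Γ) (N.subgroupOf Γ) where
  mem a ha b hb := by
    rw [Subgroup.mem_subgroupOf] at *
    exact h.mem a ha b hb
  sep a ha a' ha' b hb b' hb' hN := by
    rw [Subgroup.mem_subgroupOf] at *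
    have := h.sep a ha a' ha' b hb b' hb' hN
    exact ⟨Subtype.ext this.1, Subtype.ext this.2⟩
  injL a ha a' ha' b hb hb1 he := by
    rw [Subgroup.mem_subgroupOf] at *
    exact Subtype.ext (h.injL a ha a' ha' b hb (fun h1 => hb1 (Subtype.ext h1))
      (congrArg Subtype.val he))
  injR a ha b hb b' hb' ha1 he := by
    rw [Subgroup.mem_subgroupOf] at *
    exact Subtype.ext (h.injR a ha b hb b' hb' (fun h1 => ha1 (Subtype.ext h1))
      (congrArg Subtype.val he))

end General

variable {n K : Type*} [Fintype n] [DecidableEq n] [Field K]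

/-- The elementary matrix `1 + b E_ij` as an element of `PGL(n, K)`. -/
def el {i j : n} (hij : i ≠ j) (b : K) : PGL(n, K) :=
  SpecialLinearGroup.toPGL (SpecialLinearGroup.transvection hij b)

theorem el_zero {i j : n} (hij : i ≠ j) : el hij (0 : K) = 1 := by
  unfold el
  rw [SpecialLinearGroup.transvection_coeff_zero, map_one]

theorem el_add {i j : n} (hij : i ≠ j) (a b : K) : el hij (a + b) = el hij a * el hij b := by
  unfold el
  rw [SpecialLinearGroup.transvection_add, map_mul]

theorem el_neg {i j : n} (hij : i ≠ j) (a : K) : el hij (-a) = (el hij a)⁻¹ := by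
  rw [eq_inv_iff_mul_eq_one, ← el_add, neg_add_cancel, el_zero]

theorem el_pow {i j : n} (hij : i ≠ j) (a : K) (m : ℕ) : (el hij a) ^ m = el hij (m * a) := by
  induction m with
  | zero => rw [pow_zero, Nat.cast_zero, zero_mul, el_zero]
  | succ m ih => rw [pow_succ, ih, Nat.cast_succ, add_mul, one_mul, el_add]

/-- The root subgroup `U_ij = {1 + b E_ij : b ∈ K}` of `PGL(n, K)`. -/
def rootGroup (K : Type*) [Field K] {i j : n} (hij : i ≠ j) : Subgroup (PGL(n, K)) where
  carrier := Set.range (el (K := K) hij)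
  mul_mem' := by
    rintro _ _ ⟨a, rfl⟩ ⟨b, rfl⟩
    exact ⟨a + b, el_add hij a b⟩
  one_mem' := ⟨0, el_zero hij⟩
  inv_mem' := by
    rintro _ ⟨a, rfl⟩
    exact ⟨-a, el_neg hij a⟩

theorem mem_rootGroup {i j : n} (hij : i ≠ j) {g : PGL(n, K)} :
    g ∈ rootGroup K hij ↔ ∃ b, el hij b = g := Iff.rfl

/-- Equality in `PGL` of the images of two matrices of determinant one. -/
theorem toPGL_eq_iff {g h : SpecialLinearGroup n K} :
    SpecialLinearGroup.toPGL g = SpecialLinearGroup.toPGL h ↔
      ∃ u : Kˣ, (u : K) • (g : Matrix n n K) = (h : Matrix n n K) := by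
  rw [MonoidHom.comp_apply, MonoidHom.comp_apply, ProjGenLinGroup.mk_eq_mk_iff]
  refine exists_congr fun u => ?_
  rw [Units.ext_iff]
  have : ((SpecialLinearGroup.toGL g * GeneralLinearGroup.scalar n u : GL n K) : Matrix n n K) =
      (u : K) • (g : Matrix n n K) := by
    ext a b
    simp [mul_comm]
  rw [this]
  rfl

theorem comm_matrix {i j k : n} (hij : i ≠ j) (hjk : j ≠ k) (hik : i ≠ k) (x x' y y' : K) :
    transvection i j (-x') * transvection j k (-y') * transvection i j x * transvection j k y =
      1 + single i j (x - x') + single j k (y - y') + single i k (x * y + x' * y' - x' * y) := by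
  ext a b
  simp only [transvection, Matrix.mul_add, Matrix.add_mul, Matrix.mul_one, Matrix.one_mul,
    single_mul_single_same, single_mul_single_of_ne _ _ _ _ hij.symm,
    single_mul_single_of_ne _ _ _ _ hjk.symm, single_mul_single_of_ne _ _ _ _ hik.symm,
    Matrix.zero_mul, Matrix.add_apply, Matrix.single_apply, Matrix.zero_apply]
  split_ifs <;> ring

/-- The commutator of elements of two root subgroups. -/
theorem comm_el {i j k : n} (hij : i ≠ j) (hjk : j ≠ k) (hik : i ≠ k) (x y : K) :
    (el hij x)⁻¹ * (el hjk y)⁻¹ * el hij x * el hjk y = el hik (x * y) := by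
  rw [← el_neg, ← el_neg]
  unfold el
  rw [← map_mul, ← map_mul, ← map_mul]
  congr 1
  apply Subtype.ext
  change transvection i j (-x) * transvection j k (-y) * transvection i j x * transvection j k y =
    transvection i k (x * y)
  rw [comm_matrix hij hjk hik]
  simp [transvection]

theorem el_inj {i j : n} (hij : i ≠ j) {a b : K} (h : el hij a = el hij b) : a = b := by
  unfold el at h
  rw [toPGL_eq_iff] at h
  obtain ⟨u, hu⟩ := h
  have h1 := congrFun (congrFun hu i) i
  have h2 := congrFun (congrFun hu i) j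
  simp [SpecialLinearGroup.transvection_coe, Matrix.smul_apply, Matrix.add_apply,
    Matrix.single_apply, hij, hij.symm] at h1 h2
  rw [h1, Units.val_one, one_mul] at h2
  exact h2

theorem el_sep {i j k : n} (hij : i ≠ j) (hjk : j ≠ k) (hik : i ≠ k) {x x' y y' c : K}
    (h : (el hij x')⁻¹ * (el hjk y')⁻¹ * el hij x * el hjk y = el hik c) : x = x' ∧ y = y' := by
  rw [← el_neg, ← el_neg] at h
  unfold el at h
  rw [← map_mul, ← map_mul, ← map_mul, toPGL_eq_iff] at h
  obtain ⟨u, hu⟩ := h
  change (u : K) • (transvection i j (-x') * transvection j k (-y') * transvection i j x *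
    transvection j k y) = transvection i k c at hu
  rw [comm_matrix hij hjk hik] at hu
  have h1 := congrFun (congrFun hu i) j
  have h2 := congrFun (congrFun hu j) k
  simp [transvection, single_apply, hij, hij.symm, hik, hik.symm, hjk, hjk.symm] at h1 h2
  exact ⟨sub_eq_zero.mp h1, sub_eq_zero.mp h2⟩

/-- The root subgroups `U_ij`, `U_jk`, `U_ik` form a Heisenberg triple. -/
theorem triple_root {i j k : n} (hij : i ≠ j) (hjk : j ≠ k) (hik : i ≠ k) :
    Triple (rootGroup K hij) (rootGroup K hjk) (rootGroup K hik) where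
  mem := by
    rintro _ ⟨x, rfl⟩ _ ⟨y, rfl⟩
    exact ⟨x * y, (comm_el hij hjk hik x y).symm⟩
  sep := by
    rintro _ ⟨x, rfl⟩ _ ⟨x', rfl⟩ _ ⟨y, rfl⟩ _ ⟨y', rfl⟩ ⟨c, hc⟩
    have := el_sep hij hjk hik hc.symm
    exact ⟨congrArg _ this.1, congrArg _ this.2⟩
  injL := by
    rintro _ ⟨x, rfl⟩ _ ⟨x', rfl⟩ _ ⟨y, rfl⟩ hy he
    rw [comm_el hij hjk hik, comm_el hij hjk hik] at he
    have h1 := el_inj hik he
    have hy0 : y ≠ 0 := by
      rintro rfl
      exact hy (el_zero hjk)
    rw [mul_right_cancel₀ hy0 h1]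
  injR := by
    rintro _ ⟨x, rfl⟩ _ ⟨y, rfl⟩ _ ⟨y', rfl⟩ hx he
    rw [comm_el hij hjk hik, comm_el hij hjk hik] at he
    have h1 := el_inj hik he
    have hx0 : x ≠ 0 := by
      rintro rfl
      exact hx (el_zero hij)
    rw [mul_left_cancel₀ hx0 h1]

/-- An element of `PGL(n, K)` (`K` of characteristic zero) which commutes with nontrivial elements
of all root subgroups is trivial. -/
theorem eq_one_of_commute [CharZero K] (g : PGL(n, K))
    (hg : ∀ (i j : n) (hij : i ≠ j), ∃ c : K, c ≠ 0 ∧ g * el hij c = el hij c * g) : g = 1 := by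
  obtain ⟨h, rfl⟩ := ProjGenLinGroup.mk_surjective g
  rw [ProjGenLinGroup.mk_eq_one, GeneralLinearGroup.mem_center_iff_val_mem_range_scalar]
  apply mem_range_scalar_of_commute_single
  intro i j hij
  obtain ⟨c, hc, hcomm⟩ := hg i j hij
  unfold el at hcomm
  rw [MonoidHom.comp_apply, ← map_mul, ← map_mul, ProjGenLinGroup.mk_eq_mk_iff] at hcomm
  obtain ⟨u, hu⟩ := hcomm
  have hu1 : (u : K) • ((h : Matrix n n K) * transvection i j c) =
      transvection i j c * (h : Matrix n n K) := by
    have h1 := congrArg (fun x : GL n K => (x : Matrix n n K)) hu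
    simp only [Units.val_mul] at h1
    have h2 : ((SpecialLinearGroup.toGL (SpecialLinearGroup.transvection hij c) : GL n K) :
      Matrix n n K) = transvection i j c := rfl
    rw [h2] at h1
    rw [← h1]
    ext a b
    simp [mul_comm]
  have hne : Nonempty n := ⟨i⟩
  have htr : trace (transvection i j c) = (Fintype.card n : K) := by
    simp [transvection, trace_add, hij]
  have hu2 : (u : K) = 1 := by
    have h3 : (u : K) • ((h : Matrix n n K) * transvection i j c *
        ((h⁻¹ : GL n K) : Matrix n n K)) = transvection i j c := by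
      rw [← Matrix.smul_mul, hu1, Matrix.mul_assoc, ← Units.val_mul, mul_inv_cancel]
      simp
    have h4 := congrArg trace h3
    rw [trace_smul, trace_mul_comm, ← Matrix.mul_assoc, ← Units.val_mul, inv_mul_cancel,
      Units.val_one, Matrix.one_mul, htr, smul_eq_mul] at h4
    have h5 : (Fintype.card n : K) ≠ 0 := by
      rw [Nat.cast_ne_zero]
      exact Fintype.card_ne_zero
    exact mul_right_cancel₀ h5 (h4.trans (one_mul _).symm)
  rw [hu2, one_smul] at hu1
  unfold transvection at hu1
  rw [Matrix.mul_add, Matrix.add_mul, Matrix.mul_one, Matrix.one_mul, add_right_inj] at hu1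
  have h6 : single i j (1 : K) = c⁻¹ • single i j c := by
    rw [smul_single, smul_eq_mul, inv_mul_cancel₀ hc]
  rw [h6]
  change c⁻¹ • single i j c * (h : Matrix n n K) = (h : Matrix n n K) * c⁻¹ • single i j c
  rw [Matrix.smul_mul, Matrix.mul_smul, hu1]

end Pool.Agent.Helper66.GV
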