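import Pool.Agent.Helper66.GV.Lim
import Mathlib.Analysis.InnerProductSpace.Spectrum

/-!
# Hilbert–Schmidt operators given by square summable kernels
-/

open scoped lp ENNReal InnerProductSpace
open Filter Topology

namespace Pool.Agent.Helper66.GV

variable {A : Type*}

/-- The function underlying the operator with kernel `ξ`. -/
noncomputable def OpFun (ξ : HS (A × A)) (c : HS A) : HS A :=
  mkHS (fun i => ⟪kc c, slice ξ i⟫_ℂ) (by
    refine Summable.of_nonneg_of_le (fun _ => by positivity) (fun i => ?_)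
      ((hasSum_slice ξ).summable.mul_left (‖c‖ ^ 2))
    rw [← mul_pow]
    have := norm_inner_le_norm (𝕜 := ℂ) (kc c) (slice ξ i)
    rw [norm_kj] at this
    gcongr)

theorem OpFun_apply (ξ : HS (A × A)) (c : HS A) (i : A) : OpFun ξ c i = ⟪kc c, slice ξ i⟫_ℂ := rfl

theorem OpFun_norm_le (ξ : HS (A × A)) (c : HS A) : ‖OpFun ξ c‖ ≤ ‖ξ‖ * ‖c‖ := by
  have h1 := hs_norm_sq (OpFun ξ c)
  have h2 := (hasSum_slice ξ).mul_left (‖c‖ ^ 2)
  have h3 : ‖OpFun ξ c‖ ^ 2 ≤ ‖c‖ ^ 2 * ‖ξ‖ ^ 2 := by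
    refine hasSum_le (fun i => ?_) h1 h2
    rw [← mul_pow]
    have := norm_inner_le_norm (𝕜 := ℂ) (kc c) (slice ξ i)
    rw [norm_kj] at this
    rw [OpFun_apply]
    gcongr
  rw [← mul_pow, mul_comm] at h3
  exact (pow_le_pow_iff_left₀ (norm_nonneg _) (by positivity) two_ne_zero).mp h3

/-- The operator with kernel `ξ`. -/
noncomputable def Op (ξ : HS (A × A)) : BH A :=
  LinearMap.mkContinuous
    { toFun := OpFun ξ
      map_add' := fun c c' => ext_apply fun i => by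
        rw [hs_add_apply, OpFun_apply, OpFun_apply, OpFun_apply, map_add, inner_add_left]
      map_smul' := fun z c => ext_apply fun i => by
        rw [RingHom.id_apply, hs_smul_apply, OpFun_apply, OpFun_apply]
        have h1 : kc (z • c) = (starRingEnd ℂ) z • kc c := by
          exact (kc (A := A)).map_smulₛₗ z c
        rw [h1, inner_smul_left, starRingEnd_self_apply] } ‖ξ‖
    (OpFun_norm_le ξ)

theorem Op_apply (ξ : HS (A × A)) (c : HS A) (i : A) : Op ξ c i = ⟪kc c, slice ξ i⟫_ℂ := rfl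

theorem Op_dl (ξ : HS (A × A)) (j : A) : Op ξ (dl j) = slice (swp ξ) j := by
  apply ext_apply
  intro i
  rw [Op_apply, kj_refl_dl, inner_dl]
  rfl

theorem Op_norm_le (ξ : HS (A × A)) : ‖Op ξ‖ ≤ ‖ξ‖ :=
  LinearMap.mkContinuous_norm_le _ (norm_nonneg _) _

theorem inner_Op (ξ : HS (A × A)) (d c : HS A) : ⟪d, Op ξ c⟫_ℂ = ⟪tens d (kc c), ξ⟫_ℂ :=
  (hs_inner d (Op ξ c)).unique (inner_tens_right ξ d (kc c))

/-- The dependence on the kernel. -/
noncomputable def OpL : HS (A × A) →L[ℂ] BH A :=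
  LinearMap.mkContinuous
    { toFun := Op
      map_add' := fun ξ η => by
        apply ContinuousLinearMap.ext
        intro c
        apply ext_apply
        intro i
        change ⟪kc c, slice (ξ + η) i⟫_ℂ = ⟪kc c, slice ξ i⟫_ℂ + ⟪kc c, slice η i⟫_ℂ
        rw [slice_add, inner_add_right]
      map_smul' := fun z ξ => by
        apply ContinuousLinearMap.ext
        intro c
        apply ext_apply
        intro i
        change ⟪kc c, slice (z • ξ) i⟫_ℂ = z * ⟪kc c, slice ξ i⟫_ℂ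
        rw [slice_smul, inner_smul_right] } 1
    (fun ξ => by
      rw [one_mul]
      exact Op_norm_le ξ)

theorem OpL_apply (ξ : HS (A × A)) : OpL ξ = Op ξ := rfl

theorem Op_dl_compact (x : A × A) : IsCompactOperator (Op (dl x : HS (A × A))) := by
  obtain ⟨i, j⟩ := x
  have h1 : Op (dl (i, j) : HS (A × A)) =
      (ContinuousLinearMap.toSpanSingleton ℂ (dl i : HS A)).comp (innerSL ℂ (dl j : HS A)) := by
    apply ContinuousLinearMap.ext
    intro c
    apply ext_inner_left ℂ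
    intro d
    rw [inner_Op, dl_prod, inner_tens]
    change _ = ⟪d, ⟪dl j, c⟫_ℂ • dl i⟫_ℂ
    rw [inner_smul_right, mul_comm]
    congr 1
    rw [inner_dl, ← kj_refl_dl j, inner_kj, inner_dl]
  rw [h1]
  have h2 : IsCompactOperator (ContinuousLinearMap.toSpanSingleton ℂ (dl i : HS A)) :=
    isCompactOperator_of_locallyCompactSpace_rng
      (ContinuousLinearMap.toSpanSingleton ℂ (dl i : HS A))
  exact h2.comp_clm (innerSL ℂ (dl j : HS A))

/-- Hilbert–Schmidt operators are compact. -/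
theorem Op_compact (ξ : HS (A × A)) : IsCompactOperator (Op ξ) := by
  have h1 := (hasSum_dl ξ).mapL OpL
  refine isCompactOperator_of_tendsto h1 (Eventually.of_forall fun s => ?_)
  have h2 : ∑ b ∈ s, OpL (ξ b • dl b) ∈ compactOperator (RingHom.id ℂ) (HS A) (HS A) := by
    refine Submodule.sum_mem _ fun b _ => ?_
    rw [map_smul]
    exact Submodule.smul_mem _ _ (Op_dl_compact b)
  exact h2

section Top

variable {T : BH A}

/-- Positive operators: the kernel of the quadratic form is the kernel of the operator. -/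
theorem eq_zero_of_form {S : BH A} (hS : ∀ x y, ⟪S x, y⟫_ℂ = ⟪x, S y⟫_ℂ)
    (hp : ∀ x, 0 ≤ (⟪x, S x⟫_ℂ).re) {x : HS A} (hx : (⟪x, S x⟫_ℂ).re = 0) : S x = 0 := by
  -- `0 ≤ ⟨x - t S x, S (x - t S x)⟩ = - 2 t ‖S x‖² + t² ⟨S x, S S x⟩`
  by_contra h0
  set y := S x with hy
  have hy0 : 0 < ‖y‖ := norm_pos_iff.mpr h0
  set β := (⟪y, S y⟫_ℂ).re with hβ
  have hβ0 : 0 ≤ β := hp y
  have key : ∀ t : ℝ, 0 ≤ - 2 * t * ‖y‖ ^ 2 + t ^ 2 * β := by
    intro t
    have h1 := hp (x - (t : ℂ) • y)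
    have h2 : ⟪x - (t : ℂ) • y, S (x - (t : ℂ) • y)⟫_ℂ =
        ⟪x, S x⟫_ℂ - t * ⟪y, y⟫_ℂ - t * ⟪y, y⟫_ℂ + t * (t * ⟪y, S y⟫_ℂ) := by
      rw [map_sub, map_smul, inner_sub_left, inner_sub_right, inner_sub_right, inner_smul_right,
        inner_smul_left, inner_smul_left, inner_smul_right, Complex.conj_ofReal, ← hS x y, ← hy]
      ring
    rw [h2, inner_self_eq_norm_sq_to_K] at h1
    have h3 : (⟪x, S x⟫_ℂ - t * ((‖y‖ : ℂ) ^ 2) - t * ((‖y‖ : ℂ) ^ 2) +
        t * (t * ⟪y, S y⟫_ℂ)).re = - 2 * t * ‖y‖ ^ 2 + t ^ 2 * β := by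
      have h4 : (t : ℂ) * ((‖y‖ : ℂ) ^ 2) = ((t * ‖y‖ ^ 2 : ℝ) : ℂ) := by push_cast; ring
      have h5 : (t : ℂ) * ((t : ℂ) * ⟪y, S y⟫_ℂ) = ((t ^ 2 : ℝ) : ℂ) * ⟪y, S y⟫_ℂ := by
        push_cast
        ring
      rw [h4, h5, Complex.add_re, Complex.sub_re, Complex.sub_re, hx, Complex.ofReal_re,
        Complex.re_ofReal_mul]
      ring
    exact h3 ▸ h1
  have h1 := key (‖y‖ ^ 2 / (β + 1))
  have h2 : - 2 * (‖y‖ ^ 2 / (β + 1)) * ‖y‖ ^ 2 + (‖y‖ ^ 2 / (β + 1)) ^ 2 * β =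
      (‖y‖ ^ 2) ^ 2 / (β + 1) ^ 2 * (β - 2 * (β + 1)) := by
    field_simp
    ring
  rw [h2] at h1
  have h3 : 0 < (‖y‖ ^ 2) ^ 2 / (β + 1) ^ 2 := by positivity
  have h4 : β - 2 * (β + 1) < 0 := by linarith
  have := mul_neg_of_pos_of_neg h3 h4
  linarith

/-- The norm of a nonzero positive compact operator is an eigenvalue. -/
theorem exists_top (hc : IsCompactOperator T) (hs : ∀ x y, ⟪T x, y⟫_ℂ = ⟪x, T y⟫_ℂ)
    (hp : ∀ x, 0 ≤ (⟪x, T x⟫_ℂ).re) (h0 : T ≠ 0) :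
    ∃ b : HS A, ‖b‖ = 1 ∧ T b = (‖T‖ : ℂ) • b := by
  have hne : Nontrivial (HS A) := by
    by_contra h1
    rw [not_nontrivial_iff_subsingleton] at h1
    exact h0 (ContinuousLinearMap.ext fun x => Subsingleton.elim _ _)
  have hsym : (T : HS A →ₗ[ℂ] HS A).IsSymmetric := fun x y => hs x y
  obtain ⟨z, hz, hz'⟩ := spectrum.exists_nnnorm_eq_spectralRadius T
  rw [T.spectralRadius_eq_nnnorm hsym.isSelfAdjoint] at hz'
  have hz1 : ‖z‖ = ‖T‖ := by
    have h1 : ‖z‖₊ = ‖T‖₊ := by exact_mod_cast hz'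
    exact congrArg NNReal.toReal h1
  have hT0 : 0 < ‖T‖ := norm_pos_iff.mpr h0
  have hz0 : z ≠ 0 := by
    rw [← norm_pos_iff, hz1]
    exact hT0
  have hev := (hc.hasEigenvalue_iff_mem_spectrum hz0).mpr hz
  obtain ⟨v, hv, hv0⟩ := hev.exists_hasEigenvector
  rw [Module.End.mem_genEigenspace_one] at hv
  change T v = z • v at hv
  have h1 : ⟪v, T v⟫_ℂ = z * ((‖v‖ ^ 2 : ℝ) : ℂ) := by
    rw [hv, inner_smul_right, inner_self_eq_norm_sq_to_K]
    push_cast
    rfl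
  have hvn : 0 < ‖v‖ := norm_pos_iff.mpr hv0
  have h2 := hp v
  have h3 : (starRingEnd ℂ) ⟪v, T v⟫_ℂ = ⟪v, T v⟫_ℂ := by
    rw [inner_conj_symm, hs]
  have h4 : (starRingEnd ℂ) z = z := by
    rw [h1, map_mul, Complex.conj_ofReal] at h3
    have h5 : ((‖v‖ ^ 2 : ℝ) : ℂ) ≠ 0 := by
      rw [Complex.ofReal_ne_zero]
      positivity
    exact mul_right_cancel₀ h5 h3
  obtain ⟨r, rfl⟩ := Complex.conj_eq_iff_real.mp h4
  have h5 : 0 ≤ r := by
    rw [h1, ← Complex.ofReal_mul, Complex.ofReal_re] at h2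
    by_contra h6
    push Not at h6
    have : r * ‖v‖ ^ 2 < 0 := mul_neg_of_neg_of_pos h6 (by positivity)
    linarith
  have h6 : r = ‖T‖ := by
    rw [← hz1, Complex.norm_real, Real.norm_of_nonneg h5]
  refine ⟨((‖v‖⁻¹ : ℝ) : ℂ) • v, ?_, ?_⟩
  · rw [norm_smul, Complex.norm_real, norm_inv, norm_norm, inv_mul_cancel₀ hvn.ne']
  · rw [map_smul, hv, h6, smul_comm]

end Top

end Pool.Agent.Helper66.GV
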