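import Pool.Agent.Helper66.GV.Basic

/-!
# Products: `ℓ²(A × B)`, elementary tensors and ampliations
-/

open scoped lp ENNReal InnerProductSpace

namespace Pool.Agent.Helper66.GV

variable {A B : Type*}

theorem hs_summable (f : HS A) : Summable fun x => ‖f x‖ ^ 2 := by
  have h1 := (lp.memℓp f).summable (by norm_num)
  simpa using h1

theorem hs_norm_sq (f : HS A) : HasSum (fun x => ‖f x‖ ^ 2) (‖f‖ ^ 2) := by
  have h0 : 0 < (2 : ℝ≥0∞).toReal := by norm_num
  have h1 := lp.hasSum_norm h0 f
  have h2 : (2 : ℝ≥0∞).toReal = (2 : ℕ) := by norm_num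
  rw [h2] at h1
  simp only [Real.rpow_natCast] at h1
  exact h1

theorem hs_inner (f g : HS A) : HasSum (fun x => star (f x) * g x) ⟪f, g⟫_ℂ := by
  have h := lp.hasSum_inner (𝕜 := ℂ) f g
  have e : (fun x => star (f x) * g x) = fun x => ⟪f x, g x⟫_ℂ := by
    funext x
    rw [RCLike.inner_apply, mul_comm]
    rfl
  rw [e]
  exact h

theorem memlp_of_summable {f : A → ℂ} (h : Summable fun x => ‖f x‖ ^ 2) : Memℓp f 2 := by
  apply memℓp_gen
  simpa using h

/-- A square summable function as an element of `ℓ²`. -/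
def mkHS (f : A → ℂ) (h : Summable fun x => ‖f x‖ ^ 2) : HS A := ⟨f, memlp_of_summable h⟩

theorem mkHS_apply (f : A → ℂ) (h : Summable fun x => ‖f x‖ ^ 2) (x : A) : mkHS f h x = f x := rfl

theorem hs_add_apply (f g : HS A) (x : A) : (f + g) x = f x + g x := rfl

theorem hs_sub_apply (f g : HS A) (x : A) : (f - g) x = f x - g x := rfl

theorem hs_smul_apply (c : ℂ) (f : HS A) (x : A) : (c • f) x = c * f x := rfl

/-- Slices of a function on a product. -/
def slice (f : HS (A × B)) (a : A) : HS B :=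
  mkHS (fun b => f (a, b)) ((hs_summable f).comp_injective (Prod.mk_right_injective a))

theorem slice_apply (f : HS (A × B)) (a : A) (b : B) : slice f a b = f (a, b) := rfl

theorem hasSum_slice (f : HS (A × B)) : HasSum (fun a => ‖slice f a‖ ^ 2) (‖f‖ ^ 2) :=
  (hs_norm_sq f).prod_fiberwise fun a => hs_norm_sq (slice f a)

theorem inner_slice (f g : HS (A × B)) : HasSum (fun a => ⟪slice f a, slice g a⟫_ℂ) ⟪f, g⟫_ℂ :=
  (hs_inner f g).prod_fiberwise fun a => hs_inner (slice f a) (slice g a)

theorem ext_slice {f g : HS (A × B)} (h : ∀ a, slice f a = slice g a) : f = g := by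
  apply ext_apply
  rintro ⟨a, b⟩
  rw [← slice_apply, h, slice_apply]

/-- Glueing of a family of functions. -/
def glue (F : A → HS B) (h : Summable fun a => ‖F a‖ ^ 2) : HS (A × B) :=
  mkHS (fun p => F p.1 p.2) (by
    rw [summable_prod_of_nonneg fun _ => by positivity]
    refine ⟨fun a => hs_summable (F a), ?_⟩
    have : (fun a => ∑' b, ‖F (a, b).1 (a, b).2‖ ^ 2) = fun a => ‖F a‖ ^ 2 := by
      funext a
      exact (hs_norm_sq (F a)).tsum_eq
    rw [this]
    exact h)

theorem slice_glue (F : A → HS B) (h : Summable fun a => ‖F a‖ ^ 2) (a : A) :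
    slice (glue F h) a = F a := by
  apply ext_apply
  intro b
  rfl

theorem glue_norm_sq (F : A → HS B) (h : Summable fun a => ‖F a‖ ^ 2) :
    HasSum (fun a => ‖F a‖ ^ 2) (‖glue F h‖ ^ 2) := by
  have := hasSum_slice (glue F h)
  simpa only [slice_glue] using this

theorem slice_add (f g : HS (A × B)) (a : A) : slice (f + g) a = slice f a + slice g a :=
  ext_apply fun _ => rfl

theorem slice_smul (c : ℂ) (f : HS (A × B)) (a : A) : slice (c • f) a = c • slice f a :=
  ext_apply fun _ => rfl

/-- The ampliation `1 ⊗ T`. -/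
noncomputable def amp (T : BH B) : BH (A × B) :=
  LinearMap.mkContinuous
    { toFun := fun f => glue (fun a => T (slice f a)) (by
        refine Summable.of_nonneg_of_le (fun _ => by positivity) (fun a => ?_)
          ((hasSum_slice f).summable.mul_left (‖T‖ ^ 2))
        rw [← mul_pow]
        gcongr
        exact T.le_opNorm _)
      map_add' := fun f g => by
        apply ext_slice
        intro a
        rw [slice_glue, slice_add, slice_add, slice_glue, slice_glue, map_add]
      map_smul' := fun c f => by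
        apply ext_slice
        intro a
        rw [slice_glue, slice_smul, RingHom.id_apply, slice_smul, slice_glue, map_smul] } ‖T‖
    (fun f => by
      have h1 := glue_norm_sq (fun a => T (slice f a)) (by
        refine Summable.of_nonneg_of_le (fun _ => by positivity) (fun a => ?_)
          ((hasSum_slice f).summable.mul_left (‖T‖ ^ 2))
        rw [← mul_pow]
        gcongr
        exact T.le_opNorm _)
      have h2 := (hasSum_slice f).mul_left (‖T‖ ^ 2)
      have h3 : ‖glue (fun a => T (slice f a)) _‖ ^ 2 ≤ ‖T‖ ^ 2 * ‖f‖ ^ 2 :=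
        hasSum_le (fun a => by
          rw [← mul_pow]
          gcongr
          exact T.le_opNorm _) h1 h2
      rw [← mul_pow] at h3
      exact le_of_sq_le_sq h3 (by positivity))

theorem slice_amp (T : BH B) (f : HS (A × B)) (a : A) : slice (amp T f) a = T (slice f a) := by
  apply ext_apply
  intro b
  rfl

theorem amp_norm_le (T : BH B) : ‖(amp T : BH (A × B))‖ ≤ ‖T‖ :=
  LinearMap.mkContinuous_norm_le _ (norm_nonneg _) _

theorem amp_mul (S T : BH B) : (amp (S * T) : BH (A × B)) = amp S * amp T := by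
  apply ContinuousLinearMap.ext
  intro f
  apply ext_slice
  intro a
  rw [slice_amp, mul_apply_eq_comp, mul_apply_eq_comp, slice_amp, slice_amp]

theorem amp_one : (amp (1 : BH B) : BH (A × B)) = 1 := by
  apply ContinuousLinearMap.ext
  intro f
  apply ext_slice
  intro a
  rw [slice_amp]
  rfl

theorem amp_star (T : BH B) : (amp (star T) : BH (A × B)) = star (amp T) := by
  rw [ContinuousLinearMap.star_eq_adjoint (amp T), ContinuousLinearMap.eq_adjoint_iff]
  intro f g
  have h1 := inner_slice (amp (star T) f) g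
  have h2 := inner_slice f (amp T g)
  apply h1.unique
  convert h2 using 2 with a
  rw [slice_amp, slice_amp, ContinuousLinearMap.star_eq_adjoint,
    ContinuousLinearMap.adjoint_inner_left]

/-- Elementary tensors. -/
noncomputable def tens (a : HS A) (b : HS B) : HS (A × B) :=
  glue (fun x => a x • b) (by
    simp only [norm_smul, mul_pow]
    exact (hs_summable a).mul_right _)

theorem tens_apply (a : HS A) (b : HS B) (x : A) (y : B) : tens a b (x, y) = a x * b y := rfl

theorem slice_tens (a : HS A) (b : HS B) (x : A) : slice (tens a b) x = a x • b :=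
  ext_apply fun _ => rfl

theorem tens_add_left (a a' : HS A) (b : HS B) : tens (a + a') b = tens a b + tens a' b := by
  apply ext_apply
  rintro ⟨x, y⟩
  rw [hs_add_apply, tens_apply, tens_apply, tens_apply, hs_add_apply, add_mul]

theorem tens_add_right (a : HS A) (b b' : HS B) : tens a (b + b') = tens a b + tens a b' := by
  apply ext_apply
  rintro ⟨x, y⟩
  rw [hs_add_apply, tens_apply, tens_apply, tens_apply, hs_add_apply, mul_add]

theorem tens_smul_left (c : ℂ) (a : HS A) (b : HS B) : tens (c • a) b = c • tens a b := by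
  apply ext_apply
  rintro ⟨x, y⟩
  rw [hs_smul_apply, tens_apply, tens_apply, hs_smul_apply, mul_assoc]

theorem tens_smul_right (c : ℂ) (a : HS A) (b : HS B) : tens a (c • b) = c • tens a b := by
  apply ext_apply
  rintro ⟨x, y⟩
  rw [hs_smul_apply, tens_apply, tens_apply, hs_smul_apply, mul_left_comm]

theorem inner_tens_right (f : HS (A × B)) (a : HS A) (b : HS B) :
    HasSum (fun x => star (a x) * ⟪b, slice f x⟫_ℂ) ⟪tens a b, f⟫_ℂ := by
  have h := inner_slice (tens a b) f
  convert h using 2 with x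
  rw [slice_tens, inner_smul_left]
  rfl

theorem inner_tens (a a' : HS A) (b b' : HS B) :
    ⟪tens a b, tens a' b'⟫_ℂ = ⟪a, a'⟫_ℂ * ⟪b, b'⟫_ℂ := by
  have h := inner_tens_right (tens a' b') a b
  have h2 := (hs_inner a a').mul_right ⟪b, b'⟫_ℂ
  have e : (fun x => star (a x) * ⟪b, slice (tens a' b') x⟫_ℂ) =
      fun x => star (a x) * a' x * ⟪b, b'⟫_ℂ := by
    funext x
    rw [slice_tens, inner_smul_right, mul_assoc]
  rw [e] at h
  exact h.unique h2

theorem sq_inj {x y : ℝ} (hx : 0 ≤ x) (hy : 0 ≤ y) (h : x ^ 2 = y ^ 2) : x = y :=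
  (pow_left_inj₀ hx hy two_ne_zero).mp h

theorem norm_tens (a : HS A) (b : HS B) : ‖tens a b‖ = ‖a‖ * ‖b‖ := by
  have h : ‖tens a b‖ ^ 2 = (‖a‖ * ‖b‖) ^ 2 := by
    have h1 := inner_tens a a b b
    rw [inner_self_eq_norm_sq_to_K, inner_self_eq_norm_sq_to_K, inner_self_eq_norm_sq_to_K] at h1
    have h2 : (((‖tens a b‖ ^ 2 : ℝ)) : ℂ) = ((‖a‖ ^ 2 * ‖b‖ ^ 2 : ℝ) : ℂ) := by
      push_cast
      exact h1
    have h3 := Complex.ofReal_injective h2
    rw [h3, mul_pow]
  exact sq_inj (norm_nonneg _) (by positivity) h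

theorem inner_dl_tens (x : A) (b : HS B) (f : HS (A × B)) :
    ⟪tens (dl x) b, f⟫_ℂ = ⟪b, slice f x⟫_ℂ := by
  classical
  have h := inner_tens_right f (dl x) b
  have h2 := hasSum_single (f := fun y => star (dl x y) * ⟪b, slice f y⟫_ℂ) x (fun y hy => by
    rw [dl_ne hy, star_zero, zero_mul])
  rw [h.unique h2, dl_self, star_one, one_mul]

theorem dl_prod (x : A) (y : B) : dl (x, y) = tens (dl x) (dl y) := by
  classical
  apply ext_apply
  rintro ⟨x', y'⟩
  rw [tens_apply, dl_apply, dl_apply, dl_apply]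
  by_cases h1 : x' = x <;> by_cases h2 : y' = y <;> simp [h1, h2]

theorem amp_tens (T : BH B) (a : HS A) (b : HS B) : amp T (tens a b) = tens a (T b) := by
  apply ext_slice
  intro x
  rw [slice_amp, slice_tens, slice_tens, map_smul]

/-- Reindexing of functions. -/
def rxFun (e : A ≃ B) (f : HS A) : HS B :=
  mkHS (fun x => f (e.symm x)) (e.symm.summable_iff.mpr (hs_summable f))

theorem rxFun_norm (e : A ≃ B) (f : HS A) : ‖rxFun e f‖ = ‖f‖ := by
  have h1 := hs_norm_sq (rxFun e f)
  have h2 : HasSum (fun x => ‖f (e.symm x)‖ ^ 2) (‖f‖ ^ 2) :=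
    (e.symm.hasSum_iff).mpr (hs_norm_sq f)
  exact sq_inj (norm_nonneg _) (norm_nonneg _) (h1.unique h2)

/-- Reindexing as a linear map. -/
def rxLin (e : A ≃ B) : HS A →ₗ[ℂ] HS B where
  toFun := rxFun e
  map_add' _ _ := ext_apply fun _ => rfl
  map_smul' _ _ := ext_apply fun _ => rfl

/-- Reindexing of `ℓ²`. -/
noncomputable def rx (e : A ≃ B) : HS A ≃ₗᵢ[ℂ] HS B where
  toLinearEquiv := LinearEquiv.ofLinearMap (rxLin e) (rxLin e.symm)
    (LinearMap.ext fun f => ext_apply fun x => by
      change f (e.symm.symm (e.symm x)) = f x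
      simp)
    (LinearMap.ext fun f => ext_apply fun x => by
      change f (e.symm (e x)) = f x
      simp)
  norm_map' := rxFun_norm e

theorem rx_apply (e : A ≃ B) (f : HS A) (x : B) : rx e f x = f (e.symm x) := rfl

theorem rx_symm_apply (e : A ≃ B) (f : HS B) (x : A) : (rx e).symm f x = f (e x) := rfl

theorem rx_dl (e : A ≃ B) (x : A) : rx e (dl x) = dl (e x) := by
  classical
  apply ext_apply
  intro y
  rw [rx_apply, dl_apply, dl_apply]
  congr 1
  rw [Equiv.symm_apply_eq]

/-- Two continuous linear maps which agree on the basis vectors are equal. -/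
theorem ext_dl' {E : Type*} [NormedAddCommGroup E] [NormedSpace ℂ E] {S T : HS A →L[ℂ] E}
    (h : ∀ x, S (dl x) = T (dl x)) : S = T := by
  classical
  apply ContinuousLinearMap.ext
  intro f
  have hf := lp.hasSum_single (by norm_num : (2 : ℝ≥0∞) ≠ ⊤) f
  have e : ∀ i, lp.single 2 i (f i) = f i • dl i := by
    intro i
    unfold dl
    rw [← lp.single_smul]
    simp
  simp only [e] at hf
  have h1 := hf.mapL S
  have h2 := hf.mapL T
  simp only [map_smul, h] at h1 h2
  exact h1.unique h2

theorem hasSum_dl (f : HS A) : HasSum (fun x => f x • dl x) f := by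
  classical
  have hf := lp.hasSum_single (by norm_num : (2 : ℝ≥0∞) ≠ ⊤) f
  have e : ∀ i, lp.single 2 i (f i) = f i • dl i := by
    intro i
    unfold dl
    rw [← lp.single_smul]
    simp
  simpa only [e] using hf

/-- The flip. -/
noncomputable def swp : HS (A × B) ≃ₗᵢ[ℂ] HS (B × A) := rx (Equiv.prodComm A B)

theorem swp_tens (a : HS A) (b : HS B) : swp (tens a b) = tens b a := by
  apply ext_apply
  rintro ⟨x, y⟩
  change tens a b (y, x) = _
  rw [tens_apply, tens_apply, mul_comm]

theorem swp_swp (f : HS (A × B)) : swp (swp f) = f := by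
  apply ext_apply
  rintro ⟨x, y⟩
  rfl

/-- The ampliation `S ⊗ 1`. -/
noncomputable def amp1 (S : BH A) : BH (A × B) :=
  ((swp : HS (B × A) ≃ₗᵢ[ℂ] HS (A × B)).toContinuousLinearEquiv : HS (B × A) →L[ℂ] HS (A × B)).comp
    ((amp S).comp
      ((swp : HS (A × B) ≃ₗᵢ[ℂ] HS (B × A)).toContinuousLinearEquiv : HS (A × B) →L[ℂ] HS (B × A)))

theorem amp1_apply (S : BH A) (f : HS (A × B)) : amp1 S f = swp (amp S (swp f)) := rfl

theorem amp1_tens (S : BH A) (a : HS A) (b : HS B) : amp1 S (tens a b) = tens (S a) b := by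
  rw [amp1_apply, swp_tens, amp_tens, swp_tens]

theorem amp1_mul (S T : BH A) : (amp1 (S * T) : BH (A × B)) = amp1 S * amp1 T := by
  apply ext_dl
  rintro ⟨x, y⟩
  rw [mul_apply_eq_comp, dl_prod, amp1_tens, amp1_tens, amp1_tens, mul_apply_eq_comp]

theorem amp1_one : (amp1 (1 : BH A) : BH (A × B)) = 1 := by
  apply ext_dl
  rintro ⟨x, y⟩
  rw [dl_prod, amp1_tens]
  rfl

theorem amp1_star (S : BH A) : (amp1 (star S) : BH (A × B)) = star (amp1 S) := by
  rw [ContinuousLinearMap.star_eq_adjoint (amp1 S), ContinuousLinearMap.eq_adjoint_iff]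
  intro f g
  have e : ∀ (x : HS (A × B)) (y : HS (B × A)), ⟪swp y, x⟫_ℂ = ⟪y, swp x⟫_ℂ := by
    intro x y
    conv_lhs => rw [← swp_swp x]
    exact (swp : HS (B × A) ≃ₗᵢ[ℂ] HS (A × B)).inner_map_map y (swp x)
  rw [amp1_apply, amp1_apply, e, amp_star, ContinuousLinearMap.star_eq_adjoint,
    ContinuousLinearMap.adjoint_inner_left]
  rw [← inner_conj_symm (𝕜 := ℂ) f, e, inner_conj_symm]

theorem amp_amp1_comm (S : BH A) (T : BH B) :
    (amp T : BH (A × B)) * amp1 S = amp1 S * amp T := by
  apply ext_dl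
  rintro ⟨x, y⟩
  rw [mul_apply_eq_comp, mul_apply_eq_comp, dl_prod, amp1_tens, amp_tens, amp_tens, amp1_tens]

/-- The tensor product of two operators. -/
noncomputable def tp (S : BH A) (T : BH B) : BH (A × B) := amp1 S * amp T

theorem tp_tens (S : BH A) (T : BH B) (a : HS A) (b : HS B) :
    tp S T (tens a b) = tens (S a) (T b) := by
  unfold tp
  rw [mul_apply_eq_comp, amp_tens, amp1_tens]

theorem tp_mul (S S' : BH A) (T T' : BH B) : tp (S * S') (T * T') = tp S T * tp S' T' := by
  apply ext_dl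
  rintro ⟨x, y⟩
  rw [mul_apply_eq_comp, dl_prod, tp_tens, tp_tens, tp_tens, mul_apply_eq_comp, mul_apply_eq_comp]

theorem tp_one : tp (1 : BH A) (1 : BH B) = 1 := by
  apply ext_dl
  rintro ⟨x, y⟩
  rw [dl_prod, tp_tens]
  rfl

theorem tp_star (S : BH A) (T : BH B) : star (tp S T) = tp (star S) (star T) := by
  unfold tp
  rw [star_mul, amp1_star, amp_star, ← amp_star, ← amp1_star, amp_amp1_comm]

end Pool.Agent.Helper66.GV
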