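import Pool.Agent.Helper66.GV.Ker

/-!
# Existence of rank one projections in the range of the kernel
-/

open scoped lp ENNReal InnerProductSpace
open Filter Topology

namespace Pool.Agent.Helper66.GV

variable {A : Type*}

theorem polar (f e : HS A) : (4 : ℂ) • tens f (kc e) =
    (tens (f + e) (kc (f + e)) - tens (f - e) (kc (f - e))) +
      (Complex.I • tens (f + Complex.I • e) (kc (f + Complex.I • e)) -
        Complex.I • tens (f - Complex.I • e) (kc (f - Complex.I • e))) := by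
  apply ext_apply
  rintro ⟨x, y⟩
  change 4 * (f x * star (e y)) = ((f x + e x) * star (f y + e y) -
    (f x - e x) * star (f y - e y)) + (Complex.I * ((f x + Complex.I * e x) *
      star (f y + Complex.I * e y)) - Complex.I * ((f x - Complex.I * e x) *
        star (f y - Complex.I * e y)))
  have h1 : star Complex.I = -Complex.I := Complex.conj_I
  rw [star_add, star_sub, star_add, star_sub, star_mul', h1]
  linear_combination (2 * f x * star (e y) - 2 * e x * star (f y)) * (Complex.I_mul_I)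

namespace Krn

variable {P : BH (A × A)} {c k : ℝ} (h : Krn P c k)

include h

/-- The eigenspace of the top eigenvalue. -/
noncomputable def E (_h : Krn P c k) (a : HS A) : Submodule ℂ (HS A) :=
  Module.End.eigenspace (Op (P (tens a (kc a))) : HS A →ₗ[ℂ] HS A)
    (‖Op (P (tens a (kc a)))‖ : ℂ)

theorem mem_E {a x : HS A} : x ∈ h.E a ↔
    Op (P (tens a (kc a))) x = (‖Op (P (tens a (kc a)))‖ : ℂ) • x :=
  Module.End.mem_eigenspace_iff

theorem E_finite {a : HS A} (ha : ‖a‖ = 1) : FiniteDimensional ℂ (h.E a) := by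
  apply ContinuousLinearMap.finite_dimensional_eigenspace (Op_compact _)
  rw [Ne, Complex.ofReal_eq_zero, norm_eq_zero]
  exact h.L_ne_zero ha

theorem exists_mem_E {a : HS A} (ha : ‖a‖ = 1) : ∃ b, ‖b‖ = 1 ∧ b ∈ h.E a := by
  obtain ⟨b, hb, hb'⟩ := exists_top (Op_compact (P (tens a (kc a)))) (h.L_sa a) (h.L_pos a)
    (h.L_ne_zero ha)
  exact ⟨b, hb, h.mem_E.mpr hb'⟩

theorem E_le [Nonempty A] {a b : HS A} (ha : ‖a‖ = 1) (hb : ‖b‖ = 1) (hab : b ∈ h.E a) :
    h.E b ≤ h.E a := by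
  intro x hx
  rw [mem_E] at hx hab ⊢
  have h1 := h.L_L ha hb hab x
  rw [hx] at h1
  have h2 : (‖Op (P (tens b (kc b)))‖ : ℂ) ≠ 0 := by
    rw [Ne, Complex.ofReal_eq_zero, norm_eq_zero]
    exact h.L_ne_zero hb
  rw [map_smul, smul_comm] at h1
  exact smul_right_injective (HS A) h2 h1

/-- There is a rank one projection in the range of the kernel. -/
theorem exists_rank_one [Nonempty A] :
    ∃ b : HS A, ‖b‖ = 1 ∧ P (tens b (kc b)) = (c : ℂ) • tens b (kc b) := by
  obtain ⟨i⟩ := ‹Nonempty A›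
  have : Nonempty A := ⟨i⟩
  set S : Set ℕ := {n | ∃ a : HS A, ‖a‖ = 1 ∧ Module.finrank ℂ (h.E a) = n} with hS
  have hne : S.Nonempty := ⟨_, dl i, norm_dl i, rfl⟩
  obtain ⟨a, ha, hmin⟩ := Nat.sInf_mem hne
  have hEE : ∀ b, ‖b‖ = 1 → b ∈ h.E a → h.E b = h.E a := by
    intro b hb hab
    have := h.E_finite ha
    apply Submodule.eq_of_le_of_finrank_le (h.E_le ha hb hab)
    rw [hmin]
    exact Nat.sInf_le ⟨b, hb, rfl⟩
  have hL : ∀ b, ‖b‖ = 1 → b ∈ h.E a → ∀ x ∈ h.E a,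
      Op (P (tens b (kc b))) x = (‖Op (P (tens b (kc b)))‖ : ℂ) • x := by
    intro b hb hab x hx
    rw [← hEE b hb hab, mem_E] at hx
    exact hx
  have hq : ∀ b, ‖b‖ = 1 → b ∈ h.E a → ∀ x ∈ h.E a,
      ‖P (tens x (kc b))‖ ^ 2 = c * (‖Op (P (tens b (kc b)))‖ * ‖x‖ ^ 2) := by
    intro b hb hab x hx
    rw [← h.inner_L_re, hL b hb hab x hx, inner_smul_right, inner_self_eq_norm_sq_to_K,
      Complex.re_ofReal_mul]
    congr 2
    have : ((‖x‖ : ℂ) ^ 2) = ((‖x‖ ^ 2 : ℝ) : ℂ) := by push_cast; rfl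
    change ((‖x‖ : ℂ) ^ 2).re = _
    rw [this, Complex.ofReal_re]
  obtain ⟨e, he, hea⟩ := h.exists_mem_E ha
  set μ : ℝ := ‖Op (P (tens e (kc e)))‖ with hμ
  have hμ0 : 0 < μ := norm_pos_iff.mpr (h.L_ne_zero he)
  have hc := h.cpos
  have hμe : ∀ b, ‖b‖ = 1 → b ∈ h.E a → ‖Op (P (tens b (kc b)))‖ = μ := by
    intro b hb hab
    have h1 := hq b hb hab e hea
    have h2 := hq e he hea b hab
    rw [he, one_pow, mul_one] at h1
    rw [hb, one_pow, mul_one, ← hμ] at h2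
    have h3 := h.q_symm e b
    rw [h1, h2] at h3
    exact mul_left_cancel₀ hc.ne' h3
  have hLg : ∀ v ∈ h.E a, ∀ x ∈ h.E a,
      Op (P (tens v (kc v))) x = ((μ * ‖v‖ ^ 2 : ℝ) : ℂ) • x := by
    intro v hv x hx
    by_cases hv0 : v = 0
    · have h1 : tens v (kc v) = 0 := by
        rw [hv0]
        apply ext_apply
        rintro ⟨y, y'⟩
        change (0 : ℂ) * _ = 0
        rw [zero_mul]
      rw [h1, map_zero, hv0, norm_zero]
      have h2 : Op (0 : HS (A × A)) = 0 := by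
        rw [← OpL_apply, map_zero]
      rw [h2]
      simp
    · have hvn : ‖v‖ ≠ 0 := norm_ne_zero_iff.mpr hv0
      set v' : HS A := ((‖v‖⁻¹ : ℝ) : ℂ) • v with hv'
      have hv'n : ‖v'‖ = 1 := by
        rw [hv', norm_smul, Complex.norm_real, norm_inv, norm_norm, inv_mul_cancel₀ hvn]
      have hv'E : v' ∈ h.E a := Submodule.smul_mem _ _ hv
      have h1 := hL v' hv'n hv'E x hx
      rw [hμe v' hv'n hv'E] at h1
      have h2 : v = ((‖v‖ : ℝ) : ℂ) • v' := by
        rw [hv', smul_smul, ← Complex.ofReal_mul, mul_inv_cancel₀ hvn, Complex.ofReal_one,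
          one_smul]
      have h3 : tens v (kc v) = ((‖v‖ ^ 2 : ℝ) : ℂ) • tens v' (kc v') := by
        conv_lhs => rw [h2]
        rw [(kc (A := A)).map_smulₛₗ, Complex.conj_ofReal, tens_smul_left, tens_smul_right,
          smul_smul]
        congr 1
        push_cast
        ring
      have h4 : Op (P (tens v (kc v))) = ((‖v‖ ^ 2 : ℝ) : ℂ) • Op (P (tens v' (kc v'))) := by
        rw [h3, map_smul, ← OpL_apply, map_smul, OpL_apply]
      rw [h4, smul_apply, h1, smul_smul]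
      congr 1
      push_cast
      ring
  -- the eigenspace is one-dimensional
  have h1d : ∀ f ∈ h.E a, ⟪e, f⟫_ℂ = 0 → f = 0 := by
    intro f hf hef
    by_contra hf0
    have hfe : ⟪f, e⟫_ℂ = 0 := by rw [← inner_conj_symm, hef, map_zero]
    have h1 : ∀ v ∈ h.E a, ⟪tens f (kc e), P (tens v (kc v))⟫_ℂ = 0 := by
      intro v hv
      rw [← inner_Op, hLg v hv e hea, inner_smul_right, hfe, mul_zero]
    have h2 : (4 : ℂ) * ⟪tens f (kc e), P (tens f (kc e))⟫_ℂ = 0 := by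
      have key : ∀ t₁ t₂ t₃ t₄ : HS (A × A),
          ⟪tens f (kc e), P ((t₁ - t₂) + (Complex.I • t₃ - Complex.I • t₄))⟫_ℂ =
            (⟪tens f (kc e), P t₁⟫_ℂ - ⟪tens f (kc e), P t₂⟫_ℂ) +
              (Complex.I * ⟪tens f (kc e), P t₃⟫_ℂ - Complex.I * ⟪tens f (kc e), P t₄⟫_ℂ) := by
        intro t₁ t₂ t₃ t₄
        rw [map_add, map_sub, map_sub, map_smul, map_smul, inner_add_right, inner_sub_right,
          inner_sub_right, inner_smul_right, inner_smul_right]
      rw [← inner_smul_right, ← map_smul, polar, key,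
        h1 _ (Submodule.add_mem _ hf hea), h1 _ (Submodule.sub_mem _ hf hea),
        h1 _ (Submodule.add_mem _ hf (Submodule.smul_mem _ _ hea)),
        h1 _ (Submodule.sub_mem _ hf (Submodule.smul_mem _ _ hea))]
      ring
    have h3 : ⟪tens f (kc e), P (tens f (kc e))⟫_ℂ = 0 :=
      (mul_eq_zero.mp h2).resolve_left (by norm_num)
    have h4 := h.q_eq f e
    rw [h3, mul_zero, hq e he hea f hf] at h4
    have h5 : c * (μ * ‖f‖ ^ 2) = 0 := by exact_mod_cast h4
    have hfn : 0 < ‖f‖ := norm_pos_iff.mpr hf0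
    have : 0 < c * (μ * ‖f‖ ^ 2) := by positivity
    linarith
  have hE1 : ∀ y ∈ h.E a, y = ⟪e, y⟫_ℂ • e := by
    intro y hy
    rw [← sub_eq_zero]
    apply h1d _ (Submodule.sub_mem _ hy (Submodule.smul_mem _ _ hea))
    rw [inner_sub_right, inner_smul_right, inner_self_eq_norm_sq_to_K, he]
    simp
  have hLe : ∀ x, Op (P (tens e (kc e))) x = ((μ : ℂ) * ⟪e, x⟫_ℂ) • e := by
    intro x
    have h1 : Op (P (tens e (kc e))) x ∈ h.E a := by
      rw [mem_E]
      exact h.L_L ha he (h.mem_E.mp hea) x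
    rw [hE1 _ h1]
    congr 1
    rw [← h.L_sa, hL e he hea e hea, ← hμ, inner_smul_left, Complex.conj_ofReal]
  have hPe : P (tens e (kc e)) = (μ : ℂ) • tens e (kc e) := by
    apply ext_apply
    rintro ⟨x, y⟩
    rw [← inner_dl (x, y), ← inner_dl (x, y), dl_prod]
    conv_lhs => rw [← kj_refl_dl y]
    rw [← inner_Op, hLe, inner_smul_right, inner_smul_right, inner_tens]
    have h1 : ⟪dl y, kc e⟫_ℂ = ⟪e, dl y⟫_ℂ := by
      rw [← kj_refl_dl y, inner_kj, kj_refl_dl]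
    rw [h1]
    ring
  have hcμ : μ = c := by
    have h1 := h.sq (tens e (kc e))
    rw [hPe, map_smul, hPe, smul_smul, smul_smul] at h1
    have h2 := congrArg (fun v => ⟪tens e (kc e), v⟫_ℂ) h1
    simp only [inner_smul_right] at h2
    have h3 : ⟪tens e (kc e), tens e (kc e)⟫_ℂ = 1 := by
      rw [inner_tens, inner_kj, inner_self_eq_norm_sq_to_K, he]
      simp
    rw [h3, mul_one, mul_one] at h2
    have h4 : μ * μ = c * μ := by exact_mod_cast h2
    exact mul_right_cancel₀ hμ0.ne' h4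
  exact ⟨e, he, by rw [hPe, hcμ]⟩

/-- Two rank one projections in the range of the kernel are equal or orthogonal. -/
theorem par {b b' : HS A} (hb : ‖b‖ = 1) (hb' : ‖b'‖ = 1)
    (h1 : P (tens b (kc b)) = (c : ℂ) • tens b (kc b))
    (h2 : P (tens b' (kc b')) = (c : ℂ) • tens b' (kc b')) :
    ⟪b, b'⟫_ℂ = 0 ∨ ∃ z : ℂ, b' = z • b := by
  by_cases h0 : ⟪b, b'⟫_ℂ = 0
  · exact Or.inl h0
  right
  have hc := h.cpos
  set r : ℝ := ‖⟪b, b'⟫_ℂ‖ with hr
  have hr0 : 0 < r := norm_pos_iff.mpr h0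
  have hr' : ‖⟪b', b⟫_ℂ‖ = r := by rw [← inner_conj_symm, RCLike.norm_conj]
  set u := P (tens b (kc b')) with hu
  have hun : ‖u‖ = c * r := by
    have h3 := h.q_eq b b'
    rw [h.sym1, h2, inner_smul_right, inner_tens, inner_kj] at h3
    have h4 : ⟪b, b'⟫_ℂ * ⟪b', b⟫_ℂ = ((r ^ 2 : ℝ) : ℂ) := by
      rw [← inner_conj_symm b' b, Complex.mul_conj, Complex.normSq_eq_norm_sq]
    rw [h4] at h3
    have h5 : ‖u‖ ^ 2 = (c * r) ^ 2 := by
      have h6 : ‖P (tens b (kc b'))‖ ^ 2 = c * (c * r ^ 2) := by exact_mod_cast h3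
      rw [hu, h6]
      ring
    exact sq_inj (norm_nonneg _) (by positivity) h5
  have hu0 : u ≠ 0 := by
    rw [← norm_pos_iff, hun]
    positivity
  have hbb : ‖tens b (kc b)‖ = 1 := by rw [norm_tens, norm_kj, hb, one_mul]
  have hbb' : ‖tens b' (kc b')‖ = 1 := by rw [norm_tens, norm_kj, hb', one_mul]
  have hne : tens b (kc b) ≠ 0 := by
    rw [← norm_pos_iff, hbb]
    exact one_pos
  have hne' : tens b' (kc b') ≠ 0 := by
    rw [← norm_pos_iff, hbb']
    exact one_pos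
  have h3 : ‖⟪tens b (kc b), u⟫_ℂ‖ = ‖tens b (kc b)‖ * ‖u‖ := by
    rw [hu, ← h.sa, h1, inner_smul_left, inner_tens, inner_kj, inner_self_eq_norm_sq_to_K, hb,
      ← hu, hun, hbb, norm_mul, norm_mul, hr']
    simp [abs_of_pos hc]
  have h4 : ‖⟪tens b' (kc b'), u⟫_ℂ‖ = ‖tens b' (kc b')‖ * ‖u‖ := by
    rw [hu, ← h.sa, h2, inner_smul_left, inner_tens, inner_kj, inner_self_eq_norm_sq_to_K, hb',
      ← hu, hun, hbb', norm_mul, norm_mul, hr']
    simp [abs_of_pos hc]
  obtain ⟨z, hz, hzu⟩ := (norm_inner_eq_norm_iff hne hu0).mp h3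
  obtain ⟨z', hz', hzu'⟩ := (norm_inner_eq_norm_iff hne' hu0).mp h4
  have h5 : tens b (kc b) = (z⁻¹ * z') • tens b' (kc b') := by
    rw [mul_smul, ← hzu', hzu, smul_smul, inv_mul_cancel₀ hz, one_smul]
  have h6 : ‖⟪tens b (kc b), tens b' (kc b')⟫_ℂ‖ = 1 := by
    have h7 : ‖z⁻¹ * z'‖ = 1 := by
      have h8 := congrArg norm h5
      rw [norm_smul, hbb, hbb', mul_one] at h8
      exact h8.symm
    rw [h5, inner_smul_left, inner_self_eq_norm_sq_to_K, hbb', norm_mul, RCLike.norm_conj, h7]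
    simp
  rw [inner_tens, inner_kj, norm_mul, hr', ← hr] at h6
  have h7 : r = 1 := by nlinarith
  have hb0 : b ≠ 0 := by
    rw [← norm_pos_iff, hb]
    exact one_pos
  have hb0' : b' ≠ 0 := by
    rw [← norm_pos_iff, hb']
    exact one_pos
  have h8 : ‖⟪b, b'⟫_ℂ‖ = ‖b‖ * ‖b'‖ := by rw [← hr, h7, hb, hb', one_mul]
  obtain ⟨y, _, hy⟩ := (norm_inner_eq_norm_iff hb0 hb0').mp h8
  exact ⟨y, hy⟩

end Krn

end Pool.Agent.Helper66.GV
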