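import Pool.Agent.Helper66.GV.Erg
import Pool.Agent.Helper66.GV.Suslin

/-!
# Root elements and almost finitely supported cyclic groups
-/

open scoped lp ENNReal InnerProductSpace MatrixGroups
open Filter Topology Matrix

namespace Pool.Agent.Helper66.GV

section Mat

variable {n K : Type*} [Fintype n] [DecidableEq n] [Field K] [CharZero K]

/-- Commuting with a root element in `PGL` means commuting with the elementary matrix. -/
theorem commute_single {h : GL n K} {i j : n} (hij : i ≠ j) {c : K} (hc : c ≠ 0)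
    (hcomm : ProjGenLinGroup.mk h * el hij c = el hij c * ProjGenLinGroup.mk h) :
    single i j (1 : K) * (h : Matrix n n K) = (h : Matrix n n K) * single i j (1 : K) := by
  unfold el at hcomm
  rw [MonoidHom.comp_apply, ← map_mul, ← map_mul, ProjGenLinGroup.mk_eq_mk_iff] at hcomm
  obtain ⟨u, hu⟩ := hcomm
  have hu1 : (u : K) • ((h : Matrix n n K) * transvection i j c) =
      transvection i j c * (h : Matrix n n K) := by
    have h1 := congrArg (fun x : GL n K => (x : Matrix n n K)) hu
    simp only [Units.val_mul] at h1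
    have h2 : ((SpecialLinearGroup.toGL (SpecialLinearGroup.transvection hij c) : GL n K) :
      Matrix n n K) = transvection i j c := rfl
    rw [h2] at h1
    rw [← h1]
    ext a b
    simp [mul_comm]
  have hne : Nonempty n := ⟨i⟩
  have htr : trace (transvection i j c) = (Fintype.card n : K) := by
    simp [transvection, trace_add, hij]
  have hu2 : (u : K) = 1 := by
    have h3 : (u : K) • ((h : Matrix n n K) * transvection i j c *
        ((h⁻¹ : GL n K) : Matrix n n K)) = transvection i j c := by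
      rw [← Matrix.smul_mul, hu1, Matrix.mul_assoc, ← Units.val_mul, mul_inv_cancel]
      simp
    have h4 := congrArg trace h3
    rw [trace_smul, trace_mul_comm, ← Matrix.mul_assoc, ← Units.val_mul, inv_mul_cancel,
      Units.val_one, Matrix.one_mul, htr, smul_eq_mul] at h4
    have h5 : (Fintype.card n : K) ≠ 0 := by
      rw [Nat.cast_ne_zero]
      exact Fintype.card_ne_zero
    exact mul_right_cancel₀ h5 (h4.trans (one_mul _).symm)
  rw [hu2, one_smul] at hu1
  unfold transvection at hu1
  rw [Matrix.mul_add, Matrix.add_mul, Matrix.mul_one, Matrix.one_mul, add_right_inj] at hu1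
  have h6 : single i j (1 : K) = c⁻¹ • single i j c := by
    rw [smul_single, smul_eq_mul, inv_mul_cancel₀ hc]
  rw [h6]
  change c⁻¹ • single i j c * (h : Matrix n n K) = (h : Matrix n n K) * c⁻¹ • single i j c
  rw [Matrix.smul_mul, Matrix.mul_smul, hu1]

omit [CharZero K] in
/-- The entries of a matrix commuting with an elementary matrix. -/
theorem entries_of_commute {M : Matrix n n K} {i j : n} (_hij : i ≠ j)
    (h : single i j (1 : K) * M = M * single i j (1 : K)) :
    (∀ s, M j s = if s = j then M i i else 0) ∧ (∀ r, r ≠ i → M r i = 0) := by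
  have key : ∀ r s, (if r = i then M j s else 0) = (if s = j then M r i else 0) := by
    intro r s
    have h1 := congrFun (congrFun h r) s
    rw [Matrix.mul_apply, Matrix.mul_apply, Finset.sum_eq_single j, Finset.sum_eq_single i] at h1
    · simp only [Matrix.single_apply, true_and, and_true] at h1
      simpa [eq_comm] using h1
    · intro b _ hb
      rw [Matrix.single_apply, if_neg (fun h2 => hb h2.1.symm), mul_zero]
    · intro h2
      exact absurd (Finset.mem_univ _) h2
    · intro b _ hb
      rw [Matrix.single_apply, if_neg (fun h2 => hb h2.2.symm), zero_mul]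
    · intro h2
      exact absurd (Finset.mem_univ _) h2
  constructor
  · intro s
    have := key i s
    rwa [if_pos rfl] at this
  · intro r hr
    have := key r j
    rw [if_neg hr, if_pos rfl] at this
    exact this.symm

/-- An element commuting with nontrivial elements of the root subgroups `U_ik` and `U_kj` for all
`k` different from `i` and `j` lies in `U_ij`. -/
theorem mem_root_of_commute (hn : 3 ≤ Fintype.card n) {i j : n} (hij : i ≠ j) (g : PGL(n, K))
    (hg : ∀ k (hki : i ≠ k) (hkj : k ≠ j), (∃ c : K, c ≠ 0 ∧ g * el hki c = el hki c * g) ∧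
      (∃ c : K, c ≠ 0 ∧ g * el hkj c = el hkj c * g)) : g ∈ rootGroup K hij := by
  obtain ⟨h, rfl⟩ := ProjGenLinGroup.mk_surjective g
  obtain ⟨k₀, hk₀⟩ : ∃ k, k ∉ ({i, j} : Finset n) := by
    by_contra h
    push Not at h
    have h1 : Fintype.card n ≤ ({i, j} : Finset n).card := by
      rw [← Finset.card_univ]
      exact Finset.card_le_card fun x _ => h x
    have h2 := Finset.card_le_two (a := i) (b := j)
    omega
  simp only [Finset.mem_insert, Finset.mem_singleton, not_or] at hk₀
  set M : Matrix n n K := (h : Matrix n n K) with hM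
  have hrow : ∀ k (_ : i ≠ k) (_ : k ≠ j), (∀ s, M k s = if s = k then M i i else 0) ∧
      (∀ s, M j s = if s = j then M k k else 0) ∧ (∀ r, r ≠ k → M r k = 0) := by
    intro k hki hkj
    obtain ⟨⟨c, hc, h1⟩, ⟨c', hc', h2⟩⟩ := hg k hki hkj
    have h3 := entries_of_commute hki (commute_single hki hc h1)
    have h4 := entries_of_commute hkj (commute_single hkj hc' h2)
    exact ⟨h3.1, h4.1, h4.2⟩
  have hk₀1 := hrow k₀ (Ne.symm hk₀.1) hk₀.2
  have hkk : M k₀ k₀ = M i i := by
    have := hk₀1.1 k₀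
    rwa [if_pos rfl] at this
  set a := M i i with ha
  have hMeq : M = a • (1 : Matrix n n K) + single i j (M i j) := by
    ext r s
    rw [Matrix.add_apply, Matrix.smul_apply, Matrix.one_apply, Matrix.single_apply, smul_eq_mul]
    by_cases hrj : r = j
    · subst hrj
      rw [hk₀1.2.1 s, hkk]
      by_cases hs : s = r
      · subst hs
        rw [if_pos rfl, if_pos rfl, if_neg (fun h2 => hij h2.1), mul_one, add_zero]
      · rw [if_neg hs, if_neg (Ne.symm hs), if_neg (fun h2 => hij h2.1), mul_zero, add_zero]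
    · by_cases hri : r = i
      · subst hri
        by_cases hs : s = r
        · subst hs
          rw [if_pos rfl, if_neg (fun h2 => hij h2.2.symm), mul_one, add_zero]
        · by_cases hsj : s = j
          · subst hsj
            rw [if_neg (Ne.symm hs), if_pos ⟨rfl, rfl⟩, mul_zero, zero_add]
          · rw [if_neg (Ne.symm hs), if_neg (fun h2 => hsj h2.2.symm), mul_zero, add_zero]
            exact (hrow s (Ne.symm hs) hsj).2.2 r (Ne.symm hs)
      · rw [(hrow r (Ne.symm hri) hrj).1 s]
        by_cases hs : s = r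
        · subst hs
          rw [if_pos rfl, if_pos rfl, if_neg (fun h2 => hri h2.1.symm), mul_one, add_zero]
        · rw [if_neg hs, if_neg (Ne.symm hs), if_neg (fun h2 => hri h2.1.symm), mul_zero, add_zero]
  have ha0 : a ≠ 0 := by
    intro ha0
    have h1 : (M * ((h⁻¹ : GL n K) : Matrix n n K)) k₀ k₀ = 1 := by
      rw [hM, ← Units.val_mul, mul_inv_cancel, Units.val_one, Matrix.one_apply_eq]
    rw [Matrix.mul_apply, Finset.sum_eq_zero] at h1
    · exact zero_ne_one h1
    · intro s _
      rw [hk₀1.1 s, ha0]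
      split_ifs <;> rw [zero_mul]
  rw [mem_rootGroup]
  refine ⟨M i j / a, ?_⟩
  unfold el
  rw [MonoidHom.comp_apply, ProjGenLinGroup.mk_eq_mk_iff]
  refine ⟨Units.mk0 a ha0, ?_⟩
  rw [Units.ext_iff]
  change transvection i j (M i j / a) * _ = M
  rw [hMeq]
  ext r s
  simp only [transvection, Matrix.add_apply, Matrix.smul_apply, Matrix.one_apply,
    Matrix.single_apply, smul_eq_mul, GeneralLinearGroup.coe_scalar, Matrix.scalar_apply,
    Matrix.mul_diagonal, Units.val_mk0]
  rw [add_mul]
  congr 1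
  · ring
  · simp only [hij, if_false, mul_zero, zero_add, and_self, if_true]
    split_ifs
    · field_simp
    · rw [zero_mul]

omit [CharZero K] in
theorem el_comm_row {i j k : n} (hij : i ≠ j) (hik : i ≠ k) (a b : K) :
    el hij a * el hik b = el hik b * el hij a := by
  unfold el
  rw [← map_mul, ← map_mul]
  congr 1
  apply Subtype.ext
  change transvection i j a * transvection i k b = transvection i k b * transvection i j a
  simp only [transvection, Matrix.mul_add, Matrix.add_mul, Matrix.mul_one, Matrix.one_mul,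
    single_mul_single_of_ne _ _ _ _ hij.symm, single_mul_single_of_ne _ _ _ _ hik.symm]
  abel

omit [CharZero K] in
theorem el_comm_col {i j k : n} (hik : i ≠ k) (hjk : j ≠ k) (a b : K) :
    el hik a * el hjk b = el hjk b * el hik a := by
  unfold el
  rw [← map_mul, ← map_mul]
  congr 1
  apply Subtype.ext
  change transvection i k a * transvection j k b = transvection j k b * transvection i k a
  simp only [transvection, Matrix.mul_add, Matrix.add_mul, Matrix.mul_one, Matrix.one_mul,
    single_mul_single_of_ne _ _ _ _ hik.symm, single_mul_single_of_ne _ _ _ _ hjk.symm]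
  abel

omit [CharZero K] in
theorem el_two_inj {i j k : n} (hij : i ≠ j) (hik : i ≠ k) (hjk : j ≠ k) {a b a' b' : K}
    (h : el hij a * el hik b = el hij a' * el hik b') : a = a' ∧ b = b' := by
  unfold el at h
  rw [← map_mul, ← map_mul, toPGL_eq_iff] at h
  obtain ⟨u, hu⟩ := h
  change (u : K) • (transvection i j a * transvection i k b) =
    transvection i j a' * transvection i k b' at hu
  have h0 := congrFun (congrFun hu i) i
  have h1 := congrFun (congrFun hu i) j
  have h2 := congrFun (congrFun hu i) k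
  simp [transvection, Matrix.mul_add, Matrix.add_mul, single_mul_single_of_ne _ _ _ _ hij.symm,
    Matrix.add_apply, hij, hij.symm, hik, hik.symm, hjk,
    hjk.symm] at h0 h1 h2
  rw [h0, Units.val_one, one_mul] at h1 h2
  exact ⟨h1, h2⟩

omit [CharZero K] in
/-- Conjugation of a root element by another one. -/
theorem el_conj {i j k : n} (hij : i ≠ j) (hjk : j ≠ k) (hik : i ≠ k) (x y : K) :
    (el hjk y)⁻¹ * el hij x * el hjk y = el hij x * el hik (x * y) := by
  rw [← comm_el hij hjk hik]
  group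

end Mat

section Frames

variable {n K : Type*} [Fintype n] [DecidableEq n] [Field K] [CharZero K]
  {Γ : Subgroup (PGL(n, K))} {L : Type*} [Group L] {F : Fr Γ L}

/-- The group contains a nontrivial element of each root subgroup. -/
def HasRoots (Γ : Subgroup (PGL(n, K))) : Prop :=
  ∀ (i j : n) (hij : i ≠ j), ∃ c : K, c ≠ 0 ∧ el hij c ∈ Γ

omit [CharZero K] in
theorem zpowers_comm {G : Type*} [Group G] {d e : G} (h : d * e = e * d) {c : G}
    (hc : c ∈ Subgroup.zpowers d) : ∀ g ∈ (Subgroup.zpowers e : Set G), c * g = g * c := by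
  rintro _ ⟨m, rfl⟩
  obtain ⟨k, rfl⟩ := hc
  have h1 : Commute d e := h
  exact (h1.zpow_zpow k m).eq

theorem co_zero_of_no_commute {e g : Γ} {i k : n} (hik : i ≠ k) {γ : K} (hγ : γ ≠ 0)
    (hγΓ : el hik γ ∈ Γ) (hcomm : (⟨el hik γ, hγΓ⟩ : Γ) * e = e * ⟨el hik γ, hγΓ⟩)
    (hno : ¬ ∃ c : K, c ≠ 0 ∧ (g : PGL(n, K)) * el hik c = el hik c * g) :
    co F (pj F (Subgroup.zpowers e : Set Γ)) g = 0 := by
  set d : Γ := ⟨el hik γ, hγΓ⟩ with hd
  apply co_eq_zero (pj_vN _) (C := (Subgroup.zpowers d : Set Γ))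
  · intro c hc
    exact pj_X_comm (zpowers_comm hcomm hc)
  · have h1 : (fun c : Γ => c⁻¹ * g * c) '' (Subgroup.zpowers d : Set Γ) =
        Set.range fun m : ℤ => (d ^ m)⁻¹ * g * d ^ m := by
      ext y
      constructor
      · rintro ⟨_, ⟨m, rfl⟩, rfl⟩
        exact ⟨m, rfl⟩
      · rintro ⟨m, rfl⟩
        exact ⟨d ^ m, ⟨m, rfl⟩, rfl⟩
    rw [h1]
    apply Set.infinite_range_of_injective
    intro m m' hmm
    by_contra hne
    apply hno
    refine ⟨((m - m' : ℤ) : K) * γ, ?_, ?_⟩
    · apply mul_ne_zero _ hγ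
      rw [Int.cast_ne_zero]
      omega
    · rw [el_zsmul]
      have h2 : g * d ^ (m - m') = d ^ (m - m') * g := by
        simp only at hmm
        have h3 : g = d ^ m * ((d ^ m')⁻¹ * g * d ^ m') * (d ^ m)⁻¹ := by
          rw [← hmm]
          group
        rw [_root_.zpow_sub]
        calc g * (d ^ m * (d ^ m')⁻¹) =
            (d ^ m * ((d ^ m')⁻¹ * g * d ^ m') * (d ^ m)⁻¹) * (d ^ m * (d ^ m')⁻¹) := by rw [← h3]
          _ = d ^ m * (d ^ m')⁻¹ * g := by group
      have h3 := congrArg (Subtype.val) h2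
      simpa [hd] using h3

/-- The projection attached to a root element is supported on the root subgroup. -/
theorem supp_root (hn : 3 ≤ Fintype.card n) (hΓ : HasRoots Γ) {i j : n} (hij : i ≠ j) {β : K}
    (hβ : el hij β ∈ Γ) {g : Γ} (hg : (g : PGL(n, K)) ∉ rootGroup K hij) :
    co F (pj F (Subgroup.zpowers (⟨el hij β, hβ⟩ : Γ) : Set Γ)) g = 0 := by
  by_contra hne
  apply hg
  apply mem_root_of_commute hn hij
  intro k hki hkj
  obtain ⟨γ, hγ, hγΓ⟩ := hΓ i k hki
  obtain ⟨γ', hγ', hγΓ'⟩ := hΓ k j hkj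
  constructor
  · by_contra hno
    apply hne
    apply co_zero_of_no_commute hki hγ hγΓ _ hno
    apply Subtype.ext
    exact el_comm_row hki hij γ β
  · by_contra hno
    apply hne
    apply co_zero_of_no_commute hkj hγ' hγΓ' _ hno
    apply Subtype.ext
    exact el_comm_col hkj hij γ' β

/-- The image of one root element determines the next one. -/
theorem step_row (hn : 3 ≤ Fintype.card n) (hΓ : HasRoots Γ) {i j l : n} (hij : i ≠ j)
    (hjl : j ≠ l) (hil : i ≠ l) {β γ : K} (hβ : el hij β ∈ Γ) (hγ : el hjl γ ∈ Γ)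
    (hγ0 : γ ≠ 0) (hβγ : el hil (β * γ) ∈ Γ)
    (h0 : pj F (Subgroup.zpowers (⟨el hij β, hβ⟩ : Γ) : Set Γ) (dl 1) ≠ 0) :
    AFs (Orb F (Subgroup.zpowers (⟨el hil (β * γ), hβγ⟩ : Γ) : Set Γ) (dl 1)) := by
  set e : Γ := ⟨el hij β, hβ⟩ with he
  set d : Γ := ⟨el hjl γ, hγ⟩ with hd
  set c : Γ := ⟨el hil (β * γ), hβγ⟩ with hc
  set p := pj F (Subgroup.zpowers e : Set Γ) with hp
  set p' := pj F (Subgroup.zpowers c : Set Γ) with hp'
  have hce : c * e = e * c := Subtype.ext (el_comm_row hil hij (β * γ) β)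
  -- the commutator relation
  have hcomm : ∀ (m : ℤ) (k : ℕ), c ^ (m * k) = (e ^ m)⁻¹ * (d ^ k)⁻¹ * e ^ m * d ^ k := by
    intro m k
    apply Subtype.ext
    push_cast
    change (el hil (β * γ)) ^ (m * k) = ((el hij β) ^ m)⁻¹ * ((el hjl γ) ^ k)⁻¹ *
      (el hij β) ^ m * (el hjl γ) ^ k
    rw [el_pow, ← el_zsmul, ← el_zsmul, comm_el hij hjl hil]
    congr 1
    push_cast
    ring
  have hpX : ∀ m : ℤ, F.X (e ^ m) * p = p * F.X (e ^ m) := by
    intro m
    apply pj_X_comm
    exact zpowers_comm rfl ⟨m, rfl⟩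
  have hpXc : ∀ m : ℤ, F.X (c ^ m) * p = p * F.X (c ^ m) := by
    intro m
    apply pj_X_comm
    exact zpowers_comm hce ⟨m, rfl⟩
  have hmain : p' (dl 1) = dl 1 := by
    refine zero_one (F := F) (p := p) (p' := p') (pj_vN _) (pj_sa _) (pj_idem _) (pj_sa _)
      (pj_idem _) (A := {g : Γ | (g : PGL(n, K)) ∈ rootGroup K hij})
      (N := {g : Γ | (g : PGL(n, K)) ∈ rootGroup K hil}) (fun g hg => supp_root hn hΓ hij hβ hg)
      (fun g hg => supp_root hn hΓ hil hβγ hg) ?_ (b := fun k => (d ^ (k + 1))⁻¹) ?_ ?_ h0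
    · rintro g ⟨a, ha⟩ ⟨b, hb⟩
      have h1 : el hij a * el hil 0 = el hij 0 * el hil b := by
        rw [el_zero, el_zero, mul_one, one_mul, ha, hb]
      have h2 := (el_two_inj hij hil hjl h1).1
      apply Subtype.ext
      rw [← ha, h2, el_zero]
      rfl
    · rintro k k' y ⟨a, ha⟩ y' ⟨a', ha'⟩ hy1 hyy
      have ha0 : a ≠ 0 := by
        rintro rfl
        apply hy1
        apply Subtype.ext
        rw [← ha, el_zero]
        rfl
      have h1 := congrArg Subtype.val hyy
      simp only [inv_inv] at h1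
      push_cast at h1
      rw [← ha, ← ha'] at h1
      change ((el hjl γ) ^ (k + 1))⁻¹ * el hij a * (el hjl γ) ^ (k + 1) =
        ((el hjl γ) ^ (k' + 1))⁻¹ * el hij a' * (el hjl γ) ^ (k' + 1) at h1
      rw [el_pow, el_pow, el_conj hij hjl hil, el_conj hij hjl hil] at h1
      obtain ⟨h2, h3⟩ := el_two_inj hij hil hjl h1
      subst h2
      have h4 := mul_left_cancel₀ ha0 h3
      have h5 := mul_right_cancel₀ hγ0 h4
      have h6 : k + 1 = k' + 1 := by exact_mod_cast h5
      omega
    · intro k
      -- the vector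
      set N : ℕ := k + 1 with hN
      rw [inv_inv]
      set f₁ : HS L := p (F.X (d ^ N) (dl 1)) with hf₁
      set ζ : HS L := p (F.X (d ^ N)⁻¹ f₁) with hζ
      have hf₁K : f₁ ∈ Kb F (Subgroup.zpowers e : Set Γ) := pj_mem _ _
      have hf₁n : ‖f₁‖ ≤ 1 := by
        refine (pj_norm_le _ _).trans ?_
        rw [F.norm_X, norm_dl]
      have hS₂ := AFs_X_single (F := F) (d ^ N)⁻¹ hf₁K norm_orb
      have hS₃ := AFs.mul (𝒯 := {T | ∃ m : ℤ, F.X (e ^ m) * p = T}) (B := ‖f₁‖) ?_ ?_ ?_ hS₂ ?_
      · -- the orbit of `ζ`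
        have horb : ∀ m : ℤ, F.X (c ^ (m * N)) ζ = (F.X (e ^ (-m)) * p)
            (F.X (d ^ N)⁻¹ (F.X (e ^ m) f₁)) := by
          intro m
          have h1 : ∀ a b : Γ, F.X a (F.X b f₁) = F.X (a * b) f₁ := fun a b => by
            rw [F.map_mul]
            rfl
          have h2 : F.X (c ^ (m * N)) (F.X (d ^ N)⁻¹ f₁) =
              F.X (e ^ (-m)) (F.X (d ^ N)⁻¹ (F.X (e ^ m) f₁)) := by
            rw [h1, h1, h1, hcomm, _root_.zpow_neg]
            congr 2
            group
          calc F.X (c ^ (m * N)) ζ = p (F.X (c ^ (m * N)) (F.X (d ^ N)⁻¹ f₁)) := by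
                rw [hζ, ← mul_apply_eq_comp (F.X (c ^ (m * N))), hpXc, mul_apply_eq_comp]
            _ = p (F.X (e ^ (-m)) (F.X (d ^ N)⁻¹ (F.X (e ^ m) f₁))) := by rw [h2]
            _ = _ := by rw [← mul_apply_eq_comp p, ← hpX]
        have hrep : ζ ∈ Kb F (Subgroup.zpowers c : Set Γ) := by
          have h1 := AFs.biUnion (Finset.range N) (S := fun r => (fun f => F.X (c ^ r) f) ''
            {f | ∃ T ∈ {T | ∃ m : ℤ, F.X (e ^ m) * p = T}, ∃ g ∈ (fun f => F.X (d ^ N)⁻¹ f) ''
              Orb F (Subgroup.zpowers e : Set Γ) f₁, T g = f}) (fun r _ =>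
              AFs_X_single (F := F) (c ^ r) hS₃ (B := ‖f₁‖) ?_)
          · refine AFs.mono h1 ?_
            rintro _ ⟨_, ⟨m, rfl⟩, rfl⟩
            have hN0 : (N : ℤ) ≠ 0 := by
              rw [hN]
              positivity
            have hm := Int.emod_add_mul_ediv m N
            have hr0 := Int.emod_nonneg m hN0
            have hrN := Int.emod_lt_of_pos m (show (0 : ℤ) < N by rw [hN]; positivity)
            rw [Set.mem_iUnion₂]
            refine ⟨(m % N).toNat, ?_, F.X (c ^ ((m / N) * N)) ζ, ?_, ?_⟩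
            · rw [Finset.mem_range]
              omega
            · refine ⟨F.X (e ^ (-(m / N))) * p, ⟨-(m / N), rfl⟩, _,
                ⟨F.X (e ^ (m / N)) f₁, ⟨_, ⟨m / N, rfl⟩, rfl⟩, rfl⟩, (horb _).symm⟩
            · simp only
              rw [← mul_apply_eq_comp, ← F.map_mul]
              congr 2
              rw [← zpow_natCast, Int.toNat_of_nonneg hr0, ← _root_.zpow_add]
              congr 1
              rw [mul_comm (m / N)]
              exact hm
          · rintro _ ⟨_, ⟨m, rfl⟩, _, ⟨_, ⟨_, _, rfl⟩, rfl⟩, rfl⟩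
            rw [mul_apply_eq_comp, F.norm_X]
            refine (pj_norm_le _ _).trans ?_
            rw [F.norm_X, F.norm_X]
        exact pj_eq hrep
      · rintro _ ⟨m, rfl⟩
        exact mul_mem (F.mem _) (pj_vN _)
      · rintro _ ⟨m, rfl⟩ f
        rw [mul_apply_eq_comp, F.norm_X]
        exact pj_norm_le _ _
      · refine AFs.mono (pj_mem (F := F) (Subgroup.zpowers e : Set Γ) (dl 1)) ?_
        rintro _ ⟨_, ⟨m, rfl⟩, rfl⟩
        exact ⟨_, ⟨m, rfl⟩, rfl⟩
      · rintro _ ⟨_, ⟨_, _, rfl⟩, rfl⟩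
        rw [F.norm_X, F.norm_X]
  have h1 := pj_mem (F := F) (Subgroup.zpowers c : Set Γ) (dl 1)
  rw [← hp', hmain] at h1
  exact h1

end Frames

end Pool.Agent.Helper66.GV
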