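import Pool.Agent.Helper66.GV.HeisPj

/-!
# Conjugates of elementary matrices
-/

open scoped lp ENNReal InnerProductSpace MatrixGroups Pointwise
open Filter Topology Matrix

namespace Pool.Agent.Helper66.GV

section Commensurator

variable {n : Type*} [Fintype n] [DecidableEq n]

omit [DecidableEq n] in
/-- Clearing denominators. -/
theorem exists_den (M : Matrix n n ℚ) : ∃ d : ℕ, d ≠ 0 ∧ ∀ k : ℕ, ∃ A : Matrix n n ℤ,
    A.map (Int.castRingHom ℚ) = ((k * d : ℕ) : ℚ) • M := by
  refine ⟨∏ p : n × n, (M p.1 p.2).den, ?_, fun k => ?_⟩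
  · exact Finset.prod_ne_zero_iff.mpr fun p _ => (M p.1 p.2).den_ne_zero
  · have h1 : ∀ i j, ∃ z : ℤ, (z : ℚ) = ((k * ∏ p : n × n, (M p.1 p.2).den : ℕ) : ℚ) * M i j := by
      intro i j
      obtain ⟨c, hc⟩ := Finset.dvd_prod_of_mem (fun p : n × n => (M p.1 p.2).den)
        (Finset.mem_univ (i, j))
      refine ⟨k * c * (M i j).num, ?_⟩
      rw [hc]
      push_cast
      have h2 := Rat.mul_den_eq_num (M i j)
      linear_combination (-(k : ℚ) * c) * h2
    choose A hA using h1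
    refine ⟨Matrix.of A, ?_⟩
    ext i j
    simp only [Matrix.map_apply, Matrix.of_apply, Matrix.smul_apply, smul_eq_mul]
    exact hA i j

theorem conj_mem_range (f : GL n ℚ) : ∃ N : ℕ, N ≠ 0 ∧ ∀ A : SpecialLinearGroup n ℤ,
    A ∈ (SpecialLinearGroup.map (Int.castRingHom (ZMod N)) :
      SpecialLinearGroup n ℤ →* SpecialLinearGroup n (ZMod N)).ker →
    (ProjGenLinGroup.mk f)⁻¹ * intHom n A * ProjGenLinGroup.mk f ∈ (intHom n).range := by
  obtain ⟨d, hd, hF⟩ := exists_den (f : Matrix n n ℚ)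
  obtain ⟨d', hd', hF'⟩ := exists_den ((f⁻¹ : GL n ℚ) : Matrix n n ℚ)
  obtain ⟨F, hF⟩ := hF 1
  obtain ⟨F', hF'⟩ := hF' 1
  rw [one_mul] at hF hF'
  refine ⟨d * d', mul_ne_zero hd hd', fun A hA => ?_⟩
  rw [MonoidHom.mem_ker] at hA
  have h1 : ∀ i j, ∃ x : ℤ, A i j = (1 : Matrix n n ℤ) i j + (d * d' : ℕ) * x := by
    intro i j
    have h2 : ((A i j : ℤ) : ZMod (d * d')) = (((1 : Matrix n n ℤ) i j : ℤ) : ZMod (d * d')) := by
      have h3 := congrArg (fun B : SpecialLinearGroup n (ZMod (d * d')) => B i j) hA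
      change ((A i j : ℤ) : ZMod (d * d')) = (1 : Matrix n n (ZMod (d * d'))) i j at h3
      rw [h3, Matrix.one_apply, Matrix.one_apply]
      split_ifs <;> simp
    rw [ZMod.intCast_eq_intCast_iff_dvd_sub] at h2
    obtain ⟨x, hx⟩ := h2
    exact ⟨-x, by linear_combination -hx⟩
  choose X hX using h1
  set XM : Matrix n n ℤ := Matrix.of X with hXM
  have hA1 : A.1.map (Int.castRingHom ℚ) =
      1 + ((d * d' : ℕ) : ℚ) • XM.map (Int.castRingHom ℚ) := by
    ext i j
    rw [Matrix.map_apply, Matrix.add_apply, Matrix.smul_apply, Matrix.map_apply]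
    change (((A i j : ℤ)) : ℚ) = _ + _ • ((X i j : ℤ) : ℚ)
    rw [hX i j, Matrix.one_apply, Matrix.one_apply]
    split_ifs <;> push_cast <;> simp
  set B : Matrix n n ℤ := 1 + F' * XM * F with hB
  have hB1 : B.map (Int.castRingHom ℚ) = ((f⁻¹ : GL n ℚ) : Matrix n n ℚ) *
      A.1.map (Int.castRingHom ℚ) * (f : Matrix n n ℚ) := by
    rw [hB, Matrix.map_add _ (map_add _), Matrix.map_mul, Matrix.map_mul, hF, hF', hA1, mul_add,
      add_mul, mul_one, ← Units.val_mul, inv_mul_cancel, Units.val_one]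
    rw [Matrix.map_one _ (map_zero _) (map_one _)]
    congr 1
    simp only [Matrix.smul_mul, Matrix.mul_smul, smul_smul]
    push_cast
    rfl
  have hdet : B.det = 1 := by
    have h2 : ((B.det : ℤ) : ℚ) = 1 := by
      have h3 := RingHom.map_det (Int.castRingHom ℚ) B
      rw [RingHom.mapMatrix_apply, hB1, det_mul, det_mul, mul_right_comm, ← det_mul,
        ← Units.val_mul, inv_mul_cancel, Units.val_one, det_one, one_mul] at h3
      have h4 := RingHom.map_det (Int.castRingHom ℚ) A.1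
      rw [RingHom.mapMatrix_apply, A.2, map_one] at h4
      rw [← h4] at h3
      exact h3
    exact_mod_cast h2
  refine ⟨⟨B, hdet⟩, ?_⟩
  unfold intHom
  rw [MonoidHom.comp_apply, MonoidHom.comp_apply, MonoidHom.comp_apply, MonoidHom.comp_apply,
    ← map_inv, ← map_mul, ← map_mul]
  congr 1
  apply Units.ext
  exact hB1

theorem commensurable_conj_range (c : PGL(n, ℚ)) :
    (ConjAct.toConjAct c • (intHom n).range).Commensurable (intHom n).range := by
  have key : ∀ c : PGL(n, ℚ),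
      (ConjAct.toConjAct c • (intHom n).range).relIndex (intHom n).range ≠ 0 := by
    intro c
    obtain ⟨f, rfl⟩ := ProjGenLinGroup.mk_surjective c
    obtain ⟨N, hN, hK⟩ := conj_mem_range f
    have : NeZero N := ⟨hN⟩
    set K := (SpecialLinearGroup.map (Int.castRingHom (ZMod N)) :
      SpecialLinearGroup n ℤ →* SpecialLinearGroup n (ZMod N)).ker with hKdef
    have h1 : K.map (intHom n) ≤ ConjAct.toConjAct (ProjGenLinGroup.mk f) • (intHom n).range := by
      rintro _ ⟨A, hA, rfl⟩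
      rw [Subgroup.mem_pointwise_smul_iff_inv_smul_mem, ← ConjAct.toConjAct_inv,
        ConjAct.toConjAct_smul, inv_inv]
      exact hK A hA
    have h2 : (K.map (intHom n)).relIndex (intHom n).range ≠ 0 := by
      rw [MonoidHom.range_eq_map, Subgroup.relIndex_map_map, top_sup_eq,
        Subgroup.relIndex_top_right]
      have hfi : K.FiniteIndex := inferInstance
      exact (Subgroup.finiteIndex_of_le (le_sup_left : K ≤ K ⊔ (intHom n).ker)).index_ne_zero
    exact fun h0 => h2 (Nat.eq_zero_of_zero_dvd (h0 ▸ Subgroup.relIndex_dvd_of_le_left _ h1))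
  refine ⟨key c, ?_⟩
  have h1 := key c⁻¹
  rw [ConjAct.toConjAct_inv, ← Subgroup.relIndex_pointwise_smul (ConjAct.toConjAct c),
    smul_inv_smul] at h1
  exact h1

end Commensurator

section Frames

/-- Frames and isomorphisms of groups. -/
noncomputable def Fr.comapEquiv {G G' L : Type*} [Group G] [Group G'] [Group L] (F : Fr G L)
    (φ : G' ≃* G) : Fr G' L where
  X g := F.X (φ g)
  mem g := F.mem _
  map_mul g h := by rw [_root_.map_mul, F.map_mul]
  map_one := by rw [_root_.map_one, F.map_one]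
  map_star g := by rw [F.map_star, _root_.map_inv]
  tr g hg := F.tr _ (fun h => hg (by rwa [EmbeddingLike.map_eq_one_iff] at h))
  total ζ hζ := F.total ζ fun g => by
    have := hζ (φ.symm g)
    rwa [MulEquiv.apply_symm_apply] at this

theorem pj_comapEquiv {G G' L : Type*} [Group G] [Group G'] [Group L] (F : Fr G L)
    (φ : G' ≃* G) (S : Set G') : pj (F.comapEquiv φ) S = pj F (φ '' S) := by
  have h1 : Kb (F.comapEquiv φ) S = Kb F (φ '' S) := by
    ext f
    have h2 : Orb (F.comapEquiv φ) S f = Orb F (φ '' S) f := by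
      ext h
      constructor
      · rintro ⟨g, hg, rfl⟩
        exact ⟨φ g, ⟨g, hg, rfl⟩, rfl⟩
      · rintro ⟨_, ⟨g, hg, rfl⟩, rfl⟩
        exact ⟨g, hg, rfl⟩
    change AFs (Orb (F.comapEquiv φ) S f) ↔ AFs (Orb F (φ '' S) f)
    rw [h2]
  unfold pj
  congr 1

variable {n : Type*} [Fintype n] [DecidableEq n] {L : Type*} [Group L]
  {Γ : Subgroup (PGL(n, ℚ))} {F : Fr Γ L}

/-- The element is conjugate in `PGL(n, ℚ)` to an elementary matrix `1 + β E_ij`. -/
def IsTransvection (g : PGL(n, ℚ)) : Prop :=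
  ∃ (c : PGL(n, ℚ)) (i j : n) (hij : i ≠ j) (β : ℚ), g = c * el hij β * c⁻¹

/-- If the projection of a nontrivial transvection does not vanish, then the frame is conjugate to
a standard one. -/
theorem std_of_pj' (hn : 3 ≤ Fintype.card n) (hΓ : Γ.Commensurable (intHom n).range)
    {e : Γ} (he : IsTransvection (e : PGL(n, ℚ))) (he1 : e ≠ 1)
    (h0 : pj F (Subgroup.zpowers e : Set Γ) (dl 1) ≠ 0) :
    ∃ w ∈ vN (⊤ : Subgroup L), star w * w = 1 ∧ w * star w = 1 ∧
      ∀ g, ∃ (z : ℂ) (s : L), F.X g = z • (star w * lam s * w) := by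
  obtain ⟨a, i, j, hij, β, heq⟩ := he
  set φ := Subgroup.equivSMul (ConjAct.toConjAct a⁻¹) Γ with hφ
  have hφe : ((φ e : (ConjAct.toConjAct a⁻¹ • Γ : Subgroup (PGL(n, ℚ)))) : PGL(n, ℚ)) =
      el hij β := by
    change ConjAct.toConjAct a⁻¹ • (e : PGL(n, ℚ)) = _
    rw [ConjAct.toConjAct_smul, heq]
    group
  have hβ : el hij β ∈ (ConjAct.toConjAct a⁻¹ • Γ : Subgroup (PGL(n, ℚ))) := by
    rw [← hφe]
    exact (φ e).2
  have hφe' : φ.symm ⟨el hij β, hβ⟩ = e := by
    rw [MulEquiv.symm_apply_eq]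
    exact Subtype.ext hφe.symm
  have hβ0 : β ≠ 0 := by
    rintro rfl
    apply he1
    apply Subtype.ext
    rw [heq, el_zero]
    simp
  have hcomm : (ConjAct.toConjAct a⁻¹ • Γ : Subgroup (PGL(n, ℚ))).Commensurable
      (intHom n).range := (hΓ.conj _).trans (commensurable_conj_range a⁻¹)
  have key := std_of_pj (F := F.comapEquiv φ.symm) hn hcomm hij hβ hβ0 (by
    rw [pj_comapEquiv]
    have h1 : φ.symm '' (Subgroup.zpowers (⟨el hij β, hβ⟩ :
        (ConjAct.toConjAct a⁻¹ • Γ : Subgroup (PGL(n, ℚ)))) : Set _) =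
        (Subgroup.zpowers e : Set Γ) := by
      ext y
      constructor
      · rintro ⟨_, ⟨m, rfl⟩, rfl⟩
        refine ⟨m, ?_⟩
        simp only
        rw [map_zpow, hφe']
      · rintro ⟨m, rfl⟩
        refine ⟨_, ⟨m, rfl⟩, ?_⟩
        simp only
        rw [map_zpow, hφe']
    rw [h1]
    exact h0)
  obtain ⟨w, hw, h1, h2, H⟩ := key
  refine ⟨w, hw, h1, h2, fun g => ?_⟩
  have h3 := H (φ g)
  change ∃ (z : ℂ) (s : L), F.X (φ.symm (φ g)) = _ at h3
  rwa [MulEquiv.symm_apply_apply] at h3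

end Frames

end Pool.Agent.Helper66.GV
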