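import Pool.Agent.Helper66.GV.Diag

/-!
# Triples (intertwiner, operator, symmetric kernel) and their midpoints
-/

open scoped lp ENNReal InnerProductSpace
open Filter Topology

namespace Pool.Agent.Helper66.GV

/-- Coordinatewise complex conjugation. -/
noncomputable abbrev kc {A : Type*} : HS A →L⋆[ℂ] HS A := kj (Equiv.refl A)

section Gens

variable {L : Type*}

/-- The diagonal isometry into the twofold tensor product. -/
noncomputable def D2 : HS L →L[ℂ] HS (L × L) :=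
  push (fun s : L => (s, s)) (fun _ _ h => congrArg Prod.fst h)

/-- The projection on the diagonal. -/
noncomputable def Pd : BH (L × L) := (D2 : HS L →L[ℂ] HS (L × L)).comp D2.adjoint

theorem D2_adj_apply (ξ : HS (L × L)) (s : L) : D2.adjoint ξ s = ξ (s, s) := by
  rw [← inner_dl s, ContinuousLinearMap.adjoint_inner_right]
  unfold D2
  rw [push_dl, inner_dl]

theorem D2_norm (f : HS L) : ‖D2 f‖ = ‖f‖ := push_norm _ f

theorem D2_adj_norm_le (ξ : HS (L × L)) : ‖D2.adjoint ξ‖ ≤ ‖ξ‖ := by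
  have h1 : ‖D2.adjoint ξ‖ ^ 2 ≤ ‖D2.adjoint ξ‖ * ‖ξ‖ := by
    have h2 : ⟪D2.adjoint ξ, D2.adjoint ξ⟫_ℂ = ⟪D2 (D2.adjoint ξ), ξ⟫_ℂ := by
      rw [ContinuousLinearMap.adjoint_inner_right]
    rw [inner_self_eq_norm_sq_to_K] at h2
    have h3 := norm_inner_le_norm (𝕜 := ℂ) (D2 (D2.adjoint ξ)) ξ
    rw [← h2, D2_norm] at h3
    have h4 : ‖((‖D2.adjoint ξ‖ : ℂ) ^ 2)‖ = ‖D2.adjoint ξ‖ ^ 2 := by
      rw [norm_pow, Complex.norm_real, norm_norm]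
    calc ‖D2.adjoint ξ‖ ^ 2 = ‖((‖D2.adjoint ξ‖ : ℂ) ^ 2)‖ := h4.symm
      _ ≤ _ := h3
  rcases eq_or_lt_of_le (norm_nonneg (D2.adjoint ξ)) with h2 | h2
  · rw [← h2]
    exact norm_nonneg _
  · exact le_of_mul_le_mul_left (by rw [← sq]; exact h1) h2

theorem Pd_norm_le (ξ : HS (L × L)) : ‖Pd ξ‖ ≤ ‖ξ‖ := by
  change ‖D2 (D2.adjoint ξ)‖ ≤ ‖ξ‖
  rw [D2_norm]
  exact D2_adj_norm_le ξ

theorem Pd_sa (ξ η : HS (L × L)) : ⟪Pd ξ, η⟫_ℂ = ⟪ξ, Pd η⟫_ℂ := by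
  change ⟪D2 (D2.adjoint ξ), η⟫_ℂ = ⟪ξ, D2 (D2.adjoint η)⟫_ℂ
  rw [← ContinuousLinearMap.adjoint_inner_right, ContinuousLinearMap.adjoint_inner_left]

theorem Dl_tens (d c : HS L) (ξ : HS (L × L)) :
    HasSum (fun s => star (d s) * (c s * ξ (s, s))) ⟪Dl d, tens c ξ⟫_ℂ := by
  have h1 := Dl_inner d (tens c ξ)
  exact h1

theorem Pd_compat (d c : HS L) (ξ : HS (L × L)) :
    ⟪Dl d, tens c ξ⟫_ℂ = ⟪tens d (kc c), Pd ξ⟫_ℂ := by
  have h1 := Dl_tens d c ξ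
  have h2 : ⟪tens d (kc c), Pd ξ⟫_ℂ = ⟪D2.adjoint (tens d (kc c)), D2.adjoint ξ⟫_ℂ := by
    change ⟪tens d (kc c), D2 (D2.adjoint ξ)⟫_ℂ = _
    rw [ContinuousLinearMap.adjoint_inner_left]
  have h3 := hs_inner (D2.adjoint (tens d (kc c))) (D2.adjoint ξ)
  rw [h2]
  have h4 : (fun s => star (D2.adjoint (tens d (kc c)) s) * D2.adjoint ξ s) =
      fun s => star (d s) * (c s * ξ (s, s)) := by
    funext s
    rw [D2_adj_apply, D2_adj_apply]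
    change star (d s * star (c s)) * ξ (s, s) = _
    rw [star_mul', star_star, mul_assoc]
  rw [h4] at h3
  exact h1.unique h3

end Gens

section Defs

variable {G L : Type*} [Group G] [Group L]

/-- The threefold frame. -/
noncomputable def Fr.F3 (F : Fr G L) : Fr (G × (G × G)) (P3 L) := F.prod (F.prod F.bar)

/-- The right translation on the threefold tensor product. -/
noncomputable def Fr.R3 (F : Fr G L) (g : G) : BH (P3 L) := F.F3.R (g, (g, g))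

/-- The right translation on the twofold tensor product. -/
noncomputable def Fr.R2 (F : Fr G L) (g : G) : BH (L × L) := (F.prod F.bar).R (g, g)

theorem Fr.R3_tens (F : Fr G L) (g : G) (c : HS L) (ξ : HS (L × L)) :
    F.R3 g (tens c ξ) = tens (F.R g c) (F.R2 g ξ) := by
  unfold Fr.R3 Fr.F3
  rw [Fr.prod_R, tp_tens]
  rfl

theorem Fr.R2_tens (F : Fr G L) (g : G) (d c : HS L) :
    F.R2 g (tens d (kc c)) = tens (F.R g d) (kc (F.R g c)) := by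
  unfold Fr.R2
  rw [Fr.prod_R, tp_tens, Fr.bar_R_kj]

theorem Fr.R3_inv_apply (F : Fr G L) (g : G) (f : HS (P3 L)) : F.R3 g⁻¹ (F.R3 g f) = f :=
  F.F3.R_inv_apply (g, (g, g)) f

theorem Fr.R3_apply_inv (F : Fr G L) (g : G) (f : HS (P3 L)) : F.R3 g (F.R3 g⁻¹ f) = f :=
  F.F3.R_apply_inv (g, (g, g)) f

theorem Fr.R2_inv_apply (F : Fr G L) (g : G) (f : HS (L × L)) : F.R2 g⁻¹ (F.R2 g f) = f :=
  (F.prod F.bar).R_inv_apply (g, g) f

theorem Fr.R2_apply_inv (F : Fr G L) (g : G) (f : HS (L × L)) : F.R2 g (F.R2 g⁻¹ f) = f :=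
  (F.prod F.bar).R_apply_inv (g, g) f

theorem Fr.norm_R3 (F : Fr G L) (g : G) (f : HS (P3 L)) : ‖F.R3 g f‖ = ‖f‖ :=
  F.F3.norm_R (g, (g, g)) f

theorem Fr.norm_R2 (F : Fr G L) (g : G) (f : HS (L × L)) : ‖F.R2 g f‖ = ‖f‖ :=
  (F.prod F.bar).norm_R (g, g) f

theorem Fr.inner_R3_left (F : Fr G L) (g : G) (f h : HS (P3 L)) :
    ⟪F.R3 g f, h⟫_ℂ = ⟪f, F.R3 g⁻¹ h⟫_ℂ := F.F3.inner_R_left (g, (g, g)) f h

theorem Fr.inner_R2_left (F : Fr G L) (g : G) (f h : HS (L × L)) :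
    ⟪F.R2 g f, h⟫_ℂ = ⟪f, F.R2 g⁻¹ h⟫_ℂ := (F.prod F.bar).inner_R_left (g, g) f h

theorem Fr.R3_mul (F : Fr G L) (g h : G) : F.R3 (g * h) = F.R3 g * F.R3 h :=
  F.F3.R_mul (g, (g, g)) (h, (h, h))

theorem Fr.R2_mul (F : Fr G L) (g h : G) : F.R2 (g * h) = F.R2 g * F.R2 h :=
  (F.prod F.bar).R_mul (g, g) (h, h)

/-- The unitaries `X g ⊗ X g ⊗ conj (X g)`. -/
noncomputable def Fr.B (F : Fr G L) (g : G) : BH (P3 L) := F.F3.X (g, (g, g))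

/-- The diagonal ampliation of `X g`. -/
noncomputable def Fr.A (F : Fr G L) (g : G) : BH (P3 L) := Am (F.X g)

theorem Fr.B_mul (F : Fr G L) (g h : G) : F.B (g * h) = F.B g * F.B h :=
  F.F3.map_mul (g, (g, g)) (h, (h, h))

theorem Fr.A_mul (F : Fr G L) (g h : G) : F.A (g * h) = F.A g * F.A h := by
  unfold Fr.A
  rw [F.map_mul, Am_mul]

theorem Fr.A_mem (F : Fr G L) (g : G) : F.A g ∈ vN (⊤ : Subgroup (P3 L)) := Am_mem (F.mem g)

theorem Fr.B_mem (F : Fr G L) (g : G) : F.B g ∈ vN (⊤ : Subgroup (P3 L)) := F.F3.mem _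

theorem Fr.A_one (F : Fr G L) : F.A 1 = 1 := by
  unfold Fr.A
  rw [F.map_one, Am_one]

theorem Fr.A_star (F : Fr G L) (g : G) : star (F.A g) = F.A g⁻¹ := by
  unfold Fr.A
  rw [Am_star, F.map_star]

theorem Fr.B_star (F : Fr G L) (g : G) : star (F.B g) = F.B g⁻¹ := F.F3.map_star (g, (g, g))

theorem Fr.norm_A (F : Fr G L) (g : G) (f : HS (P3 L)) : ‖F.A g f‖ = ‖f‖ := by
  apply norm_apply_of_isometry
  rw [F.A_star, ← F.A_mul, inv_mul_cancel, F.A_one]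

theorem Fr.norm_B (F : Fr G L) (g : G) (f : HS (P3 L)) : ‖F.B g f‖ = ‖f‖ :=
  F.F3.norm_X (g, (g, g)) f

theorem Fr.R3_comm (F : Fr G L) (g : G) {T : BH (P3 L)} (hT : T ∈ vN (⊤ : Subgroup (P3 L)))
    (f : HS (P3 L)) : F.R3 g (T f) = T (F.R3 g f) := F.F3.R_comm_apply (g, (g, g)) hT f

theorem Fr.B_dl (F : Fr G L) (g : G) : F.B g⁻¹ (dl 1) = F.R3 g (dl 1) :=
  (F.F3.R_dl (g, (g, g))).symm

/-- The first component of the generators. -/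
noncomputable def gV (F : Fr G L) (g : G) : HS L →L[ℂ] HS (P3 L) :=
  (F.R3 g).comp (Dl.comp (F.R g⁻¹))

/-- The second component of the generators. -/
noncomputable def gY (F : Fr G L) (g : G) : BH (P3 L) := F.A g * F.B g⁻¹

/-- The third component of the generators. -/
noncomputable def gP (F : Fr G L) (g : G) : BH (L × L) := F.R2 g * Pd * F.R2 g⁻¹

/-- The convex hull of the generators. -/
inductive MK (F : Fr G L) : (HS L →L[ℂ] HS (P3 L)) → BH (P3 L) → BH (L × L) → Prop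
  | gen (g : G) : MK F (gV F g) (gY F g) (gP F g)
  | mid {V V' : HS L →L[ℂ] HS (P3 L)} {Y Y' : BH (P3 L)} {P P' : BH (L × L)}
      (h : MK F V Y P) (h' : MK F V' Y' P') :
      MK F ((1 / 2 : ℂ) • (V + V')) ((1 / 2 : ℂ) • (Y + Y')) ((1 / 2 : ℂ) • (P + P'))

/-- The properties of the triples. -/
structure Tri (c₀ : ℝ) (V : HS L →L[ℂ] HS (P3 L)) (Y : BH (P3 L)) (P : BH (L × L)) : Prop where
  nV : ∀ f, ‖V f‖ ≤ ‖f‖
  nY : ∀ f, ‖Y f‖ ≤ ‖f‖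
  nP : ∀ f, ‖P f‖ ≤ ‖f‖
  lamV : ∀ s f, V (lam s f) = lam (dg s) (V f)
  rhoY : ∀ x f, Y (rho x f) = rho x (Y f)
  VY : V (dl 1) = Y (dl 1)
  compat : ∀ d c ξ, ⟪V d, tens c ξ⟫_ℂ = ⟪tens d (kc c), P ξ⟫_ℂ
  sa : ∀ ξ η, ⟪P ξ, η⟫_ℂ = ⟪ξ, P η⟫_ℂ
  sym1 : ∀ a b c d, ⟪V d, tens c (tens a (kc b))⟫_ℂ = ⟪V d, tens a (tens c (kc b))⟫_ℂ
  sym2 : ∀ a b c d, ⟪V d, tens c (tens a (kc b))⟫_ℂ = ⟪V b, tens c (tens a (kc d))⟫_ℂ
  pos : c₀ ≤ (⟪V (dl 1), dl 1⟫_ℂ).re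

/-- The height of the frame is bounded from below. -/
def Hgt (F : Fr G L) (c₀ : ℝ) : Prop := ∀ g, ∃ s, HasSum (fun x => ‖F.x g x‖ ^ 4) s ∧ c₀ ≤ s

theorem gV_one (F : Fr G L) (g : G) : gV F g (dl 1) = F.R3 g (Dl (F.x g)) := by
  change F.R3 g (Dl (F.R g⁻¹ (dl 1))) = _
  rw [F.R_dl, inv_inv]

theorem Tri.gen {F : Fr G L} {c₀ : ℝ} (hF : Hgt F c₀) (g : G) :
    Tri c₀ (gV F g) (gY F g) (gP F g) where
  nV f := by
    change ‖F.R3 g (Dl (F.R g⁻¹ f))‖ ≤ _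
    rw [F.norm_R3, Dl_norm, F.norm_R]
  nY f := by
    change ‖F.A g (F.B g⁻¹ f)‖ ≤ _
    rw [F.norm_A, F.norm_B]
  nP f := by
    change ‖F.R2 g (Pd (F.R2 g⁻¹ f))‖ ≤ _
    rw [F.norm_R2]
    refine (Pd_norm_le _).trans ?_
    rw [F.norm_R2]
  lamV s f := by
    change F.R3 g (Dl (F.R g⁻¹ (lam s f))) = lam (dg s) (F.R3 g (Dl (F.R g⁻¹ f)))
    rw [F.R_comm_apply g⁻¹ (lam_mem_top s), Dl_lam, F.R3_comm g (lam_mem_top (dg s))]
  rhoY x f := by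
    have h1 : gY F g ∈ vN (⊤ : Subgroup (P3 L)) := mul_mem (F.A_mem g) (F.B_mem g⁻¹)
    rw [← mul_apply_eq_comp, ← commute_rho h1, mul_apply_eq_comp]
  VY := by
    rw [gV_one]
    change _ = F.A g (F.B g⁻¹ (dl 1))
    rw [F.B_dl]
    unfold Fr.x
    rw [← Am_Dl (F.mem g)]
    change F.R3 g (F.A g (Dl (dl 1))) = _
    rw [F.R3_comm g (F.A_mem g), Dl_dl]
    rfl
  compat d c ξ := by
    change ⟪F.R3 g (Dl (F.R g⁻¹ d)), tens c ξ⟫_ℂ = ⟪tens d (kc c), F.R2 g (Pd (F.R2 g⁻¹ ξ))⟫_ℂ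
    rw [F.inner_R3_left, F.R3_tens, Pd_compat, ← F.R2_tens, F.inner_R2_left, inv_inv]
  sa ξ η := by
    change ⟪F.R2 g (Pd (F.R2 g⁻¹ ξ)), η⟫_ℂ = ⟪ξ, F.R2 g (Pd (F.R2 g⁻¹ η))⟫_ℂ
    rw [F.inner_R2_left, Pd_sa, F.inner_R2_left, inv_inv]
  sym1 a b c d := by
    change ⟪F.R3 g (Dl (F.R g⁻¹ d)), _⟫_ℂ = ⟪F.R3 g (Dl (F.R g⁻¹ d)), _⟫_ℂ
    rw [F.inner_R3_left, F.R3_tens, F.R2_tens, F.inner_R3_left, F.R3_tens, F.R2_tens]
    refine (Dl_tens _ _ _).unique ?_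
    have h1 := Dl_tens (F.R g⁻¹ d) (F.R g⁻¹ a) (tens (F.R g⁻¹ c) (kc (F.R g⁻¹ b)))
    convert h1 using 2 with s
    rw [tens_apply, tens_apply]
    ring
  sym2 a b c d := by
    change ⟪F.R3 g (Dl (F.R g⁻¹ d)), _⟫_ℂ = ⟪F.R3 g (Dl (F.R g⁻¹ b)), _⟫_ℂ
    rw [F.inner_R3_left, F.R3_tens, F.R2_tens, F.inner_R3_left, F.R3_tens, F.R2_tens]
    refine (Dl_tens _ _ _).unique ?_
    have h1 := Dl_tens (F.R g⁻¹ b) (F.R g⁻¹ c) (tens (F.R g⁻¹ a) (kc (F.R g⁻¹ d)))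
    convert h1 using 2 with s
    rw [tens_apply, tens_apply]
    change _ * (_ * (_ * star (F.R g⁻¹ b s))) = _ * (_ * (_ * star (F.R g⁻¹ d s)))
    ring
  pos := by
    rw [gV_one]
    have h0 : (dl 1 : HS (P3 L)) = tens (dl 1) (tens (dl 1) (kc (dl 1))) := by
      rw [kj_refl_dl, ← dl_prod, ← dl_prod]
      rfl
    rw [h0, F.inner_R3_left, F.R3_tens, F.R2_tens, F.R_dl, inv_inv]
    obtain ⟨s, hs, hc⟩ := hF g
    have h1 := Complex.hasSum_re (Dl_tens (F.x g) (F.x g) (tens (F.x g) (kc (F.x g))))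
    have h2 : (fun y => (star (F.x g y) * (F.x g y * tens (F.x g) (kc (F.x g)) (y, y))).re) =
        fun y => ‖F.x g y‖ ^ 4 := by
      funext y
      rw [tens_apply]
      change (star (F.x g y) * (F.x g y * (F.x g y * star (F.x g y)))).re = _
      have h3 : star (F.x g y) * F.x g y = ((‖F.x g y‖ ^ 2 : ℝ) : ℂ) := by
        rw [mul_comm]
        change F.x g y * (starRingEnd ℂ) (F.x g y) = _
        rw [Complex.mul_conj, Complex.normSq_eq_norm_sq]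
      have h4 : star (F.x g y) * (F.x g y * (F.x g y * star (F.x g y))) =
          ((‖F.x g y‖ ^ 4 : ℝ) : ℂ) := by
        calc star (F.x g y) * (F.x g y * (F.x g y * star (F.x g y))) =
            (star (F.x g y) * F.x g y) * (star (F.x g y) * F.x g y) := by ring
          _ = _ := by
            rw [h3]
            push_cast
            ring
      rw [h4, Complex.ofReal_re]
    rw [h2] at h1
    rw [← hs.unique h1]
    exact hc

end Defs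

end Pool.Agent.Helper66.GV
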