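import Pool.Agent.Helper66.GV.Transv

/-!
# Unipotent elements
-/

open scoped lp ENNReal InnerProductSpace MatrixGroups Pointwise
open Filter Topology Matrix

namespace Pool.Agent.Helper66.GV

section LinAlg

variable {n : Type*} [Fintype n] [DecidableEq n]

/-- Every nontrivial transvection is conjugate to an elementary matrix. -/
theorem isTransvection_of_eq {B : GL n ℚ} {a b : n → ℚ}
    (hB : (B : Matrix n n ℚ) = 1 + vecMulVec a b) (hba : b ⬝ᵥ a = 0) (ha : a ≠ 0) (hb : b ≠ 0) :
    ∃ (c : PGL(n, ℚ)) (i j : n) (hij : i ≠ j),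
      ProjGenLinGroup.mk B = c * el hij (1 : ℚ) * c⁻¹ := by
  obtain ⟨i, hi⟩ : ∃ i, a i ≠ 0 := by
    by_contra h
    push Not at h
    exact ha (funext h)
  obtain ⟨j, hj, hji⟩ : ∃ j, b j ≠ 0 ∧ j ≠ i := by
    by_contra h
    push Not at h
    have h1 : ∀ j, j ≠ i → b j = 0 := by
      intro j hji
      by_contra hbj
      exact hji (h j hbj)
    have h2 : b ⬝ᵥ a = b i * a i := by
      rw [dotProduct]
      exact Finset.sum_eq_single i (fun k _ hk => by rw [h1 k hk, zero_mul])
        (fun h => absurd (Finset.mem_univ _) h)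
    rw [hba] at h2
    have h3 : b i = 0 := by
      rcases mul_eq_zero.mp h2.symm with h4 | h4
      · exact h4
      · exact absurd h4 hi
    apply hb
    funext k
    by_cases hk : k = i
    · rw [hk, h3]
      rfl
    · exact h1 k hk
  have hij : i ≠ j := hji.symm
  -- the conjugating matrix
  set M : Matrix n n ℚ := Matrix.of fun r s => if s = i then a r else
    if s = j then (if r = j then (b j)⁻¹ else 0) else
      ((1 : Matrix n n ℚ) r s - if r = j then b s / b j else 0) with hM
  have hMi : ∀ r, M r i = a r := fun r => by simp [hM]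
  have hMj : ∀ r, M r j = if r = j then (b j)⁻¹ else 0 := fun r => by simp [hM, hji]
  have hMk : ∀ r s, s ≠ i → s ≠ j →
      M r s = (1 : Matrix n n ℚ) r s - if r = j then b s / b j else 0 := by
    intro r s h1 h2
    simp [hM, h1, h2]
  have hbM : ∀ s, ∑ r, b r * M r s = if s = j then 1 else 0 := by
    intro s
    by_cases hsi : s = i
    · subst hsi
      simp only [hMi]
      rw [if_neg hij]
      exact hba
    · by_cases hsj : s = j
      · subst hsj
        simp [hMj, hj]
      · rw [if_neg hsj]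
        have h1 : ∀ r, b r * M r s = b r * (1 : Matrix n n ℚ) r s -
            (if r = j then b j * (b s / b j) else 0) := by
          intro r
          rw [hMk r s hsi hsj, mul_sub]
          congr 1
          split_ifs with h
          · rw [h]
          · rw [mul_zero]
        simp only [h1, Finset.sum_sub_distrib, Matrix.one_apply, mul_ite, mul_one, mul_zero,
          Finset.sum_ite_eq', Finset.mem_univ, if_true]
        field_simp
        ring
  have hdet : M.det ≠ 0 := by
    intro h0
    obtain ⟨v, hv, hMv⟩ := Matrix.exists_mulVec_eq_zero_iff.mpr h0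
    apply hv
    have hr : ∀ r, ∑ s, M r s * v s = 0 := fun r => congrFun hMv r
    have hvi : v i = 0 := by
      have h1 := hr i
      rw [Finset.sum_eq_single i] at h1
      · rw [hMi] at h1
        rcases mul_eq_zero.mp h1 with h2 | h2
        · exact absurd h2 hi
        · exact h2
      · intro s _ hs
        by_cases hsj : s = j
        · subst hsj
          rw [hMj, if_neg hij, zero_mul]
        · rw [hMk i s hs hsj, Matrix.one_apply_ne (Ne.symm hs), if_neg hij]
          ring
      · intro h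
        exact absurd (Finset.mem_univ _) h
    have hvk : ∀ k, k ≠ i → k ≠ j → v k = 0 := by
      intro k hki hkj
      have h1 := hr k
      rw [Finset.sum_eq_single k] at h1
      · rw [hMk k k hki hkj, Matrix.one_apply_eq, if_neg hkj] at h1
        simpa using h1
      · intro s _ hs
        by_cases hsi : s = i
        · subst hsi
          rw [hvi, mul_zero]
        · by_cases hsj : s = j
          · subst hsj
            rw [hMj, if_neg hkj, zero_mul]
          · rw [hMk k s hsi hsj, Matrix.one_apply_ne (Ne.symm hs), if_neg hkj]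
            ring
      · intro h
        exact absurd (Finset.mem_univ _) h
    funext k
    by_cases hki : k = i
    · rw [hki, hvi]
      rfl
    · by_cases hkj : k = j
      · subst hkj
        have h1 := hr k
        rw [Finset.sum_eq_single k] at h1
        · rw [hMj, if_pos rfl] at h1
          rcases mul_eq_zero.mp h1 with h2 | h2
          · exact absurd h2 (inv_ne_zero hj)
          · exact h2
        · intro s _ hs
          by_cases hsi : s = i
          · subst hsi
            rw [hvi, mul_zero]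
          · rw [hvk s hsi hs, mul_zero]
        · intro h
          exact absurd (Finset.mem_univ _) h
      · exact hvk k hki hkj
  set f : GL n ℚ := GeneralLinearGroup.mkOfDetNeZero M hdet with hf
  refine ⟨ProjGenLinGroup.mk f, i, j, hij, ?_⟩
  rw [eq_mul_inv_iff_mul_eq]
  unfold el
  rw [MonoidHom.comp_apply, ← map_mul, ← map_mul]
  congr 1
  apply Units.ext
  change (B : Matrix n n ℚ) * M = M * transvection i j 1
  rw [hB, add_mul, one_mul, transvection, mul_add, mul_one]
  congr 1
  ext r s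
  rw [Matrix.mul_apply]
  simp only [vecMulVec_apply, mul_assoc]
  rw [← Finset.mul_sum, hbM, Matrix.mul_apply, Finset.sum_eq_single i]
  · rw [hMi, Matrix.single_apply]
    simp [eq_comm]
  · intro k _ hk
    rw [Matrix.single_apply, if_neg (fun h => hk h.1.symm), mul_zero]
  · intro h
    exact absurd (Finset.mem_univ _) h

/-- The vectors attached to a nilpotent matrix. -/
theorem exists_vectors (hn : 3 ≤ Fintype.card n) {X : Matrix n n ℚ} (hX : IsNilpotent X)
    (hX0 : X ≠ 0) : ∃ v w : n → ℚ, X *ᵥ v ≠ 0 ∧ X *ᵥ (X *ᵥ v) = 0 ∧ w ≠ 0 ∧ w ᵥ* X = 0 ∧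
      w ⬝ᵥ v = 0 := by
  classical
  obtain ⟨r, hr, hrmin⟩ : ∃ r, X ^ r = 0 ∧ ∀ s < r, X ^ s ≠ 0 :=
    ⟨Nat.find hX, Nat.find_spec hX, fun s hs => Nat.find_min hX hs⟩
  have hnt : Nontrivial n := Fintype.one_lt_card_iff_nontrivial.mp (by omega)
  have hr2 : 2 ≤ r := by
    by_contra h
    push Not at h
    interval_cases r
    · rw [pow_zero] at hr
      exact one_ne_zero hr
    · rw [pow_one] at hr
      exact hX0 hr
  obtain ⟨k, rfl⟩ := Nat.exists_eq_add_of_le' hr2
  obtain ⟨u, hu⟩ : ∃ u, (X ^ (k + 1)) *ᵥ u ≠ 0 := by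
    by_contra h
    push Not at h
    apply hrmin (k + 1) (by omega)
    ext i j
    have h1 := congrFun (h (Pi.single j 1)) i
    simpa using h1
  set v := (X ^ k) *ᵥ u with hv
  have hv1 : X *ᵥ v = (X ^ (k + 1)) *ᵥ u := by
    rw [hv, mulVec_mulVec, pow_succ']
  have hv2 : X *ᵥ (X *ᵥ v) = 0 := by
    rw [hv1, mulVec_mulVec, ← pow_succ', hr, zero_mulVec]
  -- the subspace
  set p : Submodule ℚ (n → ℚ) := LinearMap.range X.mulVecLin ⊔ Submodule.span ℚ {v} with hp
  have hp1 : p < ⊤ := by
    rw [lt_top_iff_ne_top]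
    intro htop
    have hnotsurj : LinearMap.range X.mulVecLin ≠ ⊤ := by
      intro h
      have h1 : Function.Surjective X.mulVec := LinearMap.range_eq_top.mp h
      have h2 : IsUnit X := Matrix.mulVec_surjective_iff_isUnit.mp h1
      exact hX.not_isUnit h2
    rcases Nat.eq_zero_or_pos k with hk | hk
    · subst hk
      have hXX : ∀ x, X *ᵥ (X *ᵥ x) = 0 := by
        intro x
        rw [mulVec_mulVec, ← pow_two]
        rw [zero_add] at hr
        rw [hr, zero_mulVec]
      have h1 : LinearMap.range X.mulVecLin ≤ LinearMap.ker X.mulVecLin := by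
        rintro _ ⟨x, rfl⟩
        exact hXX x
      have h2 := Submodule.finrank_mono h1
      have h3 := LinearMap.finrank_range_add_finrank_ker X.mulVecLin
      have h4 : Module.finrank ℚ (Submodule.span ℚ {v}) ≤ 1 :=
        (finrank_span_le_card _).trans (by simp)
      have h5 := Submodule.finrank_add_le_finrank_add_finrank (LinearMap.range X.mulVecLin)
        (Submodule.span ℚ {v})
      rw [← hp, htop, finrank_top] at h5
      rw [Module.finrank_fintype_fun_eq_card] at h3 h5
      omega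
    · apply hnotsurj
      rw [← htop, hp, left_eq_sup, Submodule.span_singleton_le_iff_mem]
      refine ⟨(X ^ (k - 1)) *ᵥ u, ?_⟩
      rw [mulVecLin_apply, mulVec_mulVec, ← pow_succ', Nat.sub_add_cancel hk]
  obtain ⟨φ, hφ, hφp⟩ := Submodule.exists_le_ker_of_lt_top p hp1
  set w : n → ℚ := fun i => φ (Pi.single i 1) with hw
  have hφw : ∀ x, φ x = w ⬝ᵥ x := by
    intro x
    conv_lhs => rw [← Finset.univ_sum_single x, map_sum]
    rw [dotProduct]
    refine Finset.sum_congr rfl fun i _ => ?_
    have h1 : (Pi.single i (x i) : n → ℚ) = x i • Pi.single i 1 := by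
      rw [← Pi.single_smul]
      simp
    rw [h1, map_smul, smul_eq_mul, mul_comm]
  refine ⟨v, w, by rwa [hv1], hv2, ?_, ?_, ?_⟩
  · intro h0
    apply hφ
    ext x
    simp [hφw, h0]
  · funext j
    have h1 : φ (X *ᵥ Pi.single j 1) = 0 :=
      hφp (Submodule.mem_sup_left ⟨Pi.single j 1, rfl⟩)
    rw [hφw, dotProduct_mulVec] at h1
    simpa using h1
  · rw [← hφw]
    exact hφp (Submodule.mem_sup_right (Submodule.mem_span_singleton_self v))

end LinAlg

section Heis

theorem heis_rel {G : Type*} [Group G] {e d c : G} (hc : c = e⁻¹ * d⁻¹ * e * d)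
    (hce : c * e = e * c) (hcd : c * d = d * c) (m : ℤ) (k : ℕ) :
    c ^ (m * k) = (e ^ m)⁻¹ * (d ^ k)⁻¹ * e ^ m * d ^ k := by
  have h0 : d⁻¹ * e * d = e * c := by
    rw [hc]
    group
  have h1 : ∀ k : ℕ, (d ^ k)⁻¹ * e * d ^ k = e * c ^ k := by
    intro k
    induction k with
    | zero => simp
    | succ k ih =>
      have h2 : c ^ k * d = d * c ^ k := (Commute.pow_left (show Commute c d from hcd) k).eq
      calc (d ^ (k + 1))⁻¹ * e * d ^ (k + 1) = d⁻¹ * ((d ^ k)⁻¹ * e * d ^ k) * d := by
            rw [pow_succ]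
            group
        _ = d⁻¹ * e * (c ^ k * d) := by
            rw [ih]
            group
        _ = (d⁻¹ * e * d) * c ^ k := by
            rw [h2]
            group
        _ = e * c ^ (k + 1) := by
            rw [h0, pow_succ', mul_assoc]
  have h2 : (d ^ k)⁻¹ * e ^ m * d ^ k = e ^ m * c ^ (m * k) := by
    have h3 : (d ^ k)⁻¹ * e ^ m * d ^ k = ((d ^ k)⁻¹ * e * d ^ k) ^ m := by
      have := conj_zpow (a := (d ^ k)⁻¹) (b := e) (i := m)
      rw [inv_inv] at this
      exact this.symm
    rw [h3, h1]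
    have h4 : Commute e (c ^ k) := (Commute.pow_left (show Commute c e from hce) k).symm
    rw [h4.mul_zpow, mul_comm m, _root_.zpow_mul, zpow_natCast]
  calc c ^ (m * k) = (e ^ m)⁻¹ * (e ^ m * c ^ (m * k)) := by group
    _ = (e ^ m)⁻¹ * ((d ^ k)⁻¹ * e ^ m * d ^ k) := by rw [h2]
    _ = _ := by group

variable {n : Type*} [Fintype n] [DecidableEq n]

/-- The element of `PGL(n, ℚ)` is represented by a unipotent matrix. -/
def IsUnip (g : PGL(n, ℚ)) : Prop :=
  ∃ A : GL n ℚ, ProjGenLinGroup.mk A = g ∧ IsNilpotent ((A : Matrix n n ℚ) - 1)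

/-- Every nontrivial unipotent element is contained in a Heisenberg group whose centre contains a
transvection. -/
theorem exists_heis (hn : 3 ≤ Fintype.card n) {Γ : Subgroup (PGL(n, ℚ))} (hRD : RootDense Γ)
    {e : Γ} (he : IsUnip (e : PGL(n, ℚ))) (he1 : e ≠ 1) : ∃ d c : Γ, c ≠ 1 ∧
      IsTransvection (c : PGL(n, ℚ)) ∧ c * e = e * c ∧
      ∀ (m : ℤ) (k : ℕ), c ^ (m * k) = (e ^ m)⁻¹ * (d ^ k)⁻¹ * e ^ m * d ^ k := by
  obtain ⟨A, hA, hX⟩ := he
  set X : Matrix n n ℚ := (A : Matrix n n ℚ) - 1 with hXdef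
  have hAX : (A : Matrix n n ℚ) = 1 + X := by rw [hXdef]; abel
  have hX0 : X ≠ 0 := by
    intro h0
    apply he1
    apply Subtype.ext
    rw [← hA]
    have h1 : A = 1 := by
      apply Units.ext
      rw [hAX, h0, add_zero]
      rfl
    rw [h1, map_one]
    rfl
  obtain ⟨v, w, hv1, hv2, hw0, hwX, hwv⟩ := exists_vectors hn hX hX0
  obtain ⟨m, hm, H⟩ := Dv.all hRD hn hwv
  obtain ⟨D, hD, d, -, hd⟩ := H 1
  set t : ℚ := ((1 : ℤ) : ℚ) * m with ht
  have ht0 : t ≠ 0 := by
    rw [ht, Int.cast_one, one_mul]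
    exact Nat.cast_ne_zero.mpr hm.ne'
  set y : n → ℚ := X *ᵥ v with hy
  have hwy : w ⬝ᵥ y = 0 := by
    rw [hy, dotProduct_mulVec, hwX, zero_dotProduct]
  have hXv : X * vecMulVec v w = vecMulVec y w := by
    rw [hy, mul_vecMulVec]
  have hXy : X * vecMulVec y w = 0 := by
    rw [mul_vecMulVec, hy, hv2, zero_vecMulVec]
  have hvX : ∀ a : n → ℚ, vecMulVec a w * X = 0 := by
    intro a
    rw [vecMulVec_mul, hwX, vecMulVec_zero]
  have hvv : ∀ a b : n → ℚ, w ⬝ᵥ b = 0 → vecMulVec a w * vecMulVec b w = 0 := by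
    intro a b hb
    rw [vecMulVec_mul_vecMulVec, hb, zero_smul, vecMulVec_zero]
  -- the matrices
  set D' : GL n ℚ := SpecialLinearGroup.toGL D with hD'
  have hD'M : (D' : Matrix n n ℚ) = 1 + t • vecMulVec v w := hD
  set C : GL n ℚ := A⁻¹ * D'⁻¹ * A * D' with hC
  set CM : Matrix n n ℚ := 1 + t • vecMulVec y w with hCM
  have hDAC : (D' : Matrix n n ℚ) * (A : Matrix n n ℚ) * CM =
      (A : Matrix n n ℚ) * (D' : Matrix n n ℚ) := by
    rw [hD'M, hAX, hCM]
    simp only [add_mul, mul_add, one_mul, mul_one, Matrix.smul_mul, Matrix.mul_smul, hXv, hXy,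
      hvX, hvv _ _ hwy, smul_zero, add_zero]
    abel
  have hCeq : (C : Matrix n n ℚ) = CM := by
    have h0 : (D' * A) * C = A * D' := by
      rw [hC]
      group
    have h1 : ((D' * A : GL n ℚ) : Matrix n n ℚ) * (C : Matrix n n ℚ) =
        ((D' * A : GL n ℚ) : Matrix n n ℚ) * CM := by
      have h2 : ((D' * A : GL n ℚ) : Matrix n n ℚ) * (C : Matrix n n ℚ) =
          (A : Matrix n n ℚ) * (D' : Matrix n n ℚ) :=
        congrArg (fun g : GL n ℚ => (g : Matrix n n ℚ)) h0
      rw [h2, ← hDAC]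
      rfl
    exact (D' * A).isUnit.mul_left_cancel h1
  have hCA : C * A = A * C := by
    apply Units.ext
    change (C : Matrix n n ℚ) * (A : Matrix n n ℚ) = (A : Matrix n n ℚ) * (C : Matrix n n ℚ)
    rw [hCeq, hCM, hAX]
    simp only [add_mul, mul_add, one_mul, mul_one, Matrix.smul_mul, Matrix.mul_smul, hXy, hvX,
      smul_zero, add_zero]
    abel
  have hCD : C * D' = D' * C := by
    apply Units.ext
    change (C : Matrix n n ℚ) * (D' : Matrix n n ℚ) = (D' : Matrix n n ℚ) * (C : Matrix n n ℚ)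
    rw [hCeq, hCM, hD'M]
    simp only [add_mul, mul_add, one_mul, mul_one, Matrix.smul_mul, Matrix.mul_smul,
      hvv _ _ hwy, hvv _ _ hwv, smul_zero, add_zero]
    abel
  set c : Γ := e⁻¹ * d⁻¹ * e * d with hc
  have hdM : ProjGenLinGroup.mk D' = (d : PGL(n, ℚ)) := by
    rw [hd]
    rfl
  have hcM : (c : PGL(n, ℚ)) = ProjGenLinGroup.mk C := by
    rw [hc, hC, map_mul, map_mul, map_mul, map_inv, map_inv, hA, hdM]
    rfl
  have hce : c * e = e * c := by
    apply Subtype.ext
    change (c : PGL(n, ℚ)) * e = e * c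
    rw [hcM, ← hA, ← map_mul, ← map_mul, hCA]
  have hcd : c * d = d * c := by
    apply Subtype.ext
    change (c : PGL(n, ℚ)) * d = d * c
    rw [hcM, ← hdM, ← map_mul, ← map_mul, hCD]
  have hCM' : (C : Matrix n n ℚ) = 1 + vecMulVec (t • y) w := by
    rw [hCeq, hCM, smul_vecMulVec]
  obtain ⟨a, i, j, hij, hconj⟩ := isTransvection_of_eq hCM'
    (by rw [dotProduct_smul, hwy, smul_zero]) (smul_ne_zero ht0 hv1) hw0
  refine ⟨d, c, ?_, ⟨a, i, j, hij, 1, by rw [hcM, hconj]⟩, hce, heis_rel hc hce hcd⟩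
  intro h1
  rw [h1] at hcM
  rw [← hcM] at hconj
  have h2 : el hij (1 : ℚ) = el hij 0 := by
    rw [el_zero]
    have h3 : el hij (1 : ℚ) = a⁻¹ * (a * el hij (1 : ℚ) * a⁻¹) * a := by group
    rw [h3, ← hconj]
    change a⁻¹ * (1 : PGL(n, ℚ)) * a = 1
    group
  exact one_ne_zero (el_inj hij h2)

variable {L : Type*} [Group L] {Γ : Subgroup (PGL(n, ℚ))} {F : Fr Γ L}

open Classical in
/-- If the unitaries of the powers of a nontrivial unipotent element have large coefficients with
positive upper density, then the frame is conjugate to a standard one. -/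
theorem std_of_unip (hn : 3 ≤ Fintype.card n) (hΓ : Γ.Commensurable (intHom n).range)
    {e : Γ} (he : IsUnip (e : PGL(n, ℚ))) (he1 : e ≠ 1) {c : ℝ} (hc : 0 < c)
    (h : ∃ᶠ N : ℕ in atTop, c * N ≤ (((Finset.range N).filter fun m =>
      ∃ x, c ≤ ‖F.x (e ^ m) x‖).card : ℝ)) :
    ∃ w ∈ vN (⊤ : Subgroup L), star w * w = 1 ∧ w * star w = 1 ∧
      ∀ g, ∃ (z : ℂ) (s : L), F.X g = z • (star w * lam s * w) := by
  obtain ⟨z, hz, hgz⟩ := exists_fixed _ hc h
  have h0 := pj_ne_zero _ hz hgz
  obtain ⟨d, b, hb1, hbt, hbe, hrel⟩ := exists_heis hn (comm_rootDense hΓ) he he1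
  exact std_of_pj' hn hΓ hbt hb1 (pj_heis hbe hrel h0)

end Heis

end Pool.Agent.Helper66.GV
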